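import Pool.Agent.KFL.Defs

/-!
# KFL/EtaD: definitions: the regular situation at the first zero of `T (k+1)`, and the Chebyshev length `2 Hn`
-/

open Set

namespace Pool.Agent.KFL

open Pool.Agent.LKI

/-- the regular situation at the first zero of `T (k+1)` -/
structure EtaOK (n k : ℕ) (L : ℝ) : Prop where
  pos : 0 < eta n k L
  zero : pE n L (k + 1) (eta n k L) = 0
  before : ∀ t, 0 ≤ t → t < eta n k L → 0 < pE n L (k + 1) t
  higher : ∀ i, k + 2 ≤ i → i ≤ n → ∀ t, 0 ≤ t → t ≤ eta n k L → 0 < pE n L i t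
  neg : pE n L k (eta n k L) < 0
  spl : ∃ (L₁ : ℝ) (T : ℕ → ℝ → ℝ) (P : ℕ) (ξ τ : ℕ → ℝ), 0 < L₁ ∧ L₁ ≤ L ∧
    (∀ j, Ee n L₁ j = Ee n L j) ∧ KSpline n L₁ T P ξ τ ∧ eta n k L < ξ 1

/-- `(2^(n-1) n!)^(1/n)`; the Chebyshev polynomial of degree `n` is extremal on `[0, 2 Hn n]` -/
noncomputable def Hn (n : ℕ) : ℝ := ((2 : ℝ) ^ (n - 1) * (n.factorial : ℝ)) ^ ((1 : ℝ) / (n : ℝ))

theorem Hn_pos (n : ℕ) : 0 < Hn n := by
  unfold Hn
  positivity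

theorem Hn_pow {n : ℕ} (hn : 1 ≤ n) : Hn n ^ n = (2 : ℝ) ^ (n - 1) * (n.factorial : ℝ) := by
  unfold Hn
  rw [← Real.rpow_natCast, ← Real.rpow_mul (by positivity), one_div,
    inv_mul_cancel₀ (by positivity), Real.rpow_one]

end Pool.Agent.KFL
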