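import Pool.Agent.KFL.Interior

/-!
# KFL/EtaLow: `EtaOK` for `k + 3 ≤ n` and all `L > 0`

* `eta_lt_xi`: `first_zero` with `j = k + 1` and `eta_eq`.
* `etaOK_of`: let `z` be the first zero of `pE (k+1)` (`hz`, `hb`), with `z < ξ 1` and `pE i > 0` on `[0, z]` for
  `k + 2 ≤ i ≤ n`.  By `eta_eq` `eta = z`.  For `neg`: `first_zero` with `j = k` (`k + 2 ≤ n`) gives `z_k` with `pE k (z_k) = 0`,
  and `pE (k+1) > 0` on `[0, z_k]`; so `z_k < z`, and `pE k` is strictly decreasing on `[z_k, z]` (derivative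
  `- pE (k+1) < 0` in the interior), so `pE k z < 0`.
* `etaOK_low`: take a spline from `exists_KSpline`, `first_zero` with `j = k + 1`, `etaOK_of`.
* `EtaOK_congr`: everything only depends on the numbers `Ee n L j`, `Ee_const`.
-/

open Set

namespace Pool.Agent.KFL

open Pool.Agent.LKI

theorem eta_lt_xi {n k : ℕ} (hk : k + 3 ≤ n) {L : ℝ} {T : ℕ → ℝ → ℝ} {P : ℕ} {ξ τ : ℕ → ℝ}
    (hT : KSpline n L T P ξ τ) : eta n k L < ξ 1 := by
  obtain ⟨z, h0, h1, h2, h3, -⟩ := first_zero (by omega) hT (j := k + 1) (by omega)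
  rw [eta_eq h0 h2 h3]
  exact h1

theorem etaOK_of {n k : ℕ} (hk : k + 2 ≤ n) {L z : ℝ} {T : ℕ → ℝ → ℝ} {P : ℕ} {ξ τ : ℕ → ℝ}
    (hL : 0 < L) (hT : KSpline n L T P ξ τ) (h0 : 0 < z) (h1 : z < ξ 1) (hz : pE n L (k + 1) z = 0)
    (hb : ∀ t, 0 ≤ t → t < z → 0 < pE n L (k + 1) t)
    (hh : ∀ i, k + 2 ≤ i → i ≤ n → ∀ t, 0 ≤ t → t ≤ z → 0 < pE n L i t) : EtaOK n k L := by
  have he : eta n k L = z := eta_eq h0 hz hb
  have hneg : pE n L k z < 0 := by
    obtain ⟨y, g0, g1, g2, g3, g4⟩ := first_zero (by omega) hT (j := k) hk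
    have hyz : y < z := by
      by_contra hc
      push Not at hc
      have := g4 (k + 1) le_rfl (by omega) z h0.le hc
      rw [hz] at this
      exact lt_irrefl _ this
    have hanti : StrictAntiOn (pE n L k) (Icc y z) := by
      refine strictAntiOn_of_deriv_neg (convex_Icc y z) (pE_continuous n L k).continuousOn ?_
      intro t ht
      rw [interior_Icc] at ht
      rw [(pE_hasDeriv n L k t).deriv]
      have := hb t (g0.le.trans ht.1.le) ht.2
      linarith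
    have := hanti ⟨le_rfl, hyz.le⟩ ⟨hyz.le, le_rfl⟩ hyz
    rwa [g2] at this
  refine ⟨?_, ?_, ?_, ?_, ?_, L, T, P, ξ, τ, hL, le_rfl, fun _ => rfl, hT, ?_⟩
  · rw [he]; exact h0
  · rw [he]; exact hz
  · rw [he]; exact hb
  · rw [he]; exact hh
  · rw [he]; exact hneg
  · rw [he]; exact h1

theorem etaOK_low {n k : ℕ} (hk : k + 3 ≤ n) {L : ℝ} (hL : 0 < L) : EtaOK n k L := by
  obtain ⟨T, P, ξ, τ, hT⟩ := exists_KSpline (show 2 ≤ n by omega) hL
  obtain ⟨z, h0, h1, h2, h3, h4⟩ := first_zero (by omega) hT (j := k + 1) (by omega)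
  exact etaOK_of (by omega) hL hT h0 h1 h2 h3 h4

theorem EtaOK_congr {n k : ℕ} (hn : 2 ≤ n) {ℓ L t : ℝ} (hℓ : 0 < ℓ) (h : ∀ j, Ee n ℓ j = Ee n L j)
    (ht : t ∈ Icc ℓ L) : (∀ j s, pE n t j s = pE n ℓ j s) ∧ (∀ k, eta n k t = eta n k ℓ) ∧
      (∀ k, Mc n k t = Mc n k ℓ) := by
  have hE : ∀ j, Ee n t j = Ee n ℓ j := fun j => Ee_const hn hℓ h ht j
  have hp : ∀ j s, pE n t j s = pE n ℓ j s := by
    intro j s
    unfold pE
    simp only [hE]
  have he : ∀ k, eta n k t = eta n k ℓ := by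
    intro k
    unfold eta
    simp only [hp]
  refine ⟨hp, he, fun k => ?_⟩
  unfold Mc
  rw [he, hp]

end Pool.Agent.KFL
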