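import Pool.Agent.KFL.Poly
import Pool.Agent.KFL.EtaD

/-!
# KFL/Interior: the first zeros of the derivatives of an extremal spline

Notation: `b = ξ (P+1)`, `h_j = (-1)^j T j`.

* `shift`: let `h_j > 0` on `[0, t]`, `t < b`.
  By `alt_T` (`Alt (T j) (Icc 0 b) (P+n-1-j) ((-1)^j)`) there are `x_0 < ... < x_q`, `q = P+n-1-j`, with
  `(-1)^i h_j (x_i) > 0`; if `q ≥ 1` then `x_1 > t` (as `h_j (x_1) < 0`); replace `x_0` by `t`: so `h_j (t + ·)` has
  `q` alternations on `[0, b - t]`, first sign `+`.  Put `d_i s = T (j+i) (t + s)`, `i < n' := n - j`, on `[0, b - t]`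
  (`Mvt` by `KSpline.mvt_T`).
  (1) `t < ξ 1`: otherwise `P ≥ 1` (since `t < b`) and with the knots `ζ_i = max (ξ (i+1)) t - t`, `i = 0, ..., P` (`ζ_0 = 0` as `ξ 1 ≤ t`,
  `ζ_P = b - t`) `T (n-1) (t + ·)` is monotone in the direction `(-1)^(n+i+1)` on `[ζ_i, ζ_{i+1}]`, `i < P`
  (nondegenerate pieces are contained in `[ξ (i+1), ξ (i+2)]`).  Extend `d` to a chain with `n` members or apply
  `count_left` with `n` and `j`: the chain `d' i s = T i (t + s)`, `i < n`, `count_left` at level `j`, `m = n - 1 - j`,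
  `P - 1` in place of `P`, `δ = -1`, `q = P+n-1-j`, `ρ = (-1)^j` , `g = 0`; the sign condition for `ε = 1` is
  `(-1)^j (-1)^j δ = -1 < 0`: `P+n-1-j+1 ≤ P-1+(n-j)`, false.
  (2) `h_i t > 0` for `j ≤ i < n`: with the knots `max (ξ i) t - t` (`i = 0, ..., P+1`), `δ = 1`, `P`; if `h_i t ≤ 0` use
  `count_left` at level `j` with the weak pattern `g = 1`, `idx 0 = i` (start sign `(-1)^j (-1)^j = 1`), `ε = 1`
  (`1 * (-1)^1 * 1 < 0`): `P+n-1-j+1+1 ≤ P+(n-j)`, false.
* `no_double`: `count_double` at level `0` with `k = j`, `q = P+n-1`, `g = 0`, `ε = 0`, `δ = 1`: `P+n-1+2 ≤ P+n`, false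
  (`m = j ≤ P+n-1`).
* `first_zero` (`j + 2 ≤ n`): `h_j 0 = E_j > 0` and `h_j` takes a negative value on `[0, b]` (`alt_T` with
  `P+n-1-j ≥ 1`); let `z` be the infimum of the zeros of `T j` in `[0, b]` (closed nonempty set), so `0 < z < b`,
  `h_j > 0` on `[0, z)`, `T j z = 0`.  By `shift` at `t < z`: `t < ξ 1` and `h_i t > 0` for `j ≤ i < n`.  By continuity
  `z ≤ ξ 1` and `h_{j+1} z ≥ 0`, and `h_{j+1} z ≠ 0` by `no_double`.  So `h_{j+1} > 0` on `[0, z]`; `shift` with `j + 1` and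
  `t = z`: `z < ξ 1`, `h_i z > 0` for `j+1 ≤ i < n`.  Now translate with `T_eq_pE`; `i = n` is `pE_top`.
* `first_zero_top` (`P ≥ 1`): `h_{n-1} t = E_{n-1} - t` on `[0, ξ 1]`.  If `ξ 1 < E_{n-1}` then `h_{n-1} > 0` on
  `[0, ξ 1]`.  If moreover `ξ 1 < b`, `shift` gives `ξ 1 < ξ 1`, a contradiction; if `ξ 1 = b` then `h_{n-1} > 0` on `[0, b]`,
  which contradicts `alt_T` (`j = n-1`, `P ≥ 1` alternations).  If `ξ 1 = E_{n-1}`: `T (n-1) (ξ 1) = 0`, `h_{n-1} > 0` on
  `[0, ξ 1)`; by `alt_T` `x_1 > ξ 1`, and `ξ 1 < x_1 < ... < x_P` are points with `T (n-1) (ξ 1) = 0` and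
  `(-1)^i h_{n-1} (x_i) > 0`, `i ≥ 1`; so `T (n-1) (ξ 1 + ·)` has `P` alternating increments on `[0, b - ξ 1]`, the first of
  them with `h_{n-1}` decreasing; it has `P` monotone pieces `[ξ (i+1) - ξ 1, ξ (i+2) - ξ 1]`, on the first of them
  `h_{n-1}` is increasing: `Pcs.inc_le` with `P - 1`: `P ≤ P - 1`, false.
* `eta_eq`: `z` is the least element of the set.
-/

open Set

namespace Pool.Agent.KFL

open Pool.Agent.LKI

private theorem int_xi_nonneg {n : ℕ} {L : ℝ} {T : ℕ → ℝ → ℝ} {P : ℕ} {ξ τ : ℕ → ℝ}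
    (hT : KSpline n L T P ξ τ) : ∀ i, i ≤ P + 1 → 0 ≤ ξ i := by
  intro i
  induction i with
  | zero => intro _; rw [hT.ξ0]
  | succ i ih =>
    intro hi
    exact (ih (by omega)).trans (hT.ξmono i (by omega))

private theorem int_L_pos {n : ℕ} (hn : 2 ≤ n) {L : ℝ} {T : ℕ → ℝ → ℝ} {P : ℕ} {ξ τ : ℕ → ℝ}
    (hT : KSpline n L T P ξ τ) : 0 < L := by
  obtain ⟨h1, h2, -⟩ := KSpline.cut hn hT
  linarith

private theorem int_cont {n : ℕ} (hn : 2 ≤ n) {L : ℝ} {T : ℕ → ℝ → ℝ} {P : ℕ} {ξ τ : ℕ → ℝ}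
    (hT : KSpline n L T P ξ τ) {j : ℕ} (hj : j < n) : ContinuousOn (T j) (Icc 0 L) := by
  rcases Nat.lt_or_ge (j + 1) n with h | h
  · intro t ht
    exact (hT.inW.jet.hasDeriv j h t ht).continuousWithinAt
  · have hjn : j = n - 1 := by omega
    subst hjn
    have hl : LipschitzOnWith 1 (T (n - 1)) (Icc 0 L) := by
      refine LipschitzOnWith.of_dist_le_mul fun s hs t ht => ?_
      have := hT.inW.jet.lip s hs t ht
      rw [Real.dist_eq, Real.dist_eq]
      simpa using this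
    exact hl.continuousOn

private theorem int_pat0 {s : ℕ → ℝ} {lo hi : ℕ} {e : ℝ} : Pat s lo hi 0 e :=
  ⟨fun _ => 0, fun i hi => absurd hi (by omega), fun i hi => absurd hi (by omega),
    fun i hi => absurd hi (by omega)⟩

private theorem int_mvt {g g' : ℝ → ℝ} {b t : ℝ} (ht : 0 ≤ t) (h : Mvt g g' 0 b) :
    Mvt (fun s => g (t + s)) (fun s => g' (t + s)) 0 (b - t) := by
  intro s u hs hsu hu
  obtain ⟨h1, h2⟩ := h (t + s) (t + u) (by linarith) (by linarith) (by linarith)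
  refine ⟨fun h3 => ?_, fun h3 => ?_⟩
  · obtain ⟨x, hx, h4⟩ := h1 h3
    refine ⟨x - t, ⟨by linarith [hx.1], by linarith [hx.2]⟩, ?_⟩
    show 0 < g' (t + (x - t))
    rwa [add_sub_cancel]
  · obtain ⟨x, hx, h4⟩ := h2 h3
    refine ⟨x - t, ⟨by linarith [hx.1], by linarith [hx.2]⟩, ?_⟩
    show g' (t + (x - t)) < 0
    rwa [add_sub_cancel]

private theorem int_pcs {n : ℕ} {L : ℝ} {T : ℕ → ℝ → ℝ} {P : ℕ} {ξ τ : ℕ → ℝ}
    (hT : KSpline n L T P ξ τ) {t : ℝ} (h0 : 0 ≤ t) (h1 : t ≤ ξ (P + 1)) :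
    Pcs n P (ξ (P + 1) - t) 1 (fun s => T (n - 1) (t + s)) := by
  refine ⟨fun i => max (ξ i) t - t, ?_, ?_, ?_, ?_⟩
  · show max (ξ 0) t - t = 0
    rw [hT.ξ0, max_eq_right h0, sub_self]
  · show max (ξ (P + 1)) t - t = ξ (P + 1) - t
    rw [max_eq_left h1]
  · intro i hi
    have := max_le_max (hT.ξmono i hi) (le_refl t)
    show max (ξ i) t - t ≤ max (ξ (i + 1)) t - t
    linarith
  · intro i hi s hs u hu hsu
    have a1 : max (ξ i) t - t ≤ s := hs.1
    have a2 : u ≤ max (ξ (i + 1)) t - t := hu.2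
    have a3 : t ≤ max (ξ i) t := le_max_right _ _
    have a4 : ξ i ≤ max (ξ i) t := le_max_left _ _
    have a5 : max (ξ (i + 1)) t = ξ (i + 1) := by
      rcases le_total (ξ (i + 1)) t with h | h
      · rw [max_eq_right h] at a2
        linarith
      · exact max_eq_left h
    rw [a5] at a2
    have a6 := hT.slope i hi (t + s) ⟨by linarith, by linarith⟩ (t + u) ⟨by linarith, by linarith⟩
    show 0 ≤ 1 * (-1) ^ (n + i) * (T (n - 1) (t + u) - T (n - 1) (t + s))
    rw [a6, one_mul, ← mul_assoc, neg_one_sq_pow]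
    linarith

private theorem int_pcs' {n : ℕ} {L : ℝ} {T : ℕ → ℝ → ℝ} {P : ℕ} {ξ τ : ℕ → ℝ}
    (hT : KSpline n L T P ξ τ) (hP : 1 ≤ P) {t : ℝ} (h0 : ξ 1 ≤ t) (h1 : t ≤ ξ (P + 1)) :
    Pcs n (P - 1) (ξ (P + 1) - t) (-1) (fun s => T (n - 1) (t + s)) := by
  refine ⟨fun i => max (ξ (i + 1)) t - t, ?_, ?_, ?_, ?_⟩
  · show max (ξ (0 + 1)) t - t = 0
    rw [zero_add, max_eq_right h0, sub_self]
  · show max (ξ (P - 1 + 1 + 1)) t - t = ξ (P + 1) - t
    rw [show P - 1 + 1 + 1 = P + 1 by omega, max_eq_left h1]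
  · intro i hi
    have := max_le_max (hT.ξmono (i + 1) (by omega)) (le_refl t)
    show max (ξ (i + 1)) t - t ≤ max (ξ (i + 1 + 1)) t - t
    linarith
  · intro i hi s hs u hu hsu
    have a1 : max (ξ (i + 1)) t - t ≤ s := hs.1
    have a2 : u ≤ max (ξ (i + 1 + 1)) t - t := hu.2
    have a3 : t ≤ max (ξ (i + 1)) t := le_max_right _ _
    have a4 : ξ (i + 1) ≤ max (ξ (i + 1)) t := le_max_left _ _
    have a5 : max (ξ (i + 1 + 1)) t = ξ (i + 1 + 1) := by
      rcases le_total (ξ (i + 1 + 1)) t with h | h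
      · rw [max_eq_right h] at a2
        linarith
      · exact max_eq_left h
    rw [a5] at a2
    have a6 := hT.slope (i + 1) (by omega) (t + s) ⟨by linarith, by linarith⟩ (t + u)
      ⟨by linarith, by linarith⟩
    show 0 ≤ -1 * (-1) ^ (n + i) * (T (n - 1) (t + u) - T (n - 1) (t + s))
    rw [a6, show n + (i + 1) = n + i + 1 by ring, pow_succ]
    have a7 : -1 * (-1 : ℝ) ^ (n + i) * ((-1) ^ (n + i) * -1 * (t + u - (t + s))) =
        ((-1 : ℝ) ^ (n + i) * (-1) ^ (n + i)) * (u - s) := by ring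
    rw [a7, neg_one_sq_pow]
    linarith

theorem shift {n : ℕ} (hn : 2 ≤ n) {L : ℝ} {T : ℕ → ℝ → ℝ} {P : ℕ} {ξ τ : ℕ → ℝ}
    (hT : KSpline n L T P ξ τ) {j : ℕ} (hj : j < n) {t : ℝ} (h0 : 0 ≤ t) (h1 : t < ξ (P + 1))
    (h : ∀ s, 0 ≤ s → s ≤ t → 0 < (-1) ^ j * T j s) :
    t < ξ 1 ∧ ∀ i, j ≤ i → i < n → 0 < (-1) ^ i * T i t := by
  have hA : Alt (fun s => T j (t + s)) (Icc 0 (ξ (P + 1) - t)) (P + n - 1 - j) ((-1) ^ j) := by
    obtain ⟨x, hx1, hx2, hx3⟩ := alt_T hn hT hj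
    have hx4 : ∀ i, i + 1 ≤ P + n - 1 - j → t < x (i + 1) := by
      intro i
      induction i with
      | zero =>
        intro hi
        by_contra hc
        push Not at hc
        have a1 := h (x (0 + 1)) (hx1 _ hi).1 hc
        have a2 := hx3 (0 + 1) hi
        rw [zero_add, pow_one] at a2
        rw [zero_add] at a1
        linarith
      | succ i ih =>
        intro hi
        exact (ih (by omega)).trans (hx2 (i + 1) (by omega))
    refine ⟨fun i => if i = 0 then 0 else x i - t, ?_, ?_, ?_⟩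
    · intro i hi
      rcases Nat.eq_zero_or_pos i with rfl | hp
      · simp only [if_true]
        exact ⟨le_rfl, by linarith⟩
      · obtain ⟨i, rfl⟩ : ∃ k, i = k + 1 := ⟨i - 1, by omega⟩
        simp only [Nat.add_one_ne_zero, if_false]
        exact ⟨by linarith [hx4 i hi], by linarith [(hx1 _ hi).2]⟩
    · intro i hi
      rcases Nat.eq_zero_or_pos i with rfl | hp
      · simp only [if_true, Nat.add_one_ne_zero, if_false]
        linarith [hx4 0 (by omega)]
      · simp only [hp.ne', if_false, Nat.add_one_ne_zero]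
        linarith [hx2 i hi]
    · intro i hi
      rcases Nat.eq_zero_or_pos i with rfl | hp
      · simp only [if_true, pow_zero, mul_one, add_zero]
        exact h t h0 le_rfl
      · simp only [hp.ne', if_false, add_sub_cancel]
        exact hx3 i hi
  have hM : ∀ i, i + 1 < n → Mvt (fun s => T i (t + s)) (fun s => T (i + 1) (t + s)) 0
      (ξ (P + 1) - t) := fun i hi => int_mvt h0 (KSpline.mvt_T hn hT i hi)
  constructor
  · by_contra hc
    push Not at hc
    have hP : 1 ≤ P := by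
      by_contra hP
      have : P = 0 := by omega
      subst this
      rw [zero_add] at h1
      linarith
    have := count_left (n := n) (P := P - 1) (b := ξ (P + 1) - t) (δ := -1)
      (d := fun i s => T i (t + s)) (by norm_num) hM (int_pcs' hT hP hc h1.le) (n - 1 - j) j
      (by omega) 0 (P + n - 1 - j) ((-1) ^ j) 1 hA (int_pat0.weak) (Or.inr ⟨rfl, by
        rw [neg_one_sq_pow]; norm_num⟩)
    omega
  · intro i hji hin
    by_contra hc
    push Not at hc
    have := count_left (n := n) (P := P) (b := ξ (P + 1) - t) (δ := 1)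
      (d := fun i s => T i (t + s)) (by norm_num) hM (int_pcs hT h0 h1.le) (n - 1 - j) j
      (by omega) 1 (P + n - 1 - j) ((-1) ^ j) 1 hA ⟨fun _ => i, fun _ _ => ⟨hji, Nat.le_sub_one_of_lt hin⟩,
        fun k hk => absurd hk (by omega), fun k hk => by
          have : k = 0 := by omega
          subst this
          show 0 ≤ (-1) ^ j * (-1) ^ j * (-1) ^ (0 + 1) * ((-1) ^ i * T i (t + 0))
          rw [neg_one_sq_pow, add_zero, zero_add, pow_one]
          linarith⟩ (Or.inr ⟨rfl, by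
        rw [neg_one_sq_pow]; norm_num⟩)
    omega

theorem no_double {n : ℕ} (hn : 2 ≤ n) {L : ℝ} {T : ℕ → ℝ → ℝ} {P : ℕ} {ξ τ : ℕ → ℝ}
    (hT : KSpline n L T P ξ τ) {j : ℕ} (hj : j + 1 < n) {t : ℝ} (h0 : 0 < t) (h1 : t < ξ (P + 1))
    (h2 : T j t = 0) (h3 : T (j + 1) t = 0) : False := by
  have hA := alt_T hn hT (j := 0) (by omega)
  rw [pow_zero, Nat.sub_zero] at hA
  have := count_double (n := n) (P := P) (k := j) (b := ξ (P + 1)) (δ := 1) (y := t) (d := T)
    (by norm_num) (KSpline.mvt_T hn hT) (pcs_T hn hT).weak hj h0 h1 h2 h3 j 0 (by omega) 0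
    (P + n - 1) 1 0 (by omega) hA int_pat0 (Or.inl rfl)
  omega

theorem first_zero {n : ℕ} (hn : 2 ≤ n) {L : ℝ} {T : ℕ → ℝ → ℝ} {P : ℕ} {ξ τ : ℕ → ℝ}
    (hT : KSpline n L T P ξ τ) {j : ℕ} (hj : j + 2 ≤ n) :
    ∃ z, 0 < z ∧ z < ξ 1 ∧ pE n L j z = 0 ∧ (∀ t, 0 ≤ t → t < z → 0 < pE n L j t) ∧
      ∀ i, j + 1 ≤ i → i ≤ n → ∀ t, 0 ≤ t → t ≤ z → 0 < pE n L i t := by
  have hL := int_L_pos hn hT
  have hbL := hT.ξlast
  have hb0 := int_xi_nonneg hT (P + 1) le_rfl
  have hE : 0 < (-1) ^ j * T j 0 := by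
    rw [← Ee_eq hn hT (by omega)]
    linarith [Ee_ge_one hn hL j]
  obtain ⟨x, hx1, hx2, hx3⟩ := alt_T hn hT (j := j) (by omega)
  have hx1' := hx1 1 (by omega)
  have hneg : (-1) ^ j * T j (x 1) < 0 := by
    have := hx3 1 (by omega)
    rw [pow_one] at this
    linarith
  have hc : ContinuousOn (fun s => (-1) ^ j * T j s) (Icc 0 L) :=
    continuousOn_const.mul (int_cont hn hT (by omega))
  have hpm : ((-1 : ℝ) ^ j) ≠ 0 := pow_ne_zero _ (by norm_num)
  -- zeros below a nonpositive value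
  have hivt : ∀ u, 0 ≤ u → u ≤ ξ (P + 1) → (-1) ^ j * T j u ≤ 0 →
      ∃ v, 0 ≤ v ∧ v ≤ u ∧ T j v = 0 := by
    intro u hu0 hub hu
    have h1 := intermediate_value_Icc' hu0 (hc.mono (Icc_subset_Icc_right (hub.trans hbL)))
    obtain ⟨v, hv, hv2⟩ := h1 ⟨hu, hE.le⟩
    refine ⟨v, hv.1, hv.2, ?_⟩
    have hv3 : (-1) ^ j * T j v = 0 := hv2
    exact (mul_eq_zero.1 hv3).resolve_left hpm
  obtain ⟨v, hv0, hv1, hv2⟩ := hivt (x 1) hx1'.1 hx1'.2 hneg.le
  have hcomp : IsCompact {s : ℝ | s ∈ Icc 0 L ∧ T j s ∈ ({0} : Set ℝ)} := by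
    have h1 : IsClosed (Icc 0 L ∩ T j ⁻¹' {0}) :=
      (int_cont hn hT (by omega)).preimage_isClosed_of_isClosed isClosed_Icc isClosed_singleton
    exact isCompact_Icc.of_isClosed_subset h1 inter_subset_left
  obtain ⟨z, ⟨hz1, hz2⟩, hz3⟩ := hcomp.exists_isLeast ⟨v, ⟨hv0, by linarith [hx1'.2]⟩, hv2⟩
  have hz2' : T j z = 0 := hz2
  have hvx : v < x 1 := by
    refine lt_of_le_of_ne hv1 fun he => ?_
    rw [he] at hv2
    rw [hv2] at hneg
    simp at hneg
  have hzv : z ≤ v := hz3 ⟨⟨hv0, by linarith [hx1'.2]⟩, hv2⟩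
  have hzb : z < ξ (P + 1) := by linarith [hx1'.2]
  have hz0 : 0 < z := by
    refine lt_of_le_of_ne hz1.1 fun he => ?_
    rw [← he] at hz2'
    rw [hz2'] at hE
    simp at hE
  have hpos : ∀ s, 0 ≤ s → s < z → 0 < (-1) ^ j * T j s := by
    intro s hs hsz
    by_contra hcon
    push Not at hcon
    obtain ⟨w, hw0, hw1, hw2⟩ := hivt s hs (by linarith) hcon
    have : z ≤ w := hz3 ⟨⟨hw0, by linarith⟩, hw2⟩
    linarith
  have hsh : ∀ t, 0 ≤ t → t < z → t < ξ 1 ∧ ∀ i, j ≤ i → i < n → 0 < (-1) ^ i * T i t :=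
    fun t ht htz => shift hn hT (by omega) ht (by linarith) fun s hs hst =>
      hpos s hs (by linarith)
  have hge : 0 ≤ (-1) ^ (j + 1) * T (j + 1) z := by
    have hc1 : ContinuousWithinAt (fun s => (-1) ^ (j + 1) * T (j + 1) s) (Icc 0 L) z :=
      (continuousOn_const.mul (int_cont hn hT (by omega))) z hz1
    have hc2 : ContinuousWithinAt (fun s => (-1) ^ (j + 1) * T (j + 1) s) (Ioo 0 z) z :=
      hc1.mono fun s hs => ⟨hs.1.le, by linarith [hs.2, hz1.2]⟩
    have hcl : z ∈ closure (Ioo 0 z) := by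
      rw [closure_Ioo hz0.ne]
      exact ⟨hz0.le, le_rfl⟩
    have hmem := hc2.mem_closure_image hcl
    have hsub : (fun s => (-1) ^ (j + 1) * T (j + 1) s) '' Ioo 0 z ⊆ Ici 0 := by
      rintro _ ⟨s, hs, rfl⟩
      exact ((hsh s hs.1.le hs.2).2 (j + 1) (by omega) (by omega)).le
    exact closure_minimal hsub isClosed_Ici hmem
  have hgt : 0 < (-1) ^ (j + 1) * T (j + 1) z := by
    refine lt_of_le_of_ne hge fun he => ?_
    have hpm' : ((-1 : ℝ) ^ (j + 1)) ≠ 0 := pow_ne_zero _ (by norm_num)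
    exact no_double hn hT (by omega) hz0 hzb hz2' ((mul_eq_zero.1 he.symm).resolve_left hpm')
  have hsz := shift hn hT (j := j + 1) (by omega) hz0.le hzb (fun s hs hsz => by
    rcases lt_or_eq_of_le hsz with h | h
    · exact (hsh s hs h).2 (j + 1) (by omega) (by omega)
    · rw [h]; exact hgt)
  have key : ∀ i, i < n → ∀ t, 0 ≤ t → t ≤ z → (-1) ^ i * T i t = pE n L i t := by
    intro i hi t ht htz
    rw [T_eq_pE hn hT hi ht (by linarith [hsz.1]), ← mul_assoc, neg_one_sq_pow, one_mul]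
  refine ⟨z, hz0, hsz.1, ?_, ?_, ?_⟩
  · rw [← key j (by omega) z hz0.le le_rfl, hz2', mul_zero]
  · intro t ht htz
    rw [← key j (by omega) t ht htz.le]
    exact hpos t ht htz
  · intro i hi hin t ht htz
    rcases Nat.lt_or_ge i n with h | h
    · rw [← key i h t ht htz]
      rcases lt_or_eq_of_le htz with h' | h'
      · exact (hsh t ht h').2 i (by omega) h
      · rw [h']
        exact hsz.2 i hi h
    · have : i = n := by omega
      subst this
      rw [pE_top]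
      norm_num

theorem first_zero_top {n : ℕ} (hn : 2 ≤ n) {L : ℝ} {T : ℕ → ℝ → ℝ} {P : ℕ} {ξ τ : ℕ → ℝ}
    (hT : KSpline n L T P ξ τ) (hP : 1 ≤ P) : Ee n L (n - 1) < ξ 1 := by
  by_contra hcon
  push Not at hcon
  have hξ := int_xi_nonneg hT
  have hval : ∀ t, 0 ≤ t → t ≤ ξ 1 → (-1) ^ (n - 1) * T (n - 1) t = Ee n L (n - 1) - t := by
    intro t ht ht1
    rw [T_eq_pE hn hT (by omega) ht ht1, ← mul_assoc, neg_one_sq_pow, one_mul,
      pE_pred (by omega)]
  have hle : ξ 1 ≤ ξ (P + 1) := by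
    have : ∀ i, i ≤ P → ξ 1 ≤ ξ (i + 1) := by
      intro i
      induction i with
      | zero => intro _; rw [zero_add]
      | succ i ih =>
        intro hi
        exact (ih (by omega)).trans (hT.ξmono (i + 1) hi)
    exact this P le_rfl
  obtain ⟨x, hx1, hx2, hx3⟩ := alt_T hn hT (j := n - 1) (by omega)
  have hq : P + n - 1 - (n - 1) = P := by omega
  rw [hq] at hx1 hx2 hx3
  have hneg : (-1) ^ (n - 1) * T (n - 1) (x 1) < 0 := by
    have := hx3 1 hP
    rw [pow_one] at this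
    linarith
  have hx1' := hx1 1 hP
  rcases lt_or_eq_of_le hcon with hlt | heq
  · rcases lt_or_eq_of_le hle with h1 | h1
    · have := (shift hn hT (j := n - 1) (by omega) (hξ 1 (by omega)) h1 fun s hs hs1 => by
        rw [hval s hs hs1]; linarith).1
      exact lt_irrefl _ this
    · have := hval (x 1) hx1'.1 (by rw [h1]; exact hx1'.2)
      have h2 := hx1'.2
      linarith
  · have hx4 : ∀ i, i + 1 ≤ P → ξ 1 < x (i + 1) := by
      intro i
      induction i with
      | zero =>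
        intro hi
        by_contra hc
        push Not at hc
        rw [zero_add] at hc
        have := hval (x 1) hx1'.1 hc
        linarith
      | succ i ih =>
        intro hi
        exact (ih (by omega)).trans (hx2 (i + 1) (by omega))
    have hT0 : T (n - 1) (ξ 1) = 0 := by
      have h1 := hval (ξ 1) (hξ 1 (by omega)) le_rfl
      rw [← heq, sub_self] at h1
      exact (mul_eq_zero.1 h1).resolve_left (pow_ne_zero _ (by norm_num))
    have en : (-1 : ℝ) ^ n = -(-1) ^ (n - 1) := by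
      obtain ⟨N, rfl⟩ : ∃ N, n = N + 1 := ⟨n - 1, by omega⟩
      rw [Nat.add_sub_cancel, pow_succ]; ring
    have hI : Inc (fun s => T (n - 1) (ξ 1 + s)) (Icc 0 (ξ (P + 1) - ξ 1)) P ((-1) ^ n) := by
      refine ⟨fun i => if i = 0 then 0 else x i - ξ 1, ?_, ?_, ?_⟩
      · intro i hi
        rcases Nat.eq_zero_or_pos i with rfl | hp
        · simp only [if_true]
          exact ⟨le_rfl, by linarith⟩
        · obtain ⟨i, rfl⟩ : ∃ k, i = k + 1 := ⟨i - 1, by omega⟩
          simp only [Nat.add_one_ne_zero, if_false]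
          exact ⟨by linarith [hx4 i hi], by linarith [(hx1 _ hi).2]⟩
      · intro i hi
        rcases Nat.eq_zero_or_pos i with rfl | hp
        · simp only [if_true, Nat.add_one_ne_zero, if_false]
          linarith [hx4 0 (by omega)]
        · simp only [hp.ne', if_false, Nat.add_one_ne_zero]
          linarith [hx2 i hi]
      · intro i hi
        rcases Nat.eq_zero_or_pos i with rfl | hp
        · simp only [if_true, Nat.add_one_ne_zero, if_false, zero_add, add_zero, hT0,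
            add_sub_cancel, pow_zero, mul_one, sub_zero]
          rw [en]
          linarith
        · simp only [hp.ne', if_false, Nat.add_one_ne_zero, add_sub_cancel]
          have e1 := hx3 i hi.le
          have e2 := hx3 (i + 1) hi
          rw [pow_succ] at e2
          rw [en]
          linarith
    have := (int_pcs' hT hP le_rfl hle).inc_le hI (by
      have : (-1 : ℝ) ^ n * (-1 * (-1) ^ n) = -((-1 : ℝ) ^ n * (-1) ^ n) := by ring
      rw [this, neg_one_sq_pow]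
      norm_num)
    omega

theorem eta_eq {n k : ℕ} {L z : ℝ} (h0 : 0 < z) (hz : pE n L (k + 1) z = 0)
    (h : ∀ t, 0 ≤ t → t < z → 0 < pE n L (k + 1) t) : eta n k L = z := by
  unfold eta
  refine IsLeast.csInf_eq ⟨⟨h0, hz⟩, ?_⟩
  rintro t ⟨ht, ht2⟩
  by_contra hc
  push Not at hc
  have := h t ht.le hc
  linarith

end Pool.Agent.KFL
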