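import Pool.Agent.KFL.Poly
import Pool.Agent.KFL.EtaD
import Pool.Agent.KFL.Interior
import Pool.Agent.KFL.EtaLow
import Pool.Agent.LK2.First

/-!
# KFL/BaseN: the Chebyshev length `L_n = 2 H`, `H = Hn n`, `H^n = 2^(n-1) n!`

* `cheb_spline`: with `T j t = (-1)^j TJ n j (1 - t/H) / H^j`, `P = 0`, `ξ 0 = 0`, `ξ i = 2H` for `i ≥ 1`,
  `τ i = H (1 - cos (i π / n))`, `i < n`.  Derivatives: `TJ_hasDerivAt`.  `T (n-1) t - T (n-1) s = (-1)^n (t - s)` by `TJ_top`
  (`n = m + 1`) and `Hn_pow`; this gives the Lipschitz bound and the slope condition.  `|T 0| ≤ 1`: `TJ_zero_abs_le`.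
  Contact: `TJ_node`.  Monotonicity of the nodes: `Real.strictAntiOn_cos`.
* `Ee_base`: `Ee_eq` for `j < n`; for `j = n`: `Ee_top`, `TJ_top_pos`, `Hn_pow`.
* `pE_base`: downward induction on `j` from `j = n` (`pE_top`, `TJ_top_pos`): both sides have the same derivative
  (`pE_hasDeriv`, `TJ_hasDerivAt`) and the same value at `0` (`pE_zero`, `Ee_base`).
* `eta_base`: `eta_eq` with `z = (1 - x1) H`: `pE (k+1) t = TJ n (k+1) (1 - t/H) / H^(k+1)`, which vanishes for `1 - t/H = x1` and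
  is positive for `1 - t/H > x1` (`IsFirst.pos`).
* `Mc_base`: `pE_base` with `j = k`.  `q_base`: quotient, `Ee_base`.
* `etaOK_base` (`k + 2 ≤ n`): for `k + 3 ≤ n` it is `etaOK_low`; in general: `etaOK_of` with `cheb_spline`, `z = (1 - x1) H < 2 H`
  (`x1` from `exists_first`), `pE i > 0` on `[0, z]` for `i ≥ k+2`: for `k + 3 ≤ n` use `etaOK_low`, for `k + 2 = n` only
  `i = n` occurs (`pE_top`).
-/

open Set
open Pool.LK1 (TJ)
open Pool.LK2 (IsFirst)

namespace Pool.Agent.KFL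

open Pool.Agent.LKI

private theorem base_deriv (n j : ℕ) (t : ℝ) :
    HasDerivAt (fun t => TJ n j (1 - t / Hn n) / Hn n ^ j)
      (-(TJ n (j + 1) (1 - t / Hn n) / Hn n ^ (j + 1))) t := by
  have hH := (Hn_pos n).ne'
  have h1 : HasDerivAt (fun t : ℝ => 1 - t / Hn n) (-(1 / Hn n)) t := by
    have h2 := ((hasDerivAt_id t).div_const (Hn n)).const_sub 1
    exact h2
  have h3 := ((Pool.LK1.TJ_hasDerivAt n j (1 - t / Hn n)).comp t h1).div_const (Hn n ^ j)
  have e : TJ n (j + 1) (1 - t / Hn n) * -(1 / Hn n) / Hn n ^ j =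
      -(TJ n (j + 1) (1 - t / Hn n) / Hn n ^ (j + 1)) := by
    rw [pow_succ]
    field_simp
  rw [e] at h3
  exact h3

private theorem base_slope {n : ℕ} (hn : 2 ≤ n) (s t : ℝ) :
    (-1) ^ (n - 1) * TJ n (n - 1) (1 - t / Hn n) / Hn n ^ (n - 1) -
      (-1) ^ (n - 1) * TJ n (n - 1) (1 - s / Hn n) / Hn n ^ (n - 1) = (-1) ^ n * (t - s) := by
  obtain ⟨m, rfl⟩ : ∃ m, n = m + 1 := ⟨n - 1, by omega⟩
  have hH := Hn_pos (m + 1)
  have hpow := Hn_pow (n := m + 1) (by omega)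
  rw [Nat.add_sub_cancel] at hpow ⊢
  have htop := Pool.LK1.TJ_top m (1 - s / Hn (m + 1)) (1 - t / Hn (m + 1))
  rw [← hpow] at htop
  have e1 : (-1 : ℝ) ^ m * TJ (m + 1) m (1 - t / Hn (m + 1)) / Hn (m + 1) ^ m -
      (-1) ^ m * TJ (m + 1) m (1 - s / Hn (m + 1)) / Hn (m + 1) ^ m =
      (-1) ^ m * (TJ (m + 1) m (1 - t / Hn (m + 1)) - TJ (m + 1) m (1 - s / Hn (m + 1))) /
        Hn (m + 1) ^ m := by ring
  rw [e1, htop, pow_succ, pow_succ]
  field_simp
  ring

private theorem base_cos_mono {n i : ℕ} (hi : i + 1 < n) :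
    Real.cos (((i + 1 : ℕ) : ℝ) * Real.pi / (n : ℝ)) < Real.cos ((i : ℝ) * Real.pi / (n : ℝ)) := by
  have hn0 : (0 : ℝ) < n := by
    have : 0 < n := by omega
    exact_mod_cast this
  have hpi := Real.pi_pos
  have hin : ((i : ℝ) + 1) < n := by exact_mod_cast hi
  apply Real.strictAntiOn_cos
  · refine ⟨by positivity, ?_⟩
    rw [div_le_iff₀ hn0]
    nlinarith
  · refine ⟨by positivity, ?_⟩
    rw [div_le_iff₀ hn0]
    push_cast
    nlinarith
  · rw [div_lt_div_iff_of_pos_right hn0]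
    push_cast
    nlinarith

private theorem base_mem {n : ℕ} {t : ℝ} (ht : t ∈ Icc 0 (2 * Hn n)) :
    1 - t / Hn n ∈ Icc (-1 : ℝ) 1 := by
  have hH := Hn_pos n
  have h1 : t / Hn n ≤ 2 := by
    rw [div_le_iff₀ hH]; exact ht.2
  have h2 : 0 ≤ t / Hn n := div_nonneg ht.1 hH.le
  exact ⟨by linarith, by linarith⟩

theorem cheb_spline {n : ℕ} (hn : 2 ≤ n) :
    KSpline n (2 * Hn n) (fun j t => (-1) ^ j * TJ n j (1 - t / Hn n) / Hn n ^ j) 0
      (fun i => if i = 0 then 0 else 2 * Hn n)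
      (fun i => Hn n * (1 - Real.cos ((i : ℝ) * Real.pi / (n : ℝ)))) := by
  have hH := Hn_pos n
  constructor
  · constructor
    · constructor
      · intro j _ t _
        have h1 := (base_deriv n j t).const_mul ((-1 : ℝ) ^ j)
        have e1 : (-1 : ℝ) ^ j * -(TJ n (j + 1) (1 - t / Hn n) / Hn n ^ (j + 1)) =
            (-1) ^ (j + 1) * TJ n (j + 1) (1 - t / Hn n) / Hn n ^ (j + 1) := by
          rw [pow_succ (-1 : ℝ) j]; ring
        have e2 : (fun t => (-1 : ℝ) ^ j * TJ n j (1 - t / Hn n) / Hn n ^ j) =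
            fun t => (-1) ^ j * (TJ n j (1 - t / Hn n) / Hn n ^ j) := by
          funext t; ring
        rw [e1, ← e2] at h1
        exact h1.hasDerivWithinAt
      · intro s _ t _
        show |(-1) ^ (n - 1) * TJ n (n - 1) (1 - s / Hn n) / Hn n ^ (n - 1) -
          (-1) ^ (n - 1) * TJ n (n - 1) (1 - t / Hn n) / Hn n ^ (n - 1)| ≤ 1 * |s - t|
        rw [base_slope hn t s, abs_mul, abs_neg_one_pow]
    · intro t ht
      show |(-1) ^ 0 * TJ n 0 (1 - t / Hn n) / Hn n ^ 0| ≤ 1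
      rw [pow_zero, pow_zero, one_mul, div_one]
      exact Pool.LK1.TJ_zero_abs_le n (base_mem ht)
  · simp
  · intro i hi
    have h0 : i = 0 := by omega
    subst h0
    simp [hH.le]
  · simp
  · intro i hi s _ t _
    have h0 : i = 0 := by omega
    subst h0
    rw [add_zero]
    exact base_slope hn s t
  · simp
  · intro i hi
    have h1 := base_cos_mono (n := n) (i := i) (by omega)
    show Hn n * (1 - Real.cos ((i : ℝ) * Real.pi / (n : ℝ))) <
      Hn n * (1 - Real.cos (((i + 1 : ℕ) : ℝ) * Real.pi / (n : ℝ)))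
    exact mul_lt_mul_of_pos_left (by linarith) hH
  · show Hn n * (1 - Real.cos (((0 + n - 1 : ℕ) : ℝ) * Real.pi / (n : ℝ))) ≤
      if (0 + 1) = 0 then 0 else 2 * Hn n
    rw [if_neg (by omega)]
    have h1 := Real.neg_one_le_cos (((0 + n - 1 : ℕ) : ℝ) * Real.pi / (n : ℝ))
    nlinarith
  · intro i _
    show (-1) ^ 0 * TJ n 0 (1 - Hn n * (1 - Real.cos ((i : ℝ) * Real.pi / (n : ℝ))) / Hn n) /
      Hn n ^ 0 = (-1) ^ i
    have e1 : 1 - Hn n * (1 - Real.cos ((i : ℝ) * Real.pi / (n : ℝ))) / Hn n =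
        Real.cos ((i : ℝ) * Real.pi / (n : ℝ)) := by
      field_simp
      ring
    rw [e1, Pool.LK1.TJ_node n i (by omega)]
    simp

theorem Ee_base {n j : ℕ} (hn : 2 ≤ n) (hj : j ≤ n) :
    Ee n (2 * Hn n) j = TJ n j 1 / Hn n ^ j := by
  have hH := Hn_pos n
  rcases Nat.lt_or_ge j n with h | h
  · rw [Ee_eq hn (cheb_spline hn) h]
    show (-1) ^ j * ((-1) ^ j * TJ n j (1 - 0 / Hn n) / Hn n ^ j) = _
    have e := neg_one_sq_pow j
    rw [zero_div, sub_zero]
    calc (-1 : ℝ) ^ j * ((-1) ^ j * TJ n j 1 / Hn n ^ j) =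
        ((-1) ^ j * (-1) ^ j) * (TJ n j 1 / Hn n ^ j) := by ring
      _ = TJ n j 1 / Hn n ^ j := by rw [e, one_mul]
  · have hjn : j = n := by omega
    subst hjn
    rw [Ee_top, Hn_pow (by omega), Pool.LK2.TJ_top_pos j (by omega), div_self]
    positivity

theorem pE_base {n j : ℕ} (hn : 2 ≤ n) (hj : j ≤ n) (t : ℝ) :
    pE n (2 * Hn n) j t = TJ n j (1 - t / Hn n) / Hn n ^ j := by
  have hH := Hn_pos n
  obtain ⟨m, hm⟩ := Nat.exists_eq_add_of_le hj
  induction m generalizing j t with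
  | zero =>
    have hjn : j = n := by omega
    subst hjn
    rw [pE_top, Hn_pow (by omega), Pool.LK2.TJ_top_pos j (by omega), div_self]
    positivity
  | succ m ih =>
    have h1 : ∀ s, HasDerivAt (fun s => pE n (2 * Hn n) j s - TJ n j (1 - s / Hn n) / Hn n ^ j)
        0 s := by
      intro s
      have h2 := (pE_hasDeriv n (2 * Hn n) j s).sub (base_deriv n j s)
      have e : -pE n (2 * Hn n) (j + 1) s - -(TJ n (j + 1) (1 - s / Hn n) / Hn n ^ (j + 1)) = 0 := by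
        rw [ih (j := j + 1) (by omega) s (by omega)]
        ring
      rw [e] at h2
      exact h2
    have h3 : Differentiable ℝ
        (fun s => pE n (2 * Hn n) j s - TJ n j (1 - s / Hn n) / Hn n ^ j) :=
      fun s => (h1 s).differentiableAt
    have h4 := is_const_of_deriv_eq_zero h3 (fun s => (h1 s).deriv) t 0
    rw [pE_zero hj, Ee_base hn hj, zero_div, sub_zero, sub_self] at h4
    linarith

private theorem base_z {n k : ℕ} (hk : k + 2 ≤ n) {x1 : ℝ} (hx : IsFirst n k x1) :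
    0 < (1 - x1) * Hn n ∧ pE n (2 * Hn n) (k + 1) ((1 - x1) * Hn n) = 0 ∧
      ∀ t, 0 ≤ t → t < (1 - x1) * Hn n → 0 < pE n (2 * Hn n) (k + 1) t := by
  have hH := Hn_pos n
  have hx1 := hx.lt_one
  refine ⟨mul_pos (by linarith) hH, ?_, ?_⟩
  · rw [pE_base (by omega) (by omega)]
    have e : 1 - (1 - x1) * Hn n / Hn n = x1 := by
      rw [mul_div_cancel_right₀ _ hH.ne']; ring
    rw [e, hx.zero, zero_div]
  · intro t _ ht
    rw [pE_base (by omega) (by omega)]
    refine div_pos (hx.pos _ ?_) (pow_pos hH _)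
    have h1 : t / Hn n < 1 - x1 := by
      rw [div_lt_iff₀ hH]; exact ht
    linarith

theorem eta_base {n k : ℕ} (hk : k + 2 ≤ n) {x1 : ℝ} (hx : IsFirst n k x1) :
    eta n k (2 * Hn n) = (1 - x1) * Hn n := by
  obtain ⟨h0, h1, h2⟩ := base_z hk hx
  exact eta_eq h0 h1 h2

theorem Mc_base {n k : ℕ} (hk : k + 2 ≤ n) {x1 : ℝ} (hx : IsFirst n k x1) :
    Mc n k (2 * Hn n) = -TJ n k x1 / Hn n ^ k := by
  have hH := Hn_pos n
  unfold Mc
  rw [eta_base hk hx, pE_base (by omega) (by omega)]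
  have e : 1 - (1 - x1) * Hn n / Hn n = x1 := by
    rw [mul_div_cancel_right₀ _ hH.ne']; ring
  rw [e]
  ring

theorem etaOK_base {n k : ℕ} (hk : k + 2 ≤ n) : EtaOK n k (2 * Hn n) := by
  have hH := Hn_pos n
  rcases Nat.lt_or_ge (k + 2) n with h | h
  · exact etaOK_low (by omega) (by linarith)
  · have hn : n = k + 2 := by omega
    obtain ⟨x1, hx⟩ := Pool.LK2.exists_first n k hk
    obtain ⟨h0, h1, h2⟩ := base_z hk hx
    refine etaOK_of hk (by linarith) (cheb_spline (by omega)) h0 ?_ h1 h2 ?_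
    · show (1 - x1) * Hn n < if (1 : ℕ) = 0 then 0 else 2 * Hn n
      rw [if_neg (by omega)]
      have := hx.nonneg
      nlinarith
    · intro i hi1 hi2 t _ _
      have hin : i = n := by omega
      subst hin
      rw [pE_top]
      exact one_pos

theorem q_base {n k : ℕ} (hk : k + 2 ≤ n) {x1 : ℝ} (hx : IsFirst n k x1) :
    Mc n k (2 * Hn n) / Ee n (2 * Hn n) k = -TJ n k x1 / TJ n k 1 := by
  have hH := Hn_pos n
  rw [Mc_base hk hx, Ee_base (by omega) (by omega)]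
  exact div_div_div_cancel_right₀ (pow_pos hH k).ne' _ _

end Pool.Agent.KFL
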