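import Pool.Agent.KFL.Defs
import Pool.Agent.LKI.B3

/-!
# KFL/Basic: the extremal values `E_j(L)` (`Ee n L j`)

* `Ee_eq`: `KSpline.extremal` gives the upper bound, `T` itself attains it (`(-1)^j T j 0 ≥ 1 > 0` by
  `KSpline.ge_one`, so `|T j 0| = (-1)^j T j 0`).
* `le_Ee`: take a spline from `exists_KSpline`, `KSpline.extremal`, `Ee_eq`.
* `Ee_ge_one`: `KSpline.ge_one` (and `Ee n L n = 1`).  `Ee_zero`: `T 0 0 ≥ 1` and `|T 0 0| ≤ 1`.
* `Ee_anti`: restrict an extremal spline of `[0, L']` to `[0, L]` (`InW.mono`).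
* `Ee_scale`: let `T` be extremal on `[0, L]` and `μ = L / L' ≤ 1`; `F j t = μ^j T j (μ t)` is in the class on
  `[0, L']` (`|F 0| ≤ 1`, Lipschitz constant `μ^n ≤ 1`), so `μ^j E_j(L) ≤ E_j(L')`.
* `Ee_cont`: for `L ≤ L'`: `(L/L')^j E_j(L) ≤ E_j(L') ≤ E_j(L)`, both bounds tend to the same limit when
  `L' → L` with `L` fixed and when `L → L'` with `L'` fixed (`E_j(L') ≤ E_j(L) ≤ (L'/L)^j E_j(L')`): squeeze
  (`tendsto_of_tendsto_of_tendsto_of_le_of_le'`), on the two sides; e.g. for `L, L₀ > 0`: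
  `min 1 ((L₀/L)^j) * E_j(L₀) ≤ E_j(L) ≤ max 1 ((L₀/L)^j) * E_j(L₀)`.
-/

open Set

namespace Pool.Agent.KFL

open Pool.Agent.LKI

theorem Ee_eq {n : ℕ} (hn : 2 ≤ n) {L : ℝ} {T : ℕ → ℝ → ℝ} {P : ℕ} {ξ τ : ℕ → ℝ}
    (hT : KSpline n L T P ξ τ) {j : ℕ} (hj : j < n) : Ee n L j = (-1) ^ j * T j 0 := by
  unfold Ee
  rw [if_pos hj]
  have h1 := hT.ge_one hn j hj
  have h2 : |T j 0| = (-1) ^ j * T j 0 := by
    have h3 : |(-1 : ℝ) ^ j * T j 0| = |T j 0| := by
      rw [abs_mul, abs_pow, abs_neg, abs_one, one_pow, one_mul]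
    rw [← h3, abs_of_nonneg (by linarith)]
  apply IsGreatest.csSup_eq
  constructor
  · exact ⟨T, hT.inW, h2.symm⟩
  · rintro x ⟨F, hF, rfl⟩
    exact hT.extremal hn hF j hj

theorem Ee_top (n : ℕ) (L : ℝ) : Ee n L n = 1 := by
  unfold Ee
  rw [if_neg (lt_irrefl n)]

theorem le_Ee {n : ℕ} (hn : 2 ≤ n) {L : ℝ} (hL : 0 < L) {F : ℕ → ℝ → ℝ} (hF : InW n (Icc 0 L) F)
    {j : ℕ} (hj : j < n) : |F j 0| ≤ Ee n L j := by
  obtain ⟨T, P, ξ, τ, hT⟩ := exists_KSpline hn hL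
  rw [Ee_eq hn hT hj]
  exact hT.extremal hn hF j hj

theorem Ee_ge_one {n : ℕ} (hn : 2 ≤ n) {L : ℝ} (hL : 0 < L) (j : ℕ) : 1 ≤ Ee n L j := by
  by_cases hj : j < n
  · obtain ⟨T, P, ξ, τ, hT⟩ := exists_KSpline hn hL
    rw [Ee_eq hn hT hj]
    exact hT.ge_one hn j hj
  · unfold Ee
    rw [if_neg hj]

theorem Ee_zero {n : ℕ} (hn : 2 ≤ n) {L : ℝ} (hL : 0 < L) : Ee n L 0 = 1 := by
  obtain ⟨T, P, ξ, τ, hT⟩ := exists_KSpline hn hL
  have h0 : 0 < n := by omega
  have h1 := hT.ge_one hn 0 h0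
  have h2 := hT.inW.bdd 0 ⟨le_rfl, hL.le⟩
  rw [Ee_eq hn hT h0]
  rw [pow_zero, one_mul] at h1 ⊢
  exact le_antisymm ((le_abs_self _).trans h2) h1

theorem Ee_anti {n : ℕ} (hn : 2 ≤ n) {L L' : ℝ} (hL : 0 < L) (h : L ≤ L') (j : ℕ) :
    Ee n L' j ≤ Ee n L j := by
  by_cases hj : j < n
  · obtain ⟨T, P, ξ, τ, hT⟩ := exists_KSpline hn (hL.trans_le h)
    rw [Ee_eq hn hT hj]
    have h1 := le_Ee hn hL (hT.inW.mono (Icc_subset_Icc_right h)) hj
    have h3 : |(-1 : ℝ) ^ j * T j 0| = |T j 0| := by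
      rw [abs_mul, abs_pow, abs_neg, abs_one, one_pow, one_mul]
    rw [← h3] at h1
    exact (le_abs_self _).trans h1
  · unfold Ee
    rw [if_neg hj, if_neg hj]

theorem Ee_scale {n : ℕ} (hn : 2 ≤ n) {L L' : ℝ} (hL : 0 < L) (h : L ≤ L') (j : ℕ) :
    Ee n L j ≤ (L' / L) ^ j * Ee n L' j := by
  have hL' : 0 < L' := hL.trans_le h
  by_cases hj : j < n
  · obtain ⟨T, P, ξ, τ, hT⟩ := exists_KSpline hn hL
    obtain ⟨m, hm⟩ : ∃ m : ℝ, m = L / L' := ⟨_, rfl⟩
    have hm0 : 0 < m := by rw [hm]; positivity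
    have hm1 : m ≤ 1 := by rw [hm, div_le_one hL']; exact h
    have hmL : m * L' = L := by rw [hm, div_mul_cancel₀ _ hL'.ne']
    have hmap : ∀ t ∈ Icc 0 L', m * t ∈ Icc 0 L := by
      intro t ht
      refine ⟨mul_nonneg hm0.le ht.1, ?_⟩
      rw [← hmL]
      exact mul_le_mul_of_nonneg_left ht.2 hm0.le
    have hF : InW n (Icc 0 L') (fun j t => m ^ j * T j (m * t)) := by
      refine ⟨⟨?_, ?_⟩, ?_⟩
      · intro i hi t ht
        have h1 := hT.inW.jet.hasDeriv i hi (m * t) (hmap t ht)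
        have h2 : HasDerivWithinAt (fun t : ℝ => m * t) m (Icc 0 L') t := by
          simpa using (hasDerivWithinAt_id t (Icc 0 L')).const_mul m
        have h3 := (HasDerivWithinAt.comp t h1 h2 hmap).const_mul (m ^ i)
        refine h3.congr_deriv ?_
        rw [pow_succ]
        ring
      · intro u hu t ht
        have h1 := hT.inW.jet.lip (m * u) (hmap u hu) (m * t) (hmap t ht)
        have h2 : m ^ (n - 1) * T (n - 1) (m * u) - m ^ (n - 1) * T (n - 1) (m * t) =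
            m ^ (n - 1) * (T (n - 1) (m * u) - T (n - 1) (m * t)) := by ring
        change |m ^ (n - 1) * T (n - 1) (m * u) - m ^ (n - 1) * T (n - 1) (m * t)| ≤ 1 * |u - t|
        rw [h2, abs_mul, abs_of_nonneg (pow_nonneg hm0.le _)]
        have h3 : |m * u - m * t| = m * |u - t| := by
          rw [← mul_sub, abs_mul, abs_of_pos hm0]
        rw [h3] at h1
        have h4 : m ^ (n - 1) ≤ 1 := pow_le_one₀ hm0.le hm1
        have h5 : 0 ≤ m ^ (n - 1) := pow_nonneg hm0.le _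
        have h6 : 0 ≤ |u - t| := abs_nonneg _
        calc m ^ (n - 1) * |T (n - 1) (m * u) - T (n - 1) (m * t)|
            ≤ 1 * (1 * (m * |u - t|)) :=
              mul_le_mul h4 h1 (abs_nonneg _) zero_le_one
          _ ≤ 1 * |u - t| := by nlinarith
      · intro t ht
        have h1 := hT.inW.bdd (m * t) (hmap t ht)
        simpa using h1
    have h1 := le_Ee hn hL' hF hj
    have h2 : |m ^ j * T j (m * 0)| = m ^ j * Ee n L j := by
      rw [mul_zero, abs_mul, abs_of_nonneg (pow_nonneg hm0.le _), Ee_eq hn hT hj]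
      have h3 : |(-1 : ℝ) ^ j * T j 0| = |T j 0| := by
        rw [abs_mul, abs_pow, abs_neg, abs_one, one_pow, one_mul]
      have h4 := hT.ge_one hn j hj
      rw [← h3, abs_of_nonneg (by linarith)]
    change |m ^ j * T j (m * 0)| ≤ Ee n L' j at h1
    rw [h2] at h1
    have h5 : L' / L = m⁻¹ := by rw [hm, inv_div]
    rw [h5, inv_pow, inv_mul_eq_div, le_div_iff₀ (pow_pos hm0 j), mul_comm]
    exact h1
  · unfold Ee
    rw [if_neg hj, if_neg hj, mul_one]
    apply one_le_pow₀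
    rw [one_le_div hL]
    exact h

theorem Ee_cont {n : ℕ} (hn : 2 ≤ n) (j : ℕ) : ContinuousOn (fun L => Ee n L j) (Ioi 0) := by
  intro L₀ hL₀
  have hL₀' : 0 < L₀ := hL₀
  have hlow : ContinuousAt (fun L : ℝ => min 1 ((L₀ / L) ^ j) * Ee n L₀ j) L₀ := by
    have h1 : ContinuousAt (fun L : ℝ => (L₀ / L) ^ j) L₀ :=
      (continuousAt_const.div continuousAt_id hL₀'.ne').pow j
    exact (continuousAt_const.min h1).mul continuousAt_const
  have hupp : ContinuousAt (fun L : ℝ => max 1 ((L₀ / L) ^ j) * Ee n L₀ j) L₀ := by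
    have h1 : ContinuousAt (fun L : ℝ => (L₀ / L) ^ j) L₀ :=
      (continuousAt_const.div continuousAt_id hL₀'.ne').pow j
    exact (continuousAt_const.max h1).mul continuousAt_const
  have hE := Ee_ge_one hn hL₀' j
  have hE0 : 0 ≤ Ee n L₀ j := by linarith
  have e1 : min 1 ((L₀ / L₀) ^ j) * Ee n L₀ j = Ee n L₀ j := by
    rw [div_self hL₀'.ne', one_pow, min_self, one_mul]
  have e2 : max 1 ((L₀ / L₀) ^ j) * Ee n L₀ j = Ee n L₀ j := by
    rw [div_self hL₀'.ne', one_pow, max_self, one_mul]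
  have t1 : Filter.Tendsto (fun L : ℝ => min 1 ((L₀ / L) ^ j) * Ee n L₀ j) (nhdsWithin L₀ (Ioi 0))
      (nhds (Ee n L₀ j)) := by
    have := hlow.tendsto.mono_left (nhdsWithin_le_nhds (s := Ioi 0))
    rwa [e1] at this
  have t2 : Filter.Tendsto (fun L : ℝ => max 1 ((L₀ / L) ^ j) * Ee n L₀ j) (nhdsWithin L₀ (Ioi 0))
      (nhds (Ee n L₀ j)) := by
    have := hupp.tendsto.mono_left (nhdsWithin_le_nhds (s := Ioi 0))
    rwa [e2] at this
  change Filter.Tendsto (fun L => Ee n L j) (nhdsWithin L₀ (Ioi 0)) (nhds (Ee n L₀ j))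
  have hb : ∀ L : ℝ, 0 < L → min 1 ((L₀ / L) ^ j) * Ee n L₀ j ≤ Ee n L j ∧
      Ee n L j ≤ max 1 ((L₀ / L) ^ j) * Ee n L₀ j := by
    intro L hL
    rcases le_total L L₀ with h | h
    · have h1 := Ee_anti hn hL h j
      have h2 := Ee_scale hn hL h j
      constructor
      · calc min 1 ((L₀ / L) ^ j) * Ee n L₀ j ≤ 1 * Ee n L₀ j :=
              mul_le_mul_of_nonneg_right (min_le_left _ _) hE0
          _ ≤ Ee n L j := by rw [one_mul]; exact h1
      · exact h2.trans (mul_le_mul_of_nonneg_right (le_max_right _ _) hE0)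
    · have h1 := Ee_anti hn hL₀' h j
      have h2 := Ee_scale hn hL₀' h j
      constructor
      · have h3 : (L₀ / L) ^ j * Ee n L₀ j ≤ Ee n L j := by
          have h4 : 0 < (L₀ / L) ^ j := by positivity
          have h5 : (L₀ / L) ^ j * (L / L₀) ^ j = 1 := by
            rw [← mul_pow, div_mul_div_comm, mul_comm L₀ L, div_self (by positivity), one_pow]
          calc (L₀ / L) ^ j * Ee n L₀ j ≤ (L₀ / L) ^ j * ((L / L₀) ^ j * Ee n L j) :=
                mul_le_mul_of_nonneg_left h2 h4.le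
            _ = Ee n L j := by rw [← mul_assoc, h5, one_mul]
        exact (mul_le_mul_of_nonneg_right (min_le_right _ _) hE0).trans h3
      · calc Ee n L j ≤ 1 * Ee n L₀ j := by rw [one_mul]; exact h1
          _ ≤ _ := mul_le_mul_of_nonneg_right (le_max_left _ _) hE0
  refine tendsto_of_tendsto_of_tendsto_of_le_of_le' t1 t2 ?_ ?_
  · filter_upwards [self_mem_nhdsWithin] with L hL
    exact (hb L hL).1
  · filter_upwards [self_mem_nhdsWithin] with L hL
    exact (hb L hL).2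

end Pool.Agent.KFL
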