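import Pool.Agent.KFL.LCh

/-!
# KFL/Comp: the comparison theorem

`p` is a chain with left derivatives, with `q + 1` alternating values of modulus `≥ 1` (first sign `ρ`) and slopes
of `p (n-1)` of modulus `≥ 1` on `Q + 1` pieces, of the sign `δ (-1)^(n+i)` (jumps in the same direction are
allowed); `f` is in the class `W` on `[0, b]`; `p (k+1) y = f (k+1) y = 0`, `0 ≤ y < b`.

PROOF.  Suppose `|f k y| > |p k y|` and put `λ = p k y / f k y`, `|λ| < 1`, `D j t = p j t - λ f j t`.  Then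
`D k y = 0`, `D (k+1) y = 0`.  `D` satisfies `LCh` (`LCh.lin`, `LCh.of_jet`), so `LCh.mvt` applies.
`ρ (-1)^i D 0 (x i) ≥ 1 - |λ| > 0`: `Alt (D 0) (Icc 0 b) q ρ`.  Pieces: `δ (-1)^(n+i) (D (n-1) t - D (n-1) s) ≥
(t - s) - |λ| (t - s) > 0`, so `Pcs n Q b δ (D (n-1))`.
If `0 < y`: `count_double` with `j = 0`, `m = k`, `g = 0` (the pattern is empty) gives `q + 0 + ε + 2 ≤ Q + n`
with `ε = 1` if `ρ δ < 0` and `ε = 0` otherwise.
If `y = 0`: `count_left` with `j = 0`, `m = n - 1`, `g = 2`, the weak pattern at the places `k, k + 1` (both values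
`(-1)^i D i 0` are `0`) gives `q + 2 + ε ≤ Q + n` with the same `ε` (`(-1)^2 = 1`).
Both contradict `hcount`.
-/

open Set

namespace Pool.Agent.KFL

open Pool.Agent.LKI

private theorem comp_sign {ρ : ℝ} (hρ : ρ = 1 ∨ ρ = -1) (i : ℕ) : |ρ * (-1) ^ i| = 1 := by
  rw [abs_mul, abs_pow, abs_neg, abs_one, one_pow, mul_one]
  rcases hρ with rfl | rfl
  · exact abs_one
  · rw [abs_neg, abs_one]

private theorem comp_term {e l v : ℝ} (he : |e| = 1) : -(|l| * |v|) ≤ e * (-l * v) := by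
  have h1 : |e * (-l * v)| = |l| * |v| := by
    rw [abs_mul, abs_mul, abs_neg, he, one_mul]
  have h2 := neg_abs_le (e * (-l * v))
  rw [h1] at h2
  exact h2

private theorem comp_xi {Q : ℕ} {b : ℝ} {ξ : ℕ → ℝ} (h0 : ξ 0 = 0) (h1 : ξ (Q + 1) = b)
    (h2 : ∀ i, i ≤ Q → ξ i ≤ ξ (i + 1)) : ∀ i, i ≤ Q + 1 → ξ i ∈ Icc 0 b := by
  have hmono : ∀ i j, i ≤ j → j ≤ Q + 1 → ξ i ≤ ξ j := by
    intro i j hij
    induction j, hij using Nat.le_induction with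
    | base => exact fun _ => le_rfl
    | succ j hij ih => exact fun h => (ih (by omega)).trans (h2 j (by omega))
  intro i hi
  constructor
  · rw [← h0]
    exact hmono 0 i (Nat.zero_le _) hi
  · rw [← h1]
    exact hmono i (Q + 1) hi le_rfl

theorem comp {n Q k q : ℕ} {b y ρ δ : ℝ} {p f : ℕ → ℝ → ℝ} (hn : k + 1 < n)
    (hρ : ρ = 1 ∨ ρ = -1) (hδ : δ = 1 ∨ δ = -1) (hp : LCh n b p) (hf : InW n (Icc 0 b) f)
    (hA : ∃ x : ℕ → ℝ, (∀ i, i ≤ q → x i ∈ Icc 0 b) ∧ (∀ i, i < q → x i < x (i + 1)) ∧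
      ∀ i, i ≤ q → 1 ≤ ρ * (-1) ^ i * p 0 (x i))
    (hP : ∃ ξ : ℕ → ℝ, ξ 0 = 0 ∧ ξ (Q + 1) = b ∧ (∀ i, i ≤ Q → ξ i ≤ ξ (i + 1)) ∧
      ∀ i, i ≤ Q → ∀ s ∈ Icc (ξ i) (ξ (i + 1)), ∀ t ∈ Icc (ξ i) (ξ (i + 1)), s < t →
        t - s ≤ δ * (-1) ^ (n + i) * (p (n - 1) t - p (n - 1) s))
    (hy0 : 0 ≤ y) (hyb : y < b) (h1 : p (k + 1) y = 0) (h2 : f (k + 1) y = 0) (hkq : k ≤ q)
    (hcount : (0 < ρ * δ → Q + n < q + 2) ∧ (ρ * δ < 0 → Q + n < q + 3)) :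
    |f k y| ≤ |p k y| := by
  by_contra hcon
  push Not at hcon
  have hfk : f k y ≠ 0 := by
    intro h0
    rw [h0, abs_zero] at hcon
    exact absurd hcon (not_lt.mpr (abs_nonneg _))
  obtain ⟨l, hl⟩ : ∃ l, l = p k y / f k y := ⟨_, rfl⟩
  have hl1 : |l| < 1 := by
    rw [hl, abs_div, div_lt_one (abs_pos.mpr hfk)]
    exact hcon
  have hl0 := abs_nonneg l
  have hD : LCh n b (fun j t => 1 * p j t + (-l) * f j t) := hp.lin (LCh.of_jet hf.jet) 1 (-l)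
  have hm := hD.mvt
  have hδ0 : δ ≠ 0 := by
    rcases hδ with rfl | rfl <;> norm_num
  -- alternation
  have hAlt : Alt (fun t => 1 * p 0 t + (-l) * f 0 t) (Icc 0 b) q ρ := by
    obtain ⟨x, x1, x2, x3⟩ := hA
    refine ⟨x, x1, x2, fun i hi => ?_⟩
    have e1 := x3 i hi
    have e2 := hf.bdd (x i) (x1 i hi)
    have e3 := comp_term (l := l) (v := f 0 (x i)) (comp_sign hρ i)
    have e4 : |l| * |f 0 (x i)| ≤ |l| * 1 := mul_le_mul_of_nonneg_left e2 hl0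
    have e5 : ρ * (-1) ^ i * (1 * p 0 (x i) + -l * f 0 (x i)) =
        ρ * (-1) ^ i * p 0 (x i) + ρ * (-1) ^ i * (-l * f 0 (x i)) := by ring
    change 0 < ρ * (-1) ^ i * (1 * p 0 (x i) + -l * f 0 (x i))
    rw [e5]
    linarith
  have hPcs : Pcs n Q b δ (fun t => 1 * p (n - 1) t + (-l) * f (n - 1) t) := by
    obtain ⟨ξ, ξ0, ξ1, ξ2, ξ3⟩ := hP
    have hξ := comp_xi ξ0 ξ1 ξ2
    refine ⟨ξ, ξ0, ξ1, ξ2, fun i hi s hs t ht hst => ?_⟩
    have e1 := ξ3 i hi s hs t ht hst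
    have hs' : s ∈ Icc 0 b := ⟨(hξ i (by omega)).1.trans hs.1, hs.2.trans (hξ (i + 1) (by omega)).2⟩
    have ht' : t ∈ Icc 0 b := ⟨(hξ i (by omega)).1.trans ht.1, ht.2.trans (hξ (i + 1) (by omega)).2⟩
    have e2 := hf.jet.lip t ht' s hs'
    rw [one_mul, abs_of_pos (sub_pos.mpr hst)] at e2
    have e3 := comp_term (l := l) (v := f (n - 1) t - f (n - 1) s) (comp_sign hδ (n + i))
    have e4 : |l| * |f (n - 1) t - f (n - 1) s| ≤ |l| * (t - s) := mul_le_mul_of_nonneg_left e2 hl0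
    have e6 : |l| * (t - s) ≤ 1 * (t - s) := mul_le_mul_of_nonneg_right hl1.le (by linarith)
    have e5 : δ * (-1) ^ (n + i) * ((1 * p (n - 1) t + -l * f (n - 1) t) -
        (1 * p (n - 1) s + -l * f (n - 1) s)) =
        δ * (-1) ^ (n + i) * (p (n - 1) t - p (n - 1) s) +
          δ * (-1) ^ (n + i) * (-l * (f (n - 1) t - f (n - 1) s)) := by ring
    change 0 ≤ δ * (-1) ^ (n + i) * ((1 * p (n - 1) t + -l * f (n - 1) t) -
        (1 * p (n - 1) s + -l * f (n - 1) s))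
    rw [e5]
    linarith
  have z0 : 1 * p k y + (-l) * f k y = 0 := by
    rw [hl]
    field_simp
    ring
  have z1 : 1 * p (k + 1) y + (-l) * f (k + 1) y = 0 := by
    rw [h1, h2]
    ring
  -- the number ε
  obtain ⟨ε, hε, hcnt⟩ : ∃ ε : ℕ, Eps ε (ρ * δ) ∧ Q + n < q + 2 + ε := by
    have hρδ : ρ * δ = 1 ∨ ρ * δ = -1 := by
      rcases hρ with rfl | rfl <;> rcases hδ with rfl | rfl <;> norm_num
    rcases hρδ with h | h
    · refine ⟨0, Or.inl rfl, ?_⟩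
      have := hcount.1 (by rw [h]; norm_num)
      omega
    · refine ⟨1, Or.inr ⟨rfl, by rw [h]; norm_num⟩, ?_⟩
      have := hcount.2 (by rw [h]; norm_num)
      omega
  rcases hy0.eq_or_lt with hy | hy
  · subst hy
    have hres := count_left (d := fun j t => 1 * p j t + (-l) * f j t) hδ0 hm hPcs (n - 1) 0
      (by omega) 2 q ρ ε hAlt ⟨fun i => k + i, ?_, ?_, ?_⟩ ?_
    · omega
    · intro i hi
      change 0 ≤ k + i ∧ k + i ≤ n - 1
      omega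
    · intro i hi
      change k + i < k + (i + 1)
      omega
    · intro i hi
      have hi2 : i = 0 ∨ i = 1 := by omega
      rcases hi2 with rfl | rfl
      · change 0 ≤ (-1) ^ 0 * ρ * (-1) ^ (0 + 1) * ((-1) ^ (k + 0) *
          (1 * p (k + 0) 0 + -l * f (k + 0) 0))
        rw [add_zero, z0, mul_zero, mul_zero]
      · change 0 ≤ (-1) ^ 0 * ρ * (-1) ^ (1 + 1) * ((-1) ^ (k + 1) *
          (1 * p (k + 1) 0 + -l * f (k + 1) 0))
        rw [z1, mul_zero, mul_zero]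
    · have e : (-1 : ℝ) ^ 0 * ρ * (-1) ^ 2 * δ = ρ * δ := by ring
      rw [e]
      exact hε
  · have hres := count_double (d := fun j t => 1 * p j t + (-l) * f j t) hδ0 hm hPcs hn hy hyb
      z0 z1 k 0 (by omega) 0 q ρ ε hkq hAlt ⟨fun _ => 0, ?_, ?_, ?_⟩ ?_
    · omega
    · intro i hi
      omega
    · intro i hi
      omega
    · intro i hi
      omega
    · have e : (-1 : ℝ) ^ 0 * ρ * (-1) ^ 0 * δ = ρ * δ := by ring
      rw [e]
      exact hε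

/-- the strict version: if all slopes of `p (n-1)` exceed `1` in modulus and all values at the nodes too,
nothing changes; this is the form for a translated function `f` on `[a, a + b]` -/
theorem comp_shift {n Q k q : ℕ} {a b y ρ δ : ℝ} {S : Set ℝ} {p f : ℕ → ℝ → ℝ} (hn : k + 1 < n)
    (hρ : ρ = 1 ∨ ρ = -1) (hδ : δ = 1 ∨ δ = -1) (hp : LCh n b p) (hS : Icc a (a + b) ⊆ S)
    (hf : InW n S f)
    (hA : ∃ x : ℕ → ℝ, (∀ i, i ≤ q → x i ∈ Icc 0 b) ∧ (∀ i, i < q → x i < x (i + 1)) ∧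
      ∀ i, i ≤ q → 1 ≤ ρ * (-1) ^ i * p 0 (x i))
    (hP : ∃ ξ : ℕ → ℝ, ξ 0 = 0 ∧ ξ (Q + 1) = b ∧ (∀ i, i ≤ Q → ξ i ≤ ξ (i + 1)) ∧
      ∀ i, i ≤ Q → ∀ s ∈ Icc (ξ i) (ξ (i + 1)), ∀ t ∈ Icc (ξ i) (ξ (i + 1)), s < t →
        t - s ≤ δ * (-1) ^ (n + i) * (p (n - 1) t - p (n - 1) s))
    (hy0 : 0 ≤ y) (hyb : y < b) (h1 : p (k + 1) y = 0) (h2 : f (k + 1) (a + y) = 0) (hkq : k ≤ q)
    (hcount : (0 < ρ * δ → Q + n < q + 2) ∧ (ρ * δ < 0 → Q + n < q + 3)) :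
    |f k (a + y)| ≤ |p k y| := by
  have hmaps : ∀ t ∈ Icc 0 b, a + t ∈ S := by
    intro t ht
    apply hS
    exact ⟨by linarith [ht.1], by linarith [ht.2]⟩
  have hf' : InW n (Icc 0 b) (fun j t => f j (a + t)) := by
    refine ⟨⟨fun j hj t ht => ?_, fun s hs t ht => ?_⟩, fun t ht => hf.bdd _ (hmaps t ht)⟩
    · have e1 := hf.jet.hasDeriv j hj (a + t) (hmaps t ht)
      have e2 : HasDerivWithinAt (fun t : ℝ => a + t) 1 (Icc 0 b) t :=
        (hasDerivWithinAt_id t _).const_add a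
      have e3 := e1.scomp t e2 (fun s hs => hmaps s hs)
      rw [one_smul] at e3
      exact e3
    · have e1 := hf.jet.lip (a + s) (hmaps s hs) (a + t) (hmaps t ht)
      have e2 : a + s - (a + t) = s - t := by ring
      rw [e2] at e1
      exact e1
  exact comp hn hρ hδ hp hf' hA hP hy0 hyb h1 h2 hkq hcount

end Pool.Agent.KFL
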