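import Pool.Agent.KFL.SgnL
import Pool.Agent.KFL.Comp
import Pool.Agent.KFL.EtaLow

/-!
# KFL/CL2: bound for the critical values of `f k` near the left end

`CL2`: let `hE.spl` give `L₁ ≤ L`, `T`, `P`, `ξ`, `τ` with `E_j(L₁) = E_j(L)`, `eta < ξ 1`; `pE n L₁ = pE n L`.
Let `u = pE (k+1) y / pE (k+2) y ≥ 0` (`EtaOK.higher` for `k+2`; `pE (k+1) y ≥ 0` on `[0, eta]` by `before`, `zero`) and
`p j t = Tx j t + u * Tx (j+1) t` on `[0, b]`, `b = ξ (P+1) ≤ L₁ ≤ L`.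
* `LCh n b p`: from `Tx_LCh` (restrict `LCh (n+1)` to `LCh n`, shift by one, `LCh.lin`).
* nodes: `x i = τ (i+1)`, `i ≤ q = P + n - 2`, `ρ = -1`: `(-1)^(i+1) p 0 (τ (i+1)) = 1 + u (-1)^(i+1) T 1 (τ (i+1)) ≥ 1` (`node_deriv`).
* pieces: `δ = 1`, knots `ξ`, `Tx_pieces`.
* `p (k+1) y = 0`: `Tx (k+1) y = (-1)^(k+1) pE (k+1) y`, `Tx (k+2) y = (-1)^(k+2) pE (k+2) y` (`T_eq_pE`; for `k + 2 = n`:
  `sgnL_first`, `pE_top`), `y ≤ eta < ξ 1 ≤ b`.
* `comp_shift` with `Q = P`: `ρ δ = -1`: `P + n < q + 3 = P + n + 1`.  `|p k y| = |pE k y - u pE (k+1) y| = |V1 n k L y|`.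
`V1_le`: put `w = pE k + M`, `M = Mc`: `w' = - pE (k+1)`, `w'' = pE (k+2)`, `w''' = - pE (k+3)`, `G = w'^2 - 2 w w''`,
`G' = 2 w pE (k+3) ≥ 0` on `[0, eta]` (`w ≥ 0` since `w` is decreasing and `w (eta) = 0`; `pE (k+3) ≥ 0`: `higher`, or
`pE (n+1) = 0` if `k + 2 = n`), `G (eta) = 0`, so `G ≤ 0` on `[0, eta]`: `pE (k+1)^2 ≤ 2 (pE k + M) pE (k+2)`.
`neg_V1_le`: `pE (k+1)^2 / pE (k+2) ≥ 0`.
`pE_convex`: `pE k` is convex on `[0, eta]` (second derivative `pE (k+2) > 0`), values `E_k` at `0` and `-M` at `eta`.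
`zone1`: `|V1| ≤ max (pE k + 2 M) (pE k) = pE k + 2 M` and `pE_convex`.
`crit_le`: `zone1` with `y = eta`.
-/

open Set

namespace Pool.Agent.KFL

open Pool.Agent.LKI

theorem CL2 {n k : ℕ} (hk : k + 2 ≤ n) {L : ℝ} (hE : EtaOK n k L) {S : Set ℝ} {a y : ℝ}
    {f : ℕ → ℝ → ℝ} (hS : Icc a (a + L) ⊆ S) (hf : InW n S f) (hy0 : 0 ≤ y) (hy : y ≤ eta n k L)
    (h : f (k + 1) (a + y) = 0) : |f k (a + y)| ≤ |V1 n k L y| := by
  have hn : 2 ≤ n := by omega
  obtain ⟨L₁, T, P, ξ, τ, hL1, hL1L, hEe, hT, hξ⟩ := hE.spl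
  have hpE : ∀ j t, pE n L₁ j t = pE n L j t := by
    intro j t
    unfold pE
    exact Finset.sum_congr rfl fun i _ => by rw [hEe]
  have hden : 0 < pE n L (k + 2) y := hE.higher (k + 2) le_rfl hk y hy0 hy
  have hnum : 0 ≤ pE n L (k + 1) y := by
    rcases hy.lt_or_eq with h1 | h1
    · exact (hE.before y hy0 h1).le
    · rw [h1, hE.zero]
  obtain ⟨u, hu⟩ : ∃ u : ℝ, u = pE n L (k + 1) y / pE n L (k + 2) y := ⟨_, rfl⟩
  have hu0 : 0 ≤ u := by rw [hu]; exact div_nonneg hnum hden.le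
  have hud : u * pE n L (k + 2) y = pE n L (k + 1) y := by
    rw [hu]; exact div_mul_cancel₀ _ hden.ne'
  have hX := Tx_LCh hn hT
  have hxi1 : ξ 1 ≤ ξ (P + 1) := KSpline.xi_le hT 1 (P + 1) (by omega) le_rfl
  have hbL : ξ (P + 1) ≤ L := hT.ξlast.trans hL1L
  have hyξ : y < ξ 1 := lt_of_le_of_lt hy hξ
  have hTx : ∀ j, j ≤ n → Tx n P T ξ j y = (-1) ^ j * pE n L j y := by
    intro j hj
    unfold Tx
    split_ifs with h1
    · rw [T_eq_pE hn hT h1 hy0 hyξ.le, hpE]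
    · have h2 : j = n := by omega
      rw [sgnL_first hT hyξ.le, h2, pE_top, mul_one]
  have hp1 : Tx n P T ξ (k + 1) y + u * Tx n P T ξ (k + 1 + 1) y = 0 := by
    rw [hTx (k + 1) (by omega), hTx (k + 1 + 1) (by omega)]
    have e : (-1 : ℝ) ^ (k + 1) * pE n L (k + 1) y + u * ((-1) ^ (k + 1 + 1) * pE n L (k + 1 + 1) y)
        = (-1) ^ (k + 1) * (pE n L (k + 1) y - u * pE n L (k + 2) y) := by ring
    rw [e, hud, sub_self, mul_zero]
  have hval : |Tx n P T ξ k y + u * Tx n P T ξ (k + 1) y| = |V1 n k L y| := by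
    rw [hTx k (by omega), hTx (k + 1) (by omega)]
    have e : (-1 : ℝ) ^ k * pE n L k y + u * ((-1) ^ (k + 1) * pE n L (k + 1) y)
        = (-1) ^ k * (-(u * pE n L (k + 1) y - pE n L k y)) := by ring
    have e2 : u * pE n L (k + 1) y - pE n L k y = V1 n k L y := by
      unfold V1
      rw [hu]
      ring
    rw [e, e2, abs_mul, abs_pow, abs_neg, abs_one, one_pow, one_mul, abs_neg]
  have key := comp_shift (n := n) (Q := P) (k := k) (q := P + n - 2) (a := a) (b := ξ (P + 1))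
    (y := y) (ρ := -1) (δ := 1) (S := S)
    (p := fun j t => Tx n P T ξ j t + u * Tx n P T ξ (j + 1) t) (f := f) (by omega)
    (Or.inr rfl) (Or.inl rfl)
    ⟨fun j hj => (hX.cont j (by omega)).add (continuousOn_const.mul (hX.cont (j + 1) (by omega))),
      fun j hj x hx => (hX.der j (by omega) x hx).add
        ((hX.der (j + 1) (by omega) x hx).const_mul u)⟩
    ((Icc_subset_Icc le_rfl (by linarith)).trans hS) hf
    ⟨fun i => τ (i + 1), fun i hi => ⟨KSpline.tau_nonneg hT (i + 1) (by omega),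
        (KSpline.tau_le hT (i + 1) (P + n - 1) (by omega) (by omega)).trans hT.τlast⟩,
      fun i hi => hT.τmono (i + 1) (by omega), fun i hi => by
        have e0 : Tx n P T ξ 0 (τ (i + 1)) = T 0 (τ (i + 1)) := by
          unfold Tx; rw [if_pos (by omega)]
        have e1 : Tx n P T ξ (0 + 1) (τ (i + 1)) = T 1 (τ (i + 1)) := by
          unfold Tx; rw [if_pos (by omega)]
        change 1 ≤ -1 * (-1) ^ i * (Tx n P T ξ 0 (τ (i + 1)) + u * Tx n P T ξ (0 + 1) (τ (i + 1)))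
        rw [e0, e1, hT.contact (i + 1) (by omega)]
        have h3 := node_deriv hn hT (i := i + 1) (by omega) (by omega)
        have h4 : 0 ≤ u * ((-1) ^ (i + 1) * T 1 (τ (i + 1))) := mul_nonneg hu0 h3
        have e : (-1 : ℝ) * (-1) ^ i * ((-1) ^ (i + 1) + u * T 1 (τ (i + 1))) =
            ((-1) ^ i * (-1) ^ i) + u * ((-1) ^ (i + 1) * T 1 (τ (i + 1))) := by ring
        rw [e, neg_one_sq_pow]
        linarith⟩
    ⟨ξ, hT.ξ0, rfl, hT.ξmono, fun i hi s hs t ht hst => by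
      have h3 := Tx_pieces hn hT hu0 hi hs ht hst
      have e : n - 1 + 1 = n := by omega
      change t - s ≤ 1 * (-1) ^ (n + i) * ((Tx n P T ξ (n - 1) t + u * Tx n P T ξ (n - 1 + 1) t) -
        (Tx n P T ξ (n - 1) s + u * Tx n P T ξ (n - 1 + 1) s))
      rw [e, one_mul]
      exact h3⟩
    hy0 (lt_of_lt_of_le hyξ hxi1) hp1 h (by omega)
    ⟨fun h5 => absurd h5 (by norm_num), fun _ => by omega⟩
  rw [← hval]
  exact key

theorem Mc_pos {n k : ℕ} {L : ℝ} (hE : EtaOK n k L) : 0 < Mc n k L := by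
  unfold Mc
  linarith [hE.neg]

theorem V1_le {n k : ℕ} (hk : k + 2 ≤ n) {L y : ℝ} (hE : EtaOK n k L) (hy0 : 0 ≤ y)
    (hy : y ≤ eta n k L) : V1 n k L y ≤ pE n L k y + 2 * Mc n k L := by
  have hden : 0 < pE n L (k + 2) y := hE.higher (k + 2) le_rfl hk y hy0 hy
  have hw0 : pE n L k (eta n k L) + Mc n k L = 0 := by unfold Mc; ring
  have hd1 : ∀ t, 0 ≤ t → t ≤ eta n k L → 0 ≤ pE n L (k + 1) t := by
    intro t h0 h1
    rcases h1.lt_or_eq with h2 | h2
    · exact (hE.before t h0 h2).le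
    · rw [h2, hE.zero]
  -- `w ≥ 0`
  have hw : ∀ t, 0 ≤ t → t ≤ eta n k L → 0 ≤ pE n L k t + Mc n k L := by
    intro t h0 h1
    have hanti : AntitoneOn (fun t => pE n L k t) (Icc 0 (eta n k L)) := by
      refine antitoneOn_of_deriv_nonpos (convex_Icc _ _) (pE_continuous n L k).continuousOn
        (fun x _ => (pE_hasDeriv n L k x).differentiableAt.differentiableWithinAt) ?_
      intro x hx
      rw [interior_Icc] at hx
      rw [(pE_hasDeriv n L k x).deriv]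
      have := hd1 x hx.1.le hx.2.le
      linarith
    have h2 := hanti ⟨h0, h1⟩ ⟨hE.pos.le, le_rfl⟩ h1
    have h3 : pE n L k (eta n k L) ≤ pE n L k t := h2
    linarith
  have h3 : ∀ t, 0 ≤ t → t ≤ eta n k L → 0 ≤ pE n L (k + 3) t := by
    intro t h0 h1
    by_cases hkn : k + 3 ≤ n
    · exact (hE.higher (k + 3) (by omega) hkn t h0 h1).le
    · unfold pE
      rw [show n + 1 - (k + 3) = 0 by omega, Finset.sum_range_zero]
  have hG : ∀ t, HasDerivAt (fun t => pE n L (k + 1) t ^ 2 -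
      2 * (pE n L k t + Mc n k L) * pE n L (k + 2) t)
      (2 * (pE n L k t + Mc n k L) * pE n L (k + 3) t) t := by
    intro t
    have g1 := (pE_hasDeriv n L (k + 1) t).pow 2
    have g2 := (((pE_hasDeriv n L k t).add_const (Mc n k L)).const_mul 2).mul
      (pE_hasDeriv n L (k + 2) t)
    have g3 := g1.sub g2
    refine HasDerivAt.congr_deriv g3 ?_
    simp only [Nat.cast_ofNat]
    ring
  have hmono : MonotoneOn (fun t => pE n L (k + 1) t ^ 2 -
      2 * (pE n L k t + Mc n k L) * pE n L (k + 2) t) (Icc 0 (eta n k L)) := by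
    refine monotoneOn_of_deriv_nonneg (convex_Icc _ _)
      (fun x _ => (hG x).continuousAt.continuousWithinAt)
      (fun x _ => (hG x).differentiableAt.differentiableWithinAt) ?_
    intro x hx
    rw [interior_Icc] at hx
    rw [(hG x).deriv]
    exact mul_nonneg (mul_nonneg (by norm_num) (hw x hx.1.le hx.2.le)) (h3 x hx.1.le hx.2.le)
  have h4 : pE n L (k + 1) y ^ 2 - 2 * (pE n L k y + Mc n k L) * pE n L (k + 2) y ≤
      pE n L (k + 1) (eta n k L) ^ 2 -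
        2 * (pE n L k (eta n k L) + Mc n k L) * pE n L (k + 2) (eta n k L) :=
    hmono ⟨hy0, hy⟩ ⟨hE.pos.le, le_rfl⟩ hy
  rw [hE.zero, hw0] at h4
  have h5 : pE n L (k + 1) y ^ 2 / pE n L (k + 2) y ≤ 2 * (pE n L k y + Mc n k L) := by
    rw [div_le_iff₀ hden]
    linarith
  unfold V1
  linarith

theorem neg_V1_le {n k : ℕ} (hk : k + 2 ≤ n) {L y : ℝ} (hE : EtaOK n k L) (hy0 : 0 ≤ y)
    (hy : y ≤ eta n k L) : -V1 n k L y ≤ pE n L k y := by
  have hden : 0 < pE n L (k + 2) y := hE.higher (k + 2) le_rfl hk y hy0 hy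
  have h1 : 0 ≤ pE n L (k + 1) y ^ 2 / pE n L (k + 2) y := div_nonneg (sq_nonneg _) hden.le
  unfold V1
  linarith

theorem pE_convex {n k : ℕ} (hk : k + 2 ≤ n) {L y : ℝ} (hE : EtaOK n k L) (hy0 : 0 ≤ y)
    (hy : y ≤ eta n k L) :
    pE n L k y ≤ (1 - y / eta n k L) * Ee n L k - y / eta n k L * Mc n k L := by
  have hη := hE.pos
  have hconv : ConvexOn ℝ (Icc 0 (eta n k L)) (pE n L k) := by
    refine convexOn_of_hasDerivWithinAt2_nonneg (convex_Icc _ _)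
      (pE_continuous n L k).continuousOn (f' := fun t => -pE n L (k + 1) t)
      (f'' := fun t => pE n L (k + 2) t) (fun x _ => (pE_hasDeriv n L k x).hasDerivWithinAt)
      (fun x _ => ?_) (fun x hx => ?_)
    · have h1 := (pE_hasDeriv n L (k + 1) x).neg
      rw [neg_neg] at h1
      exact h1.hasDerivWithinAt
    · rw [interior_Icc] at hx
      exact (hE.higher (k + 2) le_rfl hk x hx.1.le hx.2.le).le
  have hθ0 : 0 ≤ y / eta n k L := div_nonneg hy0 hη.le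
  have hθ1 : y / eta n k L ≤ 1 := by rw [div_le_one hη]; exact hy
  have hm0 : (0 : ℝ) ∈ Icc 0 (eta n k L) := ⟨le_rfl, hη.le⟩
  have hm1 : eta n k L ∈ Icc 0 (eta n k L) := ⟨hη.le, le_rfl⟩
  have hθ2 : 0 ≤ 1 - y / eta n k L := by linarith
  have h2 := hconv.2 hm0 hm1 hθ2 hθ0 (by ring)
  have e : (1 - y / eta n k L) • (0 : ℝ) + (y / eta n k L) • eta n k L = y := by
    rw [smul_zero, zero_add, smul_eq_mul, div_mul_cancel₀ _ hη.ne']
  rw [e, smul_eq_mul, smul_eq_mul, pE_zero (by omega : k ≤ n)] at h2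
  have e2 : pE n L k (eta n k L) = -Mc n k L := by unfold Mc; ring
  rw [e2] at h2
  linarith

theorem zone1 {n k : ℕ} (hk : k + 2 ≤ n) {L : ℝ} (hE : EtaOK n k L) {S : Set ℝ} {a y : ℝ}
    {f : ℕ → ℝ → ℝ} (hS : Icc a (a + L) ⊆ S) (hf : InW n S f) (hy0 : 0 ≤ y) (hy : y ≤ eta n k L)
    (h : f (k + 1) (a + y) = 0) :
    |f k (a + y)| ≤ (1 - y / eta n k L) * Ee n L k + (2 - y / eta n k L) * Mc n k L := by
  have h1 := CL2 hk hE hS hf hy0 hy h
  have h2 := V1_le hk hE hy0 hy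
  have h3 := neg_V1_le hk hE hy0 hy
  have h4 := pE_convex hk hE hy0 hy
  have h5 := Mc_pos hE
  have h6 : |V1 n k L y| ≤ pE n L k y + 2 * Mc n k L := abs_le'.2 ⟨h2, by linarith⟩
  linarith

theorem crit_le {n k : ℕ} (hk : k + 2 ≤ n) {L : ℝ} (hE : EtaOK n k L) {S : Set ℝ} {a : ℝ}
    {f : ℕ → ℝ → ℝ} (hS : Icc a (a + L) ⊆ S) (hf : InW n S f)
    (h : f (k + 1) (a + eta n k L) = 0) : |f k (a + eta n k L)| ≤ Mc n k L := by
  have hη := hE.pos
  have h1 := zone1 hk hE hS hf hη.le le_rfl h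
  rw [div_self hη.ne'] at h1
  linarith

end Pool.Agent.KFL
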