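import Mathlib

/-!
# KFL/FZ: the first zero of a polynomial depends continuously on the coefficients

`pol N c t = ∑_{i < N} (-1)^i c i t^i / i!`.

* `pol_tendsto`: finite sum of products (`tendsto_finset_sum`, `Tendsto.mul`, `Tendsto.pow`).
* `pol_unif`: `|pol N (c s) t - pol N c0 t| ≤ ∑_{i < N} |c s i - c0 i| a^i` for `0 ≤ t ≤ a`, and the right side tends
  to `0`.
* `first_zero_tendsto`: let `0 < ε < z0`.  (1) `pol N c0` has a positive minimum `m` on the compact interval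
  `[0, z0 - ε]`; by `pol_unif` eventually `pol N (c s) > 0` on `[0, z0 - ε]`, so `z s > z0 - ε` eventually.
  (2) there is `t ∈ (z0, z0 + ε)` with `pol N c0 t < 0`; eventually `pol N (c s) t < 0`, so `z s ≤ t < z0 + ε` (otherwise
  `pol N (c s) > 0` on `[0, z s)` contains `t`).
* `neg_after`: a function with negative derivative at a zero is negative immediately to the right.
-/

open Set Filter Topology

namespace Pool.Agent.KFL

/-- `∑_{i < N} (-1)^i c i t^i / i!` -/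
noncomputable def pol (N : ℕ) (c : ℕ → ℝ) (t : ℝ) : ℝ :=
  ∑ i ∈ Finset.range N, (-1) ^ i * c i * t ^ i / (i.factorial : ℝ)

theorem pol_tendsto {ι : Type} {l : Filter ι} {N : ℕ} {c : ι → ℕ → ℝ} {c0 : ℕ → ℝ}
    (hc : ∀ i, i < N → Tendsto (fun s => c s i) l (𝓝 (c0 i))) {z : ι → ℝ} {z0 : ℝ}
    (hz : Tendsto z l (𝓝 z0)) : Tendsto (fun s => pol N (c s) (z s)) l (𝓝 (pol N c0 z0)) := by
  unfold pol
  apply tendsto_finsetSum
  intro i hi
  have hi' : i < N := Finset.mem_range.mp hi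
  have h1 : Tendsto (fun s => (-1) ^ i * c s i) l (𝓝 ((-1) ^ i * c0 i)) := (hc i hi').const_mul _
  have h2 : Tendsto (fun s => z s ^ i) l (𝓝 (z0 ^ i)) := hz.pow i
  exact (h1.mul h2).div_const _

theorem pol_unif {ι : Type} {l : Filter ι} {N : ℕ} {c : ι → ℕ → ℝ} {c0 : ℕ → ℝ}
    (hc : ∀ i, i < N → Tendsto (fun s => c s i) l (𝓝 (c0 i))) {a ε : ℝ} (hε : 0 < ε) :
    ∀ᶠ s in l, ∀ t, 0 ≤ t → t ≤ a → |pol N (c s) t - pol N c0 t| < ε := by
  have hsum : Tendsto (fun s => ∑ i ∈ Finset.range N, |c s i - c0 i| * |a| ^ i) l (𝓝 0) := by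
    have h0 : (0 : ℝ) = ∑ i ∈ Finset.range N, |c0 i - c0 i| * |a| ^ i := by simp
    rw [h0]
    apply tendsto_finsetSum
    intro i hi
    have hi' : i < N := Finset.mem_range.mp hi
    exact (((hc i hi').sub_const _).abs).mul_const _
  filter_upwards [hsum.eventually (gt_mem_nhds hε)] with s hs t ht0 hta
  refine lt_of_le_of_lt ?_ hs
  unfold pol
  rw [← Finset.sum_sub_distrib]
  refine (Finset.abs_sum_le_sum_abs _ _).trans (Finset.sum_le_sum ?_)
  intro i _
  have h1 : (-1 : ℝ) ^ i * c s i * t ^ i / (i.factorial : ℝ) - (-1) ^ i * c0 i * t ^ i / (i.factorial : ℝ)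
      = (-1) ^ i * (c s i - c0 i) * t ^ i / (i.factorial : ℝ) := by ring
  rw [h1, abs_div, abs_mul, abs_mul, abs_pow, abs_neg, abs_one, one_pow, one_mul, abs_pow, Nat.abs_cast]
  have hf : (1 : ℝ) ≤ (i.factorial : ℝ) := by
    exact_mod_cast Nat.succ_le_of_lt (Nat.factorial_pos i)
  have ht : |t| ^ i ≤ |a| ^ i := by
    apply pow_le_pow_left₀ (abs_nonneg _)
    rw [abs_of_nonneg ht0, abs_of_nonneg (ht0.trans hta)]
    exact hta
  have hnn : 0 ≤ |c s i - c0 i| * |t| ^ i := mul_nonneg (abs_nonneg _) (pow_nonneg (abs_nonneg _) _)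
  calc |c s i - c0 i| * |t| ^ i / (i.factorial : ℝ) ≤ |c s i - c0 i| * |t| ^ i := div_le_self hnn hf
    _ ≤ |c s i - c0 i| * |a| ^ i := mul_le_mul_of_nonneg_left ht (abs_nonneg _)

theorem first_zero_tendsto {ι : Type} {l : Filter ι} {N : ℕ} {c : ι → ℕ → ℝ} {c0 : ℕ → ℝ}
    (hc : ∀ i, i < N → Tendsto (fun s => c s i) l (𝓝 (c0 i))) {z : ι → ℝ} {z0 : ℝ} (hz0 : 0 < z0)
    (h1 : ∀ t, 0 ≤ t → t < z0 → 0 < pol N c0 t)
    (h2 : ∀ ε > 0, ∃ t, z0 < t ∧ t < z0 + ε ∧ pol N c0 t < 0)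
    (hz : ∀ᶠ s in l, 0 < z s ∧ pol N (c s) (z s) = 0 ∧ ∀ t, 0 ≤ t → t < z s → 0 < pol N (c s) t) :
    Tendsto z l (𝓝 z0) := by
  have hcont : Continuous (fun t => pol N c0 t) := by
    unfold pol
    fun_prop
  have hlow : ∀ ε > 0, ∀ᶠ s in l, z0 - ε < z s := by
    intro ε hε
    by_cases hb : z0 - ε < 0
    · filter_upwards [hz] with s hs
      linarith [hs.1]
    · have hb' : 0 ≤ z0 - ε := not_lt.mp hb
      obtain ⟨x, hx, hmin⟩ := isCompact_Icc.exists_isMinOn (nonempty_Icc.mpr hb') hcont.continuousOn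
      have hm : 0 < pol N c0 x := h1 x hx.1 (by linarith [hx.2])
      filter_upwards [hz, pol_unif hc (a := z0 - ε) hm] with s hs hu
      by_contra hcon
      have hle : z s ≤ z0 - ε := not_lt.mp hcon
      have hu' := hu (z s) hs.1.le hle
      rw [hs.2.1, zero_sub, abs_neg] at hu'
      have hge : pol N c0 x ≤ pol N c0 (z s) := hmin (show z s ∈ Icc 0 (z0 - ε) from ⟨hs.1.le, hle⟩)
      linarith [le_abs_self (pol N c0 (z s))]
  have hup : ∀ ε > 0, ∀ᶠ s in l, z s < z0 + ε := by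
    intro ε hε
    obtain ⟨t, ht0, ht1, htn⟩ := h2 ε hε
    have hT := pol_tendsto hc (tendsto_const_nhds (x := t) (f := l))
    filter_upwards [hz, hT.eventually (gt_mem_nhds htn)] with s hs hn
    by_contra hcon
    have hlt : t < z s := by linarith [not_lt.mp hcon]
    have := hs.2.2 t (by linarith) hlt
    linarith
  rw [Metric.tendsto_nhds]
  intro ε hε
  filter_upwards [hlow ε hε, hup ε hε] with s hs1 hs2
  rw [Real.dist_eq, abs_lt]
  constructor <;> linarith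

theorem neg_after {g : ℝ → ℝ} {g' z : ℝ} (hg : HasDerivAt g g' z) (h0 : g z = 0) (h1 : g' < 0) :
    ∀ ε > 0, ∃ t, z < t ∧ t < z + ε ∧ g t < 0 := by
  intro ε hε
  have hev : ∀ᶠ t in 𝓝[>] z, g t < g z := by
    have h := hg.hasDerivWithinAt (s := Ioi z)
    have h2 := hasDerivWithinAt_iff_tendsto_slope.mp h
    rw [sdiff_singleton_eq_self self_notMem_Ioi] at h2
    filter_upwards [h2.eventually (gt_mem_nhds h1), self_mem_nhdsWithin] with t ht htz
    have htz' : z < t := htz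
    rw [slope_def_field, div_neg_iff] at ht
    rcases ht with ht | ht
    · linarith [ht.2]
    · linarith [ht.1]
  have hev2 : ∀ᶠ t in 𝓝[>] z, t < z + ε := by
    have : ∀ᶠ t in 𝓝 z, t < z + ε := gt_mem_nhds (by linarith)
    exact nhdsWithin_le_nhds this
  obtain ⟨t, ht1, ht2, ht3⟩ := (hev.and (hev2.and self_mem_nhdsWithin)).exists
  exact ⟨t, ht3, ht2, by rw [h0] at ht1; exact ht1⟩

end Pool.Agent.KFL
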