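import Pool.Agent.KFL.EtaLow
import Pool.Agent.KFL.FZ

/-!
# KFL/Cont: `eta` and `Mc` are continuous in `L`

* `pE_eq_pol`: the definitions agree.
* `eta_cont` (`k + 3 ≤ n`): `first_zero_tendsto` with `N = n - k`, `c L i = Ee n L (k + 1 + i)` (continuous in `L` by
  `Ee_cont`), `z L = eta n k L`; the hypotheses are fields of `EtaOK` (`etaOK_low`); for `h2` use `neg_after` with
  `pE_hasDeriv`: the derivative of `pE (k+1)` at `eta` is `- pE (k+2) (eta) < 0` (`higher`).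
* `Mc_cont`: `pol_tendsto` with `N = n + 1 - k`.
* `eta_top`, `Mc_top` (`k + 2 = n`): `pE n L (n-1) t = E_{n-1} - t` (`pE_pred`) has the only zero `E_{n-1} > 0`;
  `pE n L (n-2) t = E_{n-2} - E_{n-1} t + t^2 / 2`.
* `eta_cont_top`, `Mc_cont_top`: from these formulas and `Ee_cont`.
-/

open Set Filter Topology

namespace Pool.Agent.KFL

open Pool.Agent.LKI

theorem pE_eq_pol (n : ℕ) (L : ℝ) (j : ℕ) (t : ℝ) :
    pE n L j t = pol (n + 1 - j) (fun i => Ee n L (j + i)) t := rfl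

private theorem Cont_Ee_tendsto {n : ℕ} (hn : 2 ≤ n) (j : ℕ) {L : ℝ} (hL : 0 < L) :
    Tendsto (fun s => Ee n s j) (𝓝 L) (𝓝 (Ee n L j)) :=
  (Ee_cont hn j).continuousAt (Ioi_mem_nhds hL)

theorem eta_cont {n k : ℕ} (hk : k + 3 ≤ n) : ContinuousOn (fun L => eta n k L) (Ioi 0) := by
  intro L₀ hL₀
  apply ContinuousAt.continuousWithinAt
  have hL : (0 : ℝ) < L₀ := hL₀
  have hE := etaOK_low hk hL
  refine first_zero_tendsto (N := n + 1 - (k + 1)) (c := fun L i => Ee n L (k + 1 + i))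
    (c0 := fun i => Ee n L₀ (k + 1 + i)) (fun i _ => Cont_Ee_tendsto (by omega) _ hL) hE.pos ?_ ?_ ?_
  · intro t h0 h1
    exact hE.before t h0 h1
  · intro ε hε
    exact neg_after (pE_hasDeriv n L₀ (k + 1) (eta n k L₀)) hE.zero
      (neg_neg_of_pos (hE.higher (k + 2) le_rfl (by omega) _ hE.pos.le le_rfl)) ε hε
  · filter_upwards [Ioi_mem_nhds hL] with s hs
    have hE' := etaOK_low hk hs
    exact ⟨hE'.pos, hE'.zero, fun t h0 h1 => hE'.before t h0 h1⟩

theorem Mc_cont {n k : ℕ} (hk : k + 3 ≤ n) : ContinuousOn (fun L => Mc n k L) (Ioi 0) := by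
  intro L₀ hL₀
  apply ContinuousAt.continuousWithinAt
  have hL : (0 : ℝ) < L₀ := hL₀
  have h1 : Tendsto (fun L => eta n k L) (𝓝 L₀) (𝓝 (eta n k L₀)) :=
    (eta_cont hk).continuousAt (Ioi_mem_nhds hL)
  exact (pol_tendsto (N := n + 1 - k) (c := fun L i => Ee n L (k + i))
    (c0 := fun i => Ee n L₀ (k + i)) (fun i _ => Cont_Ee_tendsto (by omega) _ hL) h1).neg

theorem eta_top {n k : ℕ} (hk : k + 2 = n) {L : ℝ} (hL : 0 < L) : eta n k L = Ee n L (n - 1) := by
  have e : k + 1 = n - 1 := by omega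
  apply eta_eq
  · exact lt_of_lt_of_le one_pos (Ee_ge_one (by omega) hL _)
  · rw [e, pE_pred (by omega)]
    ring
  · intro t _ h1
    rw [e, pE_pred (by omega)]
    linarith

theorem Mc_top {n k : ℕ} (hk : k + 2 = n) {L : ℝ} (hL : 0 < L) :
    Mc n k L = Ee n L (n - 1) ^ 2 / 2 - Ee n L (n - 2) := by
  subst hk
  unfold Mc
  rw [eta_top rfl hL]
  have e1 : k + 2 + 1 - k = 3 := by omega
  have e2 : k + 2 - 1 = k + 1 := by omega
  have e3 : k + 2 - 2 = k := by omega
  unfold pE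
  rw [e1, e2, e3, Finset.sum_range_succ, Finset.sum_range_succ, Finset.sum_range_one, Ee_top]
  norm_num [Nat.factorial]
  ring

theorem eta_cont_top {n k : ℕ} (hk : k + 2 = n) : ContinuousOn (fun L => eta n k L) (Ioi 0) :=
  (Ee_cont (by omega) (n - 1)).congr fun L hL => eta_top hk hL

theorem Mc_cont_top {n k : ℕ} (hk : k + 2 = n) : ContinuousOn (fun L => Mc n k L) (Ioi 0) := by
  have h := (((Ee_cont (n := n) (by omega) (n - 1)).pow 2).div_const 2).sub
    (Ee_cont (n := n) (by omega) (n - 2))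
  exact h.congr fun L hL => Mc_top hk hL

end Pool.Agent.KFL
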