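import Pool.Agent.LKI.A2

/-!
# Karlin's conjecture, flow theory: the count of sign alternations (master lemma)

`d 0, ..., d (n-1)` is a chain of derivatives in the sense of `Mvt` on `[0, b]`; `d (n-1)` is monotone on
each of `P + 1` pieces, in the direction `δ (-1)^(n+i)` on the `i`-th piece (`Pcs`).

* `Inc g S m σ`: `m` alternating increments, the first one of the sign of `σ`.
* `Pat s lo hi g e`: the sequence `s lo, ..., s hi` has, in this order, values of the signs
  `-e, e, -e, ...` (`g` of them); `PatW`: the same with weak signs (zeros are allowed).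

`count_left`: if `d j` has `q` sign alternations, the first sign being that of `ρ`, and the numbers
`(-1)^i d i 0`, `j ≤ i ≤ n-1`, follow a pattern of `g` sign changes which starts from the sign of `(-1)^j ρ`,
then `q + g + ε ≤ P + (n - j)`, where `ε = 1` is allowed if the sign at the end of the pattern is not the
sign of `δ`.

`count_double`: if moreover `d k y = d (k+1) y = 0` for some `0 < y < b`, `j ≤ k`, `k + 1 < n`, then
`q + g + ε + 2 ≤ P + (n - j)`.
-/

open Set

namespace Pool.Agent.KFL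

open Pool.Agent.LKI

/-- `m` alternating increments on `S`, the first one of the sign of `σ`. -/
def Inc (g : ℝ → ℝ) (S : Set ℝ) (m : ℕ) (σ : ℝ) : Prop :=
  ∃ w : ℕ → ℝ, (∀ i, i ≤ m → w i ∈ S) ∧ (∀ i, i < m → w i < w (i + 1)) ∧
    ∀ i, i < m → 0 < σ * (-1) ^ i * (g (w (i + 1)) - g (w i))

/-- monotonicity on `P + 1` consecutive pieces of `[0, b]` -/
def Pcs (n P : ℕ) (b δ : ℝ) (g : ℝ → ℝ) : Prop :=
  ∃ ξ : ℕ → ℝ, ξ 0 = 0 ∧ ξ (P + 1) = b ∧ (∀ i, i ≤ P → ξ i ≤ ξ (i + 1)) ∧
    ∀ i, i ≤ P → ∀ s ∈ Icc (ξ i) (ξ (i + 1)), ∀ t ∈ Icc (ξ i) (ξ (i + 1)), s < t →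
      0 ≤ δ * (-1) ^ (n + i) * (g t - g s)

/-- strict monotonicity on `P + 1` consecutive pieces of `[0, b]` -/
def PcsS (n P : ℕ) (b δ : ℝ) (g : ℝ → ℝ) : Prop :=
  ∃ ξ : ℕ → ℝ, ξ 0 = 0 ∧ ξ (P + 1) = b ∧ (∀ i, i ≤ P → ξ i ≤ ξ (i + 1)) ∧
    ∀ i, i ≤ P → ∀ s ∈ Icc (ξ i) (ξ (i + 1)), ∀ t ∈ Icc (ξ i) (ξ (i + 1)), s < t →
      0 < δ * (-1) ^ (n + i) * (g t - g s)

theorem PcsS.weak {n P : ℕ} {b δ : ℝ} {g : ℝ → ℝ} (h : PcsS n P b δ g) : Pcs n P b δ g := by
  obtain ⟨ξ, h1, h2, h3, h4⟩ := h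
  exact ⟨ξ, h1, h2, h3, fun i hi s hs t ht hst => (h4 i hi s hs t ht hst).le⟩

/-- sign pattern -/
def Pat (s : ℕ → ℝ) (lo hi g : ℕ) (e : ℝ) : Prop :=
  ∃ idx : ℕ → ℕ, (∀ i, i < g → lo ≤ idx i ∧ idx i ≤ hi) ∧ (∀ i, i + 1 < g → idx i < idx (i + 1)) ∧
    ∀ i, i < g → 0 < e * (-1) ^ (i + 1) * s (idx i)

/-- weak sign pattern -/
def PatW (s : ℕ → ℝ) (lo hi g : ℕ) (e : ℝ) : Prop :=
  ∃ idx : ℕ → ℕ, (∀ i, i < g → lo ≤ idx i ∧ idx i ≤ hi) ∧ (∀ i, i + 1 < g → idx i < idx (i + 1)) ∧
    ∀ i, i < g → 0 ≤ e * (-1) ^ (i + 1) * s (idx i)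

theorem Pat.weak {s : ℕ → ℝ} {lo hi g : ℕ} {e : ℝ} (h : Pat s lo hi g e) : PatW s lo hi g e := by
  obtain ⟨idx, h1, h2, h3⟩ := h
  exact ⟨idx, h1, h2, fun i hi => (h3 i hi).le⟩

theorem Alt.toInc {g : ℝ → ℝ} {S : Set ℝ} {q : ℕ} {ρ : ℝ} (h : Alt g S q ρ) : Inc g S q (-ρ) := by
  obtain ⟨x, h1, h2, h3⟩ := h
  refine ⟨x, h1, h2, fun i hi => ?_⟩
  have e1 := h3 i hi.le
  have e2 := h3 (i + 1) hi
  rw [pow_succ] at e2
  nlinarith

theorem Inc.toAlt {g g' : ℝ → ℝ} {a b : ℝ} {m : ℕ} {σ : ℝ} (hm : Mvt g g' a b)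
    (h : Inc g (Icc a b) (m + 1) σ) : Alt g' (Ioo a b) m σ := by
  obtain ⟨w, h1, h2, h3⟩ := h
  refine alt_step hm h1 (fun i hi => h2 i (by omega)) fun i hi => ?_
  have := h3 i (by omega)
  nlinarith

/-- extension of an alternation by the left end point -/
theorem Alt.cons {g : ℝ → ℝ} {a b : ℝ} {q : ℕ} {ρ : ℝ} (h : Alt g (Icc a b) q ρ) (ha : ρ * g a < 0) :
    Alt g (Icc a b) (q + 1) (-ρ) := by
  obtain ⟨x, h1, h2, h3⟩ := h
  have h0 : a < x 0 := by
    refine lt_of_le_of_ne (h1 0 (by omega)).1 fun he => ?_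
    have := h3 0 (by omega)
    rw [← he, pow_zero, mul_one] at this
    linarith
  have hab : a ≤ b := (h1 0 (by omega)).1.trans (h1 0 (by omega)).2
  refine ⟨fun i => if i = 0 then a else x (i - 1), ?_, ?_, ?_⟩
  · intro i hi
    rcases Nat.eq_zero_or_pos i with rfl | hp
    · exact ⟨le_rfl, hab⟩
    · simp only [hp.ne', if_false]
      exact h1 _ (by omega)
  · intro i hi
    rcases Nat.eq_zero_or_pos i with rfl | hp
    · simpa using h0
    · obtain ⟨k, rfl⟩ : ∃ k, i = k + 1 := ⟨i - 1, by omega⟩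
      simpa using h2 k (by omega)
  · intro i hi
    rcases Nat.eq_zero_or_pos i with rfl | hp
    · simp only [pow_zero, mul_one, if_true]
      linarith
    · obtain ⟨k, rfl⟩ : ∃ k, i = k + 1 := ⟨i - 1, by omega⟩
      have e1 := h3 k (by omega)
      simp only [Nat.add_one_ne_zero, if_false, Nat.add_sub_cancel]
      rw [pow_succ]
      linarith

/-- extension of increments by the left end point -/
theorem Inc.cons {g : ℝ → ℝ} {a b : ℝ} {m : ℕ} {σ w0 : ℝ}
    (h : ∃ w : ℕ → ℝ, w 0 = w0 ∧ (∀ i, i ≤ m → w i ∈ Icc a b) ∧ (∀ i, i < m → w i < w (i + 1)) ∧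
      ∀ i, i < m → 0 < σ * (-1) ^ i * (g (w (i + 1)) - g (w i)))
    (ha : a < w0) (h0 : 0 < -σ * (g w0 - g a)) : Inc g (Icc a b) (m + 1) (-σ) := by
  obtain ⟨w, hw0, h1, h2, h3⟩ := h
  have hab : a ≤ b := (h1 0 (by omega)).1.trans (h1 0 (by omega)).2
  refine ⟨fun i => if i = 0 then a else w (i - 1), ?_, ?_, ?_⟩
  · intro i hi
    rcases Nat.eq_zero_or_pos i with rfl | hp
    · exact ⟨le_rfl, hab⟩
    · simp only [hp.ne', if_false]
      exact h1 _ (by omega)
  · intro i hi
    rcases Nat.eq_zero_or_pos i with rfl | hp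
    · simp only [if_true, zero_add, one_ne_zero, if_false, Nat.sub_self, hw0]
      exact ha
    · obtain ⟨k, rfl⟩ : ∃ k, i = k + 1 := ⟨i - 1, by omega⟩
      simpa using h2 k (by omega)
  · intro i hi
    rcases Nat.eq_zero_or_pos i with rfl | hp
    · simp only [if_true, zero_add, one_ne_zero, if_false, Nat.sub_self, hw0, pow_zero, mul_one]
      exact h0
    · obtain ⟨k, rfl⟩ : ∃ k, i = k + 1 := ⟨i - 1, by omega⟩
      have e1 := h3 k (by omega)
      simp only [Nat.add_one_ne_zero, if_false, Nat.add_sub_cancel]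
      rw [pow_succ]
      linarith

/-- `LKI.pieces` with weak monotonicity -/
theorem pieces_w {P m : ℕ} {b δ : ℝ} {g : ℝ → ℝ} {ξ y : ℕ → ℝ}
    (ξ0 : ξ 0 = 0) (ξb : ξ (P + 1) = b) (hξ : ∀ i, i ≤ P → ξ i ≤ ξ (i + 1))
    (hs : ∀ i, i ≤ P → ∀ s ∈ Icc (ξ i) (ξ (i + 1)), ∀ t ∈ Icc (ξ i) (ξ (i + 1)), s < t →
      0 ≤ δ * (-1) ^ i * (g t - g s))
    (hy0 : 0 ≤ y 0) (hyb : ∀ i, i ≤ m + 1 → y i ≤ b) (hy : ∀ i, i ≤ m → y i < y (i + 1))
    (hg : ∀ i, i ≤ m → δ * (-1) ^ i * (g (y (i + 1)) - g (y i)) < 0) : m + 1 ≤ P := by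
  have key : ∀ i, i ≤ m + 1 → i ≤ P ∧ ξ i ≤ y i := by
    intro i
    induction i with
    | zero => exact fun _ => ⟨Nat.zero_le _, by rw [ξ0]; exact hy0⟩
    | succ i ih =>
      intro hi
      obtain ⟨h1, h2⟩ := ih (by omega)
      have hlt := hy i (by omega)
      have h3 : ξ (i + 1) < y (i + 1) := by
        by_contra hcon
        push Not at hcon
        have h4 := hs i h1 (y i) ⟨h2, hlt.le.trans hcon⟩ (y (i + 1)) ⟨h2.trans hlt.le, hcon⟩ hlt
        have h5 := hg i (by omega)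
        linarith
      refine ⟨?_, h3.le⟩
      by_contra hcon
      have hiP : i = P := by omega
      subst hiP
      have h6 := hyb (i + 1) hi
      rw [ξb] at h3
      linarith
  exact (key (m + 1) le_rfl).1

/-- the last step: number of alternating increments of a piecewise monotone function -/
theorem Pcs.inc_le {n P m : ℕ} {b δ σ : ℝ} {g : ℝ → ℝ} (hP : Pcs n P b δ g)
    (h : Inc g (Icc 0 b) m σ) (hs : σ * (δ * (-1) ^ n) < 0) : m ≤ P := by
  obtain ⟨ξ, ξ0, ξb, hξ, hsl⟩ := hP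
  obtain ⟨w, h1, h2, h3⟩ := h
  rcases Nat.eq_zero_or_pos m with rfl | hm
  · exact Nat.zero_le _
  obtain ⟨p, rfl⟩ : ∃ p, m = p + 1 := ⟨m - 1, by omega⟩
  refine pieces_w (δ := δ * (-1) ^ n) (g := g) (ξ := ξ) (y := w) ξ0 ξb hξ ?_ (h1 0 (by omega)).1
    (fun i hi => (h1 i hi).2) (fun i hi => h2 i (by omega)) ?_
  · intro i hi s hs1 t ht1 hst
    have := hsl i hi s hs1 t ht1 hst
    rwa [pow_add, ← mul_assoc] at this
  · intro i hi
    have e := h3 i (by omega)
    have e2 : 0 < (-(σ * (δ * (-1) ^ n))) * (σ * (-1) ^ i * (g (w (i + 1)) - g (w i))) :=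
      mul_pos (by linarith) e
    have hσ : σ ≠ 0 := by
      rintro rfl
      simp at hs
    have hσ2 : 0 < σ ^ 2 := by positivity
    have e3 : (-(σ * (δ * (-1) ^ n))) * (σ * (-1) ^ i * (g (w (i + 1)) - g (w i))) =
        σ ^ 2 * (-(δ * (-1) ^ n * (-1) ^ i * (g (w (i + 1)) - g (w i)))) := by ring
    rw [e3] at e2
    have := pos_of_mul_pos_right e2 hσ2.le
    linarith

theorem Inc.tail {g : ℝ → ℝ} {S : Set ℝ} {m : ℕ} {σ : ℝ} (h : Inc g S (m + 1) σ) : Inc g S m (-σ) := by
  obtain ⟨w, h1, h2, h3⟩ := h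
  refine ⟨fun i => w (i + 1), fun i hi => h1 _ (by omega), fun i hi => h2 _ (by omega), fun i hi => ?_⟩
  have := h3 (i + 1) (by omega)
  rw [pow_succ] at this
  linarith

theorem Pcs.inc_le' {n P m : ℕ} {b δ σ : ℝ} {g : ℝ → ℝ} (hP : Pcs n P b δ g)
    (h : Inc g (Icc 0 b) m σ) (hσ : σ ≠ 0) (hδ : δ ≠ 0) : m ≤ P + 1 := by
  rcases Nat.eq_zero_or_pos m with rfl | hm
  · exact Nat.zero_le _
  obtain ⟨p, rfl⟩ : ∃ p, m = p + 1 := ⟨m - 1, by omega⟩
  have hne : σ * (δ * (-1) ^ n) ≠ 0 :=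
    mul_ne_zero hσ (mul_ne_zero hδ (pow_ne_zero _ (by norm_num)))
  rcases lt_or_gt_of_ne hne with h1 | h1
  · have := hP.inc_le h h1
    omega
  · have := hP.inc_le h.tail (by linarith)
    omega

/-- the allowed values of the extra gain -/
def Eps (ε : ℕ) (x : ℝ) : Prop := ε = 0 ∨ (ε = 1 ∧ x < 0)

theorem Alt.rho_ne {g : ℝ → ℝ} {S : Set ℝ} {q : ℕ} {ρ : ℝ} (h : Alt g S q ρ) : ρ ≠ 0 := by
  obtain ⟨x, h1, h2, h3⟩ := h
  rintro rfl
  have := h3 0 (Nat.zero_le _)
  simp at this

theorem neg_one_sq_pow (j : ℕ) : ((-1 : ℝ) ^ j) * (-1) ^ j = 1 := by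
  rw [← mul_pow]; norm_num

/-- weaker patterns: the indices start at `j + 1` unless the first one is `j` -/
theorem PatW.split {s : ℕ → ℝ} {j hi g : ℕ} {e : ℝ} (h : PatW s j hi g e) :
    PatW s (j + 1) hi g e ∨ ∃ g', g = g' + 1 ∧ e * s j ≤ 0 ∧ PatW s (j + 1) hi g' (-e) := by
  obtain ⟨idx, hi1, hi2, hi3⟩ := h
  rcases Nat.eq_zero_or_pos g with rfl | hg
  · exact Or.inl ⟨idx, fun i hi => absurd hi (by omega), fun i hi => absurd hi (by omega),
      fun i hi => absurd hi (by omega)⟩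
  have hmono : ∀ i, i < g → idx 0 + i ≤ idx i := by
    intro i
    induction i with
    | zero => exact fun _ => le_rfl
    | succ i ih' =>
      intro h
      have h1 := ih' (by omega)
      have h2 := hi2 i h
      omega
  rcases Nat.lt_or_ge j (idx 0) with hlt | hge
  · refine Or.inl ⟨idx, fun i hi => ⟨?_, (hi1 i hi).2⟩, hi2, hi3⟩
    have := hmono i hi
    omega
  · have h0 : idx 0 = j := le_antisymm hge (hi1 0 hg).1
    obtain ⟨g', rfl⟩ : ∃ g', g = g' + 1 := ⟨g - 1, by omega⟩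
    have h3 := hi3 0 hg
    rw [h0] at h3
    refine Or.inr ⟨g', rfl, ?_, fun i => idx (i + 1), fun i hi => ⟨?_, (hi1 _ (by omega)).2⟩,
      fun i hi => hi2 _ (by omega), fun i hi => ?_⟩
    · simp only [zero_add, pow_one] at h3
      linarith
    · have := hmono (i + 1) (by omega)
      show j + 1 ≤ idx (i + 1)
      omega
    · have := hi3 (i + 1) (by omega)
      rw [pow_succ] at this
      linarith

theorem PatW.le {s : ℕ → ℝ} {j hi g : ℕ} {e : ℝ} (h : PatW s j hi g e) : g = 0 ∨ j + g ≤ hi + 1 := by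
  obtain ⟨idx, hi1, hi2, hi3⟩ := h
  rcases Nat.eq_zero_or_pos g with rfl | hg
  · exact Or.inl rfl
  right
  have hmono : ∀ i, i < g → j + i ≤ idx i := by
    intro i
    induction i with
    | zero => exact fun h => (hi1 0 h).1
    | succ i ih' =>
      intro h
      have h1 := ih' (by omega)
      have h2 := hi2 i h
      omega
  have h1 := hmono (g - 1) (by omega)
  have h2 := (hi1 (g - 1) (by omega)).2
  omega

/-- `count_left` -/
theorem count_left {n P : ℕ} {b δ : ℝ} {d : ℕ → ℝ → ℝ} (hδ : δ ≠ 0)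
    (hm : ∀ j, j + 1 < n → Mvt (d j) (d (j + 1)) 0 b) (hP : Pcs n P b δ (d (n - 1))) :
    ∀ m j, j + m + 1 = n → ∀ (g q : ℕ) (ρ : ℝ) (ε : ℕ), Alt (d j) (Icc 0 b) q ρ →
      PatW (fun i => (-1) ^ i * d i 0) j (n - 1) g ((-1) ^ j * ρ) →
      Eps ε ((-1) ^ j * ρ * (-1) ^ g * δ) → q + g + ε ≤ P + (m + 1) := by
  intro m
  induction m with
  | zero =>
    intro j hj g q ρ ε hA hpat hε
    have hjn : j = n - 1 := by omega
    subst hjn
    have en : (-1 : ℝ) ^ n = -(-1) ^ (n - 1) := by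
      obtain ⟨N, rfl⟩ : ∃ N, n = N + 1 := ⟨n - 1, by omega⟩
      rw [Nat.add_sub_cancel, pow_succ]; ring
    rcases hpat.split with h | ⟨g', rfl, hs, hpat'⟩
    · have hg : g = 0 := by
        rcases h.le with h1 | h1 <;> omega
      subst hg
      have hI := Alt.toInc hA
      rcases hε with rfl | ⟨rfl, h⟩
      · exact hP.inc_le' hI (neg_ne_zero.2 (Alt.rho_ne hA)) hδ
      · have := hP.inc_le hI (by
          rw [en]
          rw [pow_zero, mul_one] at h
          linarith)
        omega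
    · have hg : g' = 0 := by
        rcases hpat'.le with h1 | h1 <;> omega
      subst hg
      have e1 : (-1 : ℝ) ^ (n - 1) * ρ * ((-1) ^ (n - 1) * d (n - 1) 0) =
          ((-1 : ℝ) ^ (n - 1) * (-1) ^ (n - 1)) * (ρ * d (n - 1) 0) := by ring
      rw [e1, neg_one_sq_pow, one_mul] at hs
      obtain ⟨x, hx1, hx2, hx3⟩ := hA
      have h00 := hx3 0 (Nat.zero_le _)
      rw [pow_zero, mul_one] at h00
      have hx0 : 0 < x 0 := by
        refine lt_of_le_of_ne (hx1 0 (by omega)).1 fun he => ?_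
        rw [← he] at h00
        linarith
      have hρ : ρ ≠ 0 := by
        rintro rfl
        simp at h00
      have hI : Inc (d (n - 1)) (Icc 0 b) (q + 1) (-(-ρ)) := by
        refine Inc.cons (w0 := x 0) ⟨x, rfl, hx1, hx2, fun i hi => ?_⟩ hx0 (by linarith)
        have e1 := hx3 i (by omega)
        have e2 := hx3 (i + 1) (by omega)
        rw [pow_succ] at e2
        nlinarith
      rw [neg_neg] at hI
      rcases hε with rfl | ⟨rfl, h⟩
      · have := hP.inc_le' hI hρ hδ
        omega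
      · have := hP.inc_le hI (by
          rw [en]
          rw [zero_add, pow_one] at h
          linarith)
        omega
  | succ m ih =>
    intro j hj g q ρ ε hA hpat hε
    rcases hpat.split with h | ⟨g', rfl, hs, hpat'⟩
    · rcases Nat.eq_zero_or_pos q with rfl | hq
      · have hε1 : ε ≤ 1 := by
          rcases hε with h | ⟨h, -⟩ <;> omega
        rcases h.le with h1 | h1 <;> omega
      · obtain ⟨q', rfl⟩ : ∃ q', q = q' + 1 := ⟨q - 1, by omega⟩
        have hA' := (alt_none (hm j (by omega)) hA).mono Ioo_subset_Icc_self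
        have e1 : (-1 : ℝ) ^ (j + 1) * (-ρ) = (-1) ^ j * ρ := by rw [pow_succ]; ring
        have := ih (j + 1) (by omega) g q' (-ρ) ε hA' (by rw [e1]; exact h) (by rw [e1]; exact hε)
        omega
    · have e1 : (-1 : ℝ) ^ j * ρ * ((-1) ^ j * d j 0) =
          ((-1 : ℝ) ^ j * (-1) ^ j) * (ρ * d j 0) := by ring
      rw [e1, neg_one_sq_pow, one_mul] at hs
      have hA' := (alt_left (hm j (by omega)) hA hs).mono Ioo_subset_Icc_self
      have e2 : (-1 : ℝ) ^ (j + 1) * ρ = -((-1) ^ j * ρ) := by rw [pow_succ]; ring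
      have := ih (j + 1) (by omega) g' q ρ ε hA' (by rw [e2]; exact hpat') (by
        rw [e2]
        rcases hε with h | ⟨h, h'⟩
        · exact Or.inl h
        · refine Or.inr ⟨h, ?_⟩
          rw [pow_succ] at h'
          linarith)
      omega

/-- weaker patterns: the indices start at `j + 1` unless the first one is `j` -/
theorem Pat.split {s : ℕ → ℝ} {j hi g : ℕ} {e : ℝ} (h : Pat s j hi g e) :
    Pat s (j + 1) hi g e ∨ ∃ g', g = g' + 1 ∧ e * s j < 0 ∧ Pat s (j + 1) hi g' (-e) := by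
  obtain ⟨idx, hi1, hi2, hi3⟩ := h
  rcases Nat.eq_zero_or_pos g with rfl | hg
  · exact Or.inl ⟨idx, fun i hi => absurd hi (by omega), fun i hi => absurd hi (by omega),
      fun i hi => absurd hi (by omega)⟩
  have hmono : ∀ i, i < g → idx 0 + i ≤ idx i := by
    intro i
    induction i with
    | zero => exact fun _ => le_rfl
    | succ i ih' =>
      intro h
      have h1 := ih' (by omega)
      have h2 := hi2 i h
      omega
  rcases Nat.lt_or_ge j (idx 0) with hlt | hge
  · refine Or.inl ⟨idx, fun i hi => ⟨?_, (hi1 i hi).2⟩, hi2, hi3⟩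
    have := hmono i hi
    omega
  · have h0 : idx 0 = j := le_antisymm hge (hi1 0 hg).1
    obtain ⟨g', rfl⟩ : ∃ g', g = g' + 1 := ⟨g - 1, by omega⟩
    have h3 := hi3 0 hg
    rw [h0] at h3
    refine Or.inr ⟨g', rfl, ?_, fun i => idx (i + 1), fun i hi => ⟨?_, (hi1 _ (by omega)).2⟩,
      fun i hi => hi2 _ (by omega), fun i hi => ?_⟩
    · simp only [zero_add, pow_one] at h3
      linarith
    · have := hmono (i + 1) (by omega)
      show j + 1 ≤ idx (i + 1)
      omega
    · have := hi3 (i + 1) (by omega)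
      rw [pow_succ] at this
      linarith

/-- two equations at one point: two more alternating increments one level higher -/
theorem double_inc {g g' : ℝ → ℝ} {b y : ℝ} {q : ℕ} {ρ : ℝ} (hm : Mvt g g' 0 b)
    (hA : Alt g (Icc 0 b) q ρ) (hy0 : 0 < y) (hyb : y < b) (h0 : g y = 0) (h1 : g' y = 0) :
    Inc g' (Icc 0 b) (q + 1) ρ ∧ (0 < ρ * g' 0 → Inc g' (Icc 0 b) (q + 2) (-ρ)) := by
  obtain ⟨x, hx1, hx2, hx3⟩ := hA
  have hne : ∀ i, i ≤ q → x i ≠ y := by
    intro i hi he
    have := hx3 i hi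
    rw [he, h0] at this
    simp at this
  have hxm : ∀ i j, i ≤ j → j ≤ q → x i ≤ x j := by
    intro i j hij
    induction j, hij using Nat.le_induction with
    | base => exact fun _ => le_rfl
    | succ j hij ih => exact fun h => (ih (by omega)).trans (hx2 j (by omega)).le
  -- the position of y
  obtain ⟨p, hp, hpL, hpR⟩ : ∃ p, p ≤ q + 1 ∧ (∀ i, i < p → x i < y) ∧
      ∀ i, p ≤ i → i ≤ q → y < x i := by
    by_cases h : ∃ j, j ≤ q ∧ y < x j
    · classical
      refine ⟨Nat.find h, ?_, ?_, ?_⟩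
      · exact (Nat.find_spec h).1.trans (Nat.le_succ _)
      · intro i hi
        have h2 := Nat.find_min h hi
        have h3 : i ≤ q := hi.le.trans (Nat.find_spec h).1
        by_contra hcon
        exact h2 ⟨h3, lt_of_le_of_ne (not_lt.1 hcon) (hne i h3).symm⟩
      · intro i hi hiq
        exact (Nat.find_spec h).2.trans_le (hxm _ _ hi hiq)
    · refine ⟨q + 1, le_rfl, ?_, ?_⟩
      · intro i hi
        by_contra hcon
        exact h ⟨i, by omega, lt_of_le_of_ne (not_lt.1 hcon) (hne i (by omega)).symm⟩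
      · intro i hi hiq
        omega
  -- augmented sequence
  obtain ⟨X, hX⟩ : ∃ X : ℕ → ℝ, X = fun j => if j < p then x j else if j = p then y else x (j - 1) :=
    ⟨_, rfl⟩
  have XL : ∀ j, j < p → X j = x j := fun j hj => by rw [hX]; simp [hj]
  have XP : X p = y := by rw [hX]; simp
  have XR : ∀ j, p < j → X j = x (j - 1) := fun j hj => by
    rw [hX]; simp [show ¬ j < p by omega, show j ≠ p by omega]
  have hXm : ∀ j, j ≤ q → X j < X (j + 1) := by
    intro j hj
    rcases lt_trichotomy j p with h | h | h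
    · rcases Nat.lt_or_ge (j + 1) p with h' | h'
      · rw [XL j h, XL _ h']
        exact hx2 j (by omega)
      · have e : j + 1 = p := by omega
        rw [XL j h, e, XP]
        exact hpL j h
    · subst h
      rw [XP, XR _ (by omega), Nat.add_sub_cancel]
      exact hpR j le_rfl hj
    · rw [XR j h, XR _ (by omega), Nat.add_sub_cancel]
      have := hx2 (j - 1) (by omega)
      rwa [show j - 1 + 1 = j by omega] at this
  have hXI : ∀ j, j ≤ q + 1 → X j ∈ Icc 0 b := by
    intro j hj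
    rcases lt_trichotomy j p with h | h | h
    · rw [XL j h]; exact hx1 j (by omega)
    · subst h
      rw [XP]; exact ⟨hy0.le, hyb.le⟩
    · rw [XR j h]; exact hx1 _ (by omega)
  have hz : ∀ j, ∃ z : ℝ, j ≤ q → X j < z ∧ z < X (j + 1) ∧
      (j < p → 0 < -ρ * (-1) ^ j * g' z) ∧ (p ≤ j → 0 < ρ * (-1) ^ j * g' z) := by
    intro j
    by_cases hj : j ≤ q
    swap
    · exact ⟨0, fun h => absurd h hj⟩
    rcases Nat.lt_or_ge j p with h | h
    · have hlt : -ρ * (-1) ^ j * g (X j) < -ρ * (-1) ^ j * g (X (j + 1)) := by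
        have e1 := hx3 j (by omega)
        rw [XL j h]
        rcases Nat.lt_or_ge (j + 1) p with h' | h'
        · have e2 := hx3 (j + 1) (by omega)
          rw [XL _ h']
          rw [pow_succ] at e2
          nlinarith
        · have e : j + 1 = p := by omega
          rw [e, XP, h0]
          linarith
      obtain ⟨z, hz1, hz2⟩ := mvt_up hm (hXI j (by omega)).1 (hXm j hj) (hXI (j + 1) (by omega)).2 hlt
      exact ⟨z, fun _ => ⟨hz1.1, hz1.2, fun _ => hz2, fun h' => absurd h (by omega)⟩⟩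
    · have hlt : ρ * (-1) ^ j * g (X j) < ρ * (-1) ^ j * g (X (j + 1)) := by
        have e2 := hx3 j hj
        rw [XR (j + 1) (by omega), Nat.add_sub_cancel]
        rcases Nat.lt_or_ge p j with h' | h'
        · have e1 := hx3 (j - 1) (by omega)
          rw [XR j h']
          obtain ⟨i, rfl⟩ : ∃ i, j = i + 1 := ⟨j - 1, by omega⟩
          rw [Nat.add_sub_cancel] at e1 ⊢
          rw [pow_succ] at e2 ⊢
          nlinarith
        · have e : j = p := by omega
          rw [e, XP, h0]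
          rw [e] at e2
          linarith
      obtain ⟨z, hz1, hz2⟩ := mvt_up hm (hXI j (by omega)).1 (hXm j hj) (hXI (j + 1) (by omega)).2 hlt
      exact ⟨z, fun _ => ⟨hz1.1, hz1.2, fun h' => absurd h' (by omega), fun _ => hz2⟩⟩
  choose z hz using hz
  obtain ⟨W, hW⟩ : ∃ W : ℕ → ℝ, W = fun j => if j < p then z j else if j = p then y else z (j - 1) :=
    ⟨_, rfl⟩
  have WL : ∀ j, j < p → W j = z j := fun j hj => by rw [hW]; simp [hj]
  have WP : W p = y := by rw [hW]; simp
  have WR : ∀ j, p < j → W j = z (j - 1) := fun j hj => by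
    rw [hW]; simp [show ¬ j < p by omega, show j ≠ p by omega]
  have hW1 : ∀ i, i ≤ q + 1 → W i ∈ Icc 0 b := by
    intro j hj
    rcases lt_trichotomy j p with h | h | h
    · rw [WL j h]
      obtain ⟨h1, h2, -, -⟩ := hz j (by omega)
      exact ⟨(hXI j (by omega)).1.trans h1.le, h2.le.trans (hXI (j + 1) (by omega)).2⟩
    · subst h
      rw [WP]; exact ⟨hy0.le, hyb.le⟩
    · rw [WR j h]
      obtain ⟨h1, h2, -, -⟩ := hz (j - 1) (by omega)
      exact ⟨(hXI (j - 1) (by omega)).1.trans h1.le, h2.le.trans (hXI (j - 1 + 1) (by omega)).2⟩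
  have hW2 : ∀ i, i < q + 1 → W i < W (i + 1) := by
    intro j hj
    rcases lt_trichotomy j p with h | h | h
    · obtain ⟨h1, h2, -, -⟩ := hz j (by omega)
      rcases Nat.lt_or_ge (j + 1) p with h' | h'
      · rw [WL j h, WL _ h']
        exact h2.trans (hz (j + 1) (by omega)).1
      · have e : j + 1 = p := by omega
        rw [WL j h, e, WP]
        rwa [e, XP] at h2
    · subst h
      rw [WP, WR _ (by omega), Nat.add_sub_cancel]
      obtain ⟨h1, h2, -, -⟩ := hz j (by omega)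
      rwa [XP] at h1
    · rw [WR j h, WR _ (by omega), Nat.add_sub_cancel]
      obtain ⟨h1, h2, -, -⟩ := hz (j - 1) (by omega)
      obtain ⟨h3, h4, -, -⟩ := hz j (by omega)
      rw [show j - 1 + 1 = j by omega] at h2
      exact h2.trans h3
  -- the values
  have hval : ∀ i, i ≤ q + 1 → (i = p ∧ g' (W i) = 0) ∨ (i ≠ p ∧ 0 < -ρ * (-1) ^ i * g' (W i)) := by
    intro j hj
    rcases lt_trichotomy j p with h | h | h
    · rw [WL j h]
      exact Or.inr ⟨h.ne, (hz j (by omega)).2.2.1 h⟩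
    · subst h
      rw [WP]; exact Or.inl ⟨rfl, h1⟩
    · rw [WR j h]
      refine Or.inr ⟨h.ne', ?_⟩
      have := (hz (j - 1) (by omega)).2.2.2 (by omega)
      obtain ⟨i, rfl⟩ : ∃ i, j = i + 1 := ⟨j - 1, by omega⟩
      rw [Nat.add_sub_cancel] at this ⊢
      rw [pow_succ]
      linarith
  have hW3 : ∀ i, i < q + 1 → 0 < ρ * (-1) ^ i * (g' (W (i + 1)) - g' (W i)) := by
    intro i hi
    have a1 := hval i (by omega)
    have a2 := hval (i + 1) (by omega)
    rw [pow_succ] at a2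
    rcases a1 with ⟨e1, e2⟩ | ⟨e1, e2⟩ <;> rcases a2 with ⟨f1, f2⟩ | ⟨f1, f2⟩
    · omega
    · rw [e2]; linarith
    · rw [f2]; linarith
    · linarith
  have hW0 : 0 < W 0 := by
    rcases Nat.eq_zero_or_pos p with h | h
    · rw [← h, WP]; exact hy0
    · rw [WL 0 h]
      exact (hXI 0 (by omega)).1.trans_lt (hz 0 (by omega)).1
  refine ⟨⟨W, hW1, hW2, hW3⟩, fun hpos => ?_⟩
  refine Inc.cons (w0 := W 0) ⟨W, rfl, hW1, hW2, hW3⟩ hW0 ?_
  rcases hval 0 (by omega) with ⟨-, e2⟩ | ⟨-, e2⟩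
  · rw [e2]; linarith
  · rw [pow_zero] at e2
    linarith

/-- `count_double` -/
theorem count_double {n P k : ℕ} {b δ y : ℝ} {d : ℕ → ℝ → ℝ} (hδ : δ ≠ 0)
    (hm : ∀ j, j + 1 < n → Mvt (d j) (d (j + 1)) 0 b) (hP : Pcs n P b δ (d (n - 1)))
    (hk : k + 1 < n) (hy0 : 0 < y) (hyb : y < b) (h0 : d k y = 0) (h1 : d (k + 1) y = 0) :
    ∀ m j, j + m = k → ∀ (g q : ℕ) (ρ : ℝ) (ε : ℕ), m ≤ q → Alt (d j) (Icc 0 b) q ρ →
      Pat (fun i => (-1) ^ i * d i 0) j (n - 1) g ((-1) ^ j * ρ) →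
      Eps ε ((-1) ^ j * ρ * (-1) ^ g * δ) → q + g + ε + 2 ≤ P + (n - j) := by
  intro m
  induction m with
  | zero =>
    intro j hj
    obtain rfl : j = k := by omega
    -- no sign change at the index `k`
    have step : ∀ (g q : ℕ) (ρ : ℝ) (ε : ℕ), Alt (d j) (Icc 0 b) q ρ →
        Pat (fun i => (-1) ^ i * d i 0) (j + 1) (n - 1) g ((-1) ^ j * ρ) →
        Eps ε ((-1) ^ j * ρ * (-1) ^ g * δ) → q + g + ε + 2 ≤ P + (n - j) := by
      intro g q ρ ε hA hpat hε
      obtain ⟨hI1, hI2⟩ := double_inc (hm j hk) hA hy0 hyb h0 h1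
      have e2 : (-1 : ℝ) ^ (j + 2) * ρ = (-1) ^ j * ρ := by rw [pow_add]; norm_num
      rcases Nat.lt_or_ge (j + 2) n with hlt | hge
      · rcases hpat.split with h | ⟨g', rfl, hs, hpat'⟩
        · have hA' := (Inc.toAlt (hm (j + 1) hlt) hI1).mono Ioo_subset_Icc_self
          have := count_left hδ hm hP (n - (j + 2) - 1) (j + 2) (by omega) g q ρ ε hA'
            (by rw [e2]; exact h.weak) (by rw [e2]; exact hε)
          omega
        · have hs' : 0 < ρ * d (j + 1) 0 := by
            have e1 : (-1 : ℝ) ^ j * ρ * ((-1) ^ (j + 1) * d (j + 1) 0) =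
                -(((-1 : ℝ) ^ j * (-1) ^ j) * (ρ * d (j + 1) 0)) := by rw [pow_succ]; ring
            rw [e1, neg_one_sq_pow, one_mul] at hs
            linarith
          have hA' := (Inc.toAlt (hm (j + 1) hlt) (hI2 hs')).mono Ioo_subset_Icc_self
          have e3 : (-1 : ℝ) ^ (j + 2) * (-ρ) = -((-1) ^ j * ρ) := by rw [pow_add]; norm_num
          have := count_left hδ hm hP (n - (j + 2) - 1) (j + 2) (by omega) g' (q + 1) (-ρ) ε hA'
            (by rw [e3]; exact hpat'.weak) (by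
              rw [e3]
              rcases hε with h | ⟨h, h'⟩
              · exact Or.inl h
              · refine Or.inr ⟨h, ?_⟩
                rw [pow_succ] at h'
                linarith)
          omega
      · have hjn : j + 1 = n - 1 := by omega
        have hn2 : n = j + 2 := by omega
        rw [hjn] at hI1 hI2
        have en : (-1 : ℝ) ^ n = (-1) ^ j := by rw [hn2, pow_add]; norm_num
        have hρ := Alt.rho_ne hA
        rcases hpat.split with h | ⟨g', rfl, hs, hpat'⟩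
        · -- no index
          have hg : g = 0 := by
            obtain ⟨idx, hi1, -, -⟩ := h
            by_contra hne
            have := hi1 0 (by omega)
            omega
          subst hg
          rcases hε with rfl | ⟨rfl, h'⟩
          · have := hP.inc_le' hI1 hρ hδ
            omega
          · have := hP.inc_le hI1 (by
              rw [en]
              rw [pow_zero, mul_one] at h'
              linarith)
            omega
        · have hg : g' = 0 := by
            obtain ⟨idx, hi1, -, -⟩ := hpat'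
            by_contra hne
            have := hi1 0 (by omega)
            omega
          subst hg
          have hs' : 0 < ρ * d (n - 1) 0 := by
            have e1 : (-1 : ℝ) ^ j * ρ * ((-1) ^ (j + 1) * d (j + 1) 0) =
                -(((-1 : ℝ) ^ j * (-1) ^ j) * (ρ * d (j + 1) 0)) := by rw [pow_succ]; ring
            rw [e1, neg_one_sq_pow, one_mul, hjn] at hs
            linarith
          have hI := hI2 hs'
          rcases hε with rfl | ⟨rfl, h'⟩
          · have := hP.inc_le' hI (neg_ne_zero.2 hρ) hδ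
            omega
          · have := hP.inc_le hI (by
              rw [en]
              rw [zero_add, pow_one] at h'
              linarith)
            omega
    intro g q ρ ε _ hA hpat hε
    rcases hpat.split with h | ⟨g', rfl, hs, hpat'⟩
    · exact step g q ρ ε hA h hε
    · have hs' : ρ * d j 0 < 0 := by
        have e1 : (-1 : ℝ) ^ j * ρ * ((-1) ^ j * d j 0) =
            ((-1 : ℝ) ^ j * (-1) ^ j) * (ρ * d j 0) := by ring
        rw [e1, neg_one_sq_pow, one_mul] at hs
        linarith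
      have hA' := Alt.cons hA hs'
      have := step g' (q + 1) (-ρ) ε hA' (by rw [mul_neg]; exact hpat') (by
        rcases hε with h | ⟨h, h'⟩
        · exact Or.inl h
        · refine Or.inr ⟨h, ?_⟩
          rw [pow_succ] at h'
          linarith)
      omega
  | succ m ih =>
    intro j hj
    have step : ∀ (g q : ℕ) (ρ : ℝ) (ε : ℕ), m + 1 ≤ q → Alt (d j) (Icc 0 b) q ρ →
        Pat (fun i => (-1) ^ i * d i 0) (j + 1) (n - 1) g ((-1) ^ j * ρ) →
        Eps ε ((-1) ^ j * ρ * (-1) ^ g * δ) → q + g + ε + 2 ≤ P + (n - j) := by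
      intro g q ρ ε hq hA hpat hε
      obtain ⟨q', rfl⟩ : ∃ q', q = q' + 1 := ⟨q - 1, by omega⟩
      have hA' := (alt_none (hm j (by omega)) hA).mono Ioo_subset_Icc_self
      have e1 : (-1 : ℝ) ^ (j + 1) * (-ρ) = (-1) ^ j * ρ := by rw [pow_succ]; ring
      have := ih (j + 1) (by omega) g q' (-ρ) ε (by omega) hA' (by rw [e1]; exact hpat)
        (by rw [e1]; exact hε)
      omega
    intro g q ρ ε hq hA hpat hε
    rcases hpat.split with h | ⟨g', rfl, hs, hpat'⟩
    · exact step g q ρ ε hq hA h hε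
    · have hs' : ρ * d j 0 < 0 := by
        have e1 : (-1 : ℝ) ^ j * ρ * ((-1) ^ j * d j 0) =
            ((-1 : ℝ) ^ j * (-1) ^ j) * (ρ * d j 0) := by ring
        rw [e1, neg_one_sq_pow, one_mul] at hs
        linarith
      have hA' := Alt.cons hA hs'
      have := step g' (q + 1) (-ρ) ε (by omega) hA' (by rw [mul_neg]; exact hpat') (by
        rcases hε with h | ⟨h, h'⟩
        · exact Or.inl h
        · refine Or.inr ⟨h, ?_⟩
          rw [pow_succ] at h'
          linarith)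
      omega

end Pool.Agent.KFL
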