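import Pool.Agent.KFL.Defs
import Pool.Agent.LKI.B1

/-!
# KFL/DcA: the comparison function `D j t = T' j t - c μ^j T j (μ t)`: jets and monotone pieces

* `jet_scale`: the chain rule; for the Lipschitz bound
  `|μ^(n-1) (F (n-1) (μ s) - F (n-1) (μ t))| ≤ μ^(n-1) σ μ |s - t|`.
* `Dc_jet`: `jet_comb` (`LKI/B1.lean`) applied to `T'` (restricted to `[0, b]`) and to the rescaled `T`
  (coefficients `1` and `-c`); `Dc_mvt`: `jet_mvt`.
* `Dc_pcs1` (the pieces of `T'` win if `|c| μ^n < 1`; weak form `Dc_pcs1w` if `|c| μ^n ≤ 1`): use the knots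
  `min (ξ' i) b`.  For `s < t` in the `i`-th piece: `T' (n-1) t - T' (n-1) s = (-1)^(n+i) (t - s)` and
  `|c μ^(n-1) (T (n-1) (μ t) - T (n-1) (μ s))| ≤ |c| μ^n (t - s) < t - s`.
* `Dc_pcs2` (the pieces of `T` win if `1 < c μ^n`; weak form `Dc_pcs2w` if `1 ≤ c μ^n`): use the knots
  `min (ξ i / μ) b`.  For `s < t` in the `i`-th piece, `μ s, μ t ∈ [ξ i, ξ (i+1)]`, so
  `-c μ^(n-1) (T (n-1) (μ t) - T (n-1) (μ s)) = - (-1)^(n+i) c μ^n (t - s)` and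
  `|T' (n-1) t - T' (n-1) s| ≤ t - s < c μ^n (t - s)`.
  (First prove a common lemma which gives the lower bound `(1 - |c| μ^n) (t - s)`, resp. `(c μ^n - 1) (t - s)`, for
  `δ (-1)^(n+i) (D (n-1) t - D (n-1) s)`.)
-/

open Set

namespace Pool.Agent.KFL

open Pool.Agent.LKI

theorem jet_scale {n : ℕ} (hn : 1 ≤ n) {σ L μ b : ℝ} (hμ : 0 < μ) (hb : μ * b ≤ L)
    {F : ℕ → ℝ → ℝ} (hF : IsJet n σ (Icc 0 L) F) :
    IsJet n (μ ^ n * σ) (Icc 0 b) (fun j t => μ ^ j * F j (μ * t)) := by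
  have hmem : ∀ t ∈ Icc (0 : ℝ) b, μ * t ∈ Icc (0 : ℝ) L := fun t ht =>
    ⟨mul_nonneg hμ.le ht.1, (mul_le_mul_of_nonneg_left ht.2 hμ.le).trans hb⟩
  refine ⟨fun j hj t ht => ?_, fun s hs t ht => ?_⟩
  · have h1 : HasDerivWithinAt (fun t : ℝ => μ * t) μ (Icc 0 b) t := by
      simpa using (hasDerivWithinAt_id t (Icc 0 b)).const_mul μ
    have h2 := (hF.hasDeriv j hj (μ * t) (hmem t ht)).comp t h1 (fun x hx => hmem x hx)
    have h3 := h2.const_mul (μ ^ j)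
    have h4 : μ ^ (j + 1) * F (j + 1) (μ * t) = μ ^ j * (F (j + 1) (μ * t) * μ) := by ring
    show HasDerivWithinAt (fun t => μ ^ j * F j (μ * t)) (μ ^ (j + 1) * F (j + 1) (μ * t)) (Icc 0 b) t
    rw [h4]
    exact h3
  · have h1 := hF.lip (μ * s) (hmem s hs) (μ * t) (hmem t ht)
    have h2 : μ ^ (n - 1) * F (n - 1) (μ * s) - μ ^ (n - 1) * F (n - 1) (μ * t) =
        μ ^ (n - 1) * (F (n - 1) (μ * s) - F (n - 1) (μ * t)) := by ring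
    have h3 : |μ * s - μ * t| = μ * |s - t| := by
      rw [← mul_sub, abs_mul, abs_of_pos hμ]
    have h4 : μ ^ n = μ ^ (n - 1) * μ := by
      rw [← pow_succ]; congr 1; omega
    show |μ ^ (n - 1) * F (n - 1) (μ * s) - μ ^ (n - 1) * F (n - 1) (μ * t)| ≤ μ ^ n * σ * |s - t|
    rw [h2, abs_mul, abs_of_pos (pow_pos hμ _), h4]
    rw [h3] at h1
    calc μ ^ (n - 1) * |F (n - 1) (μ * s) - F (n - 1) (μ * t)|
        ≤ μ ^ (n - 1) * (σ * (μ * |s - t|)) := mul_le_mul_of_nonneg_left h1 (pow_pos hμ _).le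
      _ = μ ^ (n - 1) * μ * σ * |s - t| := by ring

theorem Dc_jet {n : ℕ} (hn : 1 ≤ n) {L L' c μ b : ℝ} (hμ : 0 < μ) (hb : μ * b ≤ L) (hb' : b ≤ L')
    {T T' : ℕ → ℝ → ℝ} (hT : IsJet n 1 (Icc 0 L) T) (hT' : IsJet n 1 (Icc 0 L') T') :
    IsJet n (1 + |c| * μ ^ n) (Icc 0 b) (Dc T T' c μ) := by
  have h1 := jet_mono hT' (Icc_subset_Icc le_rfl hb')
  have h2 := jet_scale hn hμ hb hT
  have h3 := jet_comb (a₁ := 1) (a₂ := -c) h1 h2
  have h4 : |(1 : ℝ)| * 1 + |-c| * (μ ^ n * 1) = 1 + |c| * μ ^ n := by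
    rw [abs_one, abs_neg]; ring
  have h5 : (fun j t => 1 * T' j t + -c * (fun j t => μ ^ j * T j (μ * t)) j t) = Dc T T' c μ := by
    funext j t
    simp only [Dc]
    ring
  rw [h4, h5] at h3
  exact h3

theorem Dc_mvt {n : ℕ} (hn : 1 ≤ n) {L L' c μ b : ℝ} (hμ : 0 < μ) (hb : μ * b ≤ L) (hb' : b ≤ L')
    {T T' : ℕ → ℝ → ℝ} (hT : IsJet n 1 (Icc 0 L) T) (hT' : IsJet n 1 (Icc 0 L') T') :
    ∀ j, j + 1 < n → Mvt (Dc T T' c μ j) (Dc T T' c μ (j + 1)) 0 b :=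
  jet_mvt (Dc_jet hn hμ hb hb' hT hT')

/-- the common lower bound, when the pieces of `T'` are used -/
private theorem low1 {n P' : ℕ} (hn : 1 ≤ n) {L L' c μ b : ℝ} (hμ : 0 < μ) (hb : μ * b ≤ L)
    {T T' : ℕ → ℝ → ℝ} {ξ' τ' : ℕ → ℝ} (hT : IsJet n 1 (Icc 0 L) T)
    (hT' : KSpline n L' T' P' ξ' τ') (hb0 : 0 ≤ b) (hb' : b ≤ ξ' (P' + 1)) :
    ∃ ζ : ℕ → ℝ, ζ 0 = 0 ∧ ζ (P' + 1) = b ∧ (∀ i, i ≤ P' → ζ i ≤ ζ (i + 1)) ∧
      ∀ i, i ≤ P' → ∀ s ∈ Icc (ζ i) (ζ (i + 1)), ∀ t ∈ Icc (ζ i) (ζ (i + 1)), s < t →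
        (1 - |c| * μ ^ n) * (t - s) ≤
          1 * (-1) ^ (n + i) * (Dc T T' c μ (n - 1) t - Dc T T' c μ (n - 1) s) := by
  have hmono0 : ∀ i, i ≤ P' + 1 → 0 ≤ ξ' i := by
    intro i
    induction i with
    | zero => intro _; rw [hT'.ξ0]
    | succ i ih => intro hi; exact (ih (by omega)).trans (hT'.ξmono i (by omega))
  refine ⟨fun i => min (ξ' i) b, ?_, ?_, fun i hi => min_le_min (hT'.ξmono i hi) le_rfl, ?_⟩
  · show min (ξ' 0) b = 0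
    rw [hT'.ξ0, min_eq_left hb0]
  · show min (ξ' (P' + 1)) b = b
    exact min_eq_right hb'
  · intro i hi s hs t ht hst
    have hs1 : min (ξ' i) b ≤ s := hs.1
    have ht2 : t ≤ min (ξ' (i + 1)) b := ht.2
    have htb : t ≤ b := ht2.trans (min_le_right _ _)
    have htx : t ≤ ξ' (i + 1) := ht2.trans (min_le_left _ _)
    have hsx : ξ' i ≤ s := by
      rcases min_le_iff.mp hs1 with h | h
      · exact h
      · linarith
    have hs0 : 0 ≤ s := (hmono0 i (by omega)).trans hsx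
    have e1 := hT'.slope i hi s ⟨hsx, by linarith⟩ t ⟨by linarith, htx⟩
    have e2 := (jet_scale hn hμ hb hT).lip s ⟨hs0, by linarith⟩ t ⟨by linarith, htb⟩
    have e3 : |μ ^ (n - 1) * T (n - 1) (μ * s) - μ ^ (n - 1) * T (n - 1) (μ * t)| ≤
        μ ^ n * 1 * |s - t| := e2
    have e4 : |s - t| = t - s := by rw [abs_sub_comm, abs_of_pos (by linarith)]
    rw [e4] at e3
    have e5 : Dc T T' c μ (n - 1) t - Dc T T' c μ (n - 1) s =
        (T' (n - 1) t - T' (n - 1) s) +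
          c * (μ ^ (n - 1) * T (n - 1) (μ * s) - μ ^ (n - 1) * T (n - 1) (μ * t)) := by
      simp only [Dc]; ring
    rw [e5, e1]
    have hsq : ((-1 : ℝ) ^ (n + i)) * (-1) ^ (n + i) = 1 := by
      rw [← mul_pow]; norm_num
    set ε : ℝ := (-1) ^ (n + i) with hε
    set X : ℝ := μ ^ (n - 1) * T (n - 1) (μ * s) - μ ^ (n - 1) * T (n - 1) (μ * t) with hX
    have hεa : |ε| = 1 := by rw [hε]; exact abs_neg_one_pow _
    have e6 : |ε * (c * X)| ≤ |c| * (μ ^ n * (t - s)) := by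
      rw [abs_mul, hεa, one_mul, abs_mul]
      exact mul_le_mul_of_nonneg_left (by linarith) (abs_nonneg c)
    have e7 := (abs_le.mp e6).1
    have e8 : 1 * ε * (ε * (t - s) + c * X) = ε * ε * (t - s) + ε * (c * X) := by ring
    rw [e8, hsq]
    linarith

/-- the common lower bound, when the pieces of `T` are used -/
private theorem low2 {n P : ℕ} (hn : 1 ≤ n) {L L' c μ b : ℝ} (hμ : 0 < μ) (hb' : b ≤ L')
    {T T' : ℕ → ℝ → ℝ} {ξ τ : ℕ → ℝ} (hT : KSpline n L T P ξ τ)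
    (hT' : IsJet n 1 (Icc 0 L') T') (hb0 : 0 ≤ b) (hb : μ * b ≤ ξ (P + 1)) :
    ∃ ζ : ℕ → ℝ, ζ 0 = 0 ∧ ζ (P + 1) = b ∧ (∀ i, i ≤ P → ζ i ≤ ζ (i + 1)) ∧
      ∀ i, i ≤ P → ∀ s ∈ Icc (ζ i) (ζ (i + 1)), ∀ t ∈ Icc (ζ i) (ζ (i + 1)), s < t →
        (c * μ ^ n - 1) * (t - s) ≤
          -1 * (-1) ^ (n + i) * (Dc T T' c μ (n - 1) t - Dc T T' c μ (n - 1) s) := by
  have hmono0 : ∀ i, i ≤ P + 1 → 0 ≤ ξ i := by
    intro i
    induction i with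
    | zero => intro _; rw [hT.ξ0]
    | succ i ih => intro hi; exact (ih (by omega)).trans (hT.ξmono i (by omega))
  refine ⟨fun i => min (ξ i / μ) b, ?_, ?_,
    fun i hi => min_le_min (div_le_div_of_nonneg_right (hT.ξmono i hi) hμ.le) le_rfl, ?_⟩
  · show min (ξ 0 / μ) b = 0
    rw [hT.ξ0, zero_div, min_eq_left hb0]
  · show min (ξ (P + 1) / μ) b = b
    refine min_eq_right ?_
    rw [le_div_iff₀ hμ]; linarith
  · intro i hi s hs t ht hst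
    have hs1 : min (ξ i / μ) b ≤ s := hs.1
    have ht2 : t ≤ min (ξ (i + 1) / μ) b := ht.2
    have htb : t ≤ b := ht2.trans (min_le_right _ _)
    have htx : t ≤ ξ (i + 1) / μ := ht2.trans (min_le_left _ _)
    have hsx : ξ i / μ ≤ s := by
      rcases min_le_iff.mp hs1 with h | h
      · exact h
      · linarith
    rw [le_div_iff₀ hμ] at htx
    rw [div_le_iff₀ hμ] at hsx
    have hs0 : 0 ≤ s := by
      have h0 := (hmono0 i (by omega)).trans hsx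
      exact nonneg_of_mul_nonneg_left h0 hμ
    have hlt : μ * s < μ * t := mul_lt_mul_of_pos_left hst hμ
    have e1 := hT.slope i hi (μ * s) ⟨by linarith, by linarith⟩ (μ * t) ⟨by linarith, by linarith⟩
    have e2 := hT'.lip s ⟨hs0, by linarith⟩ t ⟨by linarith, by linarith⟩
    have e4 : |s - t| = t - s := by rw [abs_sub_comm, abs_of_pos (by linarith)]
    rw [e4, one_mul] at e2
    have h4 : μ ^ n = μ ^ (n - 1) * μ := by
      rw [← pow_succ]; congr 1; omega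
    have e5 : Dc T T' c μ (n - 1) t - Dc T T' c μ (n - 1) s =
        - (T' (n - 1) s - T' (n - 1) t) -
          c * μ ^ (n - 1) * (T (n - 1) (μ * t) - T (n - 1) (μ * s)) := by
      simp only [Dc]; ring
    rw [e5, e1]
    have hsq : ((-1 : ℝ) ^ (n + i)) * (-1) ^ (n + i) = 1 := by
      rw [← mul_pow]; norm_num
    set ε : ℝ := (-1) ^ (n + i) with hε
    set X : ℝ := T' (n - 1) s - T' (n - 1) t with hX
    have hεa : |ε| = 1 := by rw [hε]; exact abs_neg_one_pow _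
    have e6 : |ε * X| ≤ t - s := by
      rw [abs_mul, hεa, one_mul]; exact e2
    have e7 := (abs_le.mp e6).1
    have e8 : -1 * ε * (-X - c * μ ^ (n - 1) * (ε * (μ * t - μ * s))) =
        ε * X + ε * ε * (c * (μ ^ (n - 1) * μ) * (t - s)) := by ring
    rw [e8, hsq, h4]
    linarith

theorem Dc_pcs1 {n P' : ℕ} (hn : 1 ≤ n) {L L' c μ b : ℝ} (hμ : 0 < μ) (hb : μ * b ≤ L)
    {T T' : ℕ → ℝ → ℝ} {ξ' τ' : ℕ → ℝ} (hT : IsJet n 1 (Icc 0 L) T)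
    (hT' : KSpline n L' T' P' ξ' τ') (hb0 : 0 ≤ b) (hb' : b ≤ ξ' (P' + 1)) (hc : |c| * μ ^ n < 1) :
    PcsS n P' b 1 (Dc T T' c μ (n - 1)) := by
  obtain ⟨ζ, h1, h2, h3, h4⟩ := low1 (c := c) hn hμ hb hT hT' hb0 hb'
  exact ⟨ζ, h1, h2, h3, fun i hi s hs t ht hst =>
    (mul_pos (by linarith) (by linarith)).trans_le (h4 i hi s hs t ht hst)⟩

theorem Dc_pcs1w {n P' : ℕ} (hn : 1 ≤ n) {L L' c μ b : ℝ} (hμ : 0 < μ) (hb : μ * b ≤ L)
    {T T' : ℕ → ℝ → ℝ} {ξ' τ' : ℕ → ℝ} (hT : IsJet n 1 (Icc 0 L) T)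
    (hT' : KSpline n L' T' P' ξ' τ') (hb0 : 0 ≤ b) (hb' : b ≤ ξ' (P' + 1)) (hc : |c| * μ ^ n ≤ 1) :
    Pcs n P' b 1 (Dc T T' c μ (n - 1)) := by
  obtain ⟨ζ, h1, h2, h3, h4⟩ := low1 (c := c) hn hμ hb hT hT' hb0 hb'
  exact ⟨ζ, h1, h2, h3, fun i hi s hs t ht hst =>
    (mul_nonneg (by linarith) (by linarith)).trans (h4 i hi s hs t ht hst)⟩

theorem Dc_pcs2 {n P : ℕ} (hn : 1 ≤ n) {L L' c μ b : ℝ} (hμ : 0 < μ) (hb' : b ≤ L')
    {T T' : ℕ → ℝ → ℝ} {ξ τ : ℕ → ℝ} (hT : KSpline n L T P ξ τ)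
    (hT' : IsJet n 1 (Icc 0 L') T') (hb0 : 0 ≤ b) (hb : μ * b ≤ ξ (P + 1)) (hc : 1 < c * μ ^ n) :
    PcsS n P b (-1) (Dc T T' c μ (n - 1)) := by
  obtain ⟨ζ, h1, h2, h3, h4⟩ := low2 (c := c) hn hμ hb' hT hT' hb0 hb
  exact ⟨ζ, h1, h2, h3, fun i hi s hs t ht hst =>
    (mul_pos (by linarith) (by linarith)).trans_le (h4 i hi s hs t ht hst)⟩

theorem Dc_pcs2w {n P : ℕ} (hn : 1 ≤ n) {L L' c μ b : ℝ} (hμ : 0 < μ) (hb' : b ≤ L')
    {T T' : ℕ → ℝ → ℝ} {ξ τ : ℕ → ℝ} (hT : KSpline n L T P ξ τ)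
    (hT' : IsJet n 1 (Icc 0 L') T') (hb0 : 0 ≤ b) (hb : μ * b ≤ ξ (P + 1)) (hc : 1 ≤ c * μ ^ n) :
    Pcs n P b (-1) (Dc T T' c μ (n - 1)) := by
  obtain ⟨ζ, h1, h2, h3, h4⟩ := low2 (c := c) hn hμ hb' hT hT' hb0 hb
  exact ⟨ζ, h1, h2, h3, fun i hi s hs t ht hst =>
    (mul_nonneg (by linarith) (by linarith)).trans (h4 i hi s hs t ht hst)⟩

end Pool.Agent.KFL
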