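import Pool.Agent.KFL.Defs

/-!
# KFL/DcB: alternations of the comparison function at the nodes, strict and weak

* `Dc_alt1`: for `0 ≤ c < 1` the points `τ' 0 < ... < τ' q` (all `≤ b`) work: `(-1)^i (T' 0 (τ' i) - c T 0 (μ τ' i))
  ≥ 1 - c > 0`.
* `Dc_alt2`: for `c > 1` the points `τ i / μ`, `i ≤ q`: `-(-1)^i (T' 0 (τ i / μ) - c T 0 (τ i)) ≥ c - 1 > 0`.
* `weak_step`: for `i ≤ q` put `s = -ρ (-1)^i`; then `s g (x i) ≤ 0 ≤ s g (x (i+1))`.  If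
  `s g (x i) < s g (x (i+1))` use the mean value theorem on `(x i, x (i+1))`.  Otherwise both values are `0`; by
  `hne` there is `z ∈ [x i, x (i+1)]` with `g z ≠ 0`, hence `x i < z < x (i+1)`; if `s g z > 0` use
  the mean value theorem on `(x i, z)`, if `s g z < 0` on `(z, x (i+1))`.  Each time there is a point of
  `(x i, x (i+1))` where `s g' > 0`.
* `nonzero`: a jet `D` on `[0, b]` with STRICTLY monotone pieces of `D (n-1)` is not identically zero on `[s, t]`,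
  `0 ≤ s < t ≤ b`: otherwise `D 0 = 0` on `(s, t)`, by induction (uniqueness of the derivative at
  interior points) `D j = 0` on `(s, t)` for all `j ≤ n - 1`.  Let `m = (s+t)/2 < b`; there is `i ≤ P`
  with `ξ i ≤ m < ξ (i+1)` (the last `i` with `ξ i ≤ m`), and `D (n-1)` is strictly monotone on
  `[m, min (ξ (i+1)) m']`, `m' = (m + t)/2`, a contradiction.
* `Dc_alt1_weak`, `Dc_alt2_weak`: `c = 1`; the inequalities at the nodes are weak; use `weak_step`.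
-/

open Set

namespace Pool.Agent.KFL

open Pool.Agent.LKI

private theorem pow_neg_one_cases (i : ℕ) : ((-1 : ℝ) ^ i = 1) ∨ ((-1 : ℝ) ^ i = -1) :=
  neg_one_pow_eq_or ℝ i

private theorem tau_mono {N : ℕ} {τ : ℕ → ℝ} (h : ∀ i, i + 1 < N → τ i < τ (i + 1)) {i j : ℕ}
    (hij : i ≤ j) (hj : j < N) : τ i ≤ τ j := by
  induction j, hij using Nat.le_induction with
  | base => exact le_rfl
  | succ j hij ih => exact (ih (by omega)).trans (h j hj).le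

/-- the values at the nodes of `T'` -/
private theorem val1 {n P' q : ℕ} {L L' c μ b : ℝ} (hμ : 0 < μ) (hb : μ * b ≤ L)
    {T T' : ℕ → ℝ → ℝ} {ξ' τ' : ℕ → ℝ} (hT : InW n (Icc 0 L) T)
    (hT' : KSpline n L' T' P' ξ' τ') (hq : q < P' + n) (hqb : τ' q ≤ b) (hc0 : 0 ≤ c)
    {i : ℕ} (hi : i ≤ q) :
    τ' i ∈ Icc 0 b ∧ 1 - c ≤ (-1) ^ i * Dc T T' c μ 0 (τ' i) := by
  have h0 : 0 ≤ τ' i := hT'.τ0.trans (tau_mono hT'.τmono (Nat.zero_le i) (by omega))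
  have h1 : τ' i ≤ b := (tau_mono hT'.τmono hi hq).trans hqb
  refine ⟨⟨h0, h1⟩, ?_⟩
  have h2 := hT.bdd (μ * τ' i) ⟨by positivity, (mul_le_mul_of_nonneg_left h1 hμ.le).trans hb⟩
  have h3 := hT'.contact i (by omega)
  rw [abs_le] at h2
  unfold Dc
  rw [h3, pow_zero, mul_one]
  have h4 := mul_le_mul_of_nonneg_left h2.1 hc0
  have h5 := mul_le_mul_of_nonneg_left h2.2 hc0
  rcases pow_neg_one_cases i with h | h <;> rw [h] <;> linarith

/-- the values at the nodes of `T` -/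
private theorem val2 {n P q : ℕ} {L L' c μ b : ℝ} (hμ : 0 < μ) (hb' : b ≤ L')
    {T T' : ℕ → ℝ → ℝ} {ξ τ : ℕ → ℝ} (hT : KSpline n L T P ξ τ)
    (hT' : InW n (Icc 0 L') T') (hq : q < P + n) (hqb : τ q ≤ μ * b)
    {i : ℕ} (hi : i ≤ q) :
    τ i / μ ∈ Icc 0 b ∧ c - 1 ≤ (-1) * (-1) ^ i * Dc T T' c μ 0 (τ i / μ) := by
  have h0 : 0 ≤ τ i := hT.τ0.trans (tau_mono hT.τmono (Nat.zero_le i) (by omega))
  have h1 : τ i ≤ μ * b := (tau_mono hT.τmono hi hq).trans hqb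
  have h0' : 0 ≤ τ i / μ := div_nonneg h0 hμ.le
  have h1' : τ i / μ ≤ b := by
    rw [div_le_iff₀ hμ]
    linarith
  refine ⟨⟨h0', h1'⟩, ?_⟩
  have h2 := hT'.bdd (τ i / μ) ⟨h0', h1'.trans hb'⟩
  have h3 := hT.contact i (by omega)
  rw [abs_le] at h2
  unfold Dc
  rw [mul_div_cancel₀ _ hμ.ne', h3, pow_zero, mul_one]
  rcases pow_neg_one_cases i with h | h <;> rw [h] <;> linarith

theorem Dc_alt1 {n P' q : ℕ} {L L' c μ b : ℝ} (hμ : 0 < μ) (hb : μ * b ≤ L)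
    {T T' : ℕ → ℝ → ℝ} {ξ' τ' : ℕ → ℝ} (hT : InW n (Icc 0 L) T)
    (hT' : KSpline n L' T' P' ξ' τ') (hq : q < P' + n) (hqb : τ' q ≤ b) (hc0 : 0 ≤ c) (hc : c < 1) :
    Alt (Dc T T' c μ 0) (Icc 0 b) q 1 := by
  refine ⟨τ', fun i hi => (val1 hμ hb hT hT' hq hqb hc0 hi).1, fun i hi => hT'.τmono i (by omega),
    fun i hi => ?_⟩
  have := (val1 hμ hb hT hT' hq hqb hc0 hi).2
  rw [one_mul]
  linarith

theorem Dc_alt2 {n P q : ℕ} {L L' c μ b : ℝ} (hμ : 0 < μ) (hb' : b ≤ L')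
    {T T' : ℕ → ℝ → ℝ} {ξ τ : ℕ → ℝ} (hT : KSpline n L T P ξ τ)
    (hT' : InW n (Icc 0 L') T') (hq : q < P + n) (hqb : τ q ≤ μ * b) (hc : 1 < c) :
    Alt (Dc T T' c μ 0) (Icc 0 b) q (-1) := by
  refine ⟨fun i => τ i / μ, fun i hi => (val2 (c := c) hμ hb' hT hT' hq hqb hi).1,
    fun i hi => div_lt_div_of_pos_right (hT.τmono i (by omega)) hμ, fun i hi => ?_⟩
  have := (val2 (c := c) hμ hb' hT hT' hq hqb hi).2
  linarith

private theorem mvt_of_deriv {g g' : ℝ → ℝ} {a b : ℝ}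
    (hd : ∀ x ∈ Icc a b, HasDerivWithinAt g (g' x) (Icc a b) x) : Mvt g g' a b := by
  intro s t has hst htb
  have hsub : Icc s t ⊆ Icc a b := Icc_subset_Icc has htb
  obtain ⟨x, hx, hxe⟩ := exists_hasDerivAt_eq_slope g g' hst
    (fun x hx => ((hd x (hsub hx)).continuousWithinAt).mono hsub)
    (fun x hx => (hd x (hsub (Ioo_subset_Icc_self hx))).hasDerivAt
      (Icc_mem_nhds (has.trans_lt hx.1) (hx.2.trans_le htb)))
  refine ⟨fun hlt => ⟨x, hx, ?_⟩, fun hlt => ⟨x, hx, ?_⟩⟩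
  · rw [hxe]; exact div_pos (by linarith) (by linarith)
  · rw [hxe]; exact div_neg_of_neg_of_pos (by linarith) (by linarith)

theorem weak_step {g g' : ℝ → ℝ} {a b : ℝ} {q : ℕ} {ρ : ℝ} (hρ : ρ = 1 ∨ ρ = -1)
    (hd : ∀ x ∈ Icc a b, HasDerivWithinAt g (g' x) (Icc a b) x)
    (h : ∃ x : ℕ → ℝ, (∀ i, i ≤ q + 1 → x i ∈ Icc a b) ∧ (∀ i, i < q + 1 → x i < x (i + 1)) ∧
      ∀ i, i ≤ q + 1 → 0 ≤ ρ * (-1) ^ i * g (x i))
    (hne : ∀ s t, a ≤ s → s < t → t ≤ b → ∃ x ∈ Icc s t, g x ≠ 0) :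
    Alt g' (Icc a b) q (-ρ) := by
  obtain ⟨x, h1, h2, h3⟩ := h
  have hm := mvt_of_deriv hd
  have key : ∀ i : ℕ, ∃ z : ℝ, i ≤ q → z ∈ Ioo (x i) (x (i + 1)) ∧ 0 < -ρ * (-1) ^ i * g' z := by
    intro i
    by_cases hi : i ≤ q
    swap
    · exact ⟨0, fun h => absurd h hi⟩
    have e1 := h3 i (by omega)
    have e2 := h3 (i + 1) (by omega)
    have hx := h2 i (by omega)
    have ha := (h1 i (by omega)).1
    have hb := (h1 (i + 1) (by omega)).2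
    rw [pow_succ] at e2
    obtain ⟨s, hs⟩ : ∃ s : ℝ, s = -ρ * (-1) ^ i := ⟨_, rfl⟩
    have hs0 : s ≠ 0 := by
      rw [hs]
      refine mul_ne_zero ?_ (pow_ne_zero _ (by norm_num))
      rcases hρ with rfl | rfl <;> norm_num
    rw [← hs]
    have f1 : s * g (x i) ≤ 0 := by rw [hs]; linarith
    have f2 : 0 ≤ s * g (x (i + 1)) := by rw [hs]; linarith
    rcases lt_or_ge (s * g (x i)) (s * g (x (i + 1))) with hlt | hge
    · obtain ⟨z, hz, hz2⟩ := mvt_up hm ha hx hb hlt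
      exact ⟨z, fun _ => ⟨hz, hz2⟩⟩
    · have g1 : s * g (x i) = 0 := le_antisymm f1 (f2.trans hge)
      have g2 : s * g (x (i + 1)) = 0 := le_antisymm (hge.trans f1) f2
      obtain ⟨z, hz, hz0⟩ := hne (x i) (x (i + 1)) ha hx hb
      have hz1 : x i < z := by
        refine lt_of_le_of_ne hz.1 fun h => hz0 ?_
        rw [← h]
        exact (mul_eq_zero.1 g1).resolve_left hs0
      have hz2 : z < x (i + 1) := by
        refine lt_of_le_of_ne hz.2 fun h => hz0 ?_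
        rw [h]
        exact (mul_eq_zero.1 g2).resolve_left hs0
      rcases lt_or_gt_of_ne (mul_ne_zero hs0 hz0) with hneg | hpos
      · obtain ⟨w, hw, hw2⟩ := mvt_up (c := s) hm (ha.trans hz1.le) hz2 hb (by rw [g2]; exact hneg)
        exact ⟨w, fun _ => ⟨⟨hz1.trans hw.1, hw.2⟩, hw2⟩⟩
      · obtain ⟨w, hw, hw2⟩ := mvt_up (c := s) hm ha hz1 (hz2.le.trans hb) (by rw [g1]; exact hpos)
        exact ⟨w, fun _ => ⟨⟨hw.1, hw.2.trans hz2⟩, hw2⟩⟩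
  choose z hz using key
  refine ⟨z, fun i hi => ⟨?_, ?_⟩, fun i hi => ?_, fun i hi => (hz i hi).2⟩
  · exact (h1 i (by omega)).1.trans (hz i hi).1.1.le
  · exact (hz i hi).1.2.le.trans (h1 (i + 1) (by omega)).2
  · exact (hz i hi.le).1.2.trans (hz (i + 1) hi).1.1

theorem nonzero {n P : ℕ} (hn : 1 ≤ n) {σ b δ : ℝ} {D : ℕ → ℝ → ℝ} (hD : IsJet n σ (Icc 0 b) D)
    (hP : PcsS n P b δ (D (n - 1))) :
    ∀ s t, 0 ≤ s → s < t → t ≤ b → ∃ x ∈ Icc s t, D 0 x ≠ 0 := by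
  intro s t hs hst htb
  by_contra hcon
  push Not at hcon
  have hall : ∀ j, j + 1 ≤ n → ∀ x ∈ Ioo s t, D j x = 0 := by
    intro j
    induction j with
    | zero => exact fun _ x hx => hcon x (Ioo_subset_Icc_self hx)
    | succ j ih =>
      intro hj x hx
      have hsub : Ioo s t ⊆ Icc 0 b := fun y hy => ⟨hs.trans hy.1.le, hy.2.le.trans htb⟩
      have h1 : HasDerivAt (D j) (D (j + 1) x) x :=
        ((hD.hasDeriv j (by omega) x (hsub hx)).mono hsub).hasDerivAt (Ioo_mem_nhds hx.1 hx.2)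
      have h2 : HasDerivAt (D j) 0 x := by
        have h3 : HasDerivAt (fun _ : ℝ => (0 : ℝ)) 0 x := hasDerivAt_const x 0
        refine h3.congr_of_eventuallyEq ?_
        filter_upwards [Ioo_mem_nhds hx.1 hx.2] with y hy
        exact ih (by omega) y hy
      exact h1.unique h2
  obtain ⟨ξ, ξ0, ξb, hξ, hsl⟩ := hP
  have hm1 : s < (s + t) / 2 := by linarith
  have hm2 : (s + t) / 2 < t := by linarith
  obtain ⟨i, hi, hi1, hi2⟩ : ∃ i, i ≤ P ∧ ξ i ≤ (s + t) / 2 ∧ (s + t) / 2 < ξ (i + 1) := by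
    classical
    have hex : ∃ i, (s + t) / 2 < ξ (i + 1) := ⟨P, by rw [ξb]; linarith⟩
    refine ⟨Nat.find hex, Nat.find_min' hex (by rw [ξb]; linarith), ?_, Nat.find_spec hex⟩
    rcases Nat.eq_zero_or_pos (Nat.find hex) with h0 | h0
    · rw [h0, ξ0]
      linarith
    · have := Nat.find_min hex (m := Nat.find hex - 1) (by omega)
      rw [not_lt, show Nat.find hex - 1 + 1 = Nat.find hex by omega] at this
      exact this
  have hlt : (s + t) / 2 < min (ξ (i + 1)) (((s + t) / 2 + t) / 2) := lt_min hi2 (by linarith)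
  have hle : min (ξ (i + 1)) (((s + t) / 2 + t) / 2) ≤ ((s + t) / 2 + t) / 2 := min_le_right _ _
  have h1 := hsl i hi ((s + t) / 2) ⟨hi1, hi2.le⟩ (min (ξ (i + 1)) (((s + t) / 2 + t) / 2))
    ⟨hi1.trans hlt.le, min_le_left _ _⟩ hlt
  rw [hall (n - 1) (by omega) _ ⟨hm1, hm2⟩,
    hall (n - 1) (by omega) _ ⟨hm1.trans hlt, by linarith⟩] at h1
  simp at h1

theorem Dc_alt1_weak {n P' q : ℕ} (hn : 2 ≤ n) {σ : ℝ} {L L' μ b : ℝ} (hμ : 0 < μ) (hb : μ * b ≤ L)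
    {T T' : ℕ → ℝ → ℝ} {ξ' τ' : ℕ → ℝ} (hT : InW n (Icc 0 L) T)
    (hT' : KSpline n L' T' P' ξ' τ') (hq : q + 1 < P' + n) (hqb : τ' (q + 1) ≤ b)
    (hD : IsJet n σ (Icc 0 b) (Dc T T' 1 μ))
    (hne : ∀ s t, 0 ≤ s → s < t → t ≤ b → ∃ x ∈ Icc s t, Dc T T' 1 μ 0 x ≠ 0) :
    Alt (Dc T T' 1 μ 1) (Icc 0 b) q (-1) := by
  refine weak_step (g := Dc T T' 1 μ 0) (Or.inl rfl) (fun x hx => hD.hasDeriv 0 (by omega) x hx)
    ⟨τ', fun i hi => (val1 hμ hb hT hT' hq hqb zero_le_one hi).1,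
      fun i hi => hT'.τmono i (by omega), fun i hi => ?_⟩ hne
  have := (val1 hμ hb hT hT' hq hqb zero_le_one hi).2
  rw [one_mul]
  linarith

theorem Dc_alt2_weak {n P q : ℕ} (hn : 2 ≤ n) {σ : ℝ} {L L' μ b : ℝ} (hμ : 0 < μ) (hb' : b ≤ L')
    {T T' : ℕ → ℝ → ℝ} {ξ τ : ℕ → ℝ} (hT : KSpline n L T P ξ τ)
    (hT' : InW n (Icc 0 L') T') (hq : q + 1 < P + n) (hqb : τ (q + 1) ≤ μ * b)
    (hD : IsJet n σ (Icc 0 b) (Dc T T' 1 μ))
    (hne : ∀ s t, 0 ≤ s → s < t → t ≤ b → ∃ x ∈ Icc s t, Dc T T' 1 μ 0 x ≠ 0) :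
    Alt (Dc T T' 1 μ 1) (Icc 0 b) q 1 := by
  have h := weak_step (g := Dc T T' 1 μ 0) (g' := Dc T T' 1 μ 1) (a := 0) (b := b) (q := q)
    (Or.inr rfl : (-1 : ℝ) = 1 ∨ (-1 : ℝ) = -1)
    (fun x hx => hD.hasDeriv 0 (by omega) x hx)
    ⟨fun i => τ i / μ, fun i hi => (val2 (c := 1) hμ hb' hT hT' hq hqb hi).1,
      fun i hi => div_lt_div_of_pos_right (hT.τmono i (by omega)) hμ, fun i hi => by
        have := (val2 (c := 1) hμ hb' hT hT' hq hqb hi).2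
        linarith⟩ hne
  rwa [neg_neg] at h

end Pool.Agent.KFL
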