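import Pool.Agent.KFL.Count
import Pool.Agent.LKI.B4

/-!
# Karlin's conjecture, flow theory: definitions

`T` always denotes an extremal perfect spline (`KSpline`, `Pool/Agent/LKI/Defs.lean`) on `[0, L]`:
`(-1)^j T j 0` is the largest value of `|F j 0|` over the class `W` on `[0, L]` (`KSpline.extremal`).

* `Tight`: the last of the `n + P` nodes is `L` itself (so the `P + 1` pieces cover `[0, L]`).
* `Ee n L j`: the extremal value `E_j(L)`, `j < n`; `Ee n L n = 1`.
* `pE n L j t = ∑_{i ≤ n - j} (-1)^i E_{j+i}(L) t^i / i!`; `T j t = (-1)^j pE n L j t` on `[0, ξ 1]`.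
* `eta n k L`: the first zero of `T (k+1)`; `Mc n k L = |T k (eta n k L)|`: the first critical value.
* `Dc T T' c μ`: the comparison function `T'(t) - c T(μ t)` and its derivatives.
-/

open Set

namespace Pool.Agent.KFL

open Pool.Agent.LKI

/-- an extremal perfect spline whose last node is the right end point of the interval -/
structure Tight (n : ℕ) (L : ℝ) (T : ℕ → ℝ → ℝ) (P : ℕ) (ξ τ : ℕ → ℝ) : Prop where
  ks : KSpline n L T P ξ τ
  last : τ (P + n - 1) = L

/-- the extremal values `E_j(L)` -/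
noncomputable def Ee (n : ℕ) (L : ℝ) (j : ℕ) : ℝ :=
  if j < n then sSup {x : ℝ | ∃ F : ℕ → ℝ → ℝ, InW n (Icc 0 L) F ∧ x = |F j 0|} else 1

/-- the polynomial `∑_{i ≤ n - j} (-1)^i E_{j+i}(L) t^i / i!` -/
noncomputable def pE (n : ℕ) (L : ℝ) (j : ℕ) (t : ℝ) : ℝ :=
  ∑ i ∈ Finset.range (n + 1 - j), (-1) ^ i * Ee n L (j + i) * t ^ i / (i.factorial : ℝ)

/-- the first zero of `T (k+1)` -/
noncomputable def eta (n k : ℕ) (L : ℝ) : ℝ := sInf {t : ℝ | 0 < t ∧ pE n L (k + 1) t = 0}

/-- the first critical value of `T k` -/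
noncomputable def Mc (n k : ℕ) (L : ℝ) : ℝ := - pE n L k (eta n k L)

/-- `V₁`: the bound for critical values of `f k` at points of `[0, eta]` -/
noncomputable def V1 (n k : ℕ) (L : ℝ) (y : ℝ) : ℝ :=
  pE n L (k + 1) y ^ 2 / pE n L (k + 2) y - pE n L k y

/-- the comparison function -/
noncomputable def Dc (T T' : ℕ → ℝ → ℝ) (c μ : ℝ) (j : ℕ) (t : ℝ) : ℝ :=
  T' j t - c * μ ^ j * T j (μ * t)

end Pool.Agent.KFL
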