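import Pool.Agent.KFL.BaseN
import Pool.Agent.KFL.Cont

/-!
# KFL/EtaTop: `EtaOK` for `k + 2 = n` and `L ≥ L_n = 2 Hn n`

* `EtaOK_of_eq`: if `E_j(L₁) = E_j(L)` for all `j`, `L₁ ≤ L`, then `EtaOK n k L₁` gives `EtaOK n k L` (all fields only depend on
  the numbers `E_j`; `spl`: the same spline, its length is `≤ L₁ ≤ L`).
* `etaOK_top`: `z = E_{n-1}(L) > 0`; `pE n L (n-1) t = z - t` (`pE_pred`); `higher` only concerns `i = n` (`pE_top`).  Take a spline from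
  `exists_KSpline`, with `P` knots.
  If `P ≥ 1`: `first_zero_top` and `etaOK_of`.
  If `P = 0`: let `ℓ = τ (n-1) > 0` (`KSpline.cut`: tight spline on `[0, ℓ]` with the same jet, so `E_j(ℓ) = E_j(L)` by `Ee_eq`,
  `Ee_top`).  If `2 H ≤ ℓ`: `E_{n-1}(L) ≤ E_{n-1}(2 H) = H` (`Ee_anti`, `Ee_base`: `TJ n (n-1) 1 / H^(n-1) = 2^(n-1) n! / H^(n-1) = H`;
  `TJ n (n-1) 1 = 2^(n-1) n!`: `TJ_top` with `x = 0, y = 1` and `TJ n (n-1) 0 = 0`, or `TJ_val_one`), and `H < 2 H ≤ ℓ ≤ ξ 1`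
  (`KSpline.τlast`), `etaOK_of`.  If `ℓ < 2 H ≤ L`: `Ee_const` gives `E_j(2 H) = E_j(ℓ) = E_j(L)`; `etaOK_base` and `EtaOK_of_eq`.
-/

open Set
open Pool.LK1 (TJ)
open Pool.LK2 (IsFirst)

namespace Pool.Agent.KFL

open Pool.Agent.LKI

theorem EtaOK_of_eq {n k : ℕ} {L₁ L : ℝ} (h : L₁ ≤ L) (he : ∀ j, Ee n L₁ j = Ee n L j)
    (hE : EtaOK n k L₁) : EtaOK n k L := by
  have hp : ∀ j t, pE n L₁ j t = pE n L j t := by
    intro j t
    unfold pE
    exact Finset.sum_congr rfl fun i _ => by rw [he]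
  have heta : eta n k L₁ = eta n k L := by
    unfold eta
    simp only [hp]
  obtain ⟨h1, h2, h3, h4, h5, h6⟩ := hE
  simp only [hp, heta] at h1 h2 h3 h4 h5
  refine ⟨h1, h2, h3, h4, h5, ?_⟩
  obtain ⟨L₂, T, P, ξ, τ, a1, a2, a3, a4, a5⟩ := h6
  exact ⟨L₂, T, P, ξ, τ, a1, a2.trans h, fun j => (a3 j).trans (he j), a4, heta ▸ a5⟩

theorem Ee_base_pred {n : ℕ} (hn : 2 ≤ n) : Ee n (2 * Hn n) (n - 1) = Hn n := by
  rw [Ee_base hn (by omega : n - 1 ≤ n)]
  obtain ⟨m, rfl⟩ : ∃ m, n = m + 1 := ⟨n - 1, by omega⟩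
  rw [Nat.add_sub_cancel]
  have h1 := Pool.LK1.TJ_top m 0 1
  have h2 := Pool.LK2.parity (m + 1) m 0
  have h3 : (-1 : ℝ) ^ (m + 1 + m) = -1 := by
    apply Odd.neg_one_pow
    exact ⟨m, by omega⟩
  rw [neg_zero, h3] at h2
  have h4 : TJ (m + 1) m 0 = 0 := by linarith
  have h5 := Hn_pow (n := m + 1) (by omega)
  rw [Nat.add_sub_cancel] at h5
  rw [h4, sub_zero, sub_zero, mul_one, ← h5] at h1
  have h6 : Hn (m + 1) ≠ 0 := (Hn_pos (m + 1)).ne'
  rw [h1, pow_succ, mul_comm, mul_div_assoc, div_self (pow_ne_zero m h6), mul_one]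

theorem etaOK_top {n k : ℕ} (hk : k + 2 = n) {L : ℝ} (hL : 2 * Hn n ≤ L) : EtaOK n k L := by
  have hn : 2 ≤ n := by omega
  have hH := Hn_pos n
  have hL0 : 0 < L := by linarith
  obtain ⟨T, P, ξ, τ, hT⟩ := exists_KSpline hn hL0
  have hz1 : 1 ≤ Ee n L (n - 1) := Ee_ge_one hn hL0 (n - 1)
  have hz0 : 0 < Ee n L (n - 1) := by linarith
  have hk1 : k + 1 = n - 1 := by omega
  have key : Ee n L (n - 1) < ξ 1 → EtaOK n k L := by
    intro h
    refine etaOK_of (by omega) hL0 hT hz0 h ?_ ?_ ?_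
    · rw [hk1, pE_pred (by omega), sub_self]
    · intro t _ ht
      rw [hk1, pE_pred (by omega)]
      linarith
    · intro i hi hin t _ _
      have : i = n := by omega
      rw [this, pE_top]
      exact one_pos
  rcases Nat.eq_zero_or_pos P with hP | hP
  · subst hP
    obtain ⟨h0, h1, h2⟩ := KSpline.cut hn hT
    have he : ∀ j, Ee n (τ (0 + n - 1)) j = Ee n L j := by
      intro j
      rcases Nat.lt_or_ge j n with hj | hj
      · rw [Ee_eq hn h2.ks hj, Ee_eq hn hT hj]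
      · unfold Ee
        rw [if_neg (by omega), if_neg (by omega)]
    rcases le_or_gt (2 * Hn n) (τ (0 + n - 1)) with hc | hc
    · apply key
      have h3 := Ee_anti hn (by linarith : 0 < 2 * Hn n) hL (n - 1)
      rw [Ee_base_pred hn] at h3
      have h4 := hT.τlast
      rw [zero_add] at h4 hc
      linarith
    · refine EtaOK_of_eq hL (fun j => ?_) (etaOK_base (by omega))
      rw [Ee_const hn h0 he ⟨hc.le, hL⟩ j, he j]
  · exact key (first_zero_top hn hT hP)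

end Pool.Agent.KFL
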