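import Pool.Agent.KFL.Knots

/-!
# KFL/F2loc: `E_{n-1}^2 / E_{n-2}` is nonincreasing for a tight pair `L < L'`, close together

PROOF.  Let `a = E'_{n-1} / E_{n-1}`, `a₂ = E'_{n-2} / E_{n-2}` (all `E ≥ 1`), `a ≤ 1` (`Ee_anti`), and suppose
`a^2 > a₂`.  By `hg` `τ' (P'+n-2) < L a`.  Choose `e > 1` with `e a₂ ≤ a^2` and `e τ' (P'+n-2) ≤ L a` (e.g. `e = min (a^2 / a₂) (L a / τ')`,
or `e = 1 + small`; `τ' ≥ 0`).  Let `μ = e / a > 1`, `c = e / μ^n`, `b = L / μ = L a / e`: `τ' (P'+n-2) ≤ b < L < L'`.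
`c μ^n = e > 1`; `c < 1` because `μ^n ≥ μ^2 = e^2 / a^2 ≥ e^2 > e`; `c μ^(n-1) = e / μ = a`,
`c μ^(n-2) = e / μ^2 = a^2 / e ≥ a₂`.  `D = Dc T T' c μ`: `(-1)^(n-1) D (n-1) 0 = E'_{n-1} - a E_{n-1} = 0`,
`(-1)^(n-2) D (n-2) 0 = E'_{n-2} - c μ^(n-2) E_{n-2} ≤ 0` (`Ee_eq`).  `Dc_alt1`, `q = P'+n-2`, `ρ = 1`; `Dc_pcs2`, `δ = -1`,
`P` (`μ b = L = ξ (P+1)`); `count_left` with `j = 0`, the weak pattern `g = 2`, `idx = n-2, n-1`, `ε = 1`
(`1 * (-1)^2 * (-1) < 0`): `P'+n-2+2+1 ≤ P+n ≤ P'+n`, false.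
-/

open Set

namespace Pool.Agent.KFL

open Pool.Agent.LKI

private theorem f2_exists_e {x y : ℝ} (hx : 0 ≤ x) (h : x < y) : ∃ e : ℝ, 1 < e ∧ e * x ≤ y := by
  refine ⟨1 + (y - x) / (x + 1), ?_, ?_⟩
  · have : 0 < (y - x) / (x + 1) := div_pos (by linarith) (by linarith)
    linarith
  · have h1 : x / (x + 1) ≤ 1 := by
      rw [div_le_one (by linarith)]
      linarith
    have h2 : (1 + (y - x) / (x + 1)) * x = x + (y - x) * (x / (x + 1)) := by ring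
    rw [h2]
    have h3 := mul_le_mul_of_nonneg_left h1 (by linarith : (0 : ℝ) ≤ y - x)
    linarith

private theorem f2_D0 {n : ℕ} (hn : 2 ≤ n) {L L' c μ : ℝ} {T T' : ℕ → ℝ → ℝ} {P P' : ℕ}
    {ξ τ ξ' τ' : ℕ → ℝ} (hT : KSpline n L T P ξ τ) (hT' : KSpline n L' T' P' ξ' τ') {i : ℕ}
    (hi : i < n) : (-1) ^ i * Dc T T' c μ i 0 = Ee n L' i - c * μ ^ i * Ee n L i := by
  rw [Ee_eq hn hT hi, Ee_eq hn hT' hi]
  unfold Dc
  rw [mul_zero]
  ring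

theorem F2loc {n : ℕ} (hn : 2 ≤ n) {L L' : ℝ} {T T' : ℕ → ℝ → ℝ} {P P' : ℕ}
    {ξ τ ξ' τ' : ℕ → ℝ} (hT : Tight n L T P ξ τ) (hT' : Tight n L' T' P' ξ' τ') (hL : 0 < L)
    (h : L < L') (hP0 : P ≤ P') (hg : τ' (P' + n - 2) * Ee n L (n - 1) < L * Ee n L' (n - 1)) :
    Ee n L' (n - 1) ^ 2 * Ee n L (n - 2) ≤ Ee n L (n - 1) ^ 2 * Ee n L' (n - 2) := by
  by_contra hcon
  push Not at hcon
  have hL' : 0 < L' := hL.trans h
  have hE1 : 0 < Ee n L (n - 1) := lt_of_lt_of_le one_pos (Ee_ge_one hn hL _)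
  have hE2 : 0 < Ee n L (n - 2) := lt_of_lt_of_le one_pos (Ee_ge_one hn hL _)
  have hE1' : 0 < Ee n L' (n - 1) := lt_of_lt_of_le one_pos (Ee_ge_one hn hL' _)
  have hE2' : 0 < Ee n L' (n - 2) := lt_of_lt_of_le one_pos (Ee_ge_one hn hL' _)
  have hanti : Ee n L' (n - 1) ≤ Ee n L (n - 1) := Ee_anti hn hL h.le _
  obtain ⟨a, ha⟩ : ∃ a, a = Ee n L' (n - 1) / Ee n L (n - 1) := ⟨_, rfl⟩
  obtain ⟨a2, ha2⟩ : ∃ a2, a2 = Ee n L' (n - 2) / Ee n L (n - 2) := ⟨_, rfl⟩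
  have haE : a * Ee n L (n - 1) = Ee n L' (n - 1) := by rw [ha, div_mul_cancel₀ _ hE1.ne']
  have ha2E : a2 * Ee n L (n - 2) = Ee n L' (n - 2) := by rw [ha2, div_mul_cancel₀ _ hE2.ne']
  have ha0 : 0 < a := by rw [ha]; exact div_pos hE1' hE1
  have ha20 : 0 < a2 := by rw [ha2]; exact div_pos hE2' hE2
  have ha1 : a ≤ 1 := by rw [ha]; exact (div_le_one hE1).2 hanti
  have haa : a2 < a ^ 2 := by
    rw [← haE, ← ha2E] at hcon
    by_contra hh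
    push Not at hh
    have : (a * Ee n L (n - 1)) ^ 2 * Ee n L (n - 2) ≤
        Ee n L (n - 1) ^ 2 * (a2 * Ee n L (n - 2)) := by
      have h1 : 0 ≤ Ee n L (n - 1) ^ 2 * Ee n L (n - 2) := by positivity
      have h2 := mul_le_mul_of_nonneg_right hh h1
      nlinarith
    linarith
  have hτ0 : 0 ≤ τ' (P' + n - 2) := KSpline.tau_nonneg hT'.ks _ (by omega)
  have hτa : τ' (P' + n - 2) < L * a := by
    rw [← haE] at hg
    have h1 : τ' (P' + n - 2) * Ee n L (n - 1) < (L * a) * Ee n L (n - 1) := by linarith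
    exact lt_of_mul_lt_mul_right h1 hE1.le
  obtain ⟨e1, he1, he1'⟩ := f2_exists_e ha20.le haa
  obtain ⟨e2, he2, he2'⟩ := f2_exists_e hτ0 hτa
  obtain ⟨e, he⟩ : ∃ e, e = min e1 e2 := ⟨_, rfl⟩
  have hegt : 1 < e := by rw [he]; exact lt_min he1 he2
  have hea2 : e * a2 ≤ a ^ 2 :=
    (mul_le_mul_of_nonneg_right (by rw [he]; exact min_le_left _ _) ha20.le).trans he1'
  have heτ : e * τ' (P' + n - 2) ≤ L * a :=
    (mul_le_mul_of_nonneg_right (by rw [he]; exact min_le_right _ _) hτ0).trans he2'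
  have he0 : 0 < e := by linarith
  obtain ⟨μ, hμdef⟩ : ∃ μ, μ = e / a := ⟨_, rfl⟩
  have hμa : μ * a = e := by rw [hμdef, div_mul_cancel₀ _ ha0.ne']
  have hμ0 : 0 < μ := by rw [hμdef]; exact div_pos he0 ha0
  have hμe : e ≤ μ := by
    rw [hμdef, le_div_iff₀ ha0]
    nlinarith
  have hμ1 : 1 < μ := by linarith
  obtain ⟨c, hc⟩ : ∃ c, c = e / μ ^ n := ⟨_, rfl⟩
  have hμn : 0 < μ ^ n := pow_pos hμ0 n
  have hcμn : c * μ ^ n = e := by rw [hc, div_mul_cancel₀ _ hμn.ne']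
  have hcpos : 0 < c := by rw [hc]; exact div_pos he0 hμn
  have hc1 : c < 1 := by
    rw [hc, div_lt_one hμn]
    have h1 : μ ^ 2 ≤ μ ^ n := pow_le_pow_right₀ hμ1.le hn
    nlinarith
  have hcμ1 : c * μ ^ (n - 1) = a := by
    have h1 : μ ^ n = μ ^ (n - 1) * μ := by
      rw [← pow_succ]
      congr 1
      omega
    have h2 : (c * μ ^ (n - 1)) * μ = a * μ := by
      rw [mul_assoc, ← h1, hcμn, mul_comm a μ, hμa]
    exact mul_right_cancel₀ hμ0.ne' h2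
  have hcμ2 : a2 ≤ c * μ ^ (n - 2) := by
    have h1 : μ ^ (n - 1) = μ ^ (n - 2) * μ := by
      rw [← pow_succ]
      congr 1
      omega
    have h2 : (c * μ ^ (n - 2)) * μ = a := by
      rw [mul_assoc, ← h1, hcμ1]
    have h3 : a2 * μ ≤ (c * μ ^ (n - 2)) * μ := by
      rw [h2]
      have h4 : (a2 * μ) * a ≤ a * a := by
        calc (a2 * μ) * a = e * a2 := by rw [mul_assoc, hμa, mul_comm]
          _ ≤ a ^ 2 := hea2
          _ = a * a := by ring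
      exact le_of_mul_le_mul_right h4 ha0
    exact le_of_mul_le_mul_right h3 hμ0
  obtain ⟨b, hb⟩ : ∃ b, b = L / μ := ⟨_, rfl⟩
  have hμb : μ * b = L := by rw [hb, mul_div_cancel₀ _ hμ0.ne']
  have hb0 : 0 < b := by rw [hb]; exact div_pos hL hμ0
  have hbL : b < L := by rw [hb]; exact div_lt_self hL hμ1
  have hτb : τ' (P' + n - 2) ≤ b := by
    rw [hb, le_div_iff₀ hμ0]
    have h1 : (τ' (P' + n - 2) * μ) * a ≤ L * a := by
      rw [mul_assoc, hμa, mul_comm]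
      exact heτ
    exact le_of_mul_le_mul_right h1 ha0
  have hA := Dc_alt1 (q := P' + n - 2) hμ0 hμb.le hT.ks.inW hT'.ks (by omega) hτb hcpos.le hc1
  have hP := (Dc_pcs2 (by omega) hμ0 (hbL.trans h).le hT.ks hT'.ks.inW.jet hb0.le
    (by rw [hμb, hT.xi_last]) (by rw [hcμn]; exact hegt)).weak
  have hm := Dc_mvt (c := c) (by omega : 1 ≤ n) hμ0 hμb.le (hbL.trans h).le hT.ks.inW.jet
    hT'.ks.inW.jet
  have hs1 := f2_D0 (c := c) (μ := μ) hn hT.ks hT'.ks (by omega : n - 1 < n)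
  have hs2 := f2_D0 (c := c) (μ := μ) hn hT.ks hT'.ks (by omega : n - 2 < n)
  have hs1' : (-1) ^ (n - 1) * Dc T T' c μ (n - 1) 0 = 0 := by
    rw [hs1, hcμ1, haE, sub_self]
  have hs2' : (-1) ^ (n - 2) * Dc T T' c μ (n - 2) 0 ≤ 0 := by
    rw [hs2]
    have := mul_le_mul_of_nonneg_right hcμ2 hE2.le
    rw [ha2E] at this
    linarith
  have := count_left (by norm_num : (-1 : ℝ) ≠ 0) hm hP (n - 1) 0 (by omega) 2 (P' + n - 2) 1 1 hA
    ⟨fun k => n - 2 + k, fun k hk => ⟨Nat.zero_le _, by show n - 2 + k ≤ n - 1; omega⟩,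
      fun k hk => by show n - 2 + k < n - 2 + (k + 1); omega, fun k hk => by
      have hk' : k = 0 ∨ k = 1 := by omega
      rcases hk' with rfl | rfl
      · show 0 ≤ (-1 : ℝ) ^ 0 * 1 * (-1) ^ (0 + 1) * ((-1) ^ (n - 2 + 0) * Dc T T' c μ (n - 2 + 0) 0)
        have e0 : (-1 : ℝ) ^ 0 * 1 * (-1) ^ (0 + 1) *
            ((-1) ^ (n - 2 + 0) * Dc T T' c μ (n - 2 + 0) 0) =
            -((-1) ^ (n - 2) * Dc T T' c μ (n - 2) 0) := by rw [add_zero]; ring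
        rw [e0]
        linarith
      · show 0 ≤ (-1 : ℝ) ^ 0 * 1 * (-1) ^ (1 + 1) * ((-1) ^ (n - 2 + 1) * Dc T T' c μ (n - 2 + 1) 0)
        have e1 : n - 2 + 1 = n - 1 := by omega
        rw [e1, hs1', mul_zero]⟩
    (Or.inr ⟨rfl, by norm_num⟩)
  omega

end Pool.Agent.KFL
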