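import Pool.Agent.KFL.Knots
import Pool.Agent.KFL.EtaLow

/-!
# KFL/F3loc: `eta(L') / L' ≤ eta(L) / L` for a tight pair `L < L'` with `P' ≤ P + 1`

PROOF.  Let `μ = L / L' < 1`, `η = eta n k L`, `η' = eta n k L'`, and suppose `η' L > η L'`, i.e. `x₀ := η / μ < η'`.
Put `A = pE n L' (k+1)`, `B t = μ^(k+1) pE n L (k+1) (μ t)`; `A > 0` on `[0, η')`, `B > 0` on `[0, x₀)`, `B x₀ = 0`
(`EtaOK`).  `A' t = - pE n L' (k+2) t`, `B' t = - μ^(k+2) pE n L (k+2) (μ t)`.  `W = A' B - A B'` is continuous,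
`W 0 = μ^(k+1) (μ E'_{k+1} E_{k+2} - E'_{k+2} E_{k+1}) < 0` by `r_lt_succ` with `j = k + 1` (if `k + 2 = n` is excluded by
`k + 3 ≤ n`), and `W x₀ = A x₀ μ^(k+2) pE n L (k+2) η > 0` (`higher`).  So there is `t ∈ (0, x₀)` with `W t = 0`
(`intermediate_value_Ioo`).  Let `c = A t / B t > 0`: `A t = c B t`, `A' t = c B' t`.  Hence `D = Dc T T' c μ` satisfies
`D (k+1) t = D (k+2) t = 0` (`T_eq_pE` for both splines: `t < η' < ξ' 1`, `μ t < η < ξ 1`, `eta_lt_xi`; `k + 2 < n`).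
Let `b = L'` (`μ b = L`, `ξ (P+1) = L`, `ξ' (P'+1) = L'`: `Tight.xi_last`), `0 < t < b`.  `count_double` with level
`k + 1`:
* `c > 1`, `1 ≤ c μ^n`: `Dc_alt2`, `q = P+n-1`, `ρ = -1`; `Dc_pcs2w`, `δ = -1`, `P`: `P+n-1+2 ≤ P+n`, false.
* `c > 1`, `c μ^n < 1`: `Dc_alt2`, `q = P+n-1`, `ρ = -1`; `Dc_pcs1`, `δ = 1`, `P'`; `ε = 1`: `P+n-1+1+2 ≤ P'+n ≤ P+1+n`,
  false.
* `c < 1`: then `|c| μ^n < 1`; `Dc_alt1`, `q = P'+n-1`, `ρ = 1`; `Dc_pcs1`: `P'+n-1+2 ≤ P'+n`, false.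
* `c = 1`: `Dc_pcs1` (`μ^n < 1`) and `nonzero`, `Dc_alt1_weak` with `q = P'+n-2`: `Alt (D 1) _ (P'+n-2) (-1)`;
  `count_double` at the level `j = 1`: `P'+n-2+2 ≤ P'+(n-1)`, false.
(Side conditions: `j + m = k + 1`, `m ≤ q`.)
-/

open Set

namespace Pool.Agent.KFL

open Pool.Agent.LKI

private theorem f3_pat0 {s : ℕ → ℝ} {lo hi : ℕ} {e : ℝ} : Pat s lo hi 0 e :=
  ⟨fun i => i, fun _ hi => absurd hi (Nat.not_lt_zero _), fun _ hi => absurd hi (Nat.not_lt_zero _),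
    fun _ hi => absurd hi (Nat.not_lt_zero _)⟩

theorem F3loc {n k : ℕ} (hk : k + 3 ≤ n) {L L' : ℝ} {T T' : ℕ → ℝ → ℝ} {P P' : ℕ}
    {ξ τ ξ' τ' : ℕ → ℝ} (hT : Tight n L T P ξ τ) (hT' : Tight n L' T' P' ξ' τ') (hL : 0 < L)
    (h : L < L') (hP : P' ≤ P + 1) : eta n k L' * L ≤ eta n k L * L' := by
  have hn : 2 ≤ n := by omega
  have hL' : 0 < L' := hL.trans h
  have hμ : 0 < L / L' := div_pos hL hL'
  have hμ1 : L / L' < 1 := (div_lt_one hL').2 h
  have hμeq : L / L' * L' = L := div_mul_cancel₀ L hL'.ne'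
  generalize hμd : L / L' = μ at *
  have hμn1 : μ ^ n < 1 := pow_lt_one₀ hμ.le hμ1 (by omega)
  have hμn0 : 0 < μ ^ n := pow_pos hμ n
  have hO := etaOK_low hk hL
  have hO' := etaOK_low hk hL'
  have hξη := eta_lt_xi hk hT.ks
  have hξη' := eta_lt_xi hk hT'.ks
  have hξ'1 : ξ' 1 ≤ L' := by
    rw [← hT'.xi_last]
    exact KSpline.xi_le hT'.ks 1 (P' + 1) (by omega) le_rfl
  by_contra hcon
  push Not at hcon
  generalize hηd : eta n k L = η at *
  generalize hηd' : eta n k L' = η' at *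
  have hηpos : 0 < η := by
    rw [← hηd]
    exact hO.pos
  obtain ⟨x0, hx0⟩ : ∃ x0, x0 = η / μ := ⟨_, rfl⟩
  have hx0pos : 0 < x0 := by
    rw [hx0]
    exact div_pos hηpos hμ
  have hμx0 : μ * x0 = η := by
    rw [hx0]
    exact mul_div_cancel₀ η hμ.ne'
  have hx0lt : x0 < η' := by
    have h1 : μ * x0 * L' < μ * η' * L' := by
      have h2 : μ * η' * L' = η' * L := by
        rw [← hμeq]
        ring
      rw [hμx0, h2]
      exact hcon
    have h3 : μ * x0 < μ * η' := lt_of_mul_lt_mul_right h1 hL'.le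
    exact lt_of_mul_lt_mul_left h3 hμ.le
  have hApos : ∀ t, 0 ≤ t → t < η' → 0 < pE n L' (k + 1) t := fun t h0 h1 =>
    hO'.before t h0 (by rw [hηd']; exact h1)
  have hBpos : ∀ t, 0 ≤ t → t < η → 0 < pE n L (k + 1) t := fun t h0 h1 =>
    hO.before t h0 (by rw [hηd]; exact h1)
  have hB0 : pE n L (k + 1) η = 0 := by
    have := hO.zero
    rwa [hηd] at this
  have hB2 : 0 < pE n L (k + 2) η :=
    hO.higher (k + 2) le_rfl (by omega) η hηpos.le (by rw [hηd])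
  have hcont : Continuous (fun t => -pE n L' (k + 2) t * (μ ^ (k + 1) * pE n L (k + 1) (μ * t)) +
      pE n L' (k + 1) t * (μ ^ (k + 2) * pE n L (k + 2) (μ * t))) := by
    have c1 := pE_continuous n L' (k + 2)
    have c2 := pE_continuous n L' (k + 1)
    have c3 := (pE_continuous n L (k + 1)).comp (continuous_const_mul μ)
    have c4 := (pE_continuous n L (k + 2)).comp (continuous_const_mul μ)
    exact (c1.neg.mul (continuous_const.mul c3)).add (c2.mul (continuous_const.mul c4))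
  obtain ⟨W, hW⟩ : ∃ W : ℝ → ℝ, W = fun t =>
      -pE n L' (k + 2) t * (μ ^ (k + 1) * pE n L (k + 1) (μ * t)) +
      pE n L' (k + 1) t * (μ ^ (k + 2) * pE n L (k + 2) (μ * t)) := ⟨_, rfl⟩
  rw [← hW] at hcont
  have hW0 : W 0 < 0 := by
    have hr := r_lt_succ hn hT hT' hL h hP (j := k + 1) (by omega) (by omega)
    have e1 : k + 1 + 1 = k + 2 := rfl
    rw [e1] at hr
    rw [hW]
    simp only [mul_zero]
    rw [pE_zero (by omega), pE_zero (by omega), pE_zero (by omega), pE_zero (by omega)]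
    have e2 : -Ee n L' (k + 2) * (μ ^ (k + 1) * Ee n L (k + 1)) +
        Ee n L' (k + 1) * (μ ^ (k + 2) * Ee n L (k + 2)) =
        μ ^ (k + 1) * (μ * (Ee n L' (k + 1) * Ee n L (k + 2)) - Ee n L' (k + 2) * Ee n L (k + 1)) := by
      rw [pow_succ μ (k + 1)]
      ring
    rw [e2]
    have h3 : μ * (Ee n L' (k + 1) * Ee n L (k + 2)) - Ee n L' (k + 2) * Ee n L (k + 1) < 0 := by
      have h4 : L' * (μ * (Ee n L' (k + 1) * Ee n L (k + 2)) - Ee n L' (k + 2) * Ee n L (k + 1)) < 0 := by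
        have h5 : L' * (μ * (Ee n L' (k + 1) * Ee n L (k + 2)) - Ee n L' (k + 2) * Ee n L (k + 1)) =
            L * (Ee n L' (k + 1) * Ee n L (k + 2)) - L' * (Ee n L' (k + 2) * Ee n L (k + 1)) := by
          rw [← hμeq]
          ring
        rw [h5]
        linarith
      by_contra hcon2
      push Not at hcon2
      exact absurd h4 (not_lt.2 (mul_nonneg hL'.le hcon2))
    exact mul_neg_of_pos_of_neg (pow_pos hμ _) h3
  have hWx : 0 < W x0 := by
    rw [hW]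
    simp only [hμx0, hB0, mul_zero, zero_add]
    exact mul_pos (hApos x0 hx0pos.le hx0lt) (mul_pos (pow_pos hμ _) hB2)
  obtain ⟨t, ht, hWt⟩ := intermediate_value_Ioo hx0pos.le hcont.continuousOn ⟨hW0, hWx⟩
  have ht0 : 0 < t := ht.1
  have htη' : t < η' := ht.2.trans hx0lt
  have hμt : μ * t < η := by
    rw [← hμx0]
    exact mul_lt_mul_of_pos_left ht.2 hμ
  have hμt0 : 0 ≤ μ * t := mul_nonneg hμ.le ht0.le
  have hAt := hApos t ht0.le htη'
  have hBt : 0 < μ ^ (k + 1) * pE n L (k + 1) (μ * t) := mul_pos (pow_pos hμ _) (hBpos _ hμt0 hμt)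
  rw [hW] at hWt
  simp only at hWt
  obtain ⟨c, hc⟩ : ∃ c, c = pE n L' (k + 1) t / (μ ^ (k + 1) * pE n L (k + 1) (μ * t)) := ⟨_, rfl⟩
  have hcpos : 0 < c := by
    rw [hc]
    exact div_pos hAt hBt
  have hcA : pE n L' (k + 1) t = c * (μ ^ (k + 1) * pE n L (k + 1) (μ * t)) := by
    rw [hc, div_mul_cancel₀ _ hBt.ne']
  have hcA1 : pE n L' (k + 2) t = c * (μ ^ (k + 2) * pE n L (k + 2) (μ * t)) := by
    rw [hcA] at hWt
    have h1 : (μ ^ (k + 1) * pE n L (k + 1) (μ * t)) *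
        (c * (μ ^ (k + 2) * pE n L (k + 2) (μ * t)) - pE n L' (k + 2) t) = 0 := by
      linarith
    have h2 := (mul_eq_zero.1 h1).resolve_left hBt.ne'
    linarith
  have htξ' : t ≤ ξ' 1 := (htη'.trans hξη').le
  have hμtξ : μ * t ≤ ξ 1 := (hμt.trans hξη).le
  have hD0 : Dc T T' c μ (k + 1) t = 0 := by
    unfold Dc
    rw [T_eq_pE hn hT'.ks (by omega) ht0.le htξ', T_eq_pE hn hT.ks (by omega) hμt0 hμtξ, hcA]
    ring
  have hD1 : Dc T T' c μ (k + 1 + 1) t = 0 := by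
    have e1 : k + 1 + 1 = k + 2 := rfl
    rw [e1]
    unfold Dc
    rw [T_eq_pE hn hT'.ks (by omega) ht0.le htξ', T_eq_pE hn hT.ks (by omega) hμt0 hμtξ, hcA1]
    ring
  have htL' : t < L' := (htη'.trans hξη').trans_le hξ'1
  have hm := Dc_mvt (c := c) (by omega : 1 ≤ n) hμ hμeq.le le_rfl hT.ks.inW.jet hT'.ks.inW.jet
  rcases lt_trichotomy c 1 with hc1 | hc1 | hc1
  · have hcμ : |c| * μ ^ n < 1 := by
      rw [abs_of_pos hcpos]
      nlinarith
    have hPc := (Dc_pcs1 (by omega) hμ hμeq.le hT.ks.inW.jet hT'.ks hL'.le hT'.xi_last.ge hcμ).weak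
    have hA := Dc_alt1 (q := P' + n - 1) (b := L') hμ hμeq.le hT.ks.inW hT'.ks (by omega)
      hT'.last.le hcpos.le hc1
    have := count_double one_ne_zero hm hPc (by omega) ht0 htL' hD0 hD1 (k + 1) 0 (by omega) 0
      (P' + n - 1) 1 0 (by omega) hA f3_pat0 (Or.inl rfl)
    omega
  · subst hc1
    have hcμ : |(1 : ℝ)| * μ ^ n < 1 := by
      rw [abs_one, one_mul]
      exact hμn1
    have hPs := Dc_pcs1 (by omega) hμ hμeq.le hT.ks.inW.jet hT'.ks hL'.le hT'.xi_last.ge hcμ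
    have hjet := Dc_jet (c := 1) (by omega : 1 ≤ n) hμ hμeq.le le_rfl hT.ks.inW.jet hT'.ks.inW.jet
    have hne := nonzero (by omega) hjet hPs
    have hA := Dc_alt1_weak (q := P' + n - 2) (b := L') hn hμ hμeq.le hT.ks.inW hT'.ks (by omega)
      (by rw [show P' + n - 2 + 1 = P' + n - 1 by omega]; exact hT'.last.le) hjet hne
    have := count_double one_ne_zero hm hPs.weak (by omega) ht0 htL' hD0 hD1 k 1 (by omega) 0
      (P' + n - 2) (-1) 0 (by omega) hA f3_pat0 (Or.inl rfl)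
    omega
  · have hA := Dc_alt2 (q := P + n - 1) (b := L') hμ le_rfl hT.ks hT'.ks.inW (by omega)
      (by rw [hT.last, hμeq]) hc1
    rcases lt_or_ge (c * μ ^ n) 1 with hcn | hcn
    · have hcμ : |c| * μ ^ n < 1 := by
        rw [abs_of_pos hcpos]
        exact hcn
      have hPc := (Dc_pcs1 (by omega) hμ hμeq.le hT.ks.inW.jet hT'.ks hL'.le hT'.xi_last.ge hcμ).weak
      have := count_double one_ne_zero hm hPc (by omega) ht0 htL' hD0 hD1 (k + 1) 0 (by omega) 0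
        (P + n - 1) (-1) 1 (by omega) hA f3_pat0 (Or.inr ⟨rfl, by norm_num⟩)
      omega
    · have hPc := Dc_pcs2w (b := L') (by omega) hμ le_rfl hT.ks hT'.ks.inW.jet hL'.le
        (by rw [hT.xi_last, hμeq]) hcn
      have := count_double (neg_ne_zero.2 one_ne_zero) hm hPc (by omega) ht0 htL' hD0 hD1 (k + 1) 0
        (by omega) 0 (P + n - 1) (-1) 0 (by omega) hA f3_pat0 (Or.inl rfl)
      omega

end Pool.Agent.KFL
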