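import Pool.Agent.KFL.DcB
import Pool.Agent.KFL.Basic

/-!
# KFL/Glue: two jets of the class which agree at one point can be glued

* `glue`: `F j x = T j x` for `x ≤ c`, `T' j x` for `x > c`.  Derivatives: away from `c` clear (within `[0, L']`); at `c`
  use `HasDerivWithinAt.union` for `Icc 0 c` and `Icc c L'` (both one-sided derivatives are `T (j+1) c = T' (j+1) c`;
  `F j` agrees with `T j` on `Icc 0 c` and with `T' j` on `Icc c L'` since `T j c = T' j c`).  Lipschitz: for `s ≤ c ≤ t`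
  add the two estimates.  Bound: clear.
* `glue_Ee`: `F j 0 = T j 0` so `|T j 0| ≤ E_j(L')` by `le_Ee`.
* `agree`: if `T' 0 - T 0 = 0` on `[s, t]`, `0 ≤ s < t ≤ L ≤ L'`, then all `T' j - T j` vanish at the midpoint `c` of `[s, t]`
  (as in `nonzero`: by induction `T' j - T j = 0` on `(s, t)`).
* `nonzero_of_lt`: if `D 0 = Dc T T' 1 1 0` vanishes identically on a nondegenerate subinterval of `[0, L]` then by
  `agree`, `glue_Ee` `(-1)^k T k 0 = E_k(L) ≤ E_k(L')`, a contradiction.
-/

open Set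

namespace Pool.Agent.KFL

open Pool.Agent.LKI

theorem glue {n : ℕ} (hn : 1 ≤ n) {L L' c : ℝ} {T T' : ℕ → ℝ → ℝ} (hc0 : 0 ≤ c) (hc : c ≤ L)
    (h : L ≤ L') (hT : InW n (Icc 0 L) T) (hT' : InW n (Icc 0 L') T')
    (he : ∀ j, j < n → T j c = T' j c) :
    InW n (Icc 0 L') (fun j x => if x ≤ c then T j x else T' j x) := by
  have hcL' : c ≤ L' := hc.trans h
  have hlip : ∀ s ∈ Icc 0 L', ∀ t ∈ Icc 0 L', s ≤ t →
      |(if s ≤ c then T (n - 1) s else T' (n - 1) s) -
        (if t ≤ c then T (n - 1) t else T' (n - 1) t)| ≤ 1 * |s - t| := by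
    intro s hs t ht hst
    by_cases htc : t ≤ c
    · rw [if_pos (hst.trans htc), if_pos htc]
      exact hT.jet.lip s ⟨hs.1, (hst.trans htc).trans hc⟩ t ⟨ht.1, htc.trans hc⟩
    · rw [if_neg htc]
      push Not at htc
      by_cases hsc : s ≤ c
      · rw [if_pos hsc]
        have h1 := hT.jet.lip s ⟨hs.1, hsc.trans hc⟩ c ⟨hc0, hc⟩
        have h2 := hT'.jet.lip c ⟨hc0, hcL'⟩ t ht
        rw [he (n - 1) (by omega)] at h1
        have h3 : T (n - 1) s - T' (n - 1) t =
            (T (n - 1) s - T' (n - 1) c) + (T' (n - 1) c - T' (n - 1) t) := by ring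
        rw [h3]
        refine (abs_add_le _ _).trans ?_
        rw [abs_of_nonpos (by linarith : s - c ≤ 0)] at h1
        rw [abs_of_nonpos (by linarith : c - t ≤ 0)] at h2
        rw [abs_of_nonpos (by linarith : s - t ≤ 0)]
        linarith
      · rw [if_neg hsc]
        exact hT'.jet.lip s hs t ht
  refine ⟨⟨?_, ?_⟩, ?_⟩
  · intro j hj t ht
    show HasDerivWithinAt (fun x => if x ≤ c then T j x else T' j x)
      (if t ≤ c then T (j + 1) t else T' (j + 1) t) (Icc 0 L') t
    rcases lt_trichotomy t c with htc | htc | htc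
    · rw [if_pos htc.le]
      have h1 : HasDerivWithinAt (T j) (T (j + 1) t) (Icc 0 L' ∩ Iio c) t :=
        (hT.jet.hasDeriv j hj t ⟨ht.1, htc.le.trans hc⟩).mono
          fun x hx => ⟨hx.1.1, (le_of_lt hx.2).trans hc⟩
      have h2 : HasDerivWithinAt (fun x => if x ≤ c then T j x else T' j x) (T (j + 1) t)
          (Icc 0 L' ∩ Iio c) t :=
        h1.congr (fun x hx => if_pos (le_of_lt hx.2)) (if_pos htc.le)
      exact (hasDerivWithinAt_inter (Iio_mem_nhds htc)).1 h2
    · subst htc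
      rw [if_pos le_rfl]
      have h1 : HasDerivWithinAt (fun x => if x ≤ t then T j x else T' j x) (T (j + 1) t)
          (Icc 0 t) t :=
        ((hT.jet.hasDeriv j hj t ⟨ht.1, hc⟩).mono (Icc_subset_Icc le_rfl hc)).congr
          (fun x hx => if_pos hx.2) (if_pos le_rfl)
      have h2 : HasDerivWithinAt (fun x => if x ≤ t then T j x else T' j x) (T (j + 1) t)
          (Icc t L') t := by
        rw [he (j + 1) hj]
        refine ((hT'.jet.hasDeriv j hj t ht).mono (Icc_subset_Icc ht.1 le_rfl)).congr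
          (fun x hx => ?_) ?_
        · by_cases hxt : x ≤ t
          · have : x = t := le_antisymm hxt hx.1
            subst this
            rw [if_pos le_rfl]
            exact he j (by omega)
          · exact if_neg hxt
        · rw [if_pos le_rfl]
          exact he j (by omega)
      have h3 := h1.union h2
      rwa [Icc_union_Icc_eq_Icc ht.1 hcL'] at h3
    · rw [if_neg (not_le.2 htc)]
      have h1 : HasDerivWithinAt (T' j) (T' (j + 1) t) (Icc 0 L' ∩ Ioi c) t :=
        (hT'.jet.hasDeriv j hj t ht).mono inter_subset_left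
      have h2 : HasDerivWithinAt (fun x => if x ≤ c then T j x else T' j x) (T' (j + 1) t)
          (Icc 0 L' ∩ Ioi c) t :=
        h1.congr (fun x hx => if_neg (not_le.2 hx.2)) (if_neg (not_le.2 htc))
      exact (hasDerivWithinAt_inter (Ioi_mem_nhds htc)).1 h2
  · intro s hs t ht
    rcases le_total s t with hst | hst
    · exact hlip s hs t ht hst
    · rw [abs_sub_comm, abs_sub_comm s t]
      exact hlip t ht s hs hst
  · intro t ht
    show |if t ≤ c then T 0 t else T' 0 t| ≤ 1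
    by_cases htc : t ≤ c
    · rw [if_pos htc]
      exact hT.bdd t ⟨ht.1, htc.trans hc⟩
    · rw [if_neg htc]
      exact hT'.bdd t ht

theorem glue_Ee {n : ℕ} (hn : 2 ≤ n) {L L' c : ℝ} {T T' : ℕ → ℝ → ℝ} (hL : 0 < L) (hc0 : 0 ≤ c)
    (hc : c ≤ L) (h : L ≤ L') (hT : InW n (Icc 0 L) T) (hT' : InW n (Icc 0 L') T')
    (he : ∀ j, j < n → T j c = T' j c) {j : ℕ} (hj : j < n) : |T j 0| ≤ Ee n L' j := by
  have h1 := le_Ee hn (hL.trans_le h) (glue (by omega) hc0 hc h hT hT' he) hj
  have h2 : (if (0 : ℝ) ≤ c then T j 0 else T' j 0) = T j 0 := if_pos hc0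
  rw [← h2]
  exact h1

theorem agree {n : ℕ} (hn : 1 ≤ n) {L L' s t : ℝ} {T T' : ℕ → ℝ → ℝ} (h : L ≤ L') (hs : 0 ≤ s)
    (hst : s < t) (ht : t ≤ L) (hT : InW n (Icc 0 L) T) (hT' : InW n (Icc 0 L') T')
    (he : ∀ x ∈ Icc s t, T 0 x = T' 0 x) : ∀ j, j < n → T j ((s + t) / 2) = T' j ((s + t) / 2) := by
  have key : ∀ j, j < n → ∀ x ∈ Ioo s t, T j x = T' j x := by
    intro j
    induction j with
    | zero => exact fun _ x hx => he x (Ioo_subset_Icc_self hx)
    | succ j ih =>
      intro hj x hx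
      have hx0 : 0 < x := hs.trans_lt hx.1
      have hxL : x < L := hx.2.trans_le ht
      have h1 : HasDerivAt (T j) (T (j + 1) x) x :=
        (hT.jet.hasDeriv j hj x ⟨hx0.le, hxL.le⟩).hasDerivAt (Icc_mem_nhds hx0 hxL)
      have h2 : HasDerivAt (T' j) (T' (j + 1) x) x :=
        (hT'.jet.hasDeriv j hj x ⟨hx0.le, hxL.le.trans h⟩).hasDerivAt
          (Icc_mem_nhds hx0 (hxL.trans_le h))
      have h3 : T' j =ᶠ[nhds x] T j := by
        filter_upwards [Ioo_mem_nhds hx.1 hx.2] with y hy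
        exact (ih (by omega) y hy).symm
      exact (h1.congr_of_eventuallyEq h3).unique h2
  intro j hj
  exact key j hj _ ⟨by linarith, by linarith⟩

theorem nonzero_of_lt {n k : ℕ} (hn : 2 ≤ n) (hk : k < n) {L L' : ℝ} {T T' : ℕ → ℝ → ℝ} {P : ℕ}
    {ξ τ : ℕ → ℝ} (hL : 0 < L) (h : L ≤ L') (hT : KSpline n L T P ξ τ) (hT' : InW n (Icc 0 L') T')
    (hlt : Ee n L' k < Ee n L k) :
    ∀ s t, 0 ≤ s → s < t → t ≤ L → ∃ x ∈ Icc s t, Dc T T' 1 1 0 x ≠ 0 := by
  intro s t hs hst ht
  by_contra hcon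
  push Not at hcon
  have he : ∀ x ∈ Icc s t, T 0 x = T' 0 x := by
    intro x hx
    have h1 := hcon x hx
    unfold Dc at h1
    simp only [pow_zero, mul_one, one_mul] at h1
    linarith
  have h1 := agree (by omega) h hs hst ht hT.inW hT' he
  have h2 := glue_Ee hn hL (c := (s + t) / 2) (by linarith) (by linarith) h hT.inW hT' h1 hk
  have h3 := Ee_eq hn hT hk
  have h4 : (-1) ^ k * T k 0 ≤ |T k 0| := by
    rcases neg_one_pow_eq_or ℝ k with h5 | h5 <;> rw [h5]
    · rw [one_mul]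
      exact le_abs_self _
    · rw [neg_one_mul]
      exact neg_le_abs _
  linarith

end Pool.Agent.KFL
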