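import Pool.Agent.KFL.Knots
import Pool.Agent.KFL.EtaLow
import Pool.Agent.KFL.Glue

/-!
# KFL/F5loc: `Mc(L') / E_k(L') ≤ Mc(L) / E_k(L)` for a tight pair `L < L'`, close together

PROOF.  Let `η = eta n k L`, `η' = eta n k L'`, `M = Mc n k L > 0`, `M' = Mc n k L' > 0` (`EtaOK.neg`), `E = E_k(L)`,
`E' = E_k(L')`, and suppose `M' E > M E'`.  Let `μ = η / η'`, `c = M' / (M μ^k) > 0`, `b = L / μ`, `D = Dc T T' c μ`.
`b ≤ L'` (`hF3`), `τ' (P'+n-2) ≤ b` (`hg`), `μ b = L = ξ (P+1)`, `ξ' (P'+1) = L'` (`Tight.xi_last`).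
`D (k+1) η' = 0` (both terms vanish) and `D k η' = (-1)^k (- M' + c μ^k M) = 0` (`T_eq_pE`, `η' < ξ' 1`, `η < ξ 1` by
`eta_lt_xi`), `0 < η' < b` (`η < ξ 1 ≤ ξ (P+1) = L`).
`(-1)^k D k 0 = E' - c μ^k E = (E' M - M' E) / M < 0` (`Ee_eq`).
`count_double` with the level `k` (`k + 1 < n`):
* `c > 1`, `1 ≤ c μ^n`: `Dc_alt2`, `q = P+n-1`, `ρ = -1`; `Dc_pcs2w`, `δ = -1`, `P`: `P+n-1+2 ≤ P+n`, false.
* `c > 1`, `c μ^n < 1`: `Dc_alt2`, `q = P+n-1`; `Dc_pcs1`, `δ = 1`, `P'`, `ε = 1`: `P+n-1+1+2 ≤ P'+n ≤ P+1+n`, false.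
* `c < 1`, `1 ≤ c μ^n`: `Dc_alt1`, `q = P'+n-2`, `ρ = 1`; `Dc_pcs2w`, `δ = -1`, `P`; pattern `g = 1`, `idx 0 = k`
  (start sign `1`): `P'+n-2+1+2 ≤ P+n ≤ P'+n`, false.
* `c < 1`, `c μ^n < 1`: `Dc_alt1`, `q = P'+n-2`, `ρ = 1`; `Dc_pcs1`, `δ = 1`, `P'`; pattern `g = 1`, `ε = 1`
  (`1 * (-1)^1 * 1 < 0`): `P'+n-2+1+1+2 ≤ P'+n`, false.
* `c = 1`: level `j = 1 ≤ k`.  The function `D 0` vanishes identically on no interval: if `μ > 1` or `μ < 1` by
  `nonzero` with `Dc_pcs2` (`1 < μ^n`) resp. `Dc_pcs1` (`μ^n < 1`), if `μ = 1` by `nonzero_of_lt` (here `M' = M`, so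
  `E' < E`).  So `Dc_alt2_weak` with `q = P+n-2`: `Alt (D 1) _ (P+n-2) 1`.
  If `μ ≥ 1`: `Dc_pcs2w`, `δ = -1`, `P`: `P+n-2+2 ≤ P+(n-1)`, false.
  If `μ < 1`: `Dc_pcs1`, `δ = 1`, `P'`, `ε = 1` (`(-1)^1 * 1 * 1 < 0`): `P+n-2+1+2 ≤ P'+(n-1) ≤ P+n`, false.
(Side conditions: `j + m = k`, `m ≤ q`.)
-/

open Set

namespace Pool.Agent.KFL

open Pool.Agent.LKI

private theorem F5loc_xi_le {n : ℕ} {L : ℝ} {T : ℕ → ℝ → ℝ} {P : ℕ} {ξ τ : ℕ → ℝ}
    (hT : KSpline n L T P ξ τ) (i j : ℕ) (hij : i ≤ j) (hj : j ≤ P + 1) : ξ i ≤ ξ j := by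
  induction j, hij using Nat.le_induction with
  | base => exact le_rfl
  | succ j hij ih => exact (ih (by omega)).trans (hT.ξmono j (by omega))

private theorem F5loc_pat0 (s : ℕ → ℝ) (lo hi : ℕ) (e : ℝ) : Pat s lo hi 0 e :=
  ⟨fun _ => 0, fun i hi => by omega, fun i hi => by omega, fun i hi => by omega⟩

private theorem F5loc_pat1 {s : ℕ → ℝ} {lo hi k : ℕ} {e : ℝ} (h1 : lo ≤ k) (h2 : k ≤ hi)
    (h3 : 0 < e * (-1) ^ 1 * s k) : Pat s lo hi 1 e := by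
  refine ⟨fun _ => k, fun i hi => ⟨h1, h2⟩, fun i hi => by omega, fun i hi => ?_⟩
  obtain rfl : i = 0 := by omega
  exact h3

theorem F5loc {n k : ℕ} (hk1 : 1 ≤ k) (hk : k + 3 ≤ n) {L L' : ℝ} {T T' : ℕ → ℝ → ℝ} {P P' : ℕ}
    {ξ τ ξ' τ' : ℕ → ℝ} (hT : Tight n L T P ξ τ) (hT' : Tight n L' T' P' ξ' τ') (hL : 0 < L)
    (h : L < L') (hP0 : P ≤ P') (hP : P' ≤ P + 1) (hF3 : eta n k L' * L ≤ eta n k L * L')
    (hg : τ' (P' + n - 2) * eta n k L ≤ L * eta n k L') :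
    Mc n k L' * Ee n L k ≤ Mc n k L * Ee n L' k := by
  by_contra hcon
  push Not at hcon
  have hn1 : 1 ≤ n := by omega
  have hn2 : 2 ≤ n := by omega
  have hL' : 0 < L' := hL.trans h
  have ok := etaOK_low hk hL
  have ok' := etaOK_low hk hL'
  have hηξ := eta_lt_xi hk hT.ks
  have hηξ' := eta_lt_xi hk hT'.ks
  obtain ⟨η, hη⟩ : ∃ x, x = eta n k L := ⟨_, rfl⟩
  obtain ⟨η', hη'⟩ : ∃ x, x = eta n k L' := ⟨_, rfl⟩
  obtain ⟨M, hM⟩ : ∃ x, x = Mc n k L := ⟨_, rfl⟩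
  obtain ⟨M', hM'⟩ : ∃ x, x = Mc n k L' := ⟨_, rfl⟩
  have p1 : 0 < η := by rw [hη]; exact ok.pos
  have p1' : 0 < η' := by rw [hη']; exact ok'.pos
  have z1 : pE n L (k + 1) η = 0 := by rw [hη]; exact ok.zero
  have z1' : pE n L' (k + 1) η' = 0 := by rw [hη']; exact ok'.zero
  have m1 : pE n L k η = -M := by rw [hM, Mc, hη]; ring
  have m1' : pE n L' k η' = -M' := by rw [hM', Mc, hη']; ring
  have hMpos : 0 < M := by
    have := ok.neg
    rw [← hη, m1] at this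
    linarith
  have hMpos' : 0 < M' := by
    have := ok'.neg
    rw [← hη', m1'] at this
    linarith
  rw [← hη] at hηξ hF3 hg
  rw [← hη'] at hηξ' hF3 hg
  rw [← hM, ← hM'] at hcon
  -- the parameters
  obtain ⟨μ, hμ⟩ : ∃ x, x = η / η' := ⟨_, rfl⟩
  have hμ0 : 0 < μ := by rw [hμ]; positivity
  obtain ⟨c, hc⟩ : ∃ x, x = M' / (M * μ ^ k) := ⟨_, rfl⟩
  have hc0 : 0 < c := by rw [hc]; positivity
  obtain ⟨b, hb⟩ : ∃ x, x = L / μ := ⟨_, rfl⟩
  have hb0 : 0 < b := by rw [hb]; positivity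
  have hμb : μ * b = L := by rw [hb]; field_simp
  have hμη : μ * η' = η := by rw [hμ]; field_simp
  have hbe : b = L * η' / η := by rw [hb, hμ]; field_simp
  have hbL' : b ≤ L' := by
    rw [hbe, div_le_iff₀ p1]
    linarith
  have hτb : τ' (P' + n - 2) ≤ b := by
    rw [hbe, le_div_iff₀ p1]
    exact hg
  have hcM : c * μ ^ k * M = M' := by
    rw [hc]
    field_simp
  have hξL := hT.xi_last
  have hξL' := hT'.xi_last
  have hηL : η < L := by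
    have := F5loc_xi_le hT.ks 1 (P + 1) (by omega) le_rfl
    rw [hξL] at this
    linarith
  have hyb : η' < b := by
    rw [hbe, lt_div_iff₀ p1]
    have := mul_lt_mul_of_pos_left hηL p1'
    linarith
  -- the double zero
  have d1 : Dc T T' c μ (k + 1) η' = 0 := by
    rw [Dc, hμη, T_eq_pE hn2 hT'.ks (by omega) p1'.le hηξ'.le,
      T_eq_pE hn2 hT.ks (by omega) p1.le hηξ.le, z1, z1']
    ring
  have d0 : Dc T T' c μ k η' = 0 := by
    rw [Dc, hμη, T_eq_pE hn2 hT'.ks (by omega) p1'.le hηξ'.le,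
      T_eq_pE hn2 hT.ks (by omega) p1.le hηξ.le, m1, m1', ← hcM]
    ring
  have s0 : (-1) ^ k * Dc T T' c μ k 0 < 0 := by
    have e1 := Ee_eq hn2 hT'.ks (show k < n by omega)
    have e2 := Ee_eq hn2 hT.ks (show k < n by omega)
    have e3 : (-1) ^ k * Dc T T' c μ k 0 = Ee n L' k - c * μ ^ k * Ee n L k := by
      rw [Dc, mul_zero, e1, e2]
      ring
    rw [e3]
    have e4 : c * μ ^ k = M' / M := by
      rw [eq_div_iff hMpos.ne']
      exact hcM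
    rw [e4]
    have e5 : Ee n L' k - M' / M * Ee n L k = (M * Ee n L' k - M' * Ee n L k) / M := by
      field_simp
    rw [e5]
    apply div_neg_of_neg_of_pos _ hMpos
    linarith
  have hmvt := Dc_mvt (c := c) hn1 hμ0 hμb.le hbL' hT.ks.inW.jet hT'.ks.inW.jet
  have hjet := Dc_jet (c := c) hn1 hμ0 hμb.le hbL' hT.ks.inW.jet hT'.ks.inW.jet
  have hlast : τ (P + n - 1) ≤ μ * b := by rw [hT.last, hμb]
  have hbξ' : b ≤ ξ' (P' + 1) := by rw [hξL']; exact hbL'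
  have hμbξ : μ * b ≤ ξ (P + 1) := by rw [hξL, hμb]
  have hμn : 0 < μ ^ n := by positivity
  rcases lt_trichotomy c 1 with hc1 | hc1 | hc1
  · -- `c < 1`
    have hAlt := Dc_alt1 (q := P' + n - 2) hμ0 hμb.le hT.ks.inW hT'.ks (by omega) hτb hc0.le hc1
    have hpat : Pat (fun i => (-1) ^ i * Dc T T' c μ i 0) 0 (n - 1) 1 ((-1) ^ 0 * 1) := by
      refine F5loc_pat1 (k := k) (by omega) (by omega) ?_
      change 0 < (-1) ^ 0 * 1 * (-1) ^ 1 * ((-1) ^ k * Dc T T' c μ k 0)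
      nlinarith [s0]
    rcases le_or_gt 1 (c * μ ^ n) with hcn | hcn
    · have hPcs := Dc_pcs2w hn1 hμ0 hbL' hT.ks hT'.ks.inW.jet hb0.le hμbξ hcn
      have := count_double (d := Dc T T' c μ) (by norm_num) hmvt hPcs (by omega) p1' hyb d0 d1
        k 0 (by omega) 1 (P' + n - 2) 1 0 (by omega) hAlt hpat (Or.inl rfl)
      omega
    · have hPcs := (Dc_pcs1 hn1 hμ0 hμb.le hT.ks.inW.jet hT'.ks hb0.le hbξ'
        (by rw [abs_of_pos hc0]; exact hcn)).weak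
      have := count_double (d := Dc T T' c μ) (by norm_num) hmvt hPcs (by omega) p1' hyb d0 d1
        k 0 (by omega) 1 (P' + n - 2) 1 1 (by omega) hAlt hpat (Or.inr ⟨rfl, by norm_num⟩)
      omega
  · -- `c = 1`
    subst hc1
    have hne : ∀ s t, 0 ≤ s → s < t → t ≤ b → ∃ x ∈ Icc s t, Dc T T' 1 μ 0 x ≠ 0 := by
      rcases lt_trichotomy μ 1 with hm | hm | hm
      · have hPcs := Dc_pcs1 (c := 1) hn1 hμ0 hμb.le hT.ks.inW.jet hT'.ks hb0.le hbξ'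
          (by rw [abs_one, one_mul]; exact pow_lt_one₀ hμ0.le hm (by omega))
        exact nonzero hn1 hjet hPcs
      · subst hm
        have hbL : b = L := by rw [← hμb, one_mul]
        have hMM : M' = M := by
          rw [← hcM, one_pow, one_mul, one_mul]
        rw [hbL]
        refine nonzero_of_lt (k := k) hn2 (by omega) hL h.le hT.ks hT'.ks.inW ?_
        rw [hMM] at hcon
        exact lt_of_mul_lt_mul_left hcon hMpos.le
      · have hPcs := Dc_pcs2 (c := 1) hn1 hμ0 hbL' hT.ks hT'.ks.inW.jet hb0.le hμbξ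
          (by rw [one_mul]; exact one_lt_pow₀ hm (by omega))
        exact nonzero hn1 hjet hPcs
    have e1 : P + n - 2 + 1 = P + n - 1 := by omega
    have hAlt := Dc_alt2_weak (q := P + n - 2) hn2 hμ0 hbL' hT.ks hT'.ks.inW (by omega)
      (by rw [e1]; exact hlast) hjet hne
    rcases le_or_gt 1 μ with hm | hm
    · have hPcs := Dc_pcs2w (c := 1) hn1 hμ0 hbL' hT.ks hT'.ks.inW.jet hb0.le hμbξ
        (by rw [one_mul]; exact one_le_pow₀ hm)
      have := count_double (d := Dc T T' 1 μ) (by norm_num) hmvt hPcs (by omega) p1' hyb d0 d1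
        (k - 1) 1 (by omega) 0 (P + n - 2) 1 0 (by omega) hAlt (F5loc_pat0 _ _ _ _) (Or.inl rfl)
      omega
    · have hPcs := (Dc_pcs1 (c := 1) hn1 hμ0 hμb.le hT.ks.inW.jet hT'.ks hb0.le hbξ'
          (by rw [abs_one, one_mul]; exact pow_lt_one₀ hμ0.le hm (by omega))).weak
      have := count_double (d := Dc T T' 1 μ) (by norm_num) hmvt hPcs (by omega) p1' hyb d0 d1
        (k - 1) 1 (by omega) 0 (P + n - 2) 1 1 (by omega) hAlt (F5loc_pat0 _ _ _ _)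
        (Or.inr ⟨rfl, by norm_num⟩)
      omega
  · -- `1 < c`
    have hAlt := Dc_alt2 (q := P + n - 1) hμ0 hbL' hT.ks hT'.ks.inW (by omega) hlast hc1
    rcases le_or_gt 1 (c * μ ^ n) with hcn | hcn
    · have hPcs := Dc_pcs2w hn1 hμ0 hbL' hT.ks hT'.ks.inW.jet hb0.le hμbξ hcn
      have := count_double (d := Dc T T' c μ) (by norm_num) hmvt hPcs (by omega) p1' hyb d0 d1
        k 0 (by omega) 0 (P + n - 1) (-1) 0 (by omega) hAlt (F5loc_pat0 _ _ _ _) (Or.inl rfl)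
      omega
    · have hPcs := (Dc_pcs1 hn1 hμ0 hμb.le hT.ks.inW.jet hT'.ks hb0.le hbξ'
        (by rw [abs_of_pos hc0]; exact hcn)).weak
      have := count_double (d := Dc T T' c μ) (by norm_num) hmvt hPcs (by omega) p1' hyb d0 d1
        k 0 (by omega) 0 (P + n - 1) (-1) 1 (by omega) hAlt (F5loc_pat0 _ _ _ _)
        (Or.inr ⟨rfl, by norm_num⟩)
      omega

end Pool.Agent.KFL
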