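import Mathlib

/-!
# KFL/Princ: the monotonicity principle

`A` is the set of tight lengths.  `φ` is continuous on `(0, ∞)`; for every `L > 0` there is a tight length
`ℓ ≤ L` such that `φ` is nonincreasing on `[ℓ, L]`; and locally `φ` is nonincreasing on the tight lengths.
Then `φ` is nonincreasing.

PROOF.  Let `0 < L < L'` and suppose `φ L < φ L'`.  Let `S = {t ∈ [L, L'] | φ t ≤ φ L}`, `t₀ = sSup S`.  `S` is closed
(continuity), nonempty (`L ∈ S`), so `t₀ ∈ S`, `t₀ < L'`, and `φ t > φ L` for all `t ∈ (t₀, L']`; `φ t₀ ≤ φ L`.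
For `t ∈ (t₀, L']` let `ℓ t` be the tight length of the hypothesis: `φ (ℓ t) ≥ φ t > φ L ≥ φ t₀`.  Then `ℓ t > t₀`: otherwise
`t₀ ∈ [ℓ t, t]`, so `φ t ≤ φ t₀ ≤ φ L`, a contradiction.  Fix `δ` from `hloc` at `t₀` and a `t ∈ (t₀, min L' (t₀ + δ))`, put
`a = ℓ t ∈ (t₀, t]`, so `φ a ≥ φ t > φ L`.  For every `s ∈ (t₀, a)` the tight length `ℓ s` satisfies `t₀ < ℓ s ≤ s < a`, so
by `hloc` `φ (ℓ s) ≥ φ a`.  Let `s → t₀+`: `ℓ s → t₀` and by continuity `φ t₀ ≥ φ a > φ L ≥ φ t₀`, a contradiction.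
-/

open Set Filter Topology

namespace Pool.Agent.KFL

theorem monotone_principle {A : Set ℝ} {φ : ℝ → ℝ} (hc : ContinuousOn φ (Ioi 0))
    (htight : ∀ L, 0 < L → ∃ ℓ ∈ A, 0 < ℓ ∧ ℓ ≤ L ∧ ∀ s ∈ Icc ℓ L, ∀ t ∈ Icc ℓ L, s ≤ t → φ t ≤ φ s)
    (hloc : ∀ t₀, 0 < t₀ → ∃ δ > 0, ∀ a ∈ A, ∀ b ∈ A, |a - t₀| < δ → |b - t₀| < δ → a < b → φ b ≤ φ a) :
    ∀ L L', 0 < L → L ≤ L' → φ L' ≤ φ L := by
  intro L L' hL hLL'
  by_contra! h
  have hScl : IsClosed (Icc L L' ∩ φ ⁻¹' Iic (φ L)) := by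
    apply ContinuousOn.preimage_isClosed_of_isClosed _ isClosed_Icc isClosed_Iic
    exact hc.mono fun x hx => lt_of_lt_of_le hL hx.1
  have hScp : IsCompact (Icc L L' ∩ φ ⁻¹' Iic (φ L)) :=
    isCompact_Icc.of_isClosed_subset hScl inter_subset_left
  have hSne : (Icc L L' ∩ φ ⁻¹' Iic (φ L)).Nonempty := ⟨L, ⟨⟨le_rfl, hLL'⟩, le_refl (φ L)⟩⟩
  have hmem := hScp.sSup_mem hSne
  have hub : ∀ x ∈ (Icc L L' ∩ φ ⁻¹' Iic (φ L)), x ≤ sSup (Icc L L' ∩ φ ⁻¹' Iic (φ L)) :=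
    fun x hx => le_csSup hScp.bddAbove hx
  generalize sSup (Icc L L' ∩ φ ⁻¹' Iic (φ L)) = t₀ at hmem hub
  obtain ⟨⟨hLt, htL'⟩, hφt⟩ := hmem
  have hφt' : φ t₀ ≤ φ L := hφt
  have ht0 : 0 < t₀ := lt_of_lt_of_le hL hLt
  have htlt : t₀ < L' := by
    rcases htL'.lt_or_eq with h1 | h1
    · exact h1
    · rw [h1] at hφt'
      linarith
  have hgt : ∀ t, t₀ < t → t ≤ L' → φ L < φ t := by
    intro t h1 h2
    by_contra! h3
    have := hub t ⟨⟨by linarith, h2⟩, h3⟩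
    linarith
  choose ℓ hℓA hℓ0 hℓle hℓm using htight
  have hℓgt : ∀ t (ht : 0 < t), t₀ < t → t ≤ L' → t₀ < ℓ t ht := by
    intro t ht h1 h2
    by_contra! h3
    have h4 := hℓm t ht t₀ ⟨h3, h1.le⟩ t ⟨hℓle t ht, le_rfl⟩ h1.le
    have h5 := hgt t h1 h2
    linarith
  obtain ⟨δ, hδ, hloc'⟩ := hloc t₀ ht0
  obtain ⟨t, ht1, ht2, ht3⟩ : ∃ t, t₀ < t ∧ t ≤ L' ∧ t < t₀ + δ :=
    ⟨min L' (t₀ + δ / 2), lt_min htlt (by linarith), min_le_left _ _,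
      lt_of_le_of_lt (min_le_right _ _) (by linarith)⟩
  have htpos : 0 < t := ht0.trans ht1
  have ha1 := hℓgt t htpos ht1 ht2
  have ha2 := hℓle t htpos
  have ha3 : φ t ≤ φ (ℓ t htpos) :=
    hℓm t htpos _ ⟨le_rfl, ha2⟩ t ⟨ha2, le_rfl⟩ ha2
  have ha4 := hgt t ht1 ht2
  have haA := hℓA t htpos
  generalize ℓ t htpos = a at ha1 ha2 ha3 haA
  have hlt : φ t₀ < φ a := by linarith
  have hct : ContinuousAt φ t₀ := hc.continuousAt (Ioi_mem_nhds ht0)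
  have hev : ∀ᶠ x in 𝓝 t₀, φ x < φ a := hct.eventually (gt_mem_nhds hlt)
  obtain ⟨δ', hδ', hball⟩ := Metric.eventually_nhds_iff.1 hev
  obtain ⟨s, hs1, hs2, hs3⟩ : ∃ s, t₀ < s ∧ s < a ∧ s < t₀ + δ' := by
    refine ⟨t₀ + min (δ' / 2) ((a - t₀) / 2), ?_, ?_, ?_⟩
    · have := lt_min (half_pos hδ') (half_pos (sub_pos.2 ha1))
      linarith
    · have := min_le_right (δ' / 2) ((a - t₀) / 2)
      linarith
    · have := min_le_left (δ' / 2) ((a - t₀) / 2)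
      linarith
  have hspos : 0 < s := ht0.trans hs1
  have hsL' : s ≤ L' := by linarith
  have hb1 := hℓgt s hspos hs1 hsL'
  have hb2 := hℓle s hspos
  have hbA := hℓA s hspos
  generalize ℓ s hspos = b at hb1 hb2 hbA
  have h6 : φ a ≤ φ b := by
    apply hloc' b hbA a haA
    · rw [abs_lt]
      constructor <;> linarith
    · rw [abs_lt]
      constructor <;> linarith
    · linarith
  have h7 : φ b < φ a := by
    apply hball
    rw [Real.dist_eq, abs_lt]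
    constructor <;> linarith
  linarith

end Pool.Agent.KFL
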