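import Pool.Agent.KFL.F3loc
import Pool.Agent.KFL.F5loc
import Pool.Agent.KFL.F2loc
import Pool.Agent.KFL.Cont
import Pool.Agent.KFL.Princ

/-!
# KFL/Glob: `eta(L)/L` and `q(L) = Mc(L)/E_k(L)` are nonincreasing on `(0, ∞)`

All by `monotone_principle` with `A = {L | 0 < L and there is a tight spline on [0, L]}`; `htight` from
`exists_tight` and `EtaOK_congr`, `Ee_const` (the functions `eta`, `Mc`, `Ee` are constant on `[ℓ, L]`).

* `pair`: for `t₀ > 0` there are `g > 0`, `δ > 0` such that for tight `a < b` in `(t₀ - δ, t₀ + δ)`: `0 < a`, `P_a ≤ P_b ≤ P_a + 1` and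
  `τ_b (P_b+n-2) + g ≤ b`: `node_gap` with `L₀ = t₀ / 2`, `δ = min (t₀/2) (g/2)`, `knots_le`, `knots_succ`
  (`τ_b (P_b+n-2) ≤ b - g < a`), `Tight.last`.
* `F3` (`k + 3 ≤ n`): `φ L = eta n k L / L`, `F3loc`.  `F3top` (`k + 2 = n`): `eta = E_{n-1}` (`eta_top`) is nonincreasing.
* `F5` (`k + 3 ≤ n`, `1 ≤ k`): `φ L = Mc n k L / Ee n L k`, `F5loc`; `hF3` from `F3` (or `F3loc`); `hg`:
  `a eta(b) / eta(a) → t₀` for `a, b → t₀` (`eta_cont`, `eta > 0`), so with a smaller `δ` it exceeds `t₀ - g/2`, while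
  `τ_b (P_b+n-2) ≤ b - g < t₀ + δ - g ≤ t₀ - g/2`.
* `F5top` (`k + 2 = n`): `Mc/Ee = E_{n-1}^2 / (2 E_{n-2}) - 1` (`Mc_top`), `F2loc` with `hg` from the continuity of `E_{n-1}`
  in the same way.
-/

open Set Filter Topology

namespace Pool.Agent.KFL

open Pool.Agent.LKI

theorem pair {n : ℕ} (hn : 2 ≤ n) {t₀ : ℝ} (ht : 0 < t₀) :
    ∃ g > 0, ∃ δ > 0, ∀ (a b : ℝ) (T T' : ℕ → ℝ → ℝ) (P P' : ℕ) (ξ τ ξ' τ' : ℕ → ℝ),
      |a - t₀| < δ → |b - t₀| < δ → a < b → Tight n a T P ξ τ → Tight n b T' P' ξ' τ' →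
      0 < a ∧ P ≤ P' ∧ P' ≤ P + 1 ∧ τ' (P' + n - 2) + g ≤ b := by
  obtain ⟨g, hg, hgap⟩ := node_gap hn (half_pos ht)
  refine ⟨g, hg, min (t₀ / 2) (g / 2), lt_min (half_pos ht) (half_pos hg), ?_⟩
  intro a b T T' P P' ξ τ ξ' τ' ha hb hab hT hT'
  have h1 : min (t₀ / 2) (g / 2) ≤ t₀ / 2 := min_le_left _ _
  have h2 : min (t₀ / 2) (g / 2) ≤ g / 2 := min_le_right _ _
  rw [abs_lt] at ha hb
  have ha0 : 0 < a := by linarith [ha.1]
  have hb1 : t₀ / 2 ≤ b := by linarith [hb.1]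
  have h3 := hgap b T' P' ξ' τ' hb1 hT'.ks (P' + n - 2) (by omega)
  have e : P' + n - 2 + 1 = P' + n - 1 := by omega
  rw [e, hT'.last] at h3
  refine ⟨ha0, knots_le hn hT hT' ha0 hab, knots_succ hn hT hT' ha0 hab ?_, h3⟩
  linarith [ha.1, hb.2]

/-- the set of tight lengths -/
private def TL (n : ℕ) : Set ℝ :=
  {L | 0 < L ∧ ∃ (T : ℕ → ℝ → ℝ) (P : ℕ) (ξ τ : ℕ → ℝ), Tight n L T P ξ τ}

private theorem gapc {f : ℝ → ℝ} (hf : ContinuousOn f (Ioi 0)) {t₀ g : ℝ} (ht : 0 < t₀)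
    (hpos : 0 < f t₀) (hg : 0 < g) :
    ∃ δ > 0, ∀ a b, |a - t₀| < δ → |b - t₀| < δ → (b - g) * f a < a * f b := by
  have hc : ContinuousAt f t₀ := hf.continuousAt (Ioi_mem_nhds ht)
  have h1 : Tendsto (fun p : ℝ × ℝ => p.1 * f p.2 - (p.2 - g) * f p.1) (𝓝 (t₀, t₀))
      (𝓝 (t₀ * f t₀ - (t₀ - g) * f t₀)) := by
    have ha : Tendsto (fun p : ℝ × ℝ => p.1) (𝓝 (t₀, t₀)) (𝓝 t₀) :=
      (continuous_fst (X := ℝ) (Y := ℝ)).tendsto (t₀, t₀)
    have hb : Tendsto (fun p : ℝ × ℝ => p.2) (𝓝 (t₀, t₀)) (𝓝 t₀) :=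
      (continuous_snd (X := ℝ) (Y := ℝ)).tendsto (t₀, t₀)
    exact (ha.mul (hc.tendsto.comp hb)).sub ((hb.sub_const g).mul (hc.tendsto.comp ha))
  have h2 : 0 < t₀ * f t₀ - (t₀ - g) * f t₀ := by
    have : t₀ * f t₀ - (t₀ - g) * f t₀ = g * f t₀ := by ring
    rw [this]
    positivity
  have h3 := h1.eventually (lt_mem_nhds h2)
  obtain ⟨δ, hδ, h4⟩ := Metric.eventually_nhds_iff.1 h3
  refine ⟨δ, hδ, fun a b ha hb => ?_⟩
  have h5 : dist (a, b) (t₀, t₀) < δ := by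
    rw [Prod.dist_eq]
    exact max_lt ha hb
  have h6 := h4 h5
  simp only at h6
  linarith

theorem F3 {n k : ℕ} (hk : k + 2 ≤ n) {L L' : ℝ} (hL : 0 < L) (h : L ≤ L') :
    eta n k L' * L ≤ eta n k L * L' := by
  have hn : 2 ≤ n := by omega
  have hL' : 0 < L' := hL.trans_le h
  rcases Nat.lt_or_ge (k + 2) n with hk' | hk'
  · have hk3 : k + 3 ≤ n := hk'
    have key : eta n k L' / L' ≤ eta n k L / L := by
      refine monotone_principle (A := TL n) (φ := fun L => eta n k L / L) ?_ ?_ ?_ L L' hL h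
      · exact (eta_cont hk3).div continuousOn_id fun x hx => ne_of_gt hx
      · intro L hL
        obtain ⟨ℓ, h0, h1, h2, h3⟩ := exists_tight hn hL
        refine ⟨ℓ, ⟨h0, h2⟩, h0, h1, fun s hs t ht hst => ?_⟩
        have e1 := (EtaOK_congr (k := k) hn h0 h3 hs).2.1 k
        have e2 := (EtaOK_congr (k := k) hn h0 h3 ht).2.1 k
        show eta n k t / t ≤ eta n k s / s
        rw [e1, e2]
        have h4 := (etaOK_low hk3 h0).pos
        exact div_le_div_of_nonneg_left h4.le (h0.trans_le hs.1) hst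
      · intro t₀ ht
        obtain ⟨g, hg, δ, hδ, hp⟩ := pair hn ht
        refine ⟨δ, hδ, ?_⟩
        rintro a ⟨ha0, T, P, ξ, τ, hT⟩ b ⟨hb0, T', P', ξ', τ', hT'⟩ ha hb hab
        obtain ⟨_, _, h2, _⟩ := hp a b T T' P P' ξ τ ξ' τ' ha hb hab hT hT'
        have h4 := F3loc hk3 hT hT' ha0 hab h2
        show eta n k b / b ≤ eta n k a / a
        rw [div_le_div_iff₀ hb0 ha0]
        exact h4
    rw [div_le_div_iff₀ hL' hL] at key
    exact key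
  · have hk2 : k + 2 = n := by omega
    rw [eta_top hk2 hL, eta_top hk2 hL']
    have h1 := Ee_anti hn hL h (n - 1)
    have h2 := Ee_ge_one hn hL (n - 1)
    calc Ee n L' (n - 1) * L ≤ Ee n L (n - 1) * L := mul_le_mul_of_nonneg_right h1 hL.le
      _ ≤ Ee n L (n - 1) * L' := mul_le_mul_of_nonneg_left h (by linarith)

private theorem F2 {n : ℕ} (hn : 2 ≤ n) {L L' : ℝ} (hL : 0 < L) (h : L ≤ L') :
    Ee n L' (n - 1) ^ 2 / Ee n L' (n - 2) ≤ Ee n L (n - 1) ^ 2 / Ee n L (n - 2) := by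
  have hpos : ∀ {L : ℝ} (j : ℕ), 0 < L → 0 < Ee n L j := fun j hL =>
    zero_lt_one.trans_le (Ee_ge_one hn hL j)
  refine monotone_principle (A := TL n) (φ := fun L => Ee n L (n - 1) ^ 2 / Ee n L (n - 2))
    ?_ ?_ ?_ L L' hL h
  · exact ((Ee_cont hn (n - 1)).pow 2).div (Ee_cont hn (n - 2)) fun x hx => (hpos _ hx).ne'
  · intro L hL
    obtain ⟨ℓ, h0, h1, h2, h3⟩ := exists_tight hn hL
    refine ⟨ℓ, ⟨h0, h2⟩, h0, h1, fun s hs t ht hst => ?_⟩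
    show Ee n t (n - 1) ^ 2 / Ee n t (n - 2) ≤ Ee n s (n - 1) ^ 2 / Ee n s (n - 2)
    rw [Ee_const hn h0 h3 hs, Ee_const hn h0 h3 hs, Ee_const hn h0 h3 ht, Ee_const hn h0 h3 ht]
  · intro t₀ ht
    obtain ⟨g, hg, δ, hδ, hp⟩ := pair hn ht
    obtain ⟨δ', hδ', hq⟩ := gapc (Ee_cont hn (n - 1)) ht (hpos _ ht) hg
    refine ⟨min δ δ', lt_min hδ hδ', ?_⟩
    rintro a ⟨ha0, T, P, ξ, τ, hT⟩ b ⟨hb0, T', P', ξ', τ', hT'⟩ ha hb hab
    obtain ⟨_, h1, h2, h3⟩ := hp a b T T' P P' ξ τ ξ' τ' (ha.trans_le (min_le_left _ _))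
      (hb.trans_le (min_le_left _ _)) hab hT hT'
    have h4 := hq a b (ha.trans_le (min_le_right _ _)) (hb.trans_le (min_le_right _ _))
    have h5 : τ' (P' + n - 2) * Ee n a (n - 1) < a * Ee n b (n - 1) :=
      lt_of_le_of_lt (mul_le_mul_of_nonneg_right (by linarith) (hpos _ ha0).le) h4
    have h6 := F2loc hn hT hT' ha0 hab h1 h5
    show Ee n b (n - 1) ^ 2 / Ee n b (n - 2) ≤ Ee n a (n - 1) ^ 2 / Ee n a (n - 2)
    rw [div_le_div_iff₀ (hpos _ hb0) (hpos _ ha0)]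
    exact h6

theorem F5 {n k : ℕ} (hk1 : 1 ≤ k) (hk : k + 2 ≤ n) {L L' : ℝ} (hL : 0 < L) (h : L ≤ L') :
    Mc n k L' / Ee n L' k ≤ Mc n k L / Ee n L k := by
  have hn : 2 ≤ n := by omega
  have hL' : 0 < L' := hL.trans_le h
  have hpos : ∀ {L : ℝ} (j : ℕ), 0 < L → 0 < Ee n L j := fun j hL =>
    zero_lt_one.trans_le (Ee_ge_one hn hL j)
  rcases Nat.lt_or_ge (k + 2) n with hk' | hk'
  · have hk3 : k + 3 ≤ n := hk'
    refine monotone_principle (A := TL n) (φ := fun L => Mc n k L / Ee n L k) ?_ ?_ ?_ L L' hL h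
    · exact (Mc_cont hk3).div (Ee_cont hn k) fun x hx => (hpos _ hx).ne'
    · intro L hL
      obtain ⟨ℓ, h0, h1, h2, h3⟩ := exists_tight hn hL
      refine ⟨ℓ, ⟨h0, h2⟩, h0, h1, fun s hs t ht hst => ?_⟩
      have e1 := (EtaOK_congr (k := k) hn h0 h3 hs).2.2 k
      have e2 := (EtaOK_congr (k := k) hn h0 h3 ht).2.2 k
      show Mc n k t / Ee n t k ≤ Mc n k s / Ee n s k
      rw [e1, e2, Ee_const hn h0 h3 hs, Ee_const hn h0 h3 ht]
    · intro t₀ ht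
      obtain ⟨g, hg, δ, hδ, hp⟩ := pair hn ht
      obtain ⟨δ', hδ', hq⟩ := gapc (eta_cont hk3) ht (etaOK_low hk3 ht).pos hg
      refine ⟨min δ δ', lt_min hδ hδ', ?_⟩
      rintro a ⟨ha0, T, P, ξ, τ, hT⟩ b ⟨hb0, T', P', ξ', τ', hT'⟩ ha hb hab
      obtain ⟨_, h1, h2, h3⟩ := hp a b T T' P P' ξ τ ξ' τ' (ha.trans_le (min_le_left _ _))
        (hb.trans_le (min_le_left _ _)) hab hT hT'
      have h4 := hq a b (ha.trans_le (min_le_right _ _)) (hb.trans_le (min_le_right _ _))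
      have h5 : τ' (P' + n - 2) * eta n k a ≤ a * eta n k b :=
        (lt_of_le_of_lt (mul_le_mul_of_nonneg_right (by linarith) (etaOK_low hk3 ha0).pos.le)
          h4).le
      have h6 := F5loc hk1 hk3 hT hT' ha0 hab h1 h2 (F3 hk ha0 hab.le) h5
      show Mc n k b / Ee n b k ≤ Mc n k a / Ee n a k
      rw [div_le_div_iff₀ (hpos _ hb0) (hpos _ ha0)]
      exact h6
  · have hk2 : k + 2 = n := by omega
    have hkn : k = n - 2 := by omega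
    rw [Mc_top hk2 hL, Mc_top hk2 hL', hkn]
    have h1 := F2 hn hL h
    have e : ∀ {L : ℝ}, 0 < L → (Ee n L (n - 1) ^ 2 / 2 - Ee n L (n - 2)) / Ee n L (n - 2) =
        Ee n L (n - 1) ^ 2 / Ee n L (n - 2) / 2 - 1 := by
      intro L hL
      have := (hpos (n - 2) hL).ne'
      field_simp
    rw [e hL, e hL']
    linarith

end Pool.Agent.KFL
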