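import Pool.Agent.KFL.Basic
import Pool.Agent.LKI.B1

/-!
# KFL/TightB: tight lengths and node gaps

* `KSpline.cut`: a spline on `[0, L]` with last node `ℓ = τ (P+n-1)` is tight on `[0, ℓ]`, with the knots
  `min (ξ i) ℓ` (the nodes are `≤ ℓ`; `ℓ ≤ ξ (P+1)` gives `min (ξ (P+1)) ℓ = ℓ`; the slope condition on
  `[min (ξ i) ℓ, min (ξ (i+1)) ℓ]`: this interval is a point or contained in `[ξ i, ξ (i+1)]`).
  `ℓ > 0` because `n ≥ 2`: `0 ≤ τ 0 < τ 1 ≤ ℓ`.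
* `exists_tight`: cut a spline from `exists_KSpline`; both splines have the same jet at `0` (`Ee_eq`).
* `Tight.xi_last`: `L = τ (P+n-1) ≤ ξ (P+1) ≤ L`.
* `Ee_const`: `E_j` is constant on `[ℓ, L]`: `Ee_anti` twice.
* `node_gap`: by `jet_bound` (with `ℓ = L₀`, `A = 1`, on windows `[a, a + L₀] ⊆ [0, L]`) there is `B` with
  `|T 1 t| ≤ B` for all `t ∈ [0, L]`, `L ≥ L₀`, so `2 = |T 0 (τ (i+1)) - T 0 (τ i)| ≤ B (τ (i+1) - τ i)` (mean
  value inequality; `n ≥ 2`).  Take `g = 2 / B`.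
-/

open Set

namespace Pool.Agent.KFL

open Pool.Agent.LKI

private theorem TightB_tau_le {n : ℕ} {L : ℝ} {T : ℕ → ℝ → ℝ} {P : ℕ} {ξ τ : ℕ → ℝ}
    (hT : KSpline n L T P ξ τ) (i j : ℕ) (hij : i ≤ j) (hj : j < P + n) : τ i ≤ τ j := by
  induction j, hij using Nat.le_induction with
  | base => exact le_rfl
  | succ j hij ih => exact (ih (by omega)).trans (hT.τmono j (by omega)).le

private theorem TightB_xi_le {n : ℕ} {L : ℝ} {T : ℕ → ℝ → ℝ} {P : ℕ} {ξ τ : ℕ → ℝ}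
    (hT : KSpline n L T P ξ τ) (i j : ℕ) (hij : i ≤ j) (hj : j ≤ P + 1) : ξ i ≤ ξ j := by
  induction j, hij using Nat.le_induction with
  | base => exact le_rfl
  | succ j hij ih => exact (ih (by omega)).trans (hT.ξmono j (by omega))

theorem KSpline.cut {n : ℕ} (hn : 2 ≤ n) {L : ℝ} {T : ℕ → ℝ → ℝ} {P : ℕ} {ξ τ : ℕ → ℝ}
    (hT : KSpline n L T P ξ τ) : 0 < τ (P + n - 1) ∧ τ (P + n - 1) ≤ L ∧
      Tight n (τ (P + n - 1)) T P (fun i => min (ξ i) (τ (P + n - 1))) τ := by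
  have h0 : 0 < τ (P + n - 1) := by
    have h1 := hT.τmono 0 (by omega)
    have h2 := TightB_tau_le hT (0 + 1) (P + n - 1) (by omega) (by omega)
    have h3 := hT.τ0
    linarith
  have hL : τ (P + n - 1) ≤ L := hT.τlast.trans hT.ξlast
  refine ⟨h0, hL, ⟨?_, rfl⟩⟩
  generalize hℓ : τ (P + n - 1) = ℓ at *
  exact
    { inW := InW.mono hT.inW (Icc_subset_Icc le_rfl hL)
      ξ0 := by
        show min (ξ 0) ℓ = 0
        rw [hT.ξ0]
        exact min_eq_left h0.le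
      ξmono := fun i hi => min_le_min (hT.ξmono i hi) le_rfl
      ξlast := min_le_right _ _
      slope := by
        intro i hi s hs t ht
        rcases le_total (ξ i) ℓ with h1 | h1
        · have e : min (ξ i) ℓ = ξ i := min_eq_left h1
          simp only [e] at hs ht
          exact hT.slope i hi s ⟨hs.1, hs.2.trans (min_le_left _ _)⟩ t
            ⟨ht.1, ht.2.trans (min_le_left _ _)⟩
        · have e : min (ξ i) ℓ = ℓ := min_eq_right h1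
          simp only [e] at hs ht
          have e1 : s = ℓ := le_antisymm (hs.2.trans (min_le_right _ _)) hs.1
          have e2 : t = ℓ := le_antisymm (ht.2.trans (min_le_right _ _)) ht.1
          rw [e1, e2]
          ring
      τ0 := hT.τ0
      τmono := hT.τmono
      τlast := by
        rw [hℓ]
        exact le_min (by rw [← hℓ]; exact hT.τlast) le_rfl
      contact := hT.contact }

theorem exists_tight {n : ℕ} (hn : 2 ≤ n) {L : ℝ} (hL : 0 < L) :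
    ∃ ℓ : ℝ, 0 < ℓ ∧ ℓ ≤ L ∧ (∃ (T : ℕ → ℝ → ℝ) (P : ℕ) (ξ τ : ℕ → ℝ), Tight n ℓ T P ξ τ) ∧
      ∀ j, Ee n ℓ j = Ee n L j := by
  obtain ⟨T, P, ξ, τ, hT⟩ := exists_KSpline hn hL
  obtain ⟨h0, h1, h2⟩ := KSpline.cut hn hT
  refine ⟨τ (P + n - 1), h0, h1, ⟨T, P, _, τ, h2⟩, fun j => ?_⟩
  rcases Nat.lt_or_ge j n with hj | hj
  · rw [Ee_eq hn h2.ks hj, Ee_eq hn hT hj]
  · unfold Ee
    rw [if_neg (by omega), if_neg (by omega)]

theorem Tight.xi_last {n : ℕ} {L : ℝ} {T : ℕ → ℝ → ℝ} {P : ℕ} {ξ τ : ℕ → ℝ}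
    (hT : Tight n L T P ξ τ) : ξ (P + 1) = L := by
  refine le_antisymm hT.ks.ξlast ?_
  have h := hT.ks.τlast
  rwa [hT.last] at h

theorem Ee_const {n : ℕ} (hn : 2 ≤ n) {ℓ L t : ℝ} (hℓ : 0 < ℓ) (h : ∀ j, Ee n ℓ j = Ee n L j)
    (ht : t ∈ Icc ℓ L) (j : ℕ) : Ee n t j = Ee n ℓ j := by
  refine le_antisymm (Ee_anti hn hℓ ht.1 j) ?_
  rw [h j]
  exact Ee_anti hn (hℓ.trans_le ht.1) ht.2 j

theorem node_gap {n : ℕ} (hn : 2 ≤ n) {L₀ : ℝ} (hL₀ : 0 < L₀) :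
    ∃ g > 0, ∀ (L : ℝ) (T : ℕ → ℝ → ℝ) (P : ℕ) (ξ τ : ℕ → ℝ), L₀ ≤ L → KSpline n L T P ξ τ →
      ∀ i, i + 1 < P + n → τ i + g ≤ τ (i + 1) := by
  obtain ⟨C, hC, hb⟩ := jet_bound n (by omega) L₀ hL₀
  refine ⟨1 / C, by positivity, ?_⟩
  intro L T P ξ τ hL hT i hi
  have hder : ∀ t ∈ Icc 0 L, ‖T 1 t‖ ≤ C * (1 + 1) := by
    intro t ht
    rw [Real.norm_eq_abs]
    have h1 : 0 ≤ min t (L - L₀) := le_min ht.1 (by linarith)
    have h2 : min t (L - L₀) ≤ L - L₀ := min_le_right _ _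
    have hsub : Icc (min t (L - L₀)) (min t (L - L₀) + L₀) ⊆ Icc 0 L :=
      Icc_subset_Icc h1 (by linarith)
    refine hb (min t (L - L₀)) 1 T zero_le_one
      ⟨fun j hj s hs => (hT.inW.jet.hasDeriv j hj s (hsub hs)).mono hsub,
        fun s hs u hu => hT.inW.jet.lip s (hsub hs) u (hsub hu)⟩
      (fun s hs => hT.inW.bdd s (hsub hs)) 1 (by omega) t ⟨min_le_left _ _, ?_⟩
    rcases le_total t (L - L₀) with h3 | h3
    · rw [min_eq_left h3]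
      linarith
    · rw [min_eq_right h3]
      linarith [ht.2]
  have hmem : ∀ j, j < P + n → τ j ∈ Icc 0 L := by
    intro j hj
    have h1 := TightB_tau_le hT 0 j (Nat.zero_le _) hj
    have h2 := TightB_tau_le hT j (P + n - 1) (by omega) (by omega)
    exact ⟨hT.τ0.trans h1, h2.trans (hT.τlast.trans hT.ξlast)⟩
  have hlip := (convex_Icc (0 : ℝ) L).norm_image_sub_le_of_norm_hasDerivWithin_le
    (f := T 0) (f' := T 1) (fun t ht => hT.inW.jet.hasDeriv 0 (by omega) t ht) hder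
    (hmem i (by omega)) (hmem (i + 1) hi)
  have hlt := hT.τmono i hi
  rw [hT.contact i (by omega), hT.contact (i + 1) hi, Real.norm_eq_abs, Real.norm_eq_abs,
    abs_of_pos (sub_pos.2 hlt)] at hlip
  have h2 : |(-1 : ℝ) ^ (i + 1) - (-1) ^ i| = 2 := by
    have e : (-1 : ℝ) ^ (i + 1) - (-1) ^ i = (-1) ^ i * (-2) := by
      rw [pow_succ]
      ring
    rw [e, abs_mul, abs_pow, abs_neg, abs_one, one_pow, one_mul, abs_neg]
    norm_num
  rw [h2] at hlip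
  have h3 : 1 / C ≤ τ (i + 1) - τ i := by
    rw [div_le_iff₀ hC]
    nlinarith
  linarith

theorem KSpline.tau_nonneg {n : ℕ} {L : ℝ} {T : ℕ → ℝ → ℝ} {P : ℕ} {ξ τ : ℕ → ℝ}
    (hT : KSpline n L T P ξ τ) (i : ℕ) (hi : i < P + n) : 0 ≤ τ i :=
  hT.τ0.trans (TightB_tau_le hT 0 i (Nat.zero_le _) hi)

theorem KSpline.tau_le {n : ℕ} {L : ℝ} {T : ℕ → ℝ → ℝ} {P : ℕ} {ξ τ : ℕ → ℝ}
    (hT : KSpline n L T P ξ τ) (i j : ℕ) (hij : i ≤ j) (hj : j < P + n) : τ i ≤ τ j :=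
  TightB_tau_le hT i j hij hj

theorem KSpline.xi_nonneg {n : ℕ} {L : ℝ} {T : ℕ → ℝ → ℝ} {P : ℕ} {ξ τ : ℕ → ℝ}
    (hT : KSpline n L T P ξ τ) (i : ℕ) (hi : i ≤ P + 1) : 0 ≤ ξ i := by
  have h := TightB_xi_le hT 0 i (Nat.zero_le _) hi
  rwa [hT.ξ0] at h

theorem KSpline.xi_le {n : ℕ} {L : ℝ} {T : ℕ → ℝ → ℝ} {P : ℕ} {ξ τ : ℕ → ℝ}
    (hT : KSpline n L T P ξ τ) (i j : ℕ) (hij : i ≤ j) (hj : j ≤ P + 1) : ξ i ≤ ξ j :=
  TightB_xi_le hT i j hij hj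

end Pool.Agent.KFL
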