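import Pool.Agent.KFL.DcA
import Pool.Agent.KFL.DcB
import Pool.Agent.KFL.TightB

/-!
# KFL/Knots: numbers of knots and ratios of the extremal values

Notation: `T` tight on `[0, L]` with `P` knots, `T'` tight on `[0, L']` with `P'` knots, `L < L'`;
`D = Dc T T' c μ`, i.e. `D j t = T' j t - c μ^j T j (μ t)`; `(-1)^j D j 0 = E'_j - c μ^j E_j` (`Ee_eq`).
All counts use `count_left` with `j = 0` (`m = n - 1`) or `j = 1` (`m = n - 2`).

* `knots_le`: `μ = L / L' < 1`, `c = (1 + μ^(-n)) / 2`, so `1 < c`, `c μ^n < 1`, `b = L'` (`μ b = L`).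
  `Dc_alt2` with `q = P + n - 1` (`ρ = -1`), `Dc_pcs1` (`δ = 1`, `P'`); `g = 0`, `ε = 1` (`ρ δ < 0`):
  `P + n - 1 + 1 ≤ P' + n`.
* `knots_succ`: `b = (τ' (P'+n-2) + L) / 2`, so `τ' (P'+n-2) < b < L`, `0 < b`; `μ = L / b > 1`,
  `c = (1 + μ^(-n)) / 2`, so `c < 1 < c μ^n`.  `Dc_alt1` with `q = P' + n - 2` (`ρ = 1`), `Dc_pcs2` (`δ = -1`, `P`);
  `ε = 1`: `P' + n - 2 + 1 ≤ P + n`.
* `r_gt_one`: `0 < L < L'`, `1 ≤ i < n`: `E_i(L) < (L'/L)^i E_i(L')`.  Let `T`, `T'` be splines from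
  `exists_KSpline` for `L`, `L'`, `μ = L / L'`, `c = 1`, `b = ξ' (P'+1) ≤ L'` (`b > 0`: `b ≥ τ' 1 > 0`), `D = Dc T T' 1 μ`.
  `Dc_pcs1` (`μ^n < 1`; `δ = 1`), `Dc_alt1_weak` with `q = P' + n - 2` (`q + 1 = P' + n - 1`):
  `Alt (D 1) (Icc 0 b) (P'+n-2) (-1)`.  If `(-1)^i D i 0 ≤ 0`: `count_left` at `j = 1`, `m = n - 2`, with the weak
  pattern `g = 1`, `idx 0 = i` (start sign `(-1)^1 (-1) = 1`, condition `0 ≤ 1 * (-1)^1 * ((-1)^i D i 0)`), end sign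
  `-1 ≠ δ`: `ε = 1`: `P' + n - 2 + 1 + 1 ≤ P' + (n - 2 + 1)`, false.  So `0 < (-1)^i D i 0 = E'_i - μ^i E_i`.
* `r_lt_succ` (tight pair with `P' ≤ P + 1`), `1 ≤ j`, `j + 2 ≤ n`:  put `μ = L / L'`, `c = E'_j / (μ^j E_j)`, `b = L'`.
  `c > 1` by `r_gt_one`, `c μ^n = (E'_j / E_j) μ^(n-j) ≤ μ^(n-j) < 1`.  `Dc_alt2` with `q = P + n - 1`, `ρ = -1`;
  `Dc_pcs1`: `δ = 1`, `P'`.  `(-1)^j D j 0 = 0`; if `(-1)^(j+1) D (j+1) 0 ≤ 0`, the weak pattern `g = 2`, `idx = j, j+1`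
  (start sign `-1`) gives `ε = 1` (end sign `-1`): `P + n - 1 + 2 + 1 ≤ P' + n ≤ P + 1 + n`, false.  So
  `0 < E'_{j+1} - c μ^(j+1) E_{j+1}`, which is the claim.
-/

open Set

namespace Pool.Agent.KFL

open Pool.Agent.LKI

private theorem knots_pat0 {s : ℕ → ℝ} {lo hi : ℕ} {e : ℝ} : PatW s lo hi 0 e :=
  ⟨fun i => i, fun i hi => absurd hi (by omega), fun i hi => absurd hi (by omega),
    fun i hi => absurd hi (by omega)⟩

private theorem knots_D0 {n : ℕ} (hn : 2 ≤ n) {L L' c μ : ℝ} {T T' : ℕ → ℝ → ℝ} {P P' : ℕ}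
    {ξ τ ξ' τ' : ℕ → ℝ} (hT : KSpline n L T P ξ τ) (hT' : KSpline n L' T' P' ξ' τ') {i : ℕ}
    (hi : i < n) : (-1) ^ i * Dc T T' c μ i 0 = Ee n L' i - c * μ ^ i * Ee n L i := by
  rw [Ee_eq hn hT hi, Ee_eq hn hT' hi]
  unfold Dc
  rw [mul_zero]
  ring

theorem knots_le {n : ℕ} (hn : 2 ≤ n) {L L' : ℝ} {T T' : ℕ → ℝ → ℝ} {P P' : ℕ} {ξ τ ξ' τ' : ℕ → ℝ}
    (hT : Tight n L T P ξ τ) (hT' : Tight n L' T' P' ξ' τ') (hL : 0 < L) (h : L < L') : P ≤ P' := by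
  have hL' : 0 < L' := hL.trans h
  have hμ : 0 < L / L' := div_pos hL hL'
  have hμ1 : L / L' < 1 := (div_lt_one hL').2 h
  set μ := L / L' with hμdef
  have hμb : μ * L' = L := div_mul_cancel₀ L hL'.ne'
  have hμn : 0 < μ ^ n := pow_pos hμ n
  have hμn1 : μ ^ n < 1 := pow_lt_one₀ hμ.le hμ1 (by omega)
  have hinv : 1 < (μ ^ n)⁻¹ := (one_lt_inv₀ hμn).2 hμn1
  set c := (1 + (μ ^ n)⁻¹) / 2 with hc
  have hc1 : 1 < c := by rw [hc]; linarith
  have hcμ : |c| * μ ^ n < 1 := by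
    rw [abs_of_pos (by linarith)]
    have : c * μ ^ n = (μ ^ n + 1) / 2 := by
      rw [hc]
      field_simp
    rw [this]
    linarith
  have hA := Dc_alt2 (q := P + n - 1) (b := L') hμ le_rfl hT.ks hT'.ks.inW (by omega)
    (by rw [hT.last, hμb]) hc1
  have hP := (Dc_pcs1 (by omega) hμ hμb.le hT.ks.inW.jet hT'.ks hL'.le hT'.xi_last.ge hcμ).weak
  have hm := Dc_mvt (c := c) (by omega : 1 ≤ n) hμ hμb.le le_rfl hT.ks.inW.jet hT'.ks.inW.jet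
  have := count_left one_ne_zero hm hP (n - 1) 0 (by omega) 0 (P + n - 1) (-1) 1 hA knots_pat0
    (Or.inr ⟨rfl, by norm_num⟩)
  omega

theorem knots_succ {n : ℕ} (hn : 2 ≤ n) {L L' : ℝ} {T T' : ℕ → ℝ → ℝ} {P P' : ℕ}
    {ξ τ ξ' τ' : ℕ → ℝ} (hT : Tight n L T P ξ τ) (hT' : Tight n L' T' P' ξ' τ') (hL : 0 < L)
    (h : L < L') (hg : τ' (P' + n - 2) < L) : P' ≤ P + 1 := by
  have hτ0 : 0 ≤ τ' (P' + n - 2) := KSpline.tau_nonneg hT'.ks _ (by omega)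
  obtain ⟨b, hbdef⟩ : ∃ b, b = (τ' (P' + n - 2) + L) / 2 := ⟨_, rfl⟩
  have hb0 : 0 < b := by rw [hbdef]; linarith
  have hbL : b < L := by rw [hbdef]; linarith
  have hτb : τ' (P' + n - 2) < b := by rw [hbdef]; linarith
  have hμ : 0 < L / b := div_pos hL hb0
  have hμ1 : 1 < L / b := (one_lt_div hb0).2 hbL
  set μ := L / b with hμdef
  have hμb : μ * b = L := div_mul_cancel₀ L hb0.ne'
  have hμn : 0 < μ ^ n := pow_pos hμ n
  have hμn1 : 1 < μ ^ n := one_lt_pow₀ hμ1 (by omega)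
  have hinv : (μ ^ n)⁻¹ < 1 := inv_lt_one_of_one_lt₀ hμn1
  have hinv0 : 0 < (μ ^ n)⁻¹ := inv_pos.2 hμn
  set c := (1 + (μ ^ n)⁻¹) / 2 with hc
  have hc1 : c < 1 := by rw [hc]; linarith
  have hc0 : 0 ≤ c := by rw [hc]; linarith
  have hcμ : 1 < c * μ ^ n := by
    have : c * μ ^ n = (μ ^ n + 1) / 2 := by
      rw [hc]
      field_simp
    rw [this]
    linarith
  have hA := Dc_alt1 (q := P' + n - 2) hμ hμb.le hT.ks.inW hT'.ks (by omega) hτb.le hc0 hc1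
  have hP := (Dc_pcs2 (by omega) hμ (hbL.trans h).le hT.ks hT'.ks.inW.jet hb0.le
    (by rw [hμb, hT.xi_last]) hcμ).weak
  have hm := Dc_mvt (c := c) (by omega : 1 ≤ n) hμ hμb.le (hbL.trans h).le hT.ks.inW.jet
    hT'.ks.inW.jet
  have := count_left (by norm_num : (-1 : ℝ) ≠ 0) hm hP (n - 1) 0 (by omega) 0 (P' + n - 2) 1 1 hA
    knots_pat0 (Or.inr ⟨rfl, by norm_num⟩)
  omega

theorem r_gt_one {n : ℕ} (hn : 2 ≤ n) {L L' : ℝ} (hL : 0 < L) (h : L < L') {i : ℕ} (hi : 1 ≤ i)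
    (hin : i < n) : Ee n L i < (L' / L) ^ i * Ee n L' i := by
  have hL' : 0 < L' := hL.trans h
  obtain ⟨T, P, ξ, τ, hT⟩ := exists_KSpline hn hL
  obtain ⟨T', P', ξ', τ', hT'⟩ := exists_KSpline hn hL'
  have hμ : 0 < L / L' := div_pos hL hL'
  have hμ1 : L / L' < 1 := (div_lt_one hL').2 h
  have hμi : (L' / L) ^ i * (L / L') ^ i = 1 := by
    rw [← mul_pow, div_mul_div_comm, mul_comm L' L, div_self (by positivity), one_pow]
  set μ := L / L' with hμdef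
  have hμL : μ * L' = L := div_mul_cancel₀ L hL'.ne'
  have hμn1 : μ ^ n < 1 := pow_lt_one₀ hμ.le hμ1 (by omega)
  set b := ξ' (P' + 1) with hbdef
  have hbL' : b ≤ L' := hT'.ξlast
  have hτ0 : 0 ≤ τ' 0 := hT'.τ0
  have hτ1 : τ' 0 < τ' 1 := hT'.τmono 0 (by omega)
  have hτ2 : τ' 1 ≤ τ' (P' + n - 1) := KSpline.tau_le hT' 1 (P' + n - 1) (by omega) (by omega)
  have hb0 : 0 < b := by
    have := hT'.τlast
    linarith
  have hμb : μ * b ≤ L := by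
    rw [← hμL]
    exact mul_le_mul_of_nonneg_left hbL' hμ.le
  have hP := Dc_pcs1 (c := 1) (by omega) hμ hμb hT.inW.jet hT' hb0.le le_rfl
    (by rw [abs_one, one_mul]; exact hμn1)
  have hD := Dc_jet (c := 1) (by omega : 1 ≤ n) hμ hμb hbL' hT.inW.jet hT'.inW.jet
  have hm := Dc_mvt (c := 1) (by omega : 1 ≤ n) hμ hμb hbL' hT.inW.jet hT'.inW.jet
  have hne := nonzero (by omega) hD hP
  have hA := Dc_alt1_weak (q := P' + n - 2) hn hμ hμb hT.inW hT' (by omega)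
    (by
      have e : P' + n - 2 + 1 = P' + n - 1 := by omega
      rw [e]
      exact hT'.τlast) hD hne
  have hs := knots_D0 (c := 1) (μ := μ) hn hT hT' hin
  rw [one_mul] at hs
  by_contra hcon
  push Not at hcon
  have hle : (-1) ^ i * Dc T T' 1 μ i 0 ≤ 0 := by
    rw [hs]
    have h1 : μ ^ i * ((L' / L) ^ i * Ee n L' i) ≤ μ ^ i * Ee n L i :=
      mul_le_mul_of_nonneg_left hcon (pow_pos hμ i).le
    have h2 : μ ^ i * ((L' / L) ^ i * Ee n L' i) = ((L' / L) ^ i * μ ^ i) * Ee n L' i := by ring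
    rw [h2, hμi, one_mul] at h1
    linarith
  have := count_left one_ne_zero hm hP.weak (n - 2) 1 (by omega) 1 (P' + n - 2) (-1) 1 hA
    ⟨fun _ => i, fun _ _ => ⟨hi, by show i ≤ n - 1; omega⟩, fun k hk => absurd hk (by omega), fun k hk => by
      have hk0 : k = 0 := by omega
      subst hk0
      show 0 ≤ (-1 : ℝ) ^ 1 * -1 * (-1) ^ (0 + 1) * ((-1) ^ i * Dc T T' 1 μ i 0)
      have e : (-1 : ℝ) ^ 1 * -1 * (-1) ^ (0 + 1) * ((-1) ^ i * Dc T T' 1 μ i 0) =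
          -((-1) ^ i * Dc T T' 1 μ i 0) := by ring
      rw [e]
      linarith⟩
    (Or.inr ⟨rfl, by norm_num⟩)
  omega

theorem r_lt_succ {n : ℕ} (hn : 2 ≤ n) {L L' : ℝ} {T T' : ℕ → ℝ → ℝ} {P P' : ℕ}
    {ξ τ ξ' τ' : ℕ → ℝ} (hT : Tight n L T P ξ τ) (hT' : Tight n L' T' P' ξ' τ') (hL : 0 < L)
    (h : L < L') (hP : P' ≤ P + 1) {j : ℕ} (hj : 1 ≤ j) (hjn : j + 2 ≤ n) :
    L * (Ee n L' j * Ee n L (j + 1)) < L' * (Ee n L' (j + 1) * Ee n L j) := by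
  have hL' : 0 < L' := hL.trans h
  have hμ : 0 < L / L' := div_pos hL hL'
  have hμ1 : L / L' < 1 := (div_lt_one hL').2 h
  have hr := r_gt_one hn hL h hj (by omega : j < n)
  have hμi : (L' / L) ^ j * (L / L') ^ j = 1 := by
    rw [← mul_pow, div_mul_div_comm, mul_comm L' L, div_self (by positivity), one_pow]
  have hE : 0 < Ee n L j := lt_of_lt_of_le one_pos (Ee_ge_one hn hL j)
  have hE' : 0 < Ee n L' j := lt_of_lt_of_le one_pos (Ee_ge_one hn hL' j)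
  have hanti : Ee n L' j ≤ Ee n L j := Ee_anti hn hL h.le j
  set μ := L / L' with hμdef
  have hμb : μ * L' = L := div_mul_cancel₀ L hL'.ne'
  have hμj : 0 < μ ^ j := pow_pos hμ j
  have hlt : μ ^ j * Ee n L j < Ee n L' j := by
    have h1 : μ ^ j * Ee n L j < μ ^ j * ((L' / L) ^ j * Ee n L' j) :=
      mul_lt_mul_of_pos_left hr hμj
    have h2 : μ ^ j * ((L' / L) ^ j * Ee n L' j) = ((L' / L) ^ j * μ ^ j) * Ee n L' j := by ring
    rwa [h2, hμi, one_mul] at h1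
  have hden : 0 < μ ^ j * Ee n L j := mul_pos hμj hE
  obtain ⟨c, hc⟩ : ∃ c, c = Ee n L' j / (μ ^ j * Ee n L j) := ⟨_, rfl⟩
  have hc1 : 1 < c := by
    rw [hc]
    exact (one_lt_div hden).2 hlt
  have hcj : c * μ ^ j * Ee n L j = Ee n L' j := by
    rw [hc, mul_assoc, div_mul_cancel₀ _ hden.ne']
  have hcμ : |c| * μ ^ n < 1 := by
    rw [abs_of_pos (by linarith)]
    have hn' : μ ^ n = μ ^ j * μ ^ (n - j) := by
      rw [← pow_add]
      congr 1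
      omega
    have hpow : μ ^ (n - j) < 1 := pow_lt_one₀ hμ.le hμ1 (by omega)
    have hcj1 : c * μ ^ j ≤ 1 := by
      by_contra hcon
      push Not at hcon
      have : 1 * Ee n L j < c * μ ^ j * Ee n L j := mul_lt_mul_of_pos_right hcon hE
      rw [hcj] at this
      linarith
    have hcj0 : 0 < c * μ ^ j := mul_pos (by linarith) hμj
    rw [hn', ← mul_assoc]
    calc c * μ ^ j * μ ^ (n - j) ≤ 1 * μ ^ (n - j) :=
          mul_le_mul_of_nonneg_right hcj1 (pow_pos hμ _).le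
      _ < 1 := by rw [one_mul]; exact hpow
  have hA := Dc_alt2 (q := P + n - 1) (b := L') hμ le_rfl hT.ks hT'.ks.inW (by omega)
    (by rw [hT.last, hμb]) hc1
  have hPc := (Dc_pcs1 (by omega) hμ hμb.le hT.ks.inW.jet hT'.ks hL'.le hT'.xi_last.ge hcμ).weak
  have hm := Dc_mvt (c := c) (by omega : 1 ≤ n) hμ hμb.le le_rfl hT.ks.inW.jet hT'.ks.inW.jet
  have hs0 := knots_D0 (c := c) (μ := μ) hn hT.ks hT'.ks (by omega : j < n)
  rw [hcj, sub_self] at hs0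
  have hs1 := knots_D0 (c := c) (μ := μ) hn hT.ks hT'.ks (by omega : j + 1 < n)
  have hpos : 0 < (-1) ^ (j + 1) * Dc T T' c μ (j + 1) 0 := by
    by_contra hcon
    push Not at hcon
    have := count_left one_ne_zero hm hPc (n - 1) 0 (by omega) 2 (P + n - 1) (-1) 1 hA
      ⟨fun k => j + k, fun k hk => ⟨Nat.zero_le _, by show j + k ≤ n - 1; omega⟩,
        fun k hk => by show j + k < j + (k + 1); omega, fun k hk => by
        have hk' : k = 0 ∨ k = 1 := by omega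
        rcases hk' with rfl | rfl
        · show 0 ≤ (-1 : ℝ) ^ 0 * -1 * (-1) ^ (0 + 1) * ((-1) ^ (j + 0) * Dc T T' c μ (j + 0) 0)
          have e0 : (-1 : ℝ) ^ (j + 0) * Dc T T' c μ (j + 0) 0 = 0 := hs0
          rw [e0]
          norm_num
        · show 0 ≤ (-1 : ℝ) ^ 0 * -1 * (-1) ^ (1 + 1) * ((-1) ^ (j + 1) * Dc T T' c μ (j + 1) 0)
          have e : (-1 : ℝ) ^ 0 * -1 * (-1) ^ (1 + 1) * ((-1) ^ (j + 1) * Dc T T' c μ (j + 1) 0) =
              -((-1) ^ (j + 1) * Dc T T' c μ (j + 1) 0) := by ring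
          rw [e]
          linarith⟩
      (Or.inr ⟨rfl, by norm_num⟩)
    omega
  rw [hs1] at hpos
  -- `0 < E'_{j+1} - c μ^(j+1) E_{j+1}`
  have h1 : c * μ ^ (j + 1) * Ee n L (j + 1) * (L' * Ee n L j) =
      L * (Ee n L' j * Ee n L (j + 1)) := by
    rw [← hcj, ← hμb, pow_succ]
    ring
  have h2 : 0 < L' * Ee n L j := mul_pos hL' hE
  have h3 := mul_pos hpos h2
  rw [sub_mul, h1] at h3
  linarith

end Pool.Agent.KFL
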