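import Pool.Agent.KFL.Defs
import Pool.Agent.LKI.B1

/-!
# KFL/LCh: chains with left derivatives

`LCh n b p`: `p j` is continuous on `[0, b]` and has the left derivative `p (j+1) x` at every `x ∈ (0, b]`,
`j + 1 < n`.  Examples: jets; `T j + u T (j+1)` for a perfect spline `T` (the value of `T^(n)` at a knot is the one
of the piece to the left).

* `LCh.mvt`: if `p j s < p j t`, `0 ≤ s < t ≤ b`, and `p (j+1) ≤ 0` on `(s, t)`, then for every `t' ∈ (s, t)` the
  function `h u = p j (-u)` is continuous on `[-t', -s]` with the right derivative `- p (j+1) (-u) ≥ 0` on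
  `[-t', -s)`, so `h (-t') ≤ h (-s)` (`image_le_of_deriv_right_le_deriv_boundary` with a constant), i.e.
  `p j t' ≤ p j s`; let `t' → t`: contradiction.  The other half by symmetry (apply the first half to `-p`).
* `LCh.of_jet`: at `x ∈ (0, b]` the sets `Iic x` and `Icc 0 b ∩ Iic x` agree near `x`.
* `LCh.lin`: linear combinations.
-/

open Set

namespace Pool.Agent.KFL

open Pool.Agent.LKI

/-- chain with left derivatives -/
structure LCh (n : ℕ) (b : ℝ) (p : ℕ → ℝ → ℝ) : Prop where
  cont : ∀ j, j + 1 < n → ContinuousOn (p j) (Icc 0 b)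
  der : ∀ j, j + 1 < n → ∀ x ∈ Ioc 0 b, HasDerivWithinAt (p j) (p (j + 1) x) (Iic x) x

/-- core step: a continuous function with nonpositive left derivatives in the interior does not increase -/
private theorem left_anti {g g' : ℝ → ℝ} {s t : ℝ} (hst : s < t) (hc : ContinuousOn g (Icc s t))
    (hd : ∀ x ∈ Ioo s t, HasDerivWithinAt g (g' x) (Iic x) x) (h0 : ∀ x ∈ Ioo s t, g' x ≤ 0) :
    g t ≤ g s := by
  have key : ∀ t' ∈ Ioo s t, g t' ≤ g s := by
    intro t' ht'
    have hcont : ContinuousOn (fun u => g (-u)) (Icc (-t') (-s)) := by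
      refine hc.comp continuousOn_neg ?_
      intro u hu
      exact ⟨by linarith [hu.2], by linarith [hu.1, ht'.2]⟩
    have hder : ∀ u ∈ Ico (-t') (-s),
        HasDerivWithinAt (fun u => g (-u)) (-(g' (-u))) (Ici u) u := by
      intro u hu
      have hm : -u ∈ Ioo s t := ⟨by linarith [hu.2], by linarith [hu.1, ht'.2]⟩
      have h1 := hd (-u) hm
      have h2 : HasDerivWithinAt (fun u : ℝ => -u) (-1) (Ici u) u := (hasDerivAt_neg u).hasDerivWithinAt
      have h3 := HasDerivWithinAt.scomp u h1 h2 (fun v hv => by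
        have hv2 : u ≤ v := hv
        simpa using hv2)
      simpa [Function.comp_def] using h3
    have hfin := image_le_of_deriv_right_le_deriv_boundary (f := fun _ => g t') (f' := fun _ => 0)
      (a := -t') (b := -s) continuousOn_const (fun x _ => hasDerivWithinAt_const _ _ _)
      (B := fun u => g (-u)) (B' := fun u => -(g' (-u))) (by simp) hcont hder
      (fun u hu => by
        have hm : -u ∈ Ioo s t := ⟨by linarith [hu.2], by linarith [hu.1, ht'.2]⟩
        have := h0 (-u) hm
        linarith)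
      (x := -s) ⟨by linarith [ht'.1], le_rfl⟩
    simpa using hfin
  have hlim : Filter.Tendsto g (nhdsWithin t (Ioo s t)) (nhds (g t)) :=
    (hc t ⟨hst.le, le_rfl⟩).mono Ioo_subset_Icc_self
  have : (nhdsWithin t (Ioo s t)).NeBot := by
    rw [nhdsWithin_Ioo_eq_nhdsLT hst]
    infer_instance
  exact le_of_tendsto hlim (Filter.eventually_of_mem self_mem_nhdsWithin key)

theorem LCh.mvt {n : ℕ} {b : ℝ} {p : ℕ → ℝ → ℝ} (h : LCh n b p) :
    ∀ j, j + 1 < n → Mvt (p j) (p (j + 1)) 0 b := by
  intro j hj s t hs hst ht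
  have hsub : Icc s t ⊆ Icc 0 b := Icc_subset_Icc hs ht
  have hd : ∀ x ∈ Ioo s t, HasDerivWithinAt (p j) (p (j + 1) x) (Iic x) x := fun x hx =>
    h.der j hj x ⟨by linarith [hx.1], by linarith [hx.2]⟩
  constructor
  · intro hlt
    by_contra hne
    push Not at hne
    exact absurd (left_anti hst ((h.cont j hj).mono hsub) hd hne) (not_le.mpr hlt)
  · intro hlt
    by_contra hne
    push Not at hne
    have := left_anti (g := fun x => -(p j x)) (g' := fun x => -(p (j + 1) x)) hst
      (((h.cont j hj).mono hsub).neg) (fun x hx => (hd x hx).neg)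
      (fun x hx => neg_nonpos.mpr (hne x hx))
    linarith

theorem LCh.of_jet {n : ℕ} {σ b : ℝ} {p : ℕ → ℝ → ℝ} (h : IsJet n σ (Icc 0 b) p) : LCh n b p := by
  refine ⟨fun j hj t ht => (h.hasDeriv j hj t ht).continuousWithinAt, fun j hj x hx => ?_⟩
  refine (h.hasDeriv j hj x ⟨hx.1.le, hx.2⟩).mono_of_mem_nhdsWithin ?_
  have h1 : Ici (0 : ℝ) ∈ nhdsWithin x (Iic x) := mem_nhdsWithin_of_mem_nhds (Ici_mem_nhds hx.1)
  filter_upwards [h1, self_mem_nhdsWithin] with y hy hy2
  exact ⟨hy, le_trans hy2 hx.2⟩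

theorem LCh.lin {n : ℕ} {b : ℝ} {p q : ℕ → ℝ → ℝ} (hp : LCh n b p) (hq : LCh n b q) (α β : ℝ) :
    LCh n b (fun j t => α * p j t + β * q j t) := by
  refine ⟨fun j hj => ?_, fun j hj x hx => ?_⟩
  · exact ((hp.cont j hj).const_smul α).add ((hq.cont j hj).const_smul β)
  · exact ((hp.der j hj x hx).const_mul α).add ((hq.der j hj x hx).const_mul β)

end Pool.Agent.KFL
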