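import Pool.Agent.KFL.Markov
import Pool.Agent.KFL.EtaTop
import Pool.Agent.KFL.Cont
import Pool.Agent.KFL.Glob

/-!
# KFL/Lim0: the limit of `q(L) = Mc(L)/E_k(L)` for `L → 0+`

* `Ee_lim` (`j ≤ n`): `(L/2)^j E_j(L) → TJ (n-1) j 1`: for `j < n` squeeze (`Ee_le0`, `Ee_ge0`), for `j = n` both sides are `0`
  (`Ee_top`; `TJ (n-1) n = 0`: e.g. `TJ_val_one` has the factor `(n-1)^2 - (n-1)^2`).
* `pol_TJ`: `pol N (fun i => TJ m (j+i) 1) s = TJ m j (1 - s)` if `m < j + N` (Taylor's formula for a polynomial; downward induction on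
  `j` as in `pE_base`, starting from `TJ m j = 0` for `j > m`, `N = 0`; or induction on `N`; `TJ m j` vanishes identically
  for `m < j`: `TJ_diag` says that `TJ m m` is constant).
* `pol_scale`: `pol (n + 1 - j) (fun i => (L/2)^(j+i) * Ee n L (j+i)) s = (L/2)^j * pE n L j (L * s / 2)`.
* `simple_first`: for `k + 3 ≤ n`, `IsFirst (n-1) k x`: `0 < TJ (n-1) (k+2) x`: `EtaOK (n-1) k (2 Hn (n-1))` (`etaOK_base`), field
  `higher` with `i = k + 2`, `t = eta = (1 - x) H` (`eta_base`), `pE_base`.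
* `z_lim`: `2 eta(L) / L → 1 - x`: `first_zero_tendsto` with `l = 𝓝[>] 0`, `N = n - k`, `c L i = (L/2)^(k+1+i) E_{k+1+i}(L)`,
  `c0 i = TJ (n-1) (k+1+i) 1` (`Ee_lim`), `z0 = 1 - x`; `h1`: `pol_TJ` and `IsFirst.pos`; `h2`: `neg_after`, the derivative of
  `s ↦ TJ (n-1) (k+1) (1 - s)` at `1 - x` is `- TJ (n-1) (k+2) x < 0`; `hz`: `pol_scale` and `EtaOK` (`etaOK_low`).
* `q_lim`: `(L/2)^k Mc(L) = - pol (n+1-k) c' (2 eta/L)` with `c' i = (L/2)^(k+i) E_{k+i}(L)`, `pol_tendsto`, `pol_TJ`; divide by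
  `(L/2)^k E_k(L) → TJ (n-1) k 1 > 0`.
* `q_le`: `F5` says that `q(L) ≤ q(L')` for `L' ≤ L`; let `L' → 0+` (`ge_of_tendsto`).
-/

open Set Filter Topology
open Pool.LK1 (TJ)
open Pool.LK2 (IsFirst)

namespace Pool.Agent.KFL

open Pool.Agent.LKI

theorem Ee_lim {n : ℕ} (hn : 2 ≤ n) {j : ℕ} (hj : j ≤ n) :
    Tendsto (fun L : ℝ => (L / 2) ^ j * Ee n L j) (𝓝[>] 0) (𝓝 (TJ (n - 1) j 1)) := by
  have hid : Tendsto (fun L : ℝ => L) (𝓝[>] 0) (𝓝 0) := tendsto_nhdsWithin_of_tendsto_nhds tendsto_id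
  rcases Nat.lt_or_ge j n with h | h
  · have h0 : ∀ L : ℝ, 0 < L → (L / 2) ^ j * (2 / L) ^ j = 1 := by
      intro L hL
      rw [← mul_pow]
      have e : L / 2 * (2 / L) = 1 := by field_simp
      rw [e, one_pow]
    have hup : Tendsto (fun L : ℝ => (1 + L ^ n / (n.factorial : ℝ)) * TJ (n - 1) j 1) (𝓝[>] 0)
        (𝓝 (TJ (n - 1) j 1)) := by
      have h1 := (((hid.pow n).div_const (n.factorial : ℝ)).const_add 1).mul_const (TJ (n - 1) j 1)
      rw [zero_pow (by omega : n ≠ 0), zero_div, add_zero, one_mul] at h1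
      exact h1
    refine tendsto_of_tendsto_of_tendsto_of_le_of_le' tendsto_const_nhds hup ?_ ?_
    · filter_upwards [self_mem_nhdsWithin] with L hL
      have hL' : 0 < L := hL
      have h1 := Ee_ge0 hn hL' h
      have h2 := mul_le_mul_of_nonneg_left h1 (by positivity : 0 ≤ (L / 2) ^ j)
      rw [← mul_assoc, h0 L hL', one_mul] at h2
      exact h2
    · filter_upwards [self_mem_nhdsWithin] with L hL
      have hL' : 0 < L := hL
      have h1 := Ee_le0 hn hL' h
      have h2 := mul_le_mul_of_nonneg_left h1 (by positivity : 0 ≤ (L / 2) ^ j)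
      have e : (L / 2) ^ j * ((1 + L ^ n / (n.factorial : ℝ)) * (2 / L) ^ j * TJ (n - 1) j 1) =
          ((L / 2) ^ j * (2 / L) ^ j) * ((1 + L ^ n / (n.factorial : ℝ)) * TJ (n - 1) j 1) := by ring
      rw [e, h0 L hL', one_mul] at h2
      exact h2
  · have hjn : j = n := by omega
    subst hjn
    have h1 : TJ (j - 1) j 1 = 0 := by
      rw [Pool.LK1.TJ_val_one]
      refine Finset.prod_eq_zero (i := j - 1) (Finset.mem_range.2 (by omega)) ?_
      rw [sub_self, zero_div]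
    rw [h1]
    have h2 := (hid.div_const 2).pow j
    rw [zero_div, zero_pow (by omega : j ≠ 0)] at h2
    refine h2.congr fun L => ?_
    rw [Ee_top, mul_one]

private theorem Lim0_TJ_zero {m j : ℕ} (h : m < j) (x : ℝ) : TJ m j x = 0 := by
  unfold Pool.LK1.TJ
  rw [Polynomial.iterate_derivative_eq_zero, Polynomial.eval_zero]
  rw [Polynomial.Chebyshev.natDegree_T, Int.natAbs_natCast]
  exact h

private theorem Lim0_pol_hasDeriv (N : ℕ) (c : ℕ → ℝ) (t : ℝ) :
    HasDerivAt (pol (N + 1) c) (-pol N (fun i => c (i + 1)) t) t := by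
  have h1 : HasDerivAt (fun t => ∑ i ∈ Finset.range (N + 1),
      (-1) ^ i * c i * t ^ i / (i.factorial : ℝ))
      (∑ i ∈ Finset.range (N + 1),
        (-1) ^ i * c i * ((i : ℝ) * t ^ (i - 1)) / (i.factorial : ℝ)) t := by
    refine HasDerivAt.fun_sum fun i _ => ?_
    exact ((hasDerivAt_pow i t).const_mul _).div_const _
  have h2 : (∑ i ∈ Finset.range (N + 1),
        (-1) ^ i * c i * ((i : ℝ) * t ^ (i - 1)) / (i.factorial : ℝ)) =
        -pol N (fun i => c (i + 1)) t := by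
    unfold pol
    rw [Finset.sum_range_succ']
    simp only [Nat.cast_zero, zero_mul, mul_zero, zero_div, add_zero]
    rw [← Finset.sum_neg_distrib]
    refine Finset.sum_congr rfl fun i _ => ?_
    have e2 : ((i + 1).factorial : ℝ) = ((i : ℝ) + 1) * (i.factorial : ℝ) := by
      rw [Nat.factorial_succ]
      push_cast
      ring
    have e3 : (i.factorial : ℝ) ≠ 0 := Nat.cast_ne_zero.2 (Nat.factorial_ne_zero i)
    have e4 : (i : ℝ) + 1 ≠ 0 := by positivity
    rw [e2, Nat.add_sub_cancel, Nat.cast_add, Nat.cast_one]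
    field_simp
    ring
  rw [h2] at h1
  exact h1

private theorem Lim0_pol_zero (N : ℕ) (c : ℕ → ℝ) : pol (N + 1) c 0 = c 0 := by
  unfold pol
  rw [Finset.sum_range_succ']
  have h : ∑ k ∈ Finset.range N, (-1) ^ (k + 1) * c (k + 1) * (0 : ℝ) ^ (k + 1) /
      ((k + 1).factorial : ℝ) = 0 := by
    refine Finset.sum_eq_zero fun k _ => ?_
    rw [zero_pow (Nat.succ_ne_zero k), mul_zero, zero_div]
  rw [h]
  simp

private theorem Lim0_TJ_deriv (m j : ℕ) (s : ℝ) :
    HasDerivAt (fun s => TJ m j (1 - s)) (-TJ m (j + 1) (1 - s)) s := by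
  have h1 : HasDerivAt (fun s : ℝ => 1 - s) (-1) s := by
    simpa using (hasDerivAt_id s).const_sub 1
  have h2 := (Pool.LK1.TJ_hasDerivAt m j (1 - s)).comp s h1
  rw [mul_neg_one] at h2
  exact h2

theorem pol_TJ {m N j : ℕ} (h : m < j + N) (s : ℝ) :
    pol N (fun i => TJ m (j + i) 1) s = TJ m j (1 - s) := by
  induction N generalizing j s with
  | zero =>
    rw [Lim0_TJ_zero (by omega)]
    unfold pol
    simp
  | succ N ih =>
    have h1 : ∀ s, HasDerivAt (fun s => pol (N + 1) (fun i => TJ m (j + i) 1) s - TJ m j (1 - s))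
        0 s := by
      intro s
      have h2 := (Lim0_pol_hasDeriv N (fun i => TJ m (j + i) 1) s).sub (Lim0_TJ_deriv m j s)
      have h3 : (fun i => TJ m (j + (i + 1)) 1) = fun i => TJ m (j + 1 + i) 1 := by
        funext i
        rw [show j + (i + 1) = j + 1 + i by ring]
      have e : -pol N (fun i => (fun i => TJ m (j + i) 1) (i + 1)) s - -TJ m (j + 1) (1 - s) = 0 := by
        show -pol N (fun i => TJ m (j + (i + 1)) 1) s - -TJ m (j + 1) (1 - s) = 0
        rw [h3, ih (j := j + 1) (by omega) s]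
        ring
      rw [e] at h2
      exact h2
    have h4 := is_const_of_deriv_eq_zero (fun s => (h1 s).differentiableAt) (fun s => (h1 s).deriv) s 0
    have h5 : pol (N + 1) (fun i => TJ m (j + i) 1) 0 = TJ m j 1 := by
      rw [Lim0_pol_zero]; rfl
    rw [h5, sub_zero, sub_self] at h4
    linarith

theorem pol_scale (n j : ℕ) (L s : ℝ) :
    pol (n + 1 - j) (fun i => (L / 2) ^ (j + i) * Ee n L (j + i)) s =
      (L / 2) ^ j * pE n L j (L * s / 2) := by
  unfold pol pE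
  rw [Finset.mul_sum]
  refine Finset.sum_congr rfl fun i _ => ?_
  have e : L * s / 2 = L / 2 * s := by ring
  show (-1) ^ i * ((L / 2) ^ (j + i) * Ee n L (j + i)) * s ^ i / (i.factorial : ℝ) = _
  rw [e, mul_pow, pow_add]
  ring

theorem simple_first {n k : ℕ} (hk : k + 3 ≤ n) {x : ℝ} (hx : IsFirst (n - 1) k x) :
    0 < TJ (n - 1) (k + 2) x := by
  have hH := Hn_pos (n - 1)
  have h1 := etaOK_base (n := n - 1) (k := k) (by omega)
  have h2 := h1.higher (k + 2) le_rfl (by omega) _ h1.pos.le le_rfl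
  rw [pE_base (by omega) (by omega), eta_base (by omega) hx] at h2
  have e : 1 - (1 - x) * Hn (n - 1) / Hn (n - 1) = x := by
    rw [mul_div_cancel_right₀ _ hH.ne']; ring
  rw [e] at h2
  exact (div_pos_iff_of_pos_right (pow_pos hH _)).1 h2

theorem z_lim {n k : ℕ} (hk : k + 3 ≤ n) {x : ℝ} (hx : IsFirst (n - 1) k x) :
    Tendsto (fun L : ℝ => 2 * eta n k L / L) (𝓝[>] 0) (𝓝 (1 - x)) := by
  have hsc : ∀ L : ℝ, ∀ t, pol (n + 1 - (k + 1)) (fun i => (L / 2) ^ (k + 1 + i) * Ee n L (k + 1 + i)) t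
      = (L / 2) ^ (k + 1) * pE n L (k + 1) (L * t / 2) := fun L t => pol_scale n (k + 1) L t
  have hTJ : ∀ t, pol (n + 1 - (k + 1)) (fun i => TJ (n - 1) (k + 1 + i) 1) t =
      TJ (n - 1) (k + 1) (1 - t) := fun t => pol_TJ (by omega) t
  refine first_zero_tendsto (N := n + 1 - (k + 1))
    (c := fun L i => (L / 2) ^ (k + 1 + i) * Ee n L (k + 1 + i))
    (c0 := fun i => TJ (n - 1) (k + 1 + i) 1) (fun i hi => Ee_lim (by omega) (by omega))
    (by linarith [hx.lt_one]) ?_ ?_ ?_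
  · intro t h0 h1
    rw [hTJ]
    exact hx.pos _ (by linarith)
  · intro ε hε
    have h1 := Lim0_TJ_deriv (n - 1) (k + 1) (1 - x)
    have e : (1 : ℝ) - (1 - x) = x := by ring
    rw [e] at h1
    obtain ⟨t, a1, a2, a3⟩ := neg_after h1 (by simp only [e]; exact hx.zero)
      (neg_neg_of_pos (simple_first hk hx)) ε hε
    exact ⟨t, a1, a2, by rw [hTJ]; exact a3⟩
  · filter_upwards [self_mem_nhdsWithin] with L hL
    have hL' : 0 < L := hL
    have hE := etaOK_low hk hL'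
    refine ⟨div_pos (mul_pos two_pos hE.pos) hL', ?_, ?_⟩
    · rw [hsc]
      have e : L * (2 * eta n k L / L) / 2 = eta n k L := by field_simp
      rw [e, hE.zero, mul_zero]
    · intro t h0 h1
      rw [hsc]
      refine mul_pos (by positivity) (hE.before _ (by positivity) ?_)
      rw [lt_div_iff₀ hL'] at h1
      linarith

theorem q_lim {n k : ℕ} (hk : k + 3 ≤ n) {x : ℝ} (hx : IsFirst (n - 1) k x) :
    Tendsto (fun L : ℝ => Mc n k L / Ee n L k) (𝓝[>] 0) (𝓝 (-TJ (n - 1) k x / TJ (n - 1) k 1)) := by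
  have hpos : 0 < TJ (n - 1) k 1 := Pool.LK2.TJ_pos_of_one_le (n - 1) k (by omega) le_rfl
  have h1 := (pol_tendsto (N := n + 1 - k)
    (c := fun L i => (L / 2) ^ (k + i) * Ee n L (k + i))
    (c0 := fun i => TJ (n - 1) (k + i) 1) (fun i hi => Ee_lim (n := n) (j := k + i) (by omega)
      (by omega)) (z_lim hk hx)).neg
  rw [pol_TJ (by omega)] at h1
  have e1 : (1 : ℝ) - (1 - x) = x := by ring
  rw [e1] at h1
  have h2 := h1.div (Ee_lim (n := n) (j := k) (by omega) (by omega)) hpos.ne'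
  refine h2.congr' ?_
  filter_upwards [self_mem_nhdsWithin] with L hL
  have hL' : 0 < L := hL
  have hE : 0 < Ee n L k := zero_lt_one.trans_le (Ee_ge_one (by omega) hL' k)
  show -pol (n + 1 - k) (fun i => (L / 2) ^ (k + i) * Ee n L (k + i)) (2 * eta n k L / L) /
    ((L / 2) ^ k * Ee n L k) = _
  rw [pol_scale]
  have e : L * (2 * eta n k L / L) / 2 = eta n k L := by field_simp
  rw [e]
  unfold Mc
  have h3 : (L / 2) ^ k ≠ 0 := by positivity
  have h4 : Ee n L k ≠ 0 := hE.ne'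
  field_simp

theorem q_le {n k : ℕ} (hk1 : 1 ≤ k) (hk : k + 3 ≤ n) {x : ℝ} (hx : IsFirst (n - 1) k x) {L : ℝ}
    (hL : 0 < L) : Mc n k L / Ee n L k ≤ -TJ (n - 1) k x / TJ (n - 1) k 1 := by
  refine ge_of_tendsto (q_lim hk hx) ?_
  have h1 : ∀ᶠ s : ℝ in 𝓝[>] 0, s < L := nhdsWithin_le_nhds (gt_mem_nhds hL)
  filter_upwards [self_mem_nhdsWithin, h1] with s hs hsL
  exact F5 hk1 (by omega) hs hsL.le

end Pool.Agent.KFL
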