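import Pool.Agent.KFL.Basic
import Pool.Agent.KFL.Count
import Pool.Agent.LK1.ChebJ

/-!
# KFL/Markov: Markov's inequality at the end point and two-sided bounds for `E_j(L)`

* `cheb_chain`: `C j t = (-2/L)^j TJ m j (1 - 2 t / L)` is the chain of the derivatives of `T_m(1 - 2t/L)`:
  `IsJet (m+1) 0 (Icc 0 L) C` (`C m` is constant: `TJ_diag`), `|C 0| ≤ 1`, `C 0 (t_i) = (-1)^i` at
  `t_i = (L/2) (1 - cos (i π / m))`, `i = 0, ..., m` (for `m ≥ 1`, `TJ_node`).
* `markov_end`.  For `m = 0`: `F 0` is constant and `TJ 0 0 1 = 1`.  For `m ≥ 1`: it is enough to treat `A > 0` (replace `A` by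
  `A' > A` and let `A' → A`).  Suppose `|F j 0| > A (2/L)^j TJ m j 1 = A |C j 0|`, `λ = C j 0 / F j 0`, `|λ| < 1/A`, `D = C - λ F`:
  `D j 0 = 0`; `(-1)^i D 0 (t_i) ≥ 1 - |λ| A > 0`: `Alt (D 0) (Icc 0 L) m 1`; `D m` is constant: `Pcs (m+1) 0 L 1 (D m)`;
  `Mvt` from `jet_mvt` (a jet with Lipschitz constant `0` is one with constant `1`).  `count_left` with `n = m + 1`, `j = 0`, `P = 0`, `q = m`,
  `ρ = 1`, `δ = 1`, the weak pattern `g = 1`, `idx 0 = j`, `ε = 1`: `m + 1 + 1 ≤ 0 + (m + 1)`, false.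
* `taylor`: `|f i t - tay n (fun l => f l 0) i t| ≤ t^(n-i) / (n-i)!`, downward induction: for `i = n - 1` Lipschitz (`tay_top`); then
  integrate (`image_norm_le_of_norm_deriv_right_le_deriv_boundary` or compare `± (f i - tay i)` with `t^(n-i)/(n-i)!` by monotonicity).
* `Ee_le0`: `Ee n L j = |T j 0|` for a spline (`Ee_eq`); `F = tay n (fun l => T l 0)` is a jet with constant `0` (`tay_hasDeriv`, `tay_top`)
  of order `n`, `|F 0| ≤ 1 + L^n/n!`, `F j 0 = T j 0` (`tay_zero`); `markov_end` with `m = n - 1`.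
* `Ee_ge0`: the chain `C` with `m = n - 1` is in the class; `le_Ee`.
-/

open Set
open Pool.LK1 (TJ)

namespace Pool.Agent.KFL

open Pool.Agent.LKI

theorem cheb_chain (m : ℕ) {L : ℝ} (hL : 0 < L) :
    IsJet (m + 1) 0 (Icc 0 L) (fun j t => (-2 / L) ^ j * TJ m j (1 - 2 * t / L)) := by
  refine ⟨?_, ?_⟩
  · intro j _ t _
    have h1 : HasDerivAt (fun t : ℝ => 1 - 2 * t / L) (-2 / L) t := by
      have h2 := (((hasDerivAt_id t).const_mul 2).div_const L).const_sub 1
      refine h2.congr_deriv ?_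
      ring
    have h3 := ((Pool.LK1.TJ_hasDerivAt m j (1 - 2 * t / L)).comp t h1).const_mul ((-2 / L) ^ j)
    have h4 : HasDerivAt (fun t : ℝ => (-2 / L) ^ j * TJ m j (1 - 2 * t / L))
        ((-2 / L) ^ (j + 1) * TJ m (j + 1) (1 - 2 * t / L)) t := by
      refine h3.congr_deriv ?_
      rw [pow_succ]
      ring
    exact h4.hasDerivWithinAt
  · intro u _ t _
    rw [Nat.add_sub_cancel]
    rw [Pool.LK1.TJ_diag, Pool.LK1.TJ_diag, sub_self, abs_zero, zero_mul]

theorem markov_end {m : ℕ} {L A : ℝ} (hL : 0 < L) {F : ℕ → ℝ → ℝ}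
    (hF : IsJet (m + 1) 0 (Icc 0 L) F) (hA : ∀ t ∈ Icc 0 L, |F 0 t| ≤ A) {j : ℕ} (hj : j ≤ m) :
    |F j 0| ≤ A * (2 / L) ^ j * TJ m j 1 := by
  have h00 : (0 : ℝ) ∈ Icc 0 L := ⟨le_rfl, hL.le⟩
  rcases Nat.eq_zero_or_pos m with rfl | hm
  · obtain rfl : j = 0 := by omega
    have h1 := hA 0 h00
    have h2 : TJ 0 0 1 = 1 := by
      rw [Pool.LK1.TJ_val_one]
      simp
    rw [h2, pow_zero, mul_one, mul_one]
    exact h1
  by_contra hcon
  have hcon := not_le.1 hcon
  have hA0 : 0 ≤ A := (abs_nonneg _).trans (hA 0 h00)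
  have hT0 : 0 ≤ TJ m j 1 :=
    (abs_nonneg _).trans (Pool.LK1.TJ_abs_le m j (x := 1) ⟨by norm_num, le_rfl⟩)
  obtain ⟨B, hB⟩ : ∃ B : ℝ, B = (2 / L) ^ j * TJ m j 1 := ⟨_, rfl⟩
  have hB0 : 0 ≤ B := by rw [hB]; positivity
  have hF0 : 0 < |F j 0| := by
    have : 0 ≤ A * (2 / L) ^ j * TJ m j 1 := by positivity
    linarith
  have hFne : F j 0 ≠ 0 := abs_pos.1 hF0
  obtain ⟨C, hC⟩ : ∃ C : ℕ → ℝ → ℝ, C = fun j t => (-2 / L) ^ j * TJ m j (1 - 2 * t / L) := ⟨_, rfl⟩
  have hCj : IsJet (m + 1) 0 (Icc 0 L) C := by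
    rw [hC]
    exact cheb_chain m hL
  have hCabs : |C j 0| = B := by
    rw [hC, hB]
    change |(-2 / L) ^ j * TJ m j (1 - 2 * 0 / L)| = _
    rw [mul_zero, zero_div, sub_zero, abs_mul, abs_pow, abs_of_nonneg hT0, abs_div, abs_neg,
      abs_of_pos hL, abs_of_pos (two_pos)]
  obtain ⟨l, hl⟩ : ∃ l : ℝ, l = C j 0 / F j 0 := ⟨_, rfl⟩
  have hlA : |l| * A < 1 := by
    rw [hl, abs_div, hCabs, div_mul_eq_mul_div, div_lt_one hF0, mul_comm]
    have : A * B = A * (2 / L) ^ j * TJ m j 1 := by rw [hB]; ring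
    rw [this]
    exact hcon
  have hD := jet_comb (a₁ := 1) (a₂ := -l) hCj hF
  obtain ⟨D, hDdef⟩ : ∃ D : ℕ → ℝ → ℝ, D = fun j t => 1 * C j t + -l * F j t := ⟨_, rfl⟩
  rw [← hDdef] at hD
  have hDj : D j 0 = 0 := by
    rw [hDdef]
    change 1 * C j 0 + -l * F j 0 = 0
    rw [hl]
    field_simp
    ring
  have hm0 : (0 : ℝ) < m := by exact_mod_cast hm
  have halt : Alt (D 0) (Icc 0 L) m 1 := by
    refine ⟨fun i => L / 2 * (1 - Real.cos (i * Real.pi / m)), ?_, ?_, ?_⟩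
    · intro i _
      have h1 := Real.cos_le_one (i * Real.pi / m)
      have h2 := Real.neg_one_le_cos (i * Real.pi / m)
      constructor
      · exact mul_nonneg (by linarith) (by linarith)
      · nlinarith
    · intro i hi
      have h1 : Real.cos (((i + 1 : ℕ) : ℝ) * Real.pi / m) < Real.cos ((i : ℝ) * Real.pi / m) := by
        apply Real.cos_lt_cos_of_nonneg_of_le_pi
        · positivity
        · rw [div_le_iff₀ hm0, mul_comm]
          apply mul_le_mul_of_nonneg_left _ Real.pi_pos.le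
          exact_mod_cast hi
        · apply div_lt_div_of_pos_right _ hm0
          apply mul_lt_mul_of_pos_right _ Real.pi_pos
          exact_mod_cast Nat.lt_succ_self i
      change L / 2 * (1 - Real.cos ((i : ℝ) * Real.pi / m)) <
        L / 2 * (1 - Real.cos (((i + 1 : ℕ) : ℝ) * Real.pi / m))
      apply mul_lt_mul_of_pos_left _ (by linarith)
      linarith
    · intro i _
      have h1 := Real.cos_le_one (i * Real.pi / m)
      have h2 := Real.neg_one_le_cos (i * Real.pi / m)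
      have hmem : L / 2 * (1 - Real.cos (i * Real.pi / m)) ∈ Icc 0 L := by
        constructor
        · exact mul_nonneg (by linarith) (by linarith)
        · nlinarith
      have h3 : C 0 (L / 2 * (1 - Real.cos (i * Real.pi / m))) = (-1) ^ i := by
        rw [hC]
        change (-2 / L) ^ 0 * TJ m 0 (1 - 2 * (L / 2 * (1 - Real.cos (i * Real.pi / m))) / L) = _
        have h4 : 1 - 2 * (L / 2 * (1 - Real.cos (i * Real.pi / m))) / L =
            Real.cos (i * Real.pi / m) := by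
          field_simp
          ring
        rw [h4, pow_zero, one_mul, Pool.LK1.TJ_node m i hm]
      have h5 := hA _ hmem
      rw [hDdef]
      change 0 < 1 * (-1) ^ i * (1 * C 0 (L / 2 * (1 - Real.cos (i * Real.pi / m))) +
        -l * F 0 (L / 2 * (1 - Real.cos (i * Real.pi / m))))
      rw [h3]
      obtain ⟨v, hv⟩ : ∃ v : ℝ, v = F 0 (L / 2 * (1 - Real.cos (i * Real.pi / m))) := ⟨_, rfl⟩
      rw [← hv] at h5 ⊢
      have h6 : 1 * (-1 : ℝ) ^ i * (1 * (-1) ^ i + -l * v) = 1 - (-1) ^ i * (l * v) := by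
        have h7 := neg_one_sq_pow i
        linear_combination h7
      rw [h6]
      have h8 : |(-1 : ℝ) ^ i * (l * v)| = |l| * |v| := by
        rw [abs_mul, abs_pow, abs_neg, abs_one, one_pow, one_mul, abs_mul]
      have h9 : (-1 : ℝ) ^ i * (l * v) ≤ |l| * A := by
        refine (le_abs_self _).trans ?_
        rw [h8]
        exact mul_le_mul_of_nonneg_left h5 (abs_nonneg _)
      linarith
  have hmvt := jet_mvt hD
  have hpcs : Pcs (m + 1) 0 L 1 (D (m + 1 - 1)) := by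
    refine ⟨fun i => if i = 0 then 0 else L, by simp, by simp, ?_, ?_⟩
    · intro i hi
      obtain rfl : i = 0 := by omega
      simp [hL.le]
    · intro i hi u hu t ht _
      obtain rfl : i = 0 := by omega
      simp only [if_true, zero_add, one_ne_zero, if_false] at hu ht
      have h1 := hD.lip t ht u hu
      have h2 : D (m + 1 - 1) t - D (m + 1 - 1) u = 0 := by
        rw [mul_zero, mul_zero, add_zero, zero_mul] at h1
        exact abs_eq_zero.1 (le_antisymm h1 (abs_nonneg _))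
      rw [h2, mul_zero]
  have hpat : PatW (fun i => (-1) ^ i * D i 0) 0 (m + 1 - 1) 1 ((-1) ^ 0 * 1) := by
    have hj' : j ≤ m + 1 - 1 := by omega
    refine ⟨fun _ => j, fun i _ => ⟨Nat.zero_le _, hj'⟩, fun i hi => absurd hi (by omega),
      fun i _ => ?_⟩
    change 0 ≤ (-1 : ℝ) ^ 0 * 1 * (-1) ^ (i + 1) * ((-1) ^ j * D j 0)
    rw [hDj]
    simp
  have heps : Eps 1 ((-1) ^ 0 * 1 * (-1) ^ 1 * 1) := Or.inr ⟨rfl, by norm_num⟩
  have := count_left one_ne_zero hmvt hpcs m 0 (by omega) 1 m 1 1 halt hpat heps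
  omega

theorem taylor {n : ℕ} (hn : 1 ≤ n) {L : ℝ} {f : ℕ → ℝ → ℝ} (hf : IsJet n 1 (Icc 0 L) f) {i : ℕ}
    (hi : i < n) {t : ℝ} (ht : t ∈ Icc 0 L) :
    |f i t - tay n (fun l => f l 0) i t| ≤ t ^ (n - i) / ((n - i).factorial : ℝ) := by
  obtain ⟨d, hd⟩ : ∃ d, i + d + 1 = n := ⟨n - 1 - i, by omega⟩
  induction d generalizing i t with
  | zero =>
    obtain rfl : i = n - 1 := by omega
    have h1 := hf.lip t ht 0 ⟨le_rfl, ht.1.trans ht.2⟩
    rw [tay_top n _ hn, one_mul, sub_zero, abs_of_nonneg ht.1] at *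
    have h2 : n - (n - 1) = 1 := by omega
    rw [h2, pow_one, Nat.factorial_one, Nat.cast_one, div_one]
    exact h1
  | succ d ih =>
    have hi1 : i + 1 < n := by omega
    have ih' := fun t ht => ih (i := i + 1) hi1 (t := t) ht (by omega)
    have h00 : (0 : ℝ) ∈ Icc 0 L := ⟨le_rfl, ht.1.trans ht.2⟩
    have hder : ∀ x ∈ Icc 0 L, HasDerivWithinAt (fun t => f i t - tay n (fun l => f l 0) i t)
        (f (i + 1) x - tay n (fun l => f l 0) (i + 1) x) (Icc 0 L) x := fun x hx =>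
      (hf.hasDeriv i hi1 x hx).sub (tay_hasDeriv n _ i (by omega) x).hasDerivWithinAt
    have hk : n - i = (n - (i + 1)) + 1 := by omega
    have key := image_norm_le_of_norm_deriv_right_le_deriv_boundary
      (f := fun t => f i t - tay n (fun l => f l 0) i t)
      (f' := fun x => f (i + 1) x - tay n (fun l => f l 0) (i + 1) x)
      (a := 0) (b := L)
      (B := fun t => t ^ (n - i) / ((n - i).factorial : ℝ))
      (B' := fun t => t ^ (n - (i + 1)) / ((n - (i + 1)).factorial : ℝ))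
      (fun x hx => (hder x hx).continuousWithinAt)
      (fun x hx => (hder x ⟨hx.1, hx.2.le⟩).mono_of_mem_nhdsWithin
        (Icc_mem_nhdsGE_of_mem hx))
      ?_ ?_ ?_ ht
    · rw [Real.norm_eq_abs] at key
      exact key
    · rw [tay_zero n _ i hi, sub_self, norm_zero]
      positivity
    · intro x
      rw [hk]
      have h1 := (hasDerivAt_pow (n - (i + 1) + 1) x).div_const (((n - (i + 1) + 1).factorial : ℝ))
      refine h1.congr_deriv ?_
      rw [Nat.add_sub_cancel, Nat.factorial_succ]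
      push_cast
      have h2 : ((n - (i + 1)).factorial : ℝ) ≠ 0 := by positivity
      have h3 : (((n - (i + 1) : ℕ) : ℝ) + 1) ≠ 0 := by positivity
      field_simp
    · intro x hx
      rw [Real.norm_eq_abs]
      exact ih' x ⟨hx.1, hx.2.le⟩

theorem Ee_le0 {n : ℕ} (hn : 2 ≤ n) {L : ℝ} (hL : 0 < L) {j : ℕ} (hj : j < n) :
    Ee n L j ≤ (1 + L ^ n / (n.factorial : ℝ)) * (2 / L) ^ j * TJ (n - 1) j 1 := by
  obtain ⟨T, P, ξ, τ, hT⟩ := exists_KSpline hn hL
  obtain ⟨m, rfl⟩ : ∃ m, n = m + 1 := ⟨n - 1, by omega⟩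
  have h00 : (0 : ℝ) ∈ Icc 0 L := ⟨le_rfl, hL.le⟩
  have hF : IsJet (m + 1) 0 (Icc 0 L) (tay (m + 1) (fun l => T l 0)) := by
    refine ⟨fun i hi t _ => (tay_hasDeriv (m + 1) _ i (by omega) t).hasDerivWithinAt, ?_⟩
    intro u _ t _
    rw [tay_top _ _ (by omega), tay_top _ _ (by omega), sub_self, abs_zero, zero_mul]
  have hA : ∀ t ∈ Icc 0 L, |tay (m + 1) (fun l => T l 0) 0 t| ≤
      1 + L ^ (m + 1) / ((m + 1).factorial : ℝ) := by
    intro t ht
    have h1 := taylor (n := m + 1) (by omega) hT.inW.jet (i := 0) (by omega) ht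
    have h2 := hT.inW.bdd t ht
    rw [Nat.sub_zero] at h1
    have h3 : t ^ (m + 1) / ((m + 1).factorial : ℝ) ≤ L ^ (m + 1) / ((m + 1).factorial : ℝ) := by
      apply div_le_div_of_nonneg_right _ (by positivity)
      exact pow_le_pow_left₀ ht.1 ht.2 _
    rw [abs_le] at *
    constructor <;> linarith [h1.1, h1.2, h2.1, h2.2]
  have h1 := markov_end hL hF hA (j := j) (by omega)
  rw [tay_zero (m + 1) _ j hj] at h1
  rw [Ee_eq hn hT hj]
  have h3 : |(-1 : ℝ) ^ j * T j 0| = |T j 0| := by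
    rw [abs_mul, abs_pow, abs_neg, abs_one, one_pow, one_mul]
  refine (le_abs_self _).trans ?_
  rw [h3]
  exact h1

theorem Ee_ge0 {n : ℕ} (hn : 2 ≤ n) {L : ℝ} (hL : 0 < L) {j : ℕ} (hj : j < n) :
    (2 / L) ^ j * TJ (n - 1) j 1 ≤ Ee n L j := by
  obtain ⟨m, rfl⟩ : ∃ m, n = m + 1 := ⟨n - 1, by omega⟩
  have hC := cheb_chain m hL
  have hW : InW (m + 1) (Icc 0 L) (fun j t => (-2 / L) ^ j * TJ m j (1 - 2 * t / L)) := by
    refine ⟨⟨hC.hasDeriv, fun u hu t ht => (hC.lip u hu t ht).trans ?_⟩, ?_⟩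
    · rw [zero_mul, one_mul]
      exact abs_nonneg _
    · intro t ht
      change |(-2 / L) ^ 0 * TJ m 0 (1 - 2 * t / L)| ≤ 1
      rw [pow_zero, one_mul]
      apply Pool.LK1.TJ_zero_abs_le
      have h1 : 0 ≤ 2 * t / L := div_nonneg (by linarith [ht.1]) hL.le
      have h2 : 2 * t / L ≤ 2 := by
        rw [div_le_iff₀ hL]
        linarith [ht.2]
      constructor <;> linarith
  have h1 := le_Ee hn hL hW hj
  refine le_trans ?_ h1
  change _ ≤ |(-2 / L) ^ j * TJ m j (1 - 2 * 0 / L)|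
  rw [mul_zero, zero_div, sub_zero, abs_mul, abs_pow, abs_div, abs_neg, abs_of_pos hL,
    abs_of_pos (two_pos), Nat.add_sub_cancel]
  exact mul_le_mul_of_nonneg_left (le_abs_self _) (by positivity)

end Pool.Agent.KFL
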