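import Pool.Agent.KFL.Lim0

/-!
# KFL/QChain: `q_m = -T_m^(k)(x_m) / T_m^(k)(1)` is nonincreasing in `m`, and `q ≤ 1/(2k+1)`

* `q_chain`: `q_base` for `n = m` and `q_le` with `L = 2 Hn m`.
* `q_two`: `n = k + 2`: `Mc_top`, `eta_top` at `L = 2 H`: `Mc / E_k = E_{n-1}^2 / (2 E_{n-2}) - 1` with `E_{n-1} = H` (`Ee_base_pred`),
  `E_{n-2} = TJ n (n-2) 1 / H^(n-2)`; so the quotient is `H^n / (2 TJ n (n-2) 1) - 1`.  By `TJ_val_one`
  `TJ n (n-1) 1 * (2n-3) = (4n - 4) TJ n (n-2) 1` and `TJ n (n-1) 1 = 2^(n-1) n! = H^n`, so it is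
  `2(n-1)/(2n-3) - 1 = 1/(2n-3) = 1/(2k+1)`.  Compare with `q_base`.
* `q_all`: induction on `m ≥ k + 2` from `q_two` and `q_chain` (`exists_first`).
* `q_le_low`: `q_le` and `q_all` with `m = n - 1`.  `q_le_top`: `k + 2 = n`, `L ≥ 2 Hn n`: `F5` and `q_base`, `q_two`.
-/

open Set
open Pool.LK1 (TJ)
open Pool.LK2 (IsFirst)

namespace Pool.Agent.KFL

open Pool.Agent.LKI

theorem q_chain {m k : ℕ} (hk1 : 1 ≤ k) (hk : k + 3 ≤ m) {x y : ℝ} (hx : IsFirst m k x)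
    (hy : IsFirst (m - 1) k y) : -TJ m k x / TJ m k 1 ≤ -TJ (m - 1) k y / TJ (m - 1) k 1 := by
  rw [← q_base (by omega) hx]
  exact q_le hk1 hk hy (by have := Hn_pos m; positivity)

private theorem qc_succ (n j : ℕ) : TJ n (j + 1) 1 * (2 * (j : ℝ) + 1) =
    TJ n j 1 * ((n : ℝ) ^ 2 - (j : ℝ) ^ 2) := by
  rw [Pool.LK1.TJ_val_one, Pool.LK1.TJ_val_one, Finset.prod_range_succ]
  have : (2 * (j : ℝ) + 1) ≠ 0 := by positivity
  rw [mul_assoc, div_mul_cancel₀ _ this]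

private theorem qc_zero (n : ℕ) (hn : 1 ≤ n) (x : ℝ) : TJ n (n + 1) x = 0 := by
  have h1 := Pool.LK1.TJ_hasDerivAt n n x
  have h2 : TJ n n = fun _ => (2 : ℝ) ^ (n - 1) * (n.factorial : ℝ) :=
    funext fun y => Pool.LK2.TJ_top_pos n hn y
  rw [h2] at h1
  exact h1.unique (hasDerivAt_const x _)

theorem q_two {k : ℕ} {x : ℝ} (hx : IsFirst (k + 2) k x) :
    -TJ (k + 2) k x / TJ (k + 2) k 1 = 1 / (2 * (k : ℝ) + 1) := by
  have hC : ∀ y, TJ (k + 2) (k + 2) y = 2 ^ (k + 1) * ((k + 2).factorial : ℝ) := fun y =>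
    Pool.LK2.TJ_top_pos (k + 2) (by omega) y
  have hCpos : (0 : ℝ) < 2 ^ (k + 1) * ((k + 2).factorial : ℝ) := by positivity
  have h0 : x = 0 := by
    have h1 := Pool.LK2.ode (k + 2) (k + 1) x
    rw [hx.zero, show k + 1 + 2 = k + 2 + 1 by ring, qc_zero (k + 2) (by omega),
      show k + 1 + 1 = k + 2 by ring, hC, mul_zero, mul_zero, sub_zero] at h1
    have h2 : (2 * ((k + 1 : ℕ) : ℝ) + 1) * x = 0 :=
      (mul_eq_zero.1 h1.symm).resolve_right hCpos.ne'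
    have h3 : (0 : ℝ) < 2 * ((k + 1 : ℕ) : ℝ) + 1 := by positivity
    exact (mul_eq_zero.1 h2).resolve_left h3.ne'
  have h1 := Pool.LK2.ode (k + 2) k x
  rw [hx.zero, hC, h0] at h1
  have e1 := qc_succ (k + 2) k
  have e2 := qc_succ (k + 2) (k + 1)
  rw [show k + 1 + 1 = k + 2 by ring, hC] at e2
  rw [h0]
  set C : ℝ := 2 ^ (k + 1) * ((k + 2).factorial : ℝ) with hCdef
  set A := TJ (k + 2) k 1 with hA
  set B := TJ (k + 2) (k + 1) 1 with hB
  set D := TJ (k + 2) k 0 with hD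
  push_cast at h1 e1 e2
  have hk0 : (0 : ℝ) ≤ k := Nat.cast_nonneg k
  have f1 : C = -(4 * k + 4) * D := by linear_combination h1
  have f2 : B * (2 * (k : ℝ) + 1) = A * (4 * k + 4) := by linear_combination e1
  have f3 : C = B := by
    have : C * (2 * (k : ℝ) + 3) = B * (2 * k + 3) := by linear_combination e2
    exact mul_right_cancel₀ (by positivity) this
  have hApos : 0 < A := Pool.LK2.TJ_pos_of_one_le _ _ (by omega) le_rfl
  have f4 : -D * (2 * (k : ℝ) + 1) = A := by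
    have : -D * (2 * (k : ℝ) + 1) * (4 * k + 4) = A * (4 * k + 4) := by
      rw [← f2, ← f3, f1]
      ring
    exact mul_right_cancel₀ (by positivity) this
  rw [div_eq_div_iff hApos.ne' (by positivity), one_mul]
  exact f4

theorem q_all {m k : ℕ} (hk1 : 1 ≤ k) (hk : k + 2 ≤ m) {x : ℝ} (hx : IsFirst m k x) :
    -TJ m k x / TJ m k 1 ≤ 1 / (2 * (k : ℝ) + 1) := by
  induction m, hk using Nat.le_induction generalizing x with
  | base => exact (q_two hx).le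
  | succ m hm ih =>
    obtain ⟨y, hy⟩ := Pool.LK2.exists_first m k hm
    exact (q_chain hk1 (by omega) hx (by simpa using hy)).trans (by simpa using ih hy)

theorem q_le_low {n k : ℕ} (hk1 : 1 ≤ k) (hk : k + 3 ≤ n) {L : ℝ} (hL : 0 < L) :
    Mc n k L / Ee n L k ≤ 1 / (2 * (k : ℝ) + 1) := by
  obtain ⟨y, hy⟩ := Pool.LK2.exists_first (n - 1) k (by omega)
  exact (q_le hk1 hk hy hL).trans (q_all hk1 (by omega) hy)

theorem q_le_top {n k : ℕ} (hk1 : 1 ≤ k) (hk : k + 2 = n) {L : ℝ} (hL : 2 * Hn n ≤ L) :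
    Mc n k L / Ee n L k ≤ 1 / (2 * (k : ℝ) + 1) := by
  subst hk
  obtain ⟨y, hy⟩ := Pool.LK2.exists_first (k + 2) k le_rfl
  refine (F5 hk1 le_rfl (by have := Hn_pos (k + 2); positivity) hL).trans ?_
  rw [q_base le_rfl hy, q_two hy]

end Pool.Agent.KFL
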