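import Pool.Agent.KFL.CL2
import Pool.Agent.KFL.Glob
import Pool.Agent.KFL.QChain
import Pool.Agent.KFL.EtaTop
import Pool.Agent.LK2.S1
import Pool.Agent.LK2.Bok
import Pool.Agent.LK2.Scl
import Pool.Agent.LKX.Lyap
import Pool.Agent.LKX.I1

/-!
# KFL/Mid: critical values at points `eta ≤ y ≤ L/2`

Every point `y` is the first critical point `a + eta n k L''` of the extremal spline of some window
`[a, a + L'']` of the interval, and `crit_le` bounds the critical value by `Mc n k L''`.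
* `Mc_lt`: for `L'' ≥ 2 Hn n` this number is smaller than `ck n k`, so smaller than all `Ee n L k`.
* `mid_S`: the window has the right end `L`; for `L'' < 2 Hn n` the ratio `L / L''` is at most `1 + x1`.
* `mid_B`: the polynomial range, `Bok`.
* `left_win`: the window has the left end `0`.
* `mid_top`: `k = n - 2`.
-/

open Set Filter Topology

namespace Pool.Agent.KFL

open Pool.Agent.LKI
open Pool.LK1 (TJ InF)
open Pool.LK2 (IsFirst S1c Bok Sq)
open Pool.LKX (ck LL)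

theorem etaOK_ge {n k : ℕ} (hk : k + 2 ≤ n) {L : ℝ} (hL : 2 * Hn n ≤ L) : EtaOK n k L := by
  have hH := Hn_pos n
  rcases hk.eq_or_lt with h | h
  · exact etaOK_top h hL
  · exact etaOK_low (by omega) (by linarith)

theorem eta_cont_all {n k : ℕ} (hk : k + 2 ≤ n) : ContinuousOn (fun L => eta n k L) (Ioi 0) := by
  rcases hk.eq_or_lt with h | h
  · exact eta_cont_top h
  · exact eta_cont (by omega)

theorem ck_le_Ee {n k : ℕ} (hn : 2 ≤ n) (hk : k < n) {L : ℝ} (hL : 0 < L) : ck n k ≤ Ee n L k := by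
  obtain ⟨F, hF, hF0⟩ := Pool.LKX.exists_F hn hk
  exact hF0.trans (le_Ee hn hL (hF.mono Icc_subset_Ici_self) hk)

theorem LL_eq (n k : ℕ) : LL n k = Hn n ^ k := by
  unfold LL Hn
  have h : (0 : ℝ) ≤ (2 : ℝ) ^ (n - 1) * (n.factorial : ℝ) := by positivity
  generalize (2 : ℝ) ^ (n - 1) * (n.factorial : ℝ) = X at h ⊢
  rw [← Real.rpow_natCast, ← Real.rpow_mul h]
  congr 1
  ring

/-- the first critical value of a long interval is smaller than all end point values -/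
theorem Mc_lt {n k : ℕ} (hk1 : 2 ≤ k) (hk : k + 2 ≤ n) {L' : ℝ} (h : 2 * Hn n ≤ L') {L : ℝ} (hL : 0 < L) :
    Mc n k L' < Ee n L k := by
  have hH := Hn_pos n
  have hH2 : (0 : ℝ) < 2 * Hn n := by linarith
  obtain ⟨x1, hx⟩ := Pool.LK2.exists_first n k hk
  have h1 := F5 (by omega : 1 ≤ k) hk hH2 h
  have hE1 : 0 < Ee n L' k := lt_of_lt_of_le one_pos (Ee_ge_one (by omega) (by linarith) k)
  have hE2 : 0 < Ee n (2 * Hn n) k := lt_of_lt_of_le one_pos (Ee_ge_one (by omega) hH2 k)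
  have hM : 0 < Mc n k (2 * Hn n) := Mc_pos (etaOK_base hk)
  have h2 : Ee n L' k ≤ Ee n (2 * Hn n) k := Ee_anti (by omega) hH2 h k
  have h3 : Mc n k L' ≤ Mc n k (2 * Hn n) := by
    rw [div_le_div_iff₀ hE1 hE2] at h1
    have h4 : Mc n k (2 * Hn n) * Ee n L' k ≤ Mc n k (2 * Hn n) * Ee n (2 * Hn n) k :=
      mul_le_mul_of_nonneg_left h2 hM.le
    exact le_of_mul_le_mul_right (h1.trans h4) hE2
  have h5 : Mc n k (2 * Hn n) < ck n k := by
    rw [Mc_base hk hx, div_lt_iff₀ (by positivity), ← LL_eq]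
    exact (neg_le_abs _).trans_lt (Pool.LKX.first_crit_lt hk1 hk hx)
  exact (h3.trans_lt h5).trans_le (ck_le_Ee (by omega) (by omega) hL)

theorem eta_low_bd {n k : ℕ} (hk : k + 2 ≤ n) {x1 : ℝ} (hx : IsFirst n k x1) {L : ℝ} (hL : 0 < L)
    (hL2 : L ≤ 2 * Hn n) : (1 - x1) * L ≤ 2 * eta n k L := by
  have hH := Hn_pos n
  have h1 := F3 hk hL hL2
  rw [eta_base hk hx] at h1
  have h2 : (1 - x1) * L * Hn n ≤ 2 * eta n k L * Hn n := by linarith
  exact le_of_mul_le_mul_right h2 hH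

theorem mid_S {n k : ℕ} (hk1 : 2 ≤ k) (hk : k + 3 ≤ n) (hS : S1c (n - 1) k) {L : ℝ} (hL : 0 < L)
    {f : ℕ → ℝ → ℝ} (hf : InW n (Icc 0 L) f) {y : ℝ} (hy : eta n k L ≤ y) (hy2 : y ≤ L / 2)
    (h0 : f (k + 1) y = 0) : |f k y| < Ee n L k := by
  obtain ⟨x1, hx⟩ := Pool.LK2.exists_first n k (by omega)
  obtain ⟨y1, hy1⟩ := Pool.LK2.exists_first (n - 1) k (by omega)
  have hE := etaOK_low hk hL
  have hepos := hE.pos
  have hS1 := hS x1 y1 (by rw [show n - 1 + 1 = n by omega]; exact hx) hy1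
  have hd0 : 0 < L - y := by linarith
  have hc : ContinuousOn (fun t => t - eta n k t) (Icc (L - y) L) :=
    continuousOn_id.sub ((eta_cont hk).mono fun t ht => lt_of_lt_of_le hd0 ht.1)
  have hd : (L - y) - eta n k (L - y) ≤ L - y := by
    have := (etaOK_low hk hd0).pos
    linarith
  obtain ⟨M, ⟨hM1, hM2⟩, hM3⟩ := intermediate_value_Icc (by linarith) hc
    (⟨hd, by linarith⟩ : L - y ∈ Icc ((L - y) - eta n k (L - y)) (L - eta n k L))
  simp only at hM3
  have hM0 : 0 < M := lt_of_lt_of_le hd0 hM1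
  have e1 : L - M + eta n k M = y := by linarith
  have hc1 : |f k y| ≤ Mc n k M := by
    have := crit_le (by omega : k + 2 ≤ n) (etaOK_low hk hM0) (S := Icc 0 L) (a := L - M) (f := f)
      (Icc_subset_Icc (by linarith) (by linarith)) hf (by rw [e1]; exact h0)
    rwa [e1] at this
  rcases le_or_gt (2 * Hn n) M with h2 | h2
  · exact hc1.trans_lt (Mc_lt hk1 (by omega) h2 hL)
  · have h3 := eta_low_bd (by omega : k + 2 ≤ n) hx hM0 h2.le
    have hx0 := hx.nonneg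
    have h4 : L ≤ (1 + x1) * M := by nlinarith
    have hq := q_le (by omega : 1 ≤ k) hk hy1 hM0
    have hEM : 0 < Ee n M k := lt_of_lt_of_le one_pos (Ee_ge_one (by omega) hM0 k)
    have hEL : 0 < Ee n L k := lt_of_lt_of_le one_pos (Ee_ge_one (by omega) hL k)
    have hT : 0 < TJ (n - 1) k 1 := Pool.LK2.TJ_pos_of_one_le (n - 1) k (by omega) le_rfl
    have h5 := Ee_scale (by omega : 2 ≤ n) hM0 hM2 k
    have h6 : (L / M) ^ k ≤ (1 + x1) ^ k :=
      pow_le_pow_left₀ (by positivity) ((div_le_iff₀ hM0).2 h4) k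
    have h7 : Ee n M k ≤ (1 + x1) ^ k * Ee n L k :=
      h5.trans (mul_le_mul_of_nonneg_right h6 hEL.le)
    rw [div_le_div_iff₀ hEM hT] at hq
    have h8 : Mc n k M * TJ (n - 1) k 1 ≤ |TJ (n - 1) k y1| * Ee n M k :=
      hq.trans (mul_le_mul_of_nonneg_right (neg_le_abs _) hEM.le)
    have h9 : |TJ (n - 1) k y1| * Ee n M k ≤ |TJ (n - 1) k y1| * ((1 + x1) ^ k * Ee n L k) :=
      mul_le_mul_of_nonneg_left h7 (abs_nonneg _)
    have h10 : |TJ (n - 1) k y1| * (1 + x1) ^ k * Ee n L k < TJ (n - 1) k 1 * Ee n L k :=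
      mul_lt_mul_of_pos_right hS1 hEL
    have h11 : Mc n k M * TJ (n - 1) k 1 < Ee n L k * TJ (n - 1) k 1 := by
      calc _ ≤ _ := h8
        _ ≤ _ := h9
        _ = |TJ (n - 1) k y1| * (1 + x1) ^ k * Ee n L k := by ring
        _ < _ := h10
        _ = _ := by ring
    exact hc1.trans_lt (lt_of_mul_lt_mul_right h11 hT.le)

theorem mid_B {n k : ℕ} (_hk1 : 2 ≤ k) (hk : k + 3 ≤ n) (hB : Bok (n - 1) k) {L : ℝ} (hL : 0 < L)
    (hL2 : L ≤ 2 * Hn n) {f : ℕ → ℝ → ℝ} (hf : InW n (Icc 0 L) f) {y : ℝ} (hy : eta n k L ≤ y)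
    (hy2 : y ≤ L / 2) (h0 : f (k + 1) y = 0) : |f k y| < Ee n L k := by
  obtain ⟨m, rfl⟩ : ∃ m, n = m + 1 := ⟨n - 1, by omega⟩
  obtain ⟨x1, hx⟩ := Pool.LK2.exists_first (m + 1) k (by omega)
  rw [Nat.add_sub_cancel] at hB
  have hh : 0 < L / 2 := by linarith
  have hF := Pool.LK2.W_to_F (a := 0) (m := m) hh (S := Icc 0 L)
    (by rw [zero_add, mul_div_cancel₀ L (two_ne_zero)]) hf
  have hσ : (L / 2) ^ (m + 1) ≤ 2 ^ m * ((m + 1).factorial : ℝ) := by
    have h1 := Hn_pow (n := m + 1) (by omega)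
    rw [Nat.add_sub_cancel] at h1
    rw [← h1]
    exact pow_le_pow_left₀ hh.le (by linarith) _
  have hb := eta_low_bd (by omega : k + 2 ≤ m + 1) hx hL hL2
  have e1 : 0 + L / 2 * (1 - (1 - y / (L / 2))) = y := by field_simp; ring
  have h1 := hB _ (Pool.LK2.inF_mono hσ hF) (1 - y / (L / 2)) x1 hx
    (by rw [sub_nonneg, div_le_one hh]; exact hy2)
    (by
      have : 1 - x1 ≤ y / (L / 2) := by rw [le_div_iff₀ hh]; linarith
      linarith)
    (by rw [e1, h0, mul_zero])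
  rw [e1, abs_mul, abs_pow, abs_neg, abs_of_pos hh] at h1
  have h2 := Ee_ge0 (by omega : 2 ≤ m + 1) hL (j := k) (by omega)
  rw [Nat.add_sub_cancel] at h2
  have h3 : |f k y| < (2 / L) ^ k * TJ m k 1 := by
    have e2 : (2 / L) ^ k * (L / 2) ^ k = 1 := by
      rw [← mul_pow, div_mul_div_comm, mul_comm 2 L, div_self (by positivity), one_pow]
    have h4 : (2 / L) ^ k * ((L / 2) ^ k * |f k y|) < (2 / L) ^ k * TJ m k 1 :=
      mul_lt_mul_of_pos_left h1 (by positivity)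
    rwa [← mul_assoc, e2, one_mul] at h4
  exact h3.trans_le h2

theorem left_win {n k : ℕ} (hk1 : 2 ≤ k) (hk : k + 2 ≤ n) {x1 : ℝ} (hx : IsFirst n k x1) {L : ℝ}
    (hL2 : 2 * Hn n ≤ L) {f : ℕ → ℝ → ℝ} (hf : InW n (Icc 0 L) f) {y : ℝ} (hy : eta n k L ≤ y)
    (hy2 : y ≤ (1 - x1) * Hn n) (h0 : f (k + 1) y = 0) : |f k y| < Ee n L k := by
  have hH := Hn_pos n
  have hc : ContinuousOn (fun t => eta n k t) (Icc (2 * Hn n) L) :=
    (eta_cont_all hk).mono fun t ht => lt_of_lt_of_le (by linarith : (0 : ℝ) < 2 * Hn n) ht.1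
  obtain ⟨M, ⟨hM1, hM2⟩, hM3⟩ := intermediate_value_Icc' hL2 hc
    (⟨hy, by rw [eta_base hk hx]; exact hy2⟩ : y ∈ Icc (eta n k L) (eta n k (2 * Hn n)))
  simp only at hM3
  have hc1 : |f k y| ≤ Mc n k M := by
    have := crit_le hk (etaOK_ge hk hM1) (S := Icc 0 L) (a := 0) (f := f)
      (Icc_subset_Icc le_rfl (by linarith)) hf (by rw [zero_add, hM3]; exact h0)
    rwa [zero_add, hM3] at this
  exact hc1.trans_lt (Mc_lt hk1 hk hM1 (by linarith))

theorem first_top {n k : ℕ} (hk : k + 2 = n) {x1 : ℝ} (hx : IsFirst n k x1) : x1 = 0 := by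
  have h1 := Pool.LK2.loc_S n k (by omega) hx
  have hn : (n : ℝ) = k + 2 := by rw [← hk]; push_cast; ring
  have h2 : Sq n k = 1 := by
    unfold Sq
    rw [hn, div_eq_one_iff_eq (by positivity)]
    ring
  rw [h2] at h1
  have h3 : x1 ^ 2 ≤ 0 := by linarith
  exact pow_eq_zero_iff (two_ne_zero) |>.1 (le_antisymm h3 (sq_nonneg _))

theorem mid_top {n k : ℕ} (hk1 : 2 ≤ k) (hk : k + 2 = n) {L : ℝ} (hL2 : 2 * Hn n ≤ L)
    {f : ℕ → ℝ → ℝ} (hf : InW n (Icc 0 L) f) {y : ℝ} (hy : eta n k L ≤ y) (hy2 : y ≤ L / 2)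
    (h0 : f (k + 1) y = 0) : |f k y| < Ee n L k := by
  obtain ⟨x1, hx⟩ := Pool.LK2.exists_first n k (by omega)
  have hH := Hn_pos n
  have hx1 := first_top hk hx
  rcases le_or_gt y (Hn n) with h1 | h1
  · exact left_win hk1 (by omega) hx hL2 hf hy (by rw [hx1]; linarith) h0
  · have hE := etaOK_base (n := n) (k := k) (by omega)
    have e0 : eta n k (2 * Hn n) = Hn n := by
      rw [eta_base (by omega) hx, hx1]
      ring
    have e1 : y - Hn n + eta n k (2 * Hn n) = y := by rw [e0]; ring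
    have hc1 : |f k y| ≤ Mc n k (2 * Hn n) := by
      have := crit_le (by omega : k + 2 ≤ n) hE (S := Icc 0 L) (a := y - Hn n) (f := f)
        (Icc_subset_Icc (by linarith) (by linarith)) hf (by rw [e1]; exact h0)
      rwa [e1] at this
    exact hc1.trans_lt (Mc_lt hk1 (by omega) le_rfl (by linarith))

end Pool.Agent.KFL
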