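import Pool.Agent.KFL.TightB

/-!
# KFL/Poly: the first piece of an extremal spline is the polynomial `pE`

* `pE_hasDeriv`: differentiate the sum; the term `i = 0` is constant, shift the index
  (`Finset.sum_range_succ'`; for `n < j` all sums are empty, for `j = n` the sum has one constant term).
* `pE_zero`: only the term `i = 0` survives.  `pE_top`: `Ee_top`.  `pE_pred`: two terms.
* `T_eq_pE`: `T (n-1) t = T (n-1) 0 + (-1)^n t = (-1)^(n-1) (E_{n-1} - t)` by the slope condition with `i = 0` and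
  `Ee_eq`.  Downward induction on `j`: on `[0, ξ 1]` the function `T j - (-1)^j pE n L j` has the derivative
  `T (j+1) - (-1)^(j+1) pE n L (j+1) = 0` and it vanishes at `0` (`Ee_eq`, `pE_zero`).
* `alt_T`: the nodes give `Alt (T 0) (Icc 0 (ξ (P+1))) (P+n-1) 1`; apply `alt_none` (`LKI/A1.lean`) `j` times
  (`Mvt` from `jet_mvt`, restricted to `[0, ξ (P+1)]`).
* `xi1_pos`: if `ξ 1 = 0` then `P ≥ 1` (`0 ≤ τ 0 < τ 1 ≤ ξ (P+1)`) and `T (n-1)` has the `P` pieces
  `[ξ (i+1), ξ (i+2)]` with slopes `(-1)^(n+i+1)`: `Pcs n (P-1) (ξ (P+1)) (-1) (T (n-1))`; `count_left` with `j = 0`,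
  `m = n - 1`, `q = P + n - 1`, `ρ = 1`, `g = 0`, `δ = -1`, `ε = 1`: `P + n - 1 + 1 ≤ P - 1 + n`, false.
* `pcs_T`: the definition.
-/

open Set

namespace Pool.Agent.KFL

open Pool.Agent.LKI

theorem pE_hasDeriv (n : ℕ) (L : ℝ) (j : ℕ) (t : ℝ) :
    HasDerivAt (pE n L j) (-pE n L (j + 1) t) t := by
  have h1 : HasDerivAt (fun t => ∑ i ∈ Finset.range (n + 1 - j),
      (-1) ^ i * Ee n L (j + i) * t ^ i / (i.factorial : ℝ))
      (∑ i ∈ Finset.range (n + 1 - j),
        (-1) ^ i * Ee n L (j + i) * ((i : ℝ) * t ^ (i - 1)) / (i.factorial : ℝ)) t := by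
    refine HasDerivAt.fun_sum fun i _ => ?_
    exact ((hasDerivAt_pow i t).const_mul _).div_const _
  have h2 : (∑ i ∈ Finset.range (n + 1 - j),
        (-1) ^ i * Ee n L (j + i) * ((i : ℝ) * t ^ (i - 1)) / (i.factorial : ℝ)) =
        -pE n L (j + 1) t := by
    unfold pE
    rcases Nat.lt_or_ge n j with h | h
    · rw [show n + 1 - j = 0 by omega, show n + 1 - (j + 1) = 0 by omega]
      simp
    · rw [show n + 1 - j = (n + 1 - (j + 1)) + 1 by omega, Finset.sum_range_succ']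
      simp only [Nat.cast_zero, zero_mul, mul_zero, zero_div, add_zero]
      rw [← Finset.sum_neg_distrib]
      refine Finset.sum_congr rfl fun i _ => ?_
      have e1 : j + (i + 1) = j + 1 + i := by ring
      have e2 : ((i + 1).factorial : ℝ) = ((i : ℝ) + 1) * (i.factorial : ℝ) := by
        rw [Nat.factorial_succ]
        push_cast
        ring
      have e3 : (i.factorial : ℝ) ≠ 0 := Nat.cast_ne_zero.2 (Nat.factorial_ne_zero i)
      have e4 : (i : ℝ) + 1 ≠ 0 := by positivity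
      rw [e1, e2, Nat.add_sub_cancel, Nat.cast_add, Nat.cast_one]
      field_simp
      ring
  rw [h2] at h1
  exact h1

theorem pE_continuous (n : ℕ) (L : ℝ) (j : ℕ) : Continuous (pE n L j) :=
  continuous_iff_continuousAt.2 fun t => (pE_hasDeriv n L j t).continuousAt

theorem pE_zero {n j : ℕ} (hj : j ≤ n) (L : ℝ) : pE n L j 0 = Ee n L j := by
  unfold pE
  rw [show n + 1 - j = (n - j) + 1 by omega, Finset.sum_range_succ']
  have h : ∑ k ∈ Finset.range (n - j), (-1) ^ (k + 1) * Ee n L (j + (k + 1)) * (0 : ℝ) ^ (k + 1) /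
      ((k + 1).factorial : ℝ) = 0 := by
    refine Finset.sum_eq_zero fun k _ => ?_
    rw [zero_pow (Nat.succ_ne_zero k), mul_zero, zero_div]
  rw [h]
  simp

theorem pE_top (n : ℕ) (L t : ℝ) : pE n L n t = 1 := by
  unfold pE
  rw [show n + 1 - n = 1 by omega]
  simp [Ee_top]

theorem pE_pred {n : ℕ} (hn : 1 ≤ n) (L t : ℝ) : pE n L (n - 1) t = Ee n L (n - 1) - t := by
  unfold pE
  rw [show n + 1 - (n - 1) = 2 by omega, Finset.sum_range_succ, Finset.sum_range_one,
    show n - 1 + 1 = n by omega, Ee_top]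
  simp
  ring

theorem T_eq_pE {n : ℕ} (hn : 2 ≤ n) {L : ℝ} {T : ℕ → ℝ → ℝ} {P : ℕ} {ξ τ : ℕ → ℝ}
    (hT : KSpline n L T P ξ τ) {j : ℕ} (hj : j < n) {t : ℝ} (h0 : 0 ≤ t) (h1 : t ≤ ξ 1) :
    T j t = (-1) ^ j * pE n L j t := by
  have hx0 : ∀ i, i ≤ P + 1 → 0 ≤ ξ i := KSpline.xi_nonneg hT
  have hx1L : ξ 1 ≤ L := (KSpline.xi_le hT 1 (P + 1) (by omega) le_rfl).trans hT.ξlast
  have key : ∀ m j, j + m + 1 = n → ∀ t ∈ Icc 0 (ξ 1), T j t = (-1) ^ j * pE n L j t := by
    intro m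
    induction m with
    | zero =>
      intro j hj t ht
      have hjn : j = n - 1 := by omega
      subst hjn
      have h2 := hT.slope 0 (Nat.zero_le _) 0 (by rw [hT.ξ0]; exact ⟨le_rfl, hx0 1 (by omega)⟩) t
        (by rw [hT.ξ0]; exact ht)
      have h3 := Ee_eq hn hT (j := n - 1) (by omega)
      rw [pE_pred (by omega), h3]
      have e1 : (-1 : ℝ) ^ (n + 0) = -(-1) ^ (n - 1) := by
        obtain ⟨N, rfl⟩ : ∃ N, n = N + 1 := ⟨n - 1, by omega⟩
        rw [Nat.add_sub_cancel, add_zero, pow_succ]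
        ring
      rw [e1] at h2
      have e2 := neg_one_sq_pow (n - 1)
      have e3 : (-1 : ℝ) ^ (n - 1) * ((-1) ^ (n - 1) * T (n - 1) 0 - t) =
          ((-1) ^ (n - 1) * (-1) ^ (n - 1)) * T (n - 1) 0 - (-1) ^ (n - 1) * t := by ring
      rw [e3, e2]
      linarith
    | succ m ih =>
      intro j hj t ht
      have ih' := ih (j + 1) (by omega)
      have hd : ∀ s ∈ Ico 0 t, HasDerivWithinAt (fun u => T j u - (-1) ^ j * pE n L j u) 0
          (Ici s) s := by
        intro s hs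
        have hs1 : s ∈ Icc 0 (ξ 1) := ⟨hs.1, hs.2.le.trans ht.2⟩
        have hsL : s < L := hs.2.trans_le (ht.2.trans hx1L)
        have e1 := hT.inW.jet.hasDeriv j (by omega) s ⟨hs.1, hsL.le⟩
        have e2 : HasDerivWithinAt (T j) (T (j + 1) s) (Ici s) s := by
          refine e1.mono_of_mem_nhdsWithin ?_
          exact mem_nhdsWithin.2 ⟨Iio L, isOpen_Iio, hsL, fun u hu => ⟨hs.1.trans hu.2, le_of_lt hu.1⟩⟩
        have e3 := (pE_hasDeriv n L j s).hasDerivWithinAt (s := Ici s)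
        have e4 := e2.sub (e3.const_mul ((-1) ^ j))
        have e5 : T (j + 1) s - (-1) ^ j * -pE n L (j + 1) s = 0 := by
          rw [ih' s hs1, pow_succ]
          ring
        rw [e5] at e4
        exact e4
      have hc : ContinuousOn (fun u => T j u - (-1) ^ j * pE n L j u) (Icc 0 t) := by
        refine ContinuousOn.sub ?_ ?_
        · intro u hu
          have huL : u ∈ Icc 0 L := ⟨hu.1, hu.2.trans (ht.2.trans hx1L)⟩
          exact (hT.inW.jet.hasDeriv j (by omega) u huL).continuousWithinAt.mono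
            (Icc_subset_Icc le_rfl (ht.2.trans hx1L))
        · exact (continuous_const.mul (pE_continuous n L j)).continuousOn
      have h5 := constant_of_has_deriv_right_zero hc hd t ⟨ht.1, le_rfl⟩
      have h6 : T j 0 - (-1) ^ j * pE n L j 0 = 0 := by
        rw [pE_zero (by omega), Ee_eq hn hT (by omega)]
        have e2 := neg_one_sq_pow j
        have e3 : (-1 : ℝ) ^ j * ((-1) ^ j * T j 0) = ((-1) ^ j * (-1) ^ j) * T j 0 := by ring
        rw [e3, e2]
        ring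
      have h7 : T j t - (-1) ^ j * pE n L j t = 0 := h5.trans h6
      linarith
  exact key (n - 1 - j) j (by omega) t ⟨h0, h1⟩

theorem KSpline.mvt_T {n : ℕ} (hn : 2 ≤ n) {L : ℝ} {T : ℕ → ℝ → ℝ} {P : ℕ} {ξ τ : ℕ → ℝ}
    (hT : KSpline n L T P ξ τ) : ∀ j, j + 1 < n → Mvt (T j) (T (j + 1)) 0 (ξ (P + 1)) := by
  have _ := hn
  exact jet_mvt (jet_mono hT.inW.jet (Icc_subset_Icc le_rfl hT.ξlast))

theorem alt_T {n : ℕ} (hn : 2 ≤ n) {L : ℝ} {T : ℕ → ℝ → ℝ} {P : ℕ} {ξ τ : ℕ → ℝ}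
    (hT : KSpline n L T P ξ τ) {j : ℕ} (hj : j < n) :
    Alt (T j) (Icc 0 (ξ (P + 1))) (P + n - 1 - j) ((-1) ^ j) := by
  induction j with
  | zero =>
    refine ⟨τ, fun i hi => ?_, fun i hi => hT.τmono i (by omega), fun i hi => ?_⟩
    · exact ⟨KSpline.tau_nonneg hT i (by omega),
        (KSpline.tau_le hT i (P + n - 1) (by omega) (by omega)).trans hT.τlast⟩
    · rw [hT.contact i (by omega), pow_zero, one_mul, neg_one_sq_pow]
      exact one_pos
  | succ j ih =>
    have h1 := ih (by omega)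
    have h2 : P + n - 1 - j = (P + n - 1 - (j + 1)) + 1 := by omega
    rw [h2] at h1
    have h3 := alt_none (KSpline.mvt_T hn hT j hj) h1
    rw [pow_succ, mul_neg_one]
    obtain ⟨x, a1, a2, a3⟩ := h3
    exact ⟨x, fun i hi => Ioo_subset_Icc_self (a1 i hi), a2, a3⟩

theorem pcs_T {n : ℕ} (hn : 2 ≤ n) {L : ℝ} {T : ℕ → ℝ → ℝ} {P : ℕ} {ξ τ : ℕ → ℝ}
    (hT : KSpline n L T P ξ τ) : PcsS n P (ξ (P + 1)) 1 (T (n - 1)) := by
  have _ := hn
  refine ⟨ξ, hT.ξ0, rfl, hT.ξmono, fun i hi s hs t ht hst => ?_⟩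
  rw [hT.slope i hi s hs t ht]
  have e : (1 : ℝ) * (-1) ^ (n + i) * ((-1) ^ (n + i) * (t - s)) =
      ((-1) ^ (n + i) * (-1) ^ (n + i)) * (t - s) := by ring
  rw [e, neg_one_sq_pow]
  linarith

theorem xi1_pos {n : ℕ} (hn : 2 ≤ n) {L : ℝ} {T : ℕ → ℝ → ℝ} {P : ℕ} {ξ τ : ℕ → ℝ}
    (hT : KSpline n L T P ξ τ) : 0 < ξ 1 := by
  rcases (KSpline.xi_nonneg hT 1 (by omega)).eq_or_lt with h | h
  swap
  · exact h
  exfalso
  have h1 : 0 < ξ (P + 1) := by
    have e1 := hT.τmono 0 (by omega)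
    have e2 := KSpline.tau_le hT (0 + 1) (P + n - 1) (by omega) (by omega)
    have e3 := hT.τ0
    have e4 := hT.τlast
    linarith
  have hP : 1 ≤ P := by
    rcases Nat.eq_zero_or_pos P with h2 | h2
    · subst h2
      simp only [zero_add] at h1
      linarith
    · exact h2
  obtain ⟨R, rfl⟩ : ∃ R, P = R + 1 := ⟨P - 1, by omega⟩
  have hpcs : Pcs n R (ξ (R + 1 + 1)) (-1) (T (n - 1)) := by
    refine ⟨fun i => ξ (i + 1), h.symm, rfl, fun i hi => hT.ξmono (i + 1) (by omega),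
      fun i hi s hs t ht hst => ?_⟩
    rw [hT.slope (i + 1) (by omega) s hs t ht]
    have e : (-1 : ℝ) * (-1) ^ (n + i) * ((-1) ^ (n + (i + 1)) * (t - s)) =
        ((-1) ^ (n + i) * (-1) ^ (n + i)) * (t - s) := by
      rw [← add_assoc, pow_succ]
      ring
    rw [e, neg_one_sq_pow]
    linarith
  have hA := alt_T hn hT (j := 0) (by omega)
  rw [pow_zero] at hA
  have hres := count_left (d := T) (by norm_num : (-1 : ℝ) ≠ 0) (KSpline.mvt_T hn hT) hpcs (n - 1) 0
    (by omega) 0 (R + 1 + n - 1 - 0) 1 1 hA ⟨fun _ => 0, fun i hi => by omega, fun i hi => by omega,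
      fun i hi => by omega⟩ (Or.inr ⟨rfl, by norm_num⟩)
  omega

end Pool.Agent.KFL
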