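import Pool.Agent.KFL.LCh
import Pool.Agent.KFL.TightB

/-!
# KFL/SgnL: the `n`-th derivative from the left of a perfect spline

`sgnL n P ξ t = (-1)^(n + #{i | 1 ≤ i ≤ P, ξ i < t})`; `Tx` is the chain `T 0, ..., T (n-1), sgnL`.

* `sgnL_piece`: for `ξ i < t ≤ ξ (i+1)`, `i ≤ P`, the set is `{1, ..., i}` (`KSpline.xi_le`).  `sgnL_first`: `t ≤ ξ 1`: the set
  is empty.  `sgnL_abs`: clear.
* `exists_piece`: for `0 < t ≤ ξ (P+1)` there is `i ≤ P` with `ξ i < t ≤ ξ (i+1)` (the last `i` with `ξ i < t`; `ξ 0 = 0`).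
* `Tx_LCh`: for `j + 1 < n` from the jet (`LCh.of_jet` on `[0, L]`, restricted).  For `j = n - 1`: `T (n-1)` is continuous
  (Lipschitz); at `x ∈ (0, b]` let `i` be as in `exists_piece`; for `t ∈ (ξ i, x]` the slope condition gives
  `T (n-1) t = T (n-1) x + (-1)^(n+i) (t - x)`, so the left derivative is `(-1)^(n+i) = sgnL x`.
* `Tx_pieces`: for `s < t` in `[ξ i, ξ (i+1)]`: `(-1)^(n+i) (T (n-1) t - T (n-1) s) = t - s`,
  `(-1)^(n+i) (sgnL t - sgnL s) = 1 - (-1)^(n+i) sgnL s ≥ 0` (`ξ i ≤ s < t ≤ ξ (i+1)`).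
* `node_deriv`: for `1 ≤ i < P + n`: `τ i > 0` and `(-1)^i T 0 s ≤ 1 = (-1)^i T 0 (τ i)` for `s < τ i`, so the left derivative
  `(-1)^i T 1 (τ i) ≥ 0` (`n ≥ 2`).
-/

open Set

namespace Pool.Agent.KFL

open Pool.Agent.LKI

/-- the `n`-th derivative from the left -/
noncomputable def sgnL (n P : ℕ) (ξ : ℕ → ℝ) (t : ℝ) : ℝ :=
  (-1) ^ (n + ((Finset.Icc 1 P).filter (fun i => ξ i < t)).card)

/-- the chain of the derivatives of order `≤ n` -/
noncomputable def Tx (n P : ℕ) (T : ℕ → ℝ → ℝ) (ξ : ℕ → ℝ) (j : ℕ) (t : ℝ) : ℝ :=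
  if j < n then T j t else sgnL n P ξ t

theorem sgnL_piece {n : ℕ} {L : ℝ} {T : ℕ → ℝ → ℝ} {P : ℕ} {ξ τ : ℕ → ℝ}
    (hT : KSpline n L T P ξ τ) {i : ℕ} (hi : i ≤ P) {t : ℝ} (h1 : ξ i < t) (h2 : t ≤ ξ (i + 1)) :
    sgnL n P ξ t = (-1) ^ (n + i) := by
  unfold sgnL
  have h : (Finset.Icc 1 P).filter (fun j => ξ j < t) = Finset.Icc 1 i := by
    ext j
    rw [Finset.mem_filter, Finset.mem_Icc, Finset.mem_Icc]
    constructor
    · rintro ⟨⟨h3, h4⟩, h5⟩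
      refine ⟨h3, ?_⟩
      by_contra hcon
      have h6 := KSpline.xi_le hT (i + 1) j (by omega) (by omega)
      linarith
    · rintro ⟨h3, h4⟩
      refine ⟨⟨h3, h4.trans hi⟩, ?_⟩
      have h6 := KSpline.xi_le hT j i h4 (by omega)
      linarith
  rw [h, Nat.card_Icc, Nat.add_sub_cancel]

theorem sgnL_first {n : ℕ} {L : ℝ} {T : ℕ → ℝ → ℝ} {P : ℕ} {ξ τ : ℕ → ℝ}
    (hT : KSpline n L T P ξ τ) {t : ℝ} (h : t ≤ ξ 1) : sgnL n P ξ t = (-1) ^ n := by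
  unfold sgnL
  have h' : (Finset.Icc 1 P).filter (fun j => ξ j < t) = ∅ := by
    rw [Finset.filter_eq_empty_iff]
    intro j hj
    rw [Finset.mem_Icc] at hj
    have h6 := KSpline.xi_le hT 1 j hj.1 (by omega)
    exact not_lt.2 (h.trans h6)
  rw [h', Finset.card_empty, Nat.add_zero]

theorem sgnL_abs (n P : ℕ) (ξ : ℕ → ℝ) (t : ℝ) : |sgnL n P ξ t| = 1 := by
  unfold sgnL
  rw [abs_pow, abs_neg, abs_one, one_pow]

theorem exists_piece {n : ℕ} {L : ℝ} {T : ℕ → ℝ → ℝ} {P : ℕ} {ξ τ : ℕ → ℝ}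
    (hT : KSpline n L T P ξ τ) {t : ℝ} (h0 : 0 < t) (h1 : t ≤ ξ (P + 1)) :
    ∃ i, i ≤ P ∧ ξ i < t ∧ t ≤ ξ (i + 1) := by
  have key : ∀ m, m ≤ P → t ≤ ξ (m + 1) → ∃ i, i ≤ m ∧ ξ i < t ∧ t ≤ ξ (i + 1) := by
    intro m
    induction m with
    | zero => exact fun _ h => ⟨0, le_rfl, by rw [hT.ξ0]; exact h0, h⟩
    | succ m ih =>
      intro hm h
      rcases lt_or_ge (ξ (m + 1)) t with h2 | h2
      · exact ⟨m + 1, le_rfl, h2, h⟩
      · obtain ⟨i, hi, h3, h4⟩ := ih (by omega) h2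
        exact ⟨i, by omega, h3, h4⟩
  exact key P le_rfl h1

theorem Tx_LCh {n : ℕ} (hn : 2 ≤ n) {L : ℝ} {T : ℕ → ℝ → ℝ} {P : ℕ} {ξ τ : ℕ → ℝ}
    (hT : KSpline n L T P ξ τ) : LCh (n + 1) (ξ (P + 1)) (Tx n P T ξ) := by
  have hb : ξ (P + 1) ≤ L := hT.ξlast
  have hsub : Icc 0 (ξ (P + 1)) ⊆ Icc 0 L := Icc_subset_Icc le_rfl hb
  have hL := LCh.of_jet hT.inW.jet
  have eT : ∀ j, j < n → Tx n P T ξ j = T j := by
    intro j hj
    funext t
    unfold Tx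
    rw [if_pos hj]
  have eS : ∀ j, n ≤ j → Tx n P T ξ j = sgnL n P ξ := by
    intro j hj
    funext t
    unfold Tx
    rw [if_neg (by omega)]
  refine ⟨?_, ?_⟩
  · intro j hj
    rw [eT j (by omega)]
    rcases Nat.lt_or_ge (j + 1) n with h | h
    · exact (hL.cont j h).mono hsub
    · have hj1 : j = n - 1 := by omega
      subst hj1
      have hlip : LipschitzOnWith 1 (T (n - 1)) (Icc 0 L) := by
        apply LipschitzOnWith.of_dist_le_mul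
        intro x hx y hy
        rw [Real.dist_eq, Real.dist_eq]
        exact hT.inW.jet.lip x hx y hy
      exact hlip.continuousOn.mono hsub
  · intro j hj x hx
    rw [eT j (by omega)]
    rcases Nat.lt_or_ge (j + 1) n with h | h
    · rw [eT (j + 1) h]
      exact hL.der j h x ⟨hx.1, hx.2.trans hb⟩
    · have hj1 : j = n - 1 := by omega
      subst hj1
      rw [eS (n - 1 + 1) (by omega)]
      obtain ⟨i, hi, h1, h2⟩ := exists_piece hT hx.1 hx.2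
      rw [sgnL_piece hT hi h1 h2]
      have hd : HasDerivWithinAt (fun t : ℝ => T (n - 1) x + (-1) ^ (n + i) * (t - x)) ((-1) ^ (n + i))
          (Iic x) x := by
        have h3 := (((hasDerivAt_id x).sub_const x).const_mul ((-1 : ℝ) ^ (n + i))).const_add (T (n - 1) x)
        simp only [id_eq, mul_one] at h3
        exact h3.hasDerivWithinAt
      refine hd.congr_of_eventuallyEq ?_ ?_
      · have hn1 : Ioi (ξ i) ∈ nhdsWithin x (Iic x) := mem_nhdsWithin_of_mem_nhds (Ioi_mem_nhds h1)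
        filter_upwards [hn1, self_mem_nhdsWithin] with t ht1 ht2
        have h4 := hT.slope i hi x ⟨h1.le, h2⟩ t ⟨le_of_lt ht1, le_trans ht2 h2⟩
        linarith
      · simp

theorem Tx_pieces {n : ℕ} (hn : 2 ≤ n) {L : ℝ} {T : ℕ → ℝ → ℝ} {P : ℕ} {ξ τ : ℕ → ℝ}
    (hT : KSpline n L T P ξ τ) {u : ℝ} (hu : 0 ≤ u) {i : ℕ} (hi : i ≤ P) {s t : ℝ}
    (hs : s ∈ Icc (ξ i) (ξ (i + 1))) (ht : t ∈ Icc (ξ i) (ξ (i + 1))) (hst : s < t) :
    t - s ≤ (-1) ^ (n + i) * ((Tx n P T ξ (n - 1) t + u * Tx n P T ξ n t) -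
      (Tx n P T ξ (n - 1) s + u * Tx n P T ξ n s)) := by
  have e1 : ∀ t, Tx n P T ξ (n - 1) t = T (n - 1) t := by
    intro t
    unfold Tx
    rw [if_pos (by omega)]
  have e2 : ∀ t, Tx n P T ξ n t = sgnL n P ξ t := by
    intro t
    unfold Tx
    rw [if_neg (by omega)]
  rw [e1, e1, e2, e2, sgnL_piece hT hi (lt_of_le_of_lt hs.1 hst) ht.2]
  have h1 := hT.slope i hi s hs t ht
  have h2 : ((-1 : ℝ) ^ (n + i)) * (-1) ^ (n + i) = 1 := by
    rw [← mul_pow]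
    norm_num
  have h3 : (-1 : ℝ) ^ (n + i) * sgnL n P ξ s ≤ 1 := by
    refine (le_abs_self _).trans ?_
    rw [abs_mul, sgnL_abs, abs_pow, abs_neg, abs_one, one_pow, mul_one]
  have h4 : (-1 : ℝ) ^ (n + i) * ((T (n - 1) t + u * (-1) ^ (n + i)) - (T (n - 1) s + u * sgnL n P ξ s)) =
      ((-1 : ℝ) ^ (n + i) * (-1) ^ (n + i)) * (t - s) +
        u * ((-1 : ℝ) ^ (n + i) * (-1) ^ (n + i) - (-1) ^ (n + i) * sgnL n P ξ s) := by
    have h5 : T (n - 1) t = T (n - 1) s + (-1) ^ (n + i) * (t - s) := by linarith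
    rw [h5]
    ring
  rw [h4, h2, one_mul]
  have h6 : 0 ≤ u * (1 - (-1 : ℝ) ^ (n + i) * sgnL n P ξ s) := mul_nonneg hu (by linarith)
  linarith

theorem node_deriv {n : ℕ} (hn : 2 ≤ n) {L : ℝ} {T : ℕ → ℝ → ℝ} {P : ℕ} {ξ τ : ℕ → ℝ}
    (hT : KSpline n L T P ξ τ) {i : ℕ} (h1 : 1 ≤ i) (hi : i < P + n) : 0 ≤ (-1) ^ i * T 1 (τ i) := by
  have hτ0 : 0 < τ i := by
    have h2 := hT.τmono 0 (by omega)
    have h3 := KSpline.tau_le hT (0 + 1) i (by omega) hi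
    have h4 := hT.τ0
    linarith
  have hτL : τ i ≤ L := by
    have h3 := KSpline.tau_le hT i (P + n - 1) (by omega) (by omega)
    exact h3.trans (hT.τlast.trans hT.ξlast)
  have hc := hT.contact i hi
  have hd := (LCh.of_jet hT.inW.jet).der 0 (by omega) (τ i) ⟨hτ0, hτL⟩
  have hd2 : HasDerivWithinAt (fun t => (-1 : ℝ) ^ i * T 0 t) ((-1) ^ i * T (0 + 1) (τ i)) (Iio (τ i)) (τ i) :=
    (hd.mono Iio_subset_Iic_self).const_mul _
  have hs := (hasDerivWithinAt_iff_tendsto_slope' (notMem_Iio.2 le_rfl)).1 hd2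
  have hpow : ((-1 : ℝ) ^ i) * (-1) ^ i = 1 := by
    rw [← mul_pow]
    norm_num
  refine ge_of_tendsto hs ?_
  have hn1 : Ioi 0 ∈ nhdsWithin (τ i) (Iio (τ i)) := mem_nhdsWithin_of_mem_nhds (Ioi_mem_nhds hτ0)
  filter_upwards [hn1, self_mem_nhdsWithin] with s hs1 hs2
  rw [slope_def_field]
  have hs1' : (0 : ℝ) < s := hs1
  have hs2' : s < τ i := hs2
  have hb := hT.inW.bdd s ⟨hs1'.le, hs2'.le.trans hτL⟩
  have hle : (-1 : ℝ) ^ i * T 0 s ≤ 1 := by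
    refine (le_abs_self _).trans ?_
    rw [abs_mul, abs_pow, abs_neg, abs_one, one_pow, one_mul]
    exact hb
  rw [hc, hpow]
  exact div_nonneg_of_nonpos (by linarith) (by linarith)

end Pool.Agent.KFL
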