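import Pool.Agent.KFL.T1a
import Pool.Agent.KFL.Comp
import Pool.Agent.KFL.Basic

/-!
# KFL/T1: critical values very near the left end

`t1`: take a spline `T` on `[0, L]` (`exists_KSpline`), `g = -1/(k+1)`, `p = pc n P T ξ μ g` on `[0, b]`, `b = μ ξ (P+1) ≤ μ L`, `b > 0`.
`comp_shift` with `a + y` in place of `a` and `y = 0` there (`[a+y, a+y+b] ⊆ [a, a+L]` because `y ≤ (1-μ) L`):
`LCh n b p` (`pc_LCh`); nodes `x i = μ τ i`, `i ≤ q = P + n - 2`, `ρ = 1` (`pc_node`); knots `μ ξ i`, `δ = -1`, `Q = P`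
(`pc_pieces`: `-(1 + n g) = (n-k-1)/(k+1) ≥ μ^n` by `hs`); `p (k+1) 0 = (1 + (k+1) g) ... + 0 = 0`; `ρ δ = -1 < 0`:
`P + n < q + 3 = P + n + 1`; `k ≤ q`.  Conclusion: `|f k (a+y)| ≤ |p k 0| = (1 - k/(k+1)) μ^(-k) |T k 0| = μ^(-k) E_k(L) / (k+1)`
(`Ee_eq`; `Tx k = T k`).
`t1lt` (`k ≥ 2`): let `c = min (((k+1)/k)^2) ((k+1) (k/(k+1))^k)`; `c > 1` because `(1 + 1/k)^k ≤ e < 3 ≤ k + 1`
(`Real.add_one_le_exp`).  Let `μ = (c/(k+1))^(1/k)`: `μ^k = c/(k+1) ≤ (k/(k+1))^k`, so `0 < μ ≤ k/(k+1)`, and `y ≤ L/(k+1) ≤ (1-μ) L`;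
`(k+1) μ^n = c μ^(n-k) ≤ c μ^2 ≤ 1 ≤ n - k - 1`.  `t1` gives `c |f k (a+y)| ≤ E_k(L)`, and `E_k(L) > 0`.
-/

open Set

namespace Pool.Agent.KFL

open Pool.Agent.LKI

theorem t1 {n k : ℕ} (hk : k + 2 ≤ n) {L μ : ℝ} (hL : 0 < L) (hμ : 0 < μ) (hμ1 : μ ≤ 1)
    (hs : ((k : ℝ) + 1) * μ ^ n ≤ (n : ℝ) - k - 1) {S : Set ℝ} {a y : ℝ} {f : ℕ → ℝ → ℝ}
    (hS : Icc a (a + L) ⊆ S) (hf : InW n S f) (hy0 : 0 ≤ y) (hy : y ≤ (1 - μ) * L)
    (h : f (k + 1) (a + y) = 0) : ((k : ℝ) + 1) * μ ^ k * |f k (a + y)| ≤ Ee n L k := by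
  have hn : 2 ≤ n := by omega
  have hk1 : (0 : ℝ) < (k : ℝ) + 1 := by positivity
  obtain ⟨T, P, ξ, τ, hT⟩ := exists_KSpline hn hL
  obtain ⟨g, hg⟩ : ∃ g : ℝ, g = -1 / ((k : ℝ) + 1) := ⟨_, rfl⟩
  have hg0 : g ≤ 0 := by
    rw [hg]
    exact div_nonpos_of_nonpos_of_nonneg (by norm_num) hk1.le
  have hgk : g * ((k : ℝ) + 1) = -1 := by
    rw [hg]
    field_simp
  have hξ0 : 0 < ξ (P + 1) := by
    have e1 := hT.τmono 0 (by omega)
    have e2 := KSpline.tau_le hT (0 + 1) (P + n - 1) (by omega) (by omega)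
    exact hT.τ0.trans_lt (e1.trans_le (e2.trans hT.τlast))
  have hb0 : 0 < μ * ξ (P + 1) := mul_pos hμ hξ0
  have hbL : μ * ξ (P + 1) ≤ μ * L := mul_le_mul_of_nonneg_left hT.ξlast hμ.le
  have hgn : μ ^ n ≤ -(1 + (n : ℝ) * g) := by
    have e1 : ((k : ℝ) + 1) * (-(1 + (n : ℝ) * g)) = (n : ℝ) - k - 1 := by
      have : ((k : ℝ) + 1) * (-(1 + (n : ℝ) * g)) = -((k : ℝ) + 1) - n * (g * ((k : ℝ) + 1)) := by ring
      rw [this, hgk]
      ring
    rw [← e1] at hs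
    exact le_of_mul_le_mul_left hs hk1
  have hS' : Icc (a + y) (a + y + μ * ξ (P + 1)) ⊆ S := by
    refine Subset.trans ?_ hS
    intro t ht
    refine ⟨by linarith [ht.1], ?_⟩
    have e1 := ht.2
    nlinarith
  have hres := comp_shift (n := n) (Q := P) (k := k) (q := P + n - 2) (a := a + y)
    (b := μ * ξ (P + 1)) (y := 0) (ρ := 1) (δ := -1) (p := pc n P T ξ μ g) (by omega) (Or.inl rfl)
    (Or.inr rfl) (pc_LCh hn hT hμ) hS' hf ?_ ?_ le_rfl hb0 ?_ (by rw [add_zero]; exact h) (by omega)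
    ⟨fun h0 => absurd h0 (by norm_num), fun _ => by omega⟩
  · rw [add_zero] at hres
    have hTk : Tx n P T ξ k 0 = T k 0 := by
      unfold Tx
      rw [if_pos (by omega)]
    have e1 : pc n P T ξ μ g k 0 = (1 + (k : ℝ) * g) * (T k 0 / μ ^ k) := by
      unfold pc
      rw [zero_div, hTk, mul_zero, zero_mul, add_zero]
    have e2 : 1 + (k : ℝ) * g = 1 / ((k : ℝ) + 1) := by
      rw [hg]
      field_simp
      ring
    have e3 : |T k 0| = Ee n L k := by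
      rw [Ee_eq hn hT (by omega : k < n)]
      have h3 : |(-1 : ℝ) ^ k * T k 0| = |T k 0| := by
        rw [abs_mul, abs_pow, abs_neg, abs_one, one_pow, one_mul]
      have h4 := hT.ge_one hn k (by omega)
      rw [← h3, abs_of_nonneg (by linarith)]
    have hμk : 0 < μ ^ k := pow_pos hμ k
    rw [e1, e2, abs_mul, abs_of_pos (by positivity : 0 < 1 / ((k : ℝ) + 1)), abs_div, e3,
      abs_of_pos hμk] at hres
    have e5 : 1 / ((k : ℝ) + 1) * (Ee n L k / μ ^ k) = Ee n L k / (((k : ℝ) + 1) * μ ^ k) := by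
      rw [div_mul_div_comm, one_mul]
    rw [e5, le_div_iff₀ (mul_pos hk1 hμk), mul_comm] at hres
    exact hres
  · refine ⟨fun i => μ * τ i, fun i hi => ⟨?_, ?_⟩, fun i hi => ?_, fun i hi => ?_⟩
    · exact mul_nonneg hμ.le (KSpline.tau_nonneg hT i (by omega))
    · exact mul_le_mul_of_nonneg_left
        ((KSpline.tau_le hT i (P + n - 1) (by omega) (by omega)).trans hT.τlast) hμ.le
    · exact mul_lt_mul_of_pos_left (hT.τmono i (by omega)) hμ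
    · have e1 := pc_node (g := g) hn hT hμ (i := i) (by omega)
      change 1 ≤ 1 * (-1) ^ i * pc n P T ξ μ g 0 (μ * τ i)
      rw [e1, one_mul, neg_one_sq_pow]
  · refine ⟨fun i => μ * ξ i, ?_, rfl, fun i hi => ?_, fun i hi s hs' t ht hst => ?_⟩
    · change μ * ξ 0 = 0
      rw [hT.ξ0, mul_zero]
    · exact mul_le_mul_of_nonneg_left (hT.ξmono i hi) hμ.le
    · exact pc_pieces hn hT hμ hg0 hgn hi hs' ht hst
  · unfold pc
    have e1 : 1 + ((k + 1 : ℕ) : ℝ) * g = 0 := by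
      push_cast
      linarith
    rw [e1, zero_mul, mul_zero, zero_mul, add_zero]

theorem t1lt {n k : ℕ} (hk1 : 2 ≤ k) (hk : k + 2 ≤ n) {L : ℝ} (hL : 0 < L) {S : Set ℝ} {a y : ℝ}
    {f : ℕ → ℝ → ℝ} (hS : Icc a (a + L) ⊆ S) (hf : InW n S f) (hy0 : 0 ≤ y)
    (hy : y ≤ L / ((k : ℝ) + 1)) (h : f (k + 1) (a + y) = 0) : |f k (a + y)| < Ee n L k := by
  have hk2 : (2 : ℝ) ≤ k := by exact_mod_cast hk1
  have hk0 : (0 : ℝ) < k := by linarith
  have hkp : (0 : ℝ) < (k : ℝ) + 1 := by linarith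
  have hkn : k ≠ 0 := by omega
  obtain ⟨r, hr⟩ : ∃ r : ℝ, r = (k : ℝ) / ((k : ℝ) + 1) := ⟨_, rfl⟩
  have hr0 : 0 < r := by rw [hr]; positivity
  have hr1 : r < 1 := by
    rw [hr, div_lt_one hkp]
    linarith
  have hrk : r * ((k : ℝ) + 1) = k := by
    rw [hr]
    field_simp
  obtain ⟨c, hc⟩ : ∃ c : ℝ, c = min ((1 / r) ^ 2) (((k : ℝ) + 1) * r ^ k) := ⟨_, rfl⟩
  have hc1 : c ≤ (1 / r) ^ 2 := by rw [hc]; exact min_le_left _ _
  have hc2 : c ≤ ((k : ℝ) + 1) * r ^ k := by rw [hc]; exact min_le_right _ _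
  have hexp : (1 / r) ^ k < (k : ℝ) + 1 := by
    have e1 : 1 / r = 1 / (k : ℝ) + 1 := by
      rw [hr]
      field_simp
      ring
    have e2 : 1 / r ≤ Real.exp (1 / (k : ℝ)) := by
      rw [e1]
      exact Real.add_one_le_exp _
    have e3 : (1 / r) ^ k ≤ Real.exp 1 := by
      refine (pow_le_pow_left₀ (by positivity) e2 k).trans ?_
      rw [← Real.exp_nat_mul]
      apply le_of_eq
      congr 1
      field_simp
    have e4 := Real.exp_one_lt_three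
    linarith
  have hcg : 1 < c := by
    rw [hc, lt_min_iff]
    constructor
    · apply one_lt_pow₀ _ (by norm_num)
      rw [one_div]
      exact (one_lt_inv₀ hr0).2 hr1
    · rw [one_div, inv_pow, inv_lt_iff_one_lt_mul₀ (pow_pos hr0 k)] at hexp
      linarith [mul_comm (r ^ k) ((k : ℝ) + 1)]
  obtain ⟨μ, hμd⟩ : ∃ μ : ℝ, μ = (c / ((k : ℝ) + 1)) ^ (1 / (k : ℝ)) := ⟨_, rfl⟩
  have hck : 0 < c / ((k : ℝ) + 1) := div_pos (by linarith) hkp
  have hμ0 : 0 < μ := by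
    rw [hμd]
    exact Real.rpow_pos_of_pos hck _
  have hμk : μ ^ k = c / ((k : ℝ) + 1) := by
    rw [hμd, ← Real.rpow_natCast, ← Real.rpow_mul hck.le, one_div, inv_mul_cancel₀ hk0.ne', Real.rpow_one]
  have hμk2 : ((k : ℝ) + 1) * μ ^ k = c := by
    rw [hμk]
    field_simp
  have hμr : μ ≤ r := by
    have e1 : μ ^ k ≤ r ^ k := by
      rw [hμk, div_le_iff₀ hkp]
      linarith
    exact (pow_le_pow_iff_left₀ hμ0.le hr0.le hkn).1 e1
  have hμ1 : μ ≤ 1 := hμr.trans hr1.le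
  have hμn : ((k : ℝ) + 1) * μ ^ n ≤ (n : ℝ) - k - 1 := by
    have e1 : μ ^ n = μ ^ k * μ ^ (n - k) := by
      rw [← pow_add]
      congr 1
      omega
    have e2 : μ ^ (n - k) ≤ μ ^ 2 := pow_le_pow_of_le_one hμ0.le hμ1 (by omega)
    have e3 : μ ^ 2 ≤ r ^ 2 := pow_le_pow_left₀ hμ0.le hμr 2
    have e4 : ((k : ℝ) + 1) * μ ^ n = c * μ ^ (n - k) := by
      rw [e1, ← mul_assoc, hμk2]
    have e5 : c * μ ^ (n - k) ≤ (1 / r) ^ 2 * r ^ 2 :=
      mul_le_mul hc1 (e2.trans e3) (pow_nonneg hμ0.le _) (by positivity)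
    have e6 : (1 / r) ^ 2 * r ^ 2 = 1 := by
      rw [← mul_pow, one_div, inv_mul_cancel₀ hr0.ne', one_pow]
    have e7 : (k : ℝ) + 2 ≤ n := by exact_mod_cast hk
    linarith
  have hy' : y ≤ (1 - μ) * L := by
    have e1 : L / ((k : ℝ) + 1) = (1 - r) * L := by
      rw [hr]
      field_simp
      ring
    rw [e1] at hy
    exact hy.trans (mul_le_mul_of_nonneg_right (by linarith) hL.le)
  have hres := t1 hk hL hμ0 hμ1 hμn hS hf hy0 hy' h
  rw [hμk2] at hres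
  have hE := Ee_ge_one (by omega : 2 ≤ n) hL k
  by_contra hcon
  push Not at hcon
  nlinarith

end Pool.Agent.KFL
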