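import Pool.Agent.KFL.SgnL

/-!
# KFL/T1a: the chain `p = (1 + s g d/ds) Z(s/μ)`

`T` is a spline on `[0, L]`, `Tx` the chain with the `n`-th derivative from the left (`SgnL`), `μ > 0`, `g` real.
`pc j s = (1 + j g) μ^(-j) Tx j (s/μ) + g s μ^(-(j+1)) Tx (j+1) (s/μ)`.

* `resc_LCh`: rescaling of a chain with left derivatives (chain rule on `Iic x`: `s ↦ s/μ` maps `Iic x` to `Iic (x/μ)`).
* `pc_LCh`: product rule: `pc j` has the left derivative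
  `(1 + j g) q (j+1) + g q (j+1) + g s q (j+2) = pc (j+1)`, `q j s = μ^(-j) Tx j (s/μ)`, for `j + 1 < n` (`j + 2 ≤ n`).
* `node_deriv_zero`: at a node `0 < τ i < L` the function `T 0` has a local extremum (`|T 0| ≤ 1` on `[0, L]`), so `T 1 (τ i) = 0`.
* `pc_node`: `pc 0 (μ τ i) = T 0 (τ i) + g τ i T 1 (τ i) = (-1)^i` for `i + 1 < P + n`: if `τ i > 0` then
  `τ i < τ (i+1) ≤ L` and `node_deriv_zero`; if `τ i = 0` the second term vanishes.
* `pc_pieces` (`g ≤ 0`, `μ^n ≤ -(1 + n g)`): for `s < t` in `[μ ξ i, μ ξ (i+1)]`, `s' = s/μ`, `t' = t/μ`, `e = (-1)^(n+i)`: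
  `e (T (n-1) t' - T (n-1) s') = t' - s'`, `sgnL t' = e` (`sgnL_piece`), so
  `- e (pc (n-1) t - pc (n-1) s) = - (1 + (n-1) g) μ^(-n) (t - s) - g μ^(-n) ((t - s) + s (1 - e sgnL s'))`
  `≥ - (1 + n g) μ^(-n) (t - s) ≥ t - s` (`g ≤ 0`, `s ≥ 0`, `e sgnL s' ≤ 1`).
-/

open Set

namespace Pool.Agent.KFL

open Pool.Agent.LKI

/-- the chain of the derivatives of `Z(s/μ) + g s (Z(s/μ))'` -/
noncomputable def pc (n P : ℕ) (T : ℕ → ℝ → ℝ) (ξ : ℕ → ℝ) (μ g : ℝ) (j : ℕ) (s : ℝ) : ℝ :=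
  (1 + (j : ℝ) * g) * (Tx n P T ξ j (s / μ) / μ ^ j) +
    g * s * (Tx n P T ξ (j + 1) (s / μ) / μ ^ (j + 1))

theorem resc_LCh {n : ℕ} {b μ : ℝ} {p : ℕ → ℝ → ℝ} (hμ : 0 < μ) (h : LCh n b p) :
    LCh n (μ * b) (fun j s => p j (s / μ) / μ ^ j) := by
  refine ⟨fun j hj => ?_, fun j hj x hx => ?_⟩
  · have hm : MapsTo (fun s : ℝ => s / μ) (Icc 0 (μ * b)) (Icc 0 b) := by
      intro s hs
      refine ⟨div_nonneg hs.1 hμ.le, ?_⟩
      show s / μ ≤ b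
      rw [div_le_iff₀ hμ, mul_comm b μ]
      exact hs.2
    exact ((h.cont j hj).comp (continuous_id.div_const μ).continuousOn hm).div_const _
  · have hx1 : x / μ ∈ Ioc 0 b := by
      refine ⟨div_pos hx.1 hμ, ?_⟩
      rw [div_le_iff₀ hμ, mul_comm b μ]
      exact hx.2
    have hm : MapsTo (fun s : ℝ => s / μ) (Iic x) (Iic (x / μ)) := by
      intro s hs
      exact div_le_div_of_nonneg_right hs hμ.le
    have h1 : HasDerivWithinAt (fun s : ℝ => s / μ) (1 / μ) (Iic x) x :=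
      ((hasDerivAt_id x).div_const μ).hasDerivWithinAt
    have h2 := (HasDerivWithinAt.comp x (h.der j hj (x / μ) hx1) h1 hm).div_const (μ ^ j)
    have h3 : p (j + 1) (x / μ) * (1 / μ) / μ ^ j = p (j + 1) (x / μ) / μ ^ (j + 1) := by
      rw [pow_succ]
      field_simp
    rw [h3] at h2
    exact h2

theorem pc_LCh {n : ℕ} (hn : 2 ≤ n) {L μ g : ℝ} {T : ℕ → ℝ → ℝ} {P : ℕ} {ξ τ : ℕ → ℝ}
    (hT : KSpline n L T P ξ τ) (hμ : 0 < μ) : LCh n (μ * ξ (P + 1)) (pc n P T ξ μ g) := by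
  have hq := resc_LCh hμ (Tx_LCh hn hT)
  refine ⟨fun j hj => ?_, fun j hj x hx => ?_⟩
  · have h1 := (hq.cont j (by omega)).const_smul (1 + (j : ℝ) * g)
    have h2 := (continuous_const.mul continuous_id : Continuous (fun s : ℝ => g * id s)).continuousOn.mul
      (hq.cont (j + 1) (by omega))
    exact h1.add h2
  · have h1 := (hq.der j (by omega) x hx).const_mul (1 + (j : ℝ) * g)
    have h0 : HasDerivWithinAt (fun s : ℝ => g * s) (g * 1) (Iic x) x :=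
      ((hasDerivAt_id x).const_mul g).hasDerivWithinAt
    have h2 := h0.mul (hq.der (j + 1) (by omega) x hx)
    have h3 := h1.add h2
    have h4 : (1 + (j : ℝ) * g) * (Tx n P T ξ (j + 1) (x / μ) / μ ^ (j + 1)) +
        (g * 1 * (Tx n P T ξ (j + 1) (x / μ) / μ ^ (j + 1)) +
          g * x * (Tx n P T ξ (j + 1 + 1) (x / μ) / μ ^ (j + 1 + 1))) = pc n P T ξ μ g (j + 1) x := by
      unfold pc
      push_cast
      ring
    rw [← h4]
    exact h3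

theorem node_deriv_zero {n : ℕ} (hn : 2 ≤ n) {L : ℝ} {T : ℕ → ℝ → ℝ} {P : ℕ} {ξ τ : ℕ → ℝ}
    (hT : KSpline n L T P ξ τ) {i : ℕ} (hi : i + 1 < P + n) (h0 : 0 < τ i) : T 1 (τ i) = 0 := by
  have h1 := hT.τmono i hi
  have h2 := KSpline.tau_le hT (i + 1) (P + n - 1) (by omega) (by omega)
  have hL : τ (i + 1) ≤ L := h2.trans (hT.τlast.trans hT.ξlast)
  have hd := (hT.inW.jet.hasDeriv 0 (by omega) (τ i) ⟨h0.le, h1.le.trans hL⟩).hasDerivAt
    (Icc_mem_nhds h0 (h1.trans_le hL))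
  have hc := hT.contact i (by omega)
  have hpow := neg_one_sq_pow i
  have hmax : IsLocalMax (fun t => (-1 : ℝ) ^ i * T 0 t) (τ i) := by
    filter_upwards [Icc_mem_nhds h0 (h1.trans_le hL)] with s hs
    have hb := hT.inW.bdd s hs
    rw [hc, hpow]
    refine (le_abs_self _).trans ?_
    rw [abs_mul, abs_pow, abs_neg, abs_one, one_pow, one_mul]
    exact hb
  have h3 := hmax.hasDerivAt_eq_zero (hd.const_mul ((-1 : ℝ) ^ i))
  have h4 : ((-1 : ℝ) ^ i) ≠ 0 := pow_ne_zero _ (by norm_num)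
  exact (mul_eq_zero.1 h3).resolve_left h4

theorem pc_node {n : ℕ} (hn : 2 ≤ n) {L μ g : ℝ} {T : ℕ → ℝ → ℝ} {P : ℕ} {ξ τ : ℕ → ℝ}
    (hT : KSpline n L T P ξ τ) (hμ : 0 < μ) {i : ℕ} (hi : i + 1 < P + n) :
    pc n P T ξ μ g 0 (μ * τ i) = (-1) ^ i := by
  have hd : μ * τ i / μ = τ i := mul_div_cancel_left₀ _ hμ.ne'
  have h0 : Tx n P T ξ 0 (τ i) = T 0 (τ i) := by
    unfold Tx
    rw [if_pos (by omega)]
  have h1 : Tx n P T ξ (0 + 1) (τ i) = T 1 (τ i) := by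
    unfold Tx
    rw [if_pos (by omega)]
  unfold pc
  rw [hd, h0, h1, hT.contact i (by omega)]
  rcases (KSpline.tau_nonneg hT i (by omega)).eq_or_lt with h | h
  · rw [← h]
    simp
  · rw [node_deriv_zero hn hT hi h]
    simp

theorem pc_pieces {n : ℕ} (hn : 2 ≤ n) {L μ g : ℝ} {T : ℕ → ℝ → ℝ} {P : ℕ} {ξ τ : ℕ → ℝ}
    (hT : KSpline n L T P ξ τ) (hμ : 0 < μ) (hg : g ≤ 0) (hgn : μ ^ n ≤ -(1 + (n : ℝ) * g)) {i : ℕ}
    (hi : i ≤ P) {s t : ℝ} (hs : s ∈ Icc (μ * ξ i) (μ * ξ (i + 1)))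
    (ht : t ∈ Icc (μ * ξ i) (μ * ξ (i + 1))) (hst : s < t) :
    t - s ≤ -1 * (-1) ^ (n + i) * (pc n P T ξ μ g (n - 1) t - pc n P T ξ μ g (n - 1) s) := by
  have hn1 : n - 1 + 1 = n := by omega
  have e1 : ∀ t, Tx n P T ξ (n - 1) t = T (n - 1) t := by
    intro t
    unfold Tx
    rw [if_pos (by omega)]
  have e2 : ∀ t, Tx n P T ξ n t = sgnL n P ξ t := by
    intro t
    unfold Tx
    rw [if_neg (by omega)]
  have hm : ∀ {v : ℝ}, v ∈ Icc (μ * ξ i) (μ * ξ (i + 1)) → v / μ ∈ Icc (ξ i) (ξ (i + 1)) := by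
    intro v hv
    constructor
    · rw [le_div_iff₀ hμ, mul_comm]
      exact hv.1
    · rw [div_le_iff₀ hμ, mul_comm]
      exact hv.2
  have hs' := hm hs
  have ht' := hm ht
  have hst' : s / μ < t / μ := div_lt_div_of_pos_right hst hμ
  have h1 := hT.slope i hi (s / μ) hs' (t / μ) ht'
  have h2 := sgnL_piece hT hi (lt_of_le_of_lt hs'.1 hst') ht'.2
  have hpow := neg_one_sq_pow (n + i)
  have hw : (-1 : ℝ) ^ (n + i) * sgnL n P ξ (s / μ) ≤ 1 := by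
    refine (le_abs_self _).trans ?_
    rw [abs_mul, sgnL_abs, abs_pow, abs_neg, abs_one, one_pow, mul_one]
  have hs0 : 0 ≤ s := by
    have h3 := KSpline.xi_nonneg hT i (by omega)
    exact (mul_nonneg hμ.le h3).trans hs.1
  have hcast : ((n - 1 : ℕ) : ℝ) = (n : ℝ) - 1 := by
    rw [Nat.cast_sub (by omega)]
    simp
  have hμn : 0 < μ ^ n := pow_pos hμ n
  have hμ1 : μ ^ n = μ ^ (n - 1) * μ := by
    rw [← pow_succ, hn1]
  have hμ2 : 0 < μ ^ (n - 1) := pow_pos hμ _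
  have key : -1 * (-1) ^ (n + i) * (pc n P T ξ μ g (n - 1) t - pc n P T ξ μ g (n - 1) s) =
      (-(1 + ((n : ℝ) - 1) * g) * (t - s) - g * (t - s * ((-1) ^ (n + i) * sgnL n P ξ (s / μ)))) / μ ^ n := by
    unfold pc
    rw [hn1, e1, e1, e2, e2, h2, hcast]
    have h5 : T (n - 1) (t / μ) = T (n - 1) (s / μ) + (-1) ^ (n + i) * (t / μ - s / μ) := by linarith
    rw [h5]
    have h6 : -1 * (-1 : ℝ) ^ (n + i) *
        ((1 + ((n : ℝ) - 1) * g) * ((T (n - 1) (s / μ) + (-1) ^ (n + i) * (t / μ - s / μ)) / μ ^ (n - 1)) +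
          g * t * ((-1) ^ (n + i) / μ ^ n) -
        ((1 + ((n : ℝ) - 1) * g) * (T (n - 1) (s / μ) / μ ^ (n - 1)) +
          g * s * (sgnL n P ξ (s / μ) / μ ^ n))) =
        -(1 + ((n : ℝ) - 1) * g) * (((-1 : ℝ) ^ (n + i) * (-1) ^ (n + i)) * ((t - s) / (μ ^ (n - 1) * μ))) -
          g * (t * ((-1 : ℝ) ^ (n + i) * (-1) ^ (n + i)) - s * ((-1) ^ (n + i) * sgnL n P ξ (s / μ))) / μ ^ n := by
      field_simp
      ring
    rw [h6, hpow, ← hμ1]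
    field_simp
  rw [key, le_div_iff₀ hμn]
  have h7 : (t - s) * μ ^ n ≤ (t - s) * (-(1 + (n : ℝ) * g)) :=
    mul_le_mul_of_nonneg_left hgn (by linarith)
  have h8 : 0 ≤ -g * (s * (1 - (-1 : ℝ) ^ (n + i) * sgnL n P ξ (s / μ))) :=
    mul_nonneg (by linarith) (mul_nonneg hs0 (by linarith))
  linarith [h7, h8]

end Pool.Agent.KFL
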