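import Pool.Agent.KFL.T1
import Pool.Agent.KFL.CL2

/-!
# KFL/ZoneI: critical values at points of `[0, eta]`
-/

open Set

namespace Pool.Agent.KFL

open Pool.Agent.LKI

theorem eta_lt_L {n k : ℕ} {L : ℝ} (hE : EtaOK n k L) : eta n k L < L := by
  obtain ⟨L₁, T, P, ξ, τ, h0, h1, h2, hT, h3⟩ := hE.spl
  have h4 : ξ 1 ≤ ξ (P + 1) := KSpline.xi_le hT 1 (P + 1) (by omega) le_rfl
  have h5 := hT.ξlast
  linarith

theorem zoneI {n k : ℕ} (hk1 : 2 ≤ k) (hk : k + 2 ≤ n) {L : ℝ} (hL : 0 < L) (hE : EtaOK n k L)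
    (hq : Mc n k L / Ee n L k ≤ 1 / (2 * (k : ℝ) + 1)) {S : Set ℝ} {a y : ℝ} {f : ℕ → ℝ → ℝ}
    (hS : Icc a (a + L) ⊆ S) (hf : InW n S f) (hy0 : 0 ≤ y) (hy : y ≤ eta n k L)
    (h : f (k + 1) (a + y) = 0) : |f k (a + y)| < Ee n L k := by
  rcases le_or_gt y (L / ((k : ℝ) + 1)) with h1 | h1
  · exact t1lt hk1 hk hL hS hf hy0 h1 h
  have hk0 : (0 : ℝ) < k := by
    have : 0 < k := by omega
    exact_mod_cast this
  have hE0 : 0 < Ee n L k := lt_of_lt_of_le one_pos (Ee_ge_one (by omega) hL k)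
  have heta := hE.pos
  have hlt := eta_lt_L hE
  have hM := Mc_pos hE
  have hz := zone1 hk hE hS hf hy0 hy h
  obtain ⟨s, hs⟩ : ∃ s, s = y / eta n k L := ⟨_, rfl⟩
  rw [← hs] at hz
  have hs1 : s ≤ 1 := by rw [hs]; exact (div_le_one heta).2 hy
  have hs2 : 1 / ((k : ℝ) + 1) < s := by
    rw [hs, div_lt_div_iff₀ (by positivity) heta]
    rw [div_lt_iff₀ (by positivity)] at h1
    linarith
  have hM2 : Mc n k L * (2 * (k : ℝ) + 1) ≤ Ee n L k := by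
    rw [div_le_div_iff₀ hE0 (by positivity)] at hq
    linarith
  have hs3 : 1 < s * ((k : ℝ) + 1) := by
    rw [div_lt_iff₀ (by positivity)] at hs2
    exact hs2
  have key : (2 - s) * Mc n k L < s * Ee n L k := by
    have e1 : (2 - s) * Mc n k L < (2 * (k : ℝ) + 1) * s * Mc n k L :=
      mul_lt_mul_of_pos_right (by nlinarith) hM
    have e2 : s * (Mc n k L * (2 * (k : ℝ) + 1)) ≤ s * Ee n L k :=
      mul_le_mul_of_nonneg_left hM2 (by nlinarith)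
    nlinarith
  nlinarith

end Pool.Agent.KFL
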